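import Mathlib
import Pool.Agent.Helper114.KRat

set_option autoImplicit false

open Set Filter Topology

namespace Pool.Agent.H762R2.Rt

/-- The orbit of `c` under `g` converges to a periodic sink of `g`. -/
def Sinks {X : Type*} [TopologicalSpace X] (g : X → X) (c : X) : Prop :=
  ∃ z : X, ∃ n : ℕ, 0 < n ∧ g^[n] z = z ∧
    (∃ U ∈ 𝓝 z, ∀ w ∈ U, Tendsto (fun k : ℕ => g^[n * k] w) atTop (𝓝 z)) ∧
    Tendsto (fun k : ℕ => g^[n * k] c) atTop (𝓝 z)

theorem bool_two (σ : Bool → Bool) (i : Bool) : σ (σ (σ (σ i))) = σ (σ i) := by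
  revert σ i; decide

/-- A contraction of a closed disc with values in the open disc. -/
theorem disc_contraction {H : ℂ → ℂ} {r q : ℝ} (hr : 0 < r) (hq0 : 0 ≤ q) (hq : q < 1)
    (hm : ∀ x : ℂ, ‖x‖ ≤ r → ‖H x‖ < r)
    (hl : ∀ x y : ℂ, ‖x‖ ≤ r → ‖y‖ ≤ r → ‖H x - H y‖ ≤ q * ‖x - y‖) :
    ∃ p : ℂ, ‖p‖ < r ∧ H p = p ∧ ∀ y : ℂ, ‖y‖ ≤ r → Tendsto (fun k : ℕ => H^[k] y) atTop (𝓝 p) := by
  have hmaps : MapsTo H (Metric.closedBall (0 : ℂ) r) (Metric.closedBall (0 : ℂ) r) := by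
    intro x hx
    rw [mem_closedBall_zero_iff] at hx ⊢
    exact (hm x hx).le
  have hcomp : IsComplete (Metric.closedBall (0 : ℂ) r) := (Metric.isClosed_closedBall).isComplete
  have hK : ContractingWith (⟨q, hq0⟩ : NNReal) (hmaps.restrict H _ _) := by
    refine ⟨by exact_mod_cast hq, ?_⟩
    refine LipschitzWith.of_dist_le_mul ?_
    intro x y
    have hx := mem_closedBall_zero_iff.1 x.2
    have hy := mem_closedBall_zero_iff.1 y.2
    rw [Subtype.dist_eq, Subtype.dist_eq, dist_eq_norm, dist_eq_norm]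
    exact hl _ _ hx hy
  obtain ⟨p, hp, hfix, -, -⟩ := ContractingWith.exists_fixedPoint' hcomp hmaps hK
    (x := 0) (by simp [hr.le]) (edist_ne_top _ _)
  have hp' : ‖p‖ ≤ r := mem_closedBall_zero_iff.1 hp
  have hfix' : H p = p := hfix
  refine ⟨p, by rw [← hfix']; exact hm p hp', hfix', ?_⟩
  intro y hy
  have hbound : ∀ k : ℕ, ‖H^[k] y‖ ≤ r ∧ ‖H^[k] y - p‖ ≤ q ^ k * ‖y - p‖ := by
    intro k
    induction k with
    | zero => simp [hy]
    | succ k ih =>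
      obtain ⟨h1, h2⟩ := ih
      rw [Function.iterate_succ_apply']
      refine ⟨(hm _ h1).le, ?_⟩
      calc ‖H (H^[k] y) - p‖ = ‖H (H^[k] y) - H p‖ := by rw [hfix']
        _ ≤ q * ‖H^[k] y - p‖ := hl _ _ h1 hp'
        _ ≤ q * (q ^ k * ‖y - p‖) := mul_le_mul_of_nonneg_left h2 hq0
        _ = q ^ (k + 1) * ‖y - p‖ := by ring
  rw [tendsto_iff_norm_sub_tendsto_zero]
  have h0 : Tendsto (fun k : ℕ => q ^ k * ‖y - p‖) atTop (𝓝 0) := by
    simpa using (tendsto_pow_atTop_nhds_zero_of_lt_one hq0 hq).mul_const ‖y - p‖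
  exact squeeze_zero (fun k => norm_nonneg _) (fun k => (hbound k).2) h0

/-- Two discs exchanged or kept by contractions: everything that enters is attracted. -/
theorem two_charts {X : Type*} [TopologicalSpace X] {g : X → X} {ψ : Bool → ℂ → X}
    {σ : Bool → Bool} {h : Bool → ℂ → ℂ} {r : ℝ} (hr : 0 < r)
    (hcont : ∀ i, Continuous (ψ i))
    (hopen : ∀ i, IsOpenMap (ψ i))
    (hconj : ∀ i x, ‖x‖ ≤ r → g (ψ i x) = ψ (σ i) (h i x))
    (hm : ∀ i x, ‖x‖ ≤ r → ‖h i x‖ < r)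
    (hl : ∀ i x y, ‖x‖ ≤ r → ‖y‖ ≤ r → ‖h i x - h i y‖ ≤ (1 / 2) * ‖x - y‖)
    {c : X} {i : Bool} {x : ℂ} (hx : ‖x‖ ≤ r) (hc : g c = ψ i x) : Sinks g c := by
  set j := σ (σ (σ i)) with hj
  have hjj : σ (σ j) = j := bool_two σ (σ i)
  set H : ℂ → ℂ := fun y => h (σ j) (h j y) with hH
  have hHm : ∀ y : ℂ, ‖y‖ ≤ r → ‖H y‖ < r := fun y hy => hm _ _ (hm _ _ hy).le
  have hHl : ∀ x y : ℂ, ‖x‖ ≤ r → ‖y‖ ≤ r → ‖H x - H y‖ ≤ (1 / 4) * ‖x - y‖ := by
    intro x y hx hy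
    have h1 := hl (σ j) (h j x) (h j y) (hm _ _ hx).le (hm _ _ hy).le
    have h2 := hl j x y hx hy
    simp only [hH]
    linarith
  obtain ⟨p, hpr, hpfix, hpt⟩ := disc_contraction hr (by norm_num) (by norm_num) hHm hHl
  have hg2 : ∀ y : ℂ, ‖y‖ ≤ r → g^[2] (ψ j y) = ψ j (H y) := by
    intro y hy
    rw [Function.iterate_succ_apply', Function.iterate_one, hconj j y hy,
      hconj (σ j) _ (hm _ _ hy).le, hjj]
  have hHk : ∀ k : ℕ, ∀ y : ℂ, ‖y‖ ≤ r → ‖H^[k] y‖ ≤ r := by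
    intro k y hy
    induction k with
    | zero => simpa using hy
    | succ k ih => rw [Function.iterate_succ_apply']; exact (hHm _ ih).le
  have hg2k : ∀ k : ℕ, ∀ y : ℂ, ‖y‖ ≤ r → g^[2 * k] (ψ j y) = ψ j (H^[k] y) := by
    intro k y hy
    induction k with
    | zero => simp
    | succ k ih =>
      rw [show 2 * (k + 1) = 2 + 2 * k by ring, Function.iterate_add_apply, ih,
        hg2 _ (hHk k y hy), Function.iterate_succ_apply']
  have hlim : ∀ y : ℂ, ‖y‖ ≤ r → Tendsto (fun k : ℕ => g^[2 * k] (ψ j y)) atTop (𝓝 (ψ j p)) := by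
    intro y hy
    have h1 : Tendsto (fun k : ℕ => ψ j (H^[k] y)) atTop (𝓝 (ψ j p)) :=
      ((hcont j).tendsto p).comp (hpt y hy)
    refine h1.congr fun k => (hg2k k y hy).symm
  refine ⟨ψ j p, 2, by norm_num, ?_, ⟨ψ j '' Metric.ball 0 r, ?_, ?_⟩, ?_⟩
  · rw [hg2 p hpr.le, hpfix]
  · exact (hopen j _ Metric.isOpen_ball).mem_nhds ⟨p, by simpa using hpr, rfl⟩
  · rintro w ⟨y, hy, rfl⟩
    exact hlim y (by simpa using (Metric.mem_ball.1 hy).le)
  · have h4 : g^[4] c = ψ j (h (σ (σ i)) (h (σ i) (h i x))) := by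
      have e1 := hconj i x hx
      have e2 := hconj (σ i) (h i x) (hm _ _ hx).le
      have e3 := hconj (σ (σ i)) (h (σ i) (h i x)) (hm _ _ (hm _ _ hx).le).le
      calc g^[4] c = g (g (g (g c))) := rfl
        _ = _ := by rw [hc, e1, e2, e3]
    have hx3 : ‖h (σ (σ i)) (h (σ i) (h i x))‖ ≤ r :=
      (hm _ _ (hm _ _ (hm _ _ hx).le).le).le
    have h5 := hlim _ hx3
    rw [← tendsto_add_atTop_iff_nat 2]
    refine h5.congr fun k => ?_
    rw [show 2 * (k + 2) = 2 * k + 4 by ring, Function.iterate_add_apply, h4]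

end Pool.Agent.H762R2.Rt
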