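import Mathlib

set_option autoImplicit false

open Set Filter Topology

namespace Pool.Agent.H762R2.Rt

theorem pow_lip {x y : ℂ} {ρ : ℝ} (hx : ‖x‖ ≤ ρ) (hy : ‖y‖ ≤ ρ) (n : ℕ) :
    ‖x ^ n - y ^ n‖ ≤ n * ρ ^ (n - 1) * ‖x - y‖ := by
  have hρ : 0 ≤ ρ := (norm_nonneg x).trans hx
  have h := (Commute.all x y).geom_sum₂_mul n
  rw [← h, norm_mul]
  refine mul_le_mul_of_nonneg_right ?_ (norm_nonneg _)
  refine (norm_sum_le _ _).trans ?_
  have : ∀ i ∈ Finset.range n, ‖x ^ i * y ^ (n - 1 - i)‖ ≤ ρ ^ (n - 1) := by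
    intro i hi
    rw [norm_mul, norm_pow, norm_pow]
    have h1 : i + (n - 1 - i) = n - 1 := by
      have := Finset.mem_range.1 hi
      omega
    calc ‖x‖ ^ i * ‖y‖ ^ (n - 1 - i) ≤ ρ ^ i * ρ ^ (n - 1 - i) :=
          mul_le_mul (pow_le_pow_left₀ (norm_nonneg _) hx _) (pow_le_pow_left₀ (norm_nonneg _) hy _)
            (by positivity) (by positivity)
      _ = ρ ^ (n - 1) := by rw [← pow_add, h1]
  refine (Finset.sum_le_sum this).trans ?_
  simp

/-- Polynomial with coefficient sequence `a`, degree at most `D`. -/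
noncomputable def pol (a : ℕ → ℂ) (D : ℕ) (y : ℂ) : ℂ := ∑ k ∈ Finset.range (D + 1), a k * y ^ k

theorem pol_zero (a : ℕ → ℂ) (D : ℕ) : pol a D 0 = a 0 := by
  unfold pol
  rw [Finset.sum_eq_single 0]
  · simp
  · intro k _ hk; simp [hk]
  · intro h; simp at h

theorem pol_bound {a : ℕ → ℂ} {D : ℕ} {M : ℝ} (ha : ∀ k, ‖a k‖ ≤ M) {y : ℂ} (hy : ‖y‖ ≤ 1) :
    ‖pol a D y‖ ≤ (D + 1) * M := by
  unfold pol
  refine (norm_sum_le _ _).trans ?_
  have hM : 0 ≤ M := (norm_nonneg _).trans (ha 0)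
  have : ∀ k ∈ Finset.range (D + 1), ‖a k * y ^ k‖ ≤ M := by
    intro k _
    rw [norm_mul, norm_pow]
    calc ‖a k‖ * ‖y‖ ^ k ≤ M * 1 :=
          mul_le_mul (ha k) (pow_le_one₀ (norm_nonneg _) hy) (by positivity) hM
      _ = M := mul_one _
  refine (Finset.sum_le_sum this).trans ?_
  simp

theorem pol_lip {a : ℕ → ℂ} {D : ℕ} {M : ℝ} (ha : ∀ k, ‖a k‖ ≤ M) {y z : ℂ} (hy : ‖y‖ ≤ 1)
    (hz : ‖z‖ ≤ 1) : ‖pol a D y - pol a D z‖ ≤ (D + 1) * D * M * ‖y - z‖ := by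
  unfold pol
  rw [← Finset.sum_sub_distrib]
  refine (norm_sum_le _ _).trans ?_
  have hM : 0 ≤ M := (norm_nonneg _).trans (ha 0)
  have : ∀ k ∈ Finset.range (D + 1), ‖a k * y ^ k - a k * z ^ k‖ ≤ D * M * ‖y - z‖ := by
    intro k hk
    have hkD : (k : ℝ) ≤ D := by
      have := Finset.mem_range.1 hk
      exact_mod_cast Nat.lt_succ_iff.1 this
    rw [← mul_sub, norm_mul]
    have h1 := pow_lip hy hz k
    rw [one_pow, mul_one] at h1
    calc ‖a k‖ * ‖y ^ k - z ^ k‖ ≤ M * (k * ‖y - z‖) :=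
          mul_le_mul (ha k) h1 (norm_nonneg _) hM
      _ ≤ M * (D * ‖y - z‖) := by gcongr
      _ = D * M * ‖y - z‖ := by ring
  refine (Finset.sum_le_sum this).trans ?_
  simp only [Finset.sum_const, Finset.card_range, nsmul_eq_mul]
  push_cast
  linarith

/-- The contraction estimate in a chart. -/
theorem chart_map {a b : ℕ → ℂ} {D n : ℕ} {M μ w : ℝ} (hμ : 0 < μ)
    (ha : ∀ k, ‖a k‖ ≤ M) (hb : ∀ k, ‖b k‖ ≤ M) (hb0 : μ ≤ ‖b 0‖) (hn : 1 ≤ n) (hw : 0 < w)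
    (ha0 : ‖a 0‖ ≤ Real.exp (-2 * w) * ‖b 0‖)
    (h1 : ((D : ℝ) + 1) * D * M * Real.exp (-(n * w)) ≤ μ / 2)
    (h2 : 2 * (((D : ℝ) + 1) * D * M * Real.exp (-(n * w))) <
      μ * (Real.exp (-w) * (1 - Real.exp (-w))))
    (h3 : 2 * (((D : ℝ) + 1) * M) * (((D : ℝ) + 1) * D * M) * (4 / μ ^ 2) *
      (n * Real.exp (-((n - 1 : ℝ) * w))) ≤ 1 / 2) :
    (∀ x : ℂ, ‖x‖ ≤ Real.exp (-w) → pol b D (x ^ n) ≠ 0) ∧
    (∀ x : ℂ, ‖x‖ ≤ Real.exp (-w) → ‖pol a D (x ^ n) / pol b D (x ^ n)‖ < Real.exp (-w)) ∧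
    (∀ x y : ℂ, ‖x‖ ≤ Real.exp (-w) → ‖y‖ ≤ Real.exp (-w) →
      ‖pol a D (x ^ n) / pol b D (x ^ n) - pol a D (y ^ n) / pol b D (y ^ n)‖
        ≤ (1 / 2) * ‖x - y‖) := by
  have hM : 0 ≤ M := (norm_nonneg _).trans (ha 0)
  set L : ℝ := ((D : ℝ) + 1) * D * M with hL
  have hL0 : 0 ≤ L := by positivity
  have hpow : ∀ x : ℂ, ‖x‖ ≤ Real.exp (-w) → ‖x ^ n‖ ≤ Real.exp (-(n * w)) := by
    intro x hx
    rw [norm_pow]
    calc ‖x‖ ^ n ≤ Real.exp (-w) ^ n := pow_le_pow_left₀ (norm_nonneg _) hx _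
      _ = Real.exp (-(n * w)) := by rw [← Real.exp_nat_mul]; congr 1; ring
  have hexp1 : Real.exp (-(n * w)) ≤ 1 := by
    rw [Real.exp_le_one_iff]
    have : 0 ≤ (n : ℝ) * w := by positivity
    linarith
  have hone : ∀ x : ℂ, ‖x‖ ≤ Real.exp (-w) → ‖x ^ n‖ ≤ 1 := fun x hx => (hpow x hx).trans hexp1
  have hdev : ∀ c : ℕ → ℂ, (∀ k, ‖c k‖ ≤ M) → ∀ x : ℂ, ‖x‖ ≤ Real.exp (-w) →
      ‖pol c D (x ^ n) - c 0‖ ≤ L * Real.exp (-(n * w)) := by
    intro c hc x hx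
    have := pol_lip (D := D) hc (hone x hx) (z := 0) (by simp)
    rw [pol_zero, sub_zero] at this
    exact this.trans (mul_le_mul_of_nonneg_left (hpow x hx) hL0)
  have hBlow : ∀ x : ℂ, ‖x‖ ≤ Real.exp (-w) → μ / 2 ≤ ‖pol b D (x ^ n)‖ := by
    intro x hx
    have e1 := hdev b hb x hx
    have e2 : ‖b 0‖ ≤ ‖pol b D (x ^ n)‖ + ‖pol b D (x ^ n) - b 0‖ := by
      have := norm_sub_norm_le (b 0) (pol b D (x ^ n))
      rw [norm_sub_rev] at this
      linarith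
    linarith
  have hBne : ∀ x : ℂ, ‖x‖ ≤ Real.exp (-w) → pol b D (x ^ n) ≠ 0 := by
    intro x hx h0
    have := hBlow x hx
    rw [h0, norm_zero] at this
    linarith
  refine ⟨hBne, ?_, ?_⟩
  · intro x hx
    have e1 := hdev b hb x hx
    have e2 := hdev a ha x hx
    have hpos : 0 < ‖pol b D (x ^ n)‖ := norm_pos_iff.2 (hBne x hx)
    rw [norm_div, div_lt_iff₀ hpos]
    set η := L * Real.exp (-(n * w)) with hη
    have e3 : ‖pol a D (x ^ n)‖ ≤ ‖a 0‖ + η := by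
      have := norm_sub_norm_le (pol a D (x ^ n)) (a 0)
      linarith
    have e4 : ‖b 0‖ - η ≤ ‖pol b D (x ^ n)‖ := by
      have := norm_sub_norm_le (b 0) (pol b D (x ^ n))
      rw [norm_sub_rev] at this
      linarith
    have e5 : Real.exp (-2 * w) = Real.exp (-w) * Real.exp (-w) := by
      rw [← Real.exp_add]; congr 1; ring
    have hew : 0 < Real.exp (-w) := Real.exp_pos _
    have hew1 : Real.exp (-w) < 1 := by rw [Real.exp_lt_one_iff]; linarith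
    have hη0 : 0 ≤ η := by positivity
    have e6 : μ * (Real.exp (-w) * (1 - Real.exp (-w))) ≤
        ‖b 0‖ * (Real.exp (-w) * (1 - Real.exp (-w))) := by
      apply mul_le_mul_of_nonneg_right hb0
      have : 0 ≤ 1 - Real.exp (-w) := by linarith
      positivity
    have e7 : Real.exp (-w) * (‖b 0‖ - η) ≤ Real.exp (-w) * ‖pol b D (x ^ n)‖ :=
      mul_le_mul_of_nonneg_left e4 hew.le
    rw [e5] at ha0
    have e8 : Real.exp (-w) * η ≤ η := by nlinarith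
    nlinarith
  · intro x y hx hy
    have bx := hBne x hx
    have by' := hBne y hy
    have e1 : pol a D (x ^ n) / pol b D (x ^ n) - pol a D (y ^ n) / pol b D (y ^ n) =
        (pol a D (x ^ n) * (pol b D (y ^ n) - pol b D (x ^ n)) +
          pol b D (x ^ n) * (pol a D (x ^ n) - pol a D (y ^ n))) /
          (pol b D (x ^ n) * pol b D (y ^ n)) := by
      field_simp
      ring
    rw [e1, norm_div, norm_mul]
    have f1 := pol_lip (D := D) ha (hone x hx) (hone y hy)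
    have f2 := pol_lip (D := D) hb (hone y hy) (hone x hx)
    have f3 := pol_bound (D := D) ha (hone x hx)
    have f4 := pol_bound (D := D) hb (hone x hx)
    have f5 := pow_lip hx hy n
    rw [norm_sub_rev (y ^ n) (x ^ n)] at f2
    have hnum : ‖pol a D (x ^ n) * (pol b D (y ^ n) - pol b D (x ^ n)) +
          pol b D (x ^ n) * (pol a D (x ^ n) - pol a D (y ^ n))‖ ≤
          2 * (((D : ℝ) + 1) * M) * L * ‖x ^ n - y ^ n‖ := by
      refine (norm_add_le _ _).trans ?_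
      rw [norm_mul, norm_mul]
      have g1 : ‖pol a D (x ^ n)‖ * ‖pol b D (y ^ n) - pol b D (x ^ n)‖ ≤
          (((D : ℝ) + 1) * M) * (L * ‖x ^ n - y ^ n‖) :=
        mul_le_mul f3 f2 (norm_nonneg _) (by positivity)
      have g2 : ‖pol b D (x ^ n)‖ * ‖pol a D (x ^ n) - pol a D (y ^ n)‖ ≤
          (((D : ℝ) + 1) * M) * (L * ‖x ^ n - y ^ n‖) :=
        mul_le_mul f4 f1 (norm_nonneg _) (by positivity)
      linarith
    have hden : (μ / 2) * (μ / 2) ≤ ‖pol b D (x ^ n)‖ * ‖pol b D (y ^ n)‖ :=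
      mul_le_mul (hBlow x hx) (hBlow y hy) (by positivity) (norm_nonneg _)
    have hpw : Real.exp (-w) ^ (n - 1) = Real.exp (-((n - 1 : ℝ) * w)) := by
      rw [← Real.exp_nat_mul, Nat.cast_sub hn]; congr 1; push_cast; ring
    rw [hpw] at f5
    have hden0 : 0 < ‖pol b D (x ^ n)‖ * ‖pol b D (y ^ n)‖ := by
      have := norm_pos_iff.2 bx
      have := norm_pos_iff.2 by'
      positivity
    calc _ ≤ (2 * (((D : ℝ) + 1) * M) * L * ‖x ^ n - y ^ n‖) /
          ((μ / 2) * (μ / 2)) := by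
            gcongr
      _ = 2 * (((D : ℝ) + 1) * M) * L * (4 / μ ^ 2) * ‖x ^ n - y ^ n‖ := by
            field_simp; ring
      _ ≤ 2 * (((D : ℝ) + 1) * M) * L * (4 / μ ^ 2) *
          (n * Real.exp (-((n - 1 : ℝ) * w)) * ‖x - y‖) := by
            apply mul_le_mul_of_nonneg_left f5
            positivity
      _ = (2 * (((D : ℝ) + 1) * M) * L * (4 / μ ^ 2) *
          (n * Real.exp (-((n - 1 : ℝ) * w)))) * ‖x - y‖ := by ring
      _ ≤ (1 / 2) * ‖x - y‖ := mul_le_mul_of_nonneg_right h3 (norm_nonneg _)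

/-- The constants. -/
theorem constants (D : ℕ) {M μ : ℝ} (hM : 0 ≤ M) (hμ : 0 < μ) :
    ∃ K : ℝ, 1 ≤ K ∧ ∀ n : ℕ, 2 ≤ n → ∀ w : ℝ, w = K * Real.log n / n →
      ((D : ℝ) + 1) * D * M * Real.exp (-(n * w)) ≤ μ / 2 ∧
      2 * (((D : ℝ) + 1) * D * M * Real.exp (-(n * w))) <
        μ * (Real.exp (-w) * (1 - Real.exp (-w))) ∧
      2 * (((D : ℝ) + 1) * M) * (((D : ℝ) + 1) * D * M) * (4 / μ ^ 2) *
        (n * Real.exp (-((n - 1 : ℝ) * w))) ≤ 1 / 2 := by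
  set L : ℝ := ((D : ℝ) + 1) * D * M with hL
  have hL0 : 0 ≤ L := by positivity
  set G : ℝ := 2 * (((D : ℝ) + 1) * M) * L * (4 / μ ^ 2) with hG
  have hG0 : 0 ≤ G := by positivity
  obtain ⟨k0, hk0⟩ := pow_unbounded_of_one_lt (4 * L / μ + 2 * G) (one_lt_two (α := ℝ))
  set k : ℕ := k0 + 1 with hk
  refine ⟨2 * k, ?_, ?_⟩
  · have : (1 : ℝ) ≤ k := by exact_mod_cast Nat.succ_pos k0
    linarith
  intro n hn w hw
  have hn2 : (2 : ℝ) ≤ n := by exact_mod_cast hn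
  have hn0 : (0 : ℝ) < n := by linarith
  have hlog : Real.log 2 ≤ Real.log n := Real.log_le_log (by norm_num) hn2
  have hl2 : (0.69 : ℝ) < Real.log 2 := by have := Real.log_two_gt_d9; linarith
  have hln : 0 < Real.log n := by linarith
  have hk1 : (1 : ℝ) ≤ k := by exact_mod_cast Nat.succ_pos k0
  have hnw : n * w = 2 * k * Real.log n := by rw [hw]; field_simp
  have hpowk : ∀ m : ℕ, Real.exp (-(m * Real.log n)) = ((n : ℝ) ^ m)⁻¹ := by
    intro m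
    rw [Real.exp_neg, Real.exp_nat_mul, Real.exp_log hn0]
  have hE : Real.exp (-(n * w)) = ((n : ℝ) ^ k)⁻¹ * ((n : ℝ) ^ k)⁻¹ := by
    rw [← hpowk k, ← Real.exp_add, hnw]; congr 1; ring
  have hwpos : 0 < w := by rw [hw]; positivity
  have hnk : 0 < (n : ℝ) ^ k := by positivity
  -- e^{-w} >= n^{-k}
  have hew : ((n : ℝ) ^ k)⁻¹ ≤ Real.exp (-w) := by
    rw [← hpowk k, Real.exp_le_exp, hw, neg_le_neg_iff, div_le_iff₀ hn0]
    nlinarith [mul_nonneg (by linarith : (0 : ℝ) ≤ k) hln.le]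
  have h1e : 1 / (2 * n) ≤ 1 - Real.exp (-w) := by
    have e1 : Real.exp (-w) ≤ 1 / (1 + w) := by
      rw [Real.exp_neg, ← one_div]
      apply one_div_le_one_div_of_le (by linarith)
      linarith [Real.add_one_le_exp w]
    have e2 : 1 / (n : ℝ) ≤ w := by
      rw [hw]
      apply div_le_div_of_nonneg_right _ hn0.le
      nlinarith
    have e3 : 1 / (1 + w) ≤ 1 / (1 + 1 / (n : ℝ)) := by
      apply one_div_le_one_div_of_le
      · positivity
      · linarith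
    have e4 : 1 / (1 + 1 / (n : ℝ)) = n / (n + 1) := by field_simp; try ring
    have e5 : 1 / (2 * (n : ℝ)) ≤ 1 - n / (n + 1) := by
      rw [div_le_iff₀ (by positivity)]
      have : 1 - (n : ℝ) / (n + 1) = 1 / (n + 1) := by field_simp; ring
      rw [this, div_mul_eq_mul_div, le_div_iff₀ (by positivity)]
      linarith
    rw [e4] at e3
    linarith
  have hn2k : (2 : ℝ) ^ k0 * n ≤ (n : ℝ) ^ k := by
    rw [hk, pow_succ]
    apply mul_le_mul_of_nonneg_right _ hn0.le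
    exact pow_le_pow_left₀ (by norm_num) hn2 _
  have hkey1 : 4 * L * n < μ * (n : ℝ) ^ k := by
    have e1 : 4 * L / μ < 2 ^ k0 := by linarith
    rw [div_lt_iff₀ hμ] at e1
    calc 4 * L * n < (2 ^ k0 * μ) * n := by nlinarith
      _ = μ * (2 ^ k0 * n) := by ring
      _ ≤ μ * (n : ℝ) ^ k := by gcongr
  have hii : 2 * (L * Real.exp (-(n * w))) < μ * (Real.exp (-w) * (1 - Real.exp (-w))) := by
    have e1 : μ * (((n : ℝ) ^ k)⁻¹ * (1 / (2 * n))) ≤
        μ * (Real.exp (-w) * (1 - Real.exp (-w))) := by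
      apply mul_le_mul_of_nonneg_left _ hμ.le
      apply mul_le_mul hew h1e (by positivity) (Real.exp_pos _).le
    refine lt_of_lt_of_le ?_ e1
    rw [hE]
    have : 2 * (L * (((n : ℝ) ^ k)⁻¹ * ((n : ℝ) ^ k)⁻¹)) =
        (4 * L * n) * (((n : ℝ) ^ k)⁻¹ * ((n : ℝ) ^ k)⁻¹ / (2 * n)) := by
      field_simp; ring
    rw [this]
    have e2 : μ * (((n : ℝ) ^ k)⁻¹ * (1 / (2 * n))) =
        (μ * (n : ℝ) ^ k) * (((n : ℝ) ^ k)⁻¹ * ((n : ℝ) ^ k)⁻¹ / (2 * n)) := by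
      field_simp
    rw [e2]
    apply mul_lt_mul_of_pos_right hkey1
    positivity
  refine ⟨?_, hii, ?_⟩
  · have e1 : Real.exp (-w) * (1 - Real.exp (-w)) ≤ 1 := by
      have h0 := Real.exp_pos (-w)
      nlinarith [sq_nonneg (Real.exp (-w))]
    have e2 : μ * (Real.exp (-w) * (1 - Real.exp (-w))) ≤ μ := by nlinarith
    linarith
  · have e1 : Real.exp (-((n - 1 : ℝ) * w)) ≤ ((n : ℝ) ^ k)⁻¹ := by
      rw [← hpowk k, Real.exp_le_exp, neg_le_neg_iff]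
      have : (n : ℝ) * w / 2 ≤ (n - 1) * w := by nlinarith
      rw [hnw] at this
      linarith
    have e2 : n * Real.exp (-((n - 1 : ℝ) * w)) ≤ (2 ^ k0)⁻¹ := by
      calc n * Real.exp (-((n - 1 : ℝ) * w)) ≤ n * ((n : ℝ) ^ k)⁻¹ := by gcongr
        _ ≤ (2 ^ k0)⁻¹ := by
          rw [← div_eq_mul_inv, div_le_iff₀ hnk]
          rw [inv_mul_eq_div, le_div_iff₀ (by positivity)]
          linarith
    have e3 : 2 * G < 2 ^ k0 := by
      have : 0 ≤ 4 * L / μ := by positivity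
      linarith
    calc G * (n * Real.exp (-((n - 1 : ℝ) * w))) ≤ G * (2 ^ k0)⁻¹ := by gcongr
      _ ≤ 1 / 2 := by
        rw [← div_eq_mul_inv, div_le_iff₀ (by positivity)]
        linarith

end Pool.Agent.H762R2.Rt
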