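import Mathlib
import Pool.Agent.Helper114.KRat
import Pool.Agent.H762R2.RtA
import Pool.Agent.H762R2.RtB

set_option autoImplicit false

open Set Filter Topology
open scoped OnePoint

namespace Pool.Agent.H762R2.Rt

open Pool.Agent.Helper114.Herman Pool.Agent.Helper114.Konig

/-- `s p / q` is at logarithmic distance at least `2w` from the unit circle. -/
def Far (w : ℝ) (s p q : ℂ) : Prop :=
  ‖s * p‖ ≤ Real.exp (-2 * w) * ‖q‖ ∨ ‖q‖ ≤ Real.exp (-2 * w) * ‖s * p‖

/-- `P / Q` is a rational map in lowest terms all of whose critical points on the Riemann sphere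
(points where it is not locally injective) are attracted by periodic sinks. -/
def Hyp (P Q : Polynomial ℂ) : Prop :=
  IsCoprime P Q ∧ ∃ f : OnePoint ℂ → OnePoint ℂ, Continuous f ∧
    (∀ z : ℂ, Q.eval z ≠ 0 → f (z : OnePoint ℂ) = ((P.eval z / Q.eval z : ℂ) : OnePoint ℂ)) ∧
    ∀ c : OnePoint ℂ, (¬ ∃ U ∈ 𝓝 c, Set.InjOn f U) → Sinks f c

/-- numerator of `P' Q - P Q'`. -/
noncomputable def wro (P Q : Polynomial ℂ) : Polynomial ℂ :=
  Polynomial.derivative P * Q - P * Polynomial.derivative Q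

theorem injOn_of_deriv {g : ℂ → ℂ} {g' z : ℂ} (h : HasStrictDerivAt g g' z) (h0 : g' ≠ 0) :
    ∃ U ∈ 𝓝 z, Set.InjOn g U := by
  have h1 := h.hasStrictFDerivAt_equiv h0
  refine ⟨(h1.toOpenPartialHomeomorph g).source, ?_, ?_⟩
  · exact (h1.toOpenPartialHomeomorph g).open_source.mem_nhds h1.mem_toOpenPartialHomeomorph_source
  · have := (h1.toOpenPartialHomeomorph g).injOn
    rwa [h1.toOpenPartialHomeomorph_coe] at this

theorem hom_expand {P : Polynomial ℂ} {D n : ℕ} (hn : 0 < n) (hP : P.natDegree ≤ D) (s u v : ℂ)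
    (h : v ≠ 0 ∨ u = 1 ∧ v = 0) :
    hom (Polynomial.C s * Polynomial.expand ℂ n P) (D * n) u v = s * hom P D (u ^ n) (v ^ n) := by
  have hdeg : (Polynomial.C s * Polynomial.expand ℂ n P).natDegree ≤ D * n := by
    refine (Polynomial.natDegree_C_mul_le _ _).trans ?_
    rw [Polynomial.natDegree_expand]
    exact Nat.mul_le_mul_right n hP
  rcases h with hv | ⟨hu, hv⟩
  · rw [hom_ne hdeg hv, hom_ne hP (pow_ne_zero n hv)]
    simp only [Polynomial.eval_mul, Polynomial.eval_C, Polynomial.expand_eval]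
    rw [div_pow, pow_mul]
    rw [← pow_mul, ← pow_mul, mul_comm D n]
    ring
  · subst hu; subst hv
    rw [hom_zero, one_pow, mul_one, Polynomial.coeff_C_mul, one_pow, zero_pow hn.ne', hom_zero,
      one_pow, mul_one, mul_comm D n, Polynomial.coeff_expand_mul' hn]

theorem hom_one_right (P : Polynomial ℂ) (D : ℕ) (y : ℂ) :
    hom P D y 1 = pol P.coeff D y := by
  unfold hom pol
  simp

theorem hom_one_left (P : Polynomial ℂ) (D : ℕ) (y : ℂ) :
    hom P D 1 y = pol (fun k => P.coeff (D - k)) D y := by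
  unfold hom pol
  rw [← Finset.sum_range_reflect]
  refine Finset.sum_congr rfl fun k hk => ?_
  have hk' : k ≤ D := Nat.lt_succ_iff.1 (Finset.mem_range.1 hk)
  have e1 : D + 1 - 1 - k = D - k := by omega
  have e2 : D - (D - k) = k := by omega
  rw [e1, one_pow, mul_one, e2]

theorem pol_smul (s : ℂ) (c : ℕ → ℂ) (D : ℕ) (y : ℂ) :
    s * pol c D y = pol (fun k => s * c k) D y := by
  unfold pol
  rw [Finset.mul_sum]
  exact Finset.sum_congr rfl fun k _ => by ring

theorem coprime_family {P Q : Polynomial ℂ} (hc : IsCoprime P Q) {s : ℂ} (hs : s ≠ 0) (n : ℕ) :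
    IsCoprime (Polynomial.C s * Polynomial.expand ℂ n P) (Polynomial.expand ℂ n Q) := by
  have h1 : IsCoprime (Polynomial.expand ℂ n P) (Polynomial.expand ℂ n Q) := hc.map _
  have hu : IsUnit (Polynomial.C s) := Polynomial.isUnit_C.2 (isUnit_iff_ne_zero.2 hs)
  exact (isCoprime_mul_unit_left_left hu _ _).2 h1

/-- Hyperbolicity when all marked values are far from the unit circle. -/
theorem hyp_of_far {P Q : Polynomial ℂ} {D : ℕ} (hD : D = max P.natDegree Q.natDegree)
    (hD1 : 1 ≤ D) (hc : IsCoprime P Q) (hQ0 : Q ≠ 0) {M : ℝ} (hM : 1 ≤ M)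
    (hPM : ∀ k, ‖P.coeff k‖ ≤ M) (hQM : ∀ k, ‖Q.coeff k‖ ≤ M)
    (h0 : M⁻¹ ≤ ‖P.coeff 0‖ ∨ M⁻¹ ≤ ‖Q.coeff 0‖)
    (hinf : M⁻¹ ≤ ‖P.coeff D‖ ∨ M⁻¹ ≤ ‖Q.coeff D‖)
    {s : ℂ} (hs1 : M⁻¹ ≤ ‖s‖) (hs2 : ‖s‖ ≤ M) {n : ℕ} (hn : 2 ≤ n) {w : ℝ} (hw : 0 < w)
    (c1 : ((D : ℝ) + 1) * D * (M * M) * Real.exp (-(n * w)) ≤ (M * M)⁻¹ / 2)
    (c2 : 2 * (((D : ℝ) + 1) * D * (M * M) * Real.exp (-(n * w))) <
      (M * M)⁻¹ * (Real.exp (-w) * (1 - Real.exp (-w))))
    (c3 : 2 * (((D : ℝ) + 1) * (M * M)) * (((D : ℝ) + 1) * D * (M * M)) * (4 / (M * M)⁻¹ ^ 2) *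
      (n * Real.exp (-((n - 1 : ℝ) * w))) ≤ 1 / 2)
    (f0 : Far w s (P.coeff 0) (Q.coeff 0)) (finf : Far w s (P.coeff D) (Q.coeff D))
    (fc : ∀ y : ℂ, Q.eval y ≠ 0 → (wro P Q).eval y = 0 → Far w s (P.eval y) (Q.eval y)) :
    Hyp (Polynomial.C s * Polynomial.expand ℂ n P) (Polynomial.expand ℂ n Q) := by
  have hM0 : 0 < M := by linarith
  have hs0 : s ≠ 0 := by
    intro h
    rw [h, norm_zero] at hs1
    have := inv_pos.2 hM0
    linarith
  have hn0 : 0 < n := by omega
  have hcop := coprime_family hc hs0 n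
  have hQe : Polynomial.expand ℂ n Q ≠ 0 := (Polynomial.expand_ne_zero hn0).2 hQ0
  obtain ⟨f, hf, -⟩ := exists_isRat hcop hQe
  refine ⟨hcop, f, hf.cont, hf.eval, ?_⟩
  have hPd : P.natDegree ≤ D := hD ▸ le_max_left _ _
  have hQd : Q.natDegree ≤ D := hD ▸ le_max_right _ _
  have hdeg : D * n = max (Polynomial.C s * Polynomial.expand ℂ n P).natDegree
      (Polynomial.expand ℂ n Q).natDegree := by
    rw [Polynomial.natDegree_C_mul hs0, Polynomial.natDegree_expand, Polynomial.natDegree_expand,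
      hD, max_mul_of_nonneg _ _ (Nat.zero_le n)]
  have hDn : 0 < D * n := Nat.mul_pos hD1 hn0
  -- the two charts
  let ψ : Bool → ℂ → OnePoint ℂ := fun i x => if i then sinv (x : OnePoint ℂ) else (x : OnePoint ℂ)
  let a : Bool → ℕ → ℂ := fun i k => if i then s * P.coeff (D - k) else s * P.coeff k
  let b : Bool → ℕ → ℂ := fun i k => if i then Q.coeff (D - k) else Q.coeff k
  have hQexp : ∀ u v : ℂ, (v ≠ 0 ∨ u = 1 ∧ v = 0) →
      hom (Polynomial.expand ℂ n Q) (D * n) u v = hom Q D (u ^ n) (v ^ n) := by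
    intro u v huv
    have := hom_expand hn0 hQd 1 u v huv
    rwa [Polynomial.C_1, one_mul, one_mul] at this
  have hfψ : ∀ i x, f (ψ i x) = pr (pol (a i) D (x ^ n)) (pol (b i) D (x ^ n)) := by
    intro i x
    cases i
    · have e1 : ψ false x = pr x 1 := by simp [ψ, pr_one]
      rw [e1, rat_formula hf hdeg hDn (Or.inr one_ne_zero),
        hom_expand hn0 hPd s x 1 (Or.inl one_ne_zero), hQexp x 1 (Or.inl one_ne_zero), one_pow,
        hom_one_right, hom_one_right, pol_smul]
      simp [a, b]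
    · have e1 : ψ true x = pr 1 x := by
        simp only [ψ, if_true]
        rw [← pr_one x, sinv_pr (Or.inr one_ne_zero)]
      have hx : x ≠ 0 ∨ (1 : ℂ) = 1 ∧ x = 0 := by
        by_cases h : x = 0
        · exact Or.inr ⟨rfl, h⟩
        · exact Or.inl h
      rw [e1, rat_formula hf hdeg hDn (Or.inl one_ne_zero),
        hom_expand hn0 hPd s 1 x hx, hQexp 1 x hx, one_pow,
        hom_one_left, hom_one_left, pol_smul]
      simp [a, b]
  have haM : ∀ i k, ‖a i k‖ ≤ M * M := by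
    intro i k
    cases i
    · simp only [a, Bool.false_eq_true, if_false, norm_mul]
      exact mul_le_mul hs2 (hPM _) (norm_nonneg _) hM0.le
    · simp only [a, if_true, norm_mul]
      exact mul_le_mul hs2 (hPM _) (norm_nonneg _) hM0.le
  have hbM : ∀ i k, ‖b i k‖ ≤ M * M := by
    have hMM : M ≤ M * M := by nlinarith
    intro i k
    cases i
    · simp only [b, Bool.false_eq_true, if_false]
      exact (hQM _).trans hMM
    · simp only [b, if_true]
      exact (hQM _).trans hMM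
  have hexp2 : Real.exp (-2 * w) ≤ 1 := by rw [Real.exp_le_one_iff]; linarith
  have hfar : ∀ i, ‖a i 0‖ ≤ Real.exp (-2 * w) * ‖b i 0‖ ∨
      ‖b i 0‖ ≤ Real.exp (-2 * w) * ‖a i 0‖ := by
    intro i
    cases i
    · simp only [a, b, Bool.false_eq_true, if_false]
      exact f0
    · simp only [a, b, if_true, Nat.sub_zero]
      exact finf
  have hMinv : (M * M)⁻¹ ≤ M⁻¹ := by
    apply inv_anti₀ hM0; nlinarith
  have hlow : ∀ p : ℂ, M⁻¹ ≤ ‖p‖ → (M * M)⁻¹ ≤ ‖s * p‖ := by
    intro p hp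
    rw [norm_mul, mul_inv]
    exact mul_le_mul hs1 hp (inv_nonneg.2 hM0.le) (norm_nonneg _)
  have hbig : ∀ i, (M * M)⁻¹ ≤ ‖a i 0‖ ∨ (M * M)⁻¹ ≤ ‖b i 0‖ := by
    intro i
    cases i
    · simp only [a, b, Bool.false_eq_true, if_false]
      rcases h0 with h | h
      · exact Or.inl (hlow _ h)
      · exact Or.inr (hMinv.trans h)
    · simp only [a, b, if_true, Nat.sub_zero]
      rcases hinf with h | h
      · exact Or.inl (hlow _ h)
      · exact Or.inr (hMinv.trans h)
  have hμ : 0 < (M * M)⁻¹ := by positivity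
  set r := Real.exp (-w) with hr
  have hr0 : 0 < r := Real.exp_pos _
  let σ : Bool → Bool := fun i => decide ¬(‖a i 0‖ ≤ Real.exp (-2 * w) * ‖b i 0‖)
  let h : Bool → ℂ → ℂ := fun i x =>
    if ‖a i 0‖ ≤ Real.exp (-2 * w) * ‖b i 0‖ then pol (a i) D (x ^ n) / pol (b i) D (x ^ n)
    else pol (b i) D (x ^ n) / pol (a i) D (x ^ n)
  have key : ∀ i, (∀ x, ‖x‖ ≤ r → f (ψ i x) = ψ (σ i) (h i x)) ∧
      (∀ x, ‖x‖ ≤ r → ‖h i x‖ < r) ∧
      (∀ x y, ‖x‖ ≤ r → ‖y‖ ≤ r → ‖h i x - h i y‖ ≤ (1 / 2) * ‖x - y‖) := by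
    intro i
    by_cases hi : ‖a i 0‖ ≤ Real.exp (-2 * w) * ‖b i 0‖
    · have hb0 : (M * M)⁻¹ ≤ ‖b i 0‖ := by
        rcases hbig i with h1 | h1
        · have : ‖a i 0‖ ≤ ‖b i 0‖ := hi.trans (by nlinarith [norm_nonneg (b i 0)])
          linarith
        · exact h1
      obtain ⟨k1, k2, k3⟩ := chart_map hμ (haM i) (hbM i) hb0 (by omega) hw hi c1 c2 c3
      have hσ : σ i = false := by simp only [σ, hi, not_true_eq_false, decide_false]
      have hh : ∀ x, h i x = pol (a i) D (x ^ n) / pol (b i) D (x ^ n) := by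
        intro x; simp only [h, if_pos hi]
      refine ⟨?_, ?_, ?_⟩
      · intro x hx
        rw [hfψ, hσ, hh, pr_ne (k1 x hx)]
        simp [ψ]
      · intro x hx; rw [hh]; exact k2 x hx
      · intro x y hx hy; rw [hh, hh]; exact k3 x y hx hy
    · have hi' : ‖b i 0‖ ≤ Real.exp (-2 * w) * ‖a i 0‖ := (hfar i).resolve_left hi
      have ha0 : (M * M)⁻¹ ≤ ‖a i 0‖ := by
        rcases hbig i with h1 | h1
        · exact h1
        · have : ‖b i 0‖ ≤ ‖a i 0‖ := hi'.trans (by nlinarith [norm_nonneg (a i 0)])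
          linarith
      obtain ⟨k1, k2, k3⟩ := chart_map hμ (hbM i) (haM i) ha0 (by omega) hw hi' c1 c2 c3
      have hσ : σ i = true := by simp only [σ, hi, not_false_eq_true, decide_true]
      have hh : ∀ x, h i x = pol (b i) D (x ^ n) / pol (a i) D (x ^ n) := by
        intro x; simp only [h, if_neg hi]
      refine ⟨?_, ?_, ?_⟩
      · intro x hx
        rw [hfψ, hσ, hh]
        simp only [ψ, if_true]
        rw [← pr_ne (k1 x hx), sinv_pr (Or.inr (k1 x hx))]
      · intro x hx; rw [hh]; exact k2 x hx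
      · intro x y hx hy; rw [hh, hh]; exact k3 x y hx hy
  have hψc : ∀ i, Continuous (ψ i) := by
    intro i
    cases i
    · simpa [ψ] using OnePoint.continuous_coe (X := ℂ)
    · have := continuous_sinv.comp (OnePoint.continuous_coe (X := ℂ))
      simpa [ψ, Function.comp_def] using this
  have hψo : ∀ i, IsOpenMap (ψ i) := by
    intro i
    cases i
    · simpa [ψ] using (OnePoint.isOpenEmbedding_coe (X := ℂ)).isOpenMap
    · have := sinvHomeo.isOpenMap.comp (OnePoint.isOpenEmbedding_coe (X := ℂ)).isOpenMap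
      simpa [ψ, Function.comp_def, sinvHomeo] using this
  have hgo : ∀ c : OnePoint ℂ, ∀ i x, ‖x‖ ≤ r → f c = ψ i x → Sinks f c := by
    intro c i x hx hfc
    exact two_charts hr0 hψc hψo (fun i x hx => (key i).1 x hx) (fun i x hx => (key i).2.1 x hx)
      (fun i x y hx hy => (key i).2.2 x y hx hy) hx hfc
  intro c hnot
  have hstart : ∀ i, f (ψ i 0) = ψ (σ i) (h i 0) ∧ ‖h i 0‖ ≤ r := by
    intro i
    exact ⟨(key i).1 0 (by simp [hr0.le]), ((key i).2.1 0 (by simp [hr0.le])).le⟩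
  induction c using OnePoint.rec with
  | infty =>
    have e1 : ψ true 0 = ∞ := by simp [ψ, sinv_zero]
    obtain ⟨h1, h2⟩ := hstart true
    rw [e1] at h1
    exact hgo _ _ _ h2 h1
  | coe z =>
    by_cases hz : z = 0
    · subst hz
      obtain ⟨h1, h2⟩ := hstart false
      exact hgo _ _ _ h2 h1
    by_cases hq : Q.eval (z ^ n) = 0
    · have e1 : f (z : OnePoint ℂ) = ∞ := by
        have := hfψ false z
        have e2 : pol (b false) D (z ^ n) = 0 := by
          have e3 : pol (b false) D (z ^ n) = hom Q D (z ^ n) 1 := by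
            rw [hom_one_right]; rfl
          rw [e3, hom_ne hQd one_ne_zero, one_pow, one_mul, div_one, hq]
        rw [e2, pr_zero] at this
        exact this
      refine hgo _ true 0 (by simp [hr0.le]) ?_
      rw [e1]
      simp [ψ, sinv_zero]
    have hev : f (z : OnePoint ℂ) = ((s * P.eval (z ^ n) / Q.eval (z ^ n) : ℂ) : OnePoint ℂ) := by
      have := hf.eval z (by rwa [Polynomial.expand_eval])
      rwa [Polynomial.eval_mul, Polynomial.eval_C, Polynomial.expand_eval,
        Polynomial.expand_eval] at this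
    by_cases hW : (wro P Q).eval (z ^ n) = 0
    · have hqn : 0 < ‖Q.eval (z ^ n)‖ := norm_pos_iff.2 hq
      have he2 : Real.exp (-2 * w) ≤ r := by
        rw [hr, Real.exp_le_exp]; linarith
      rcases fc _ hq hW with h1 | h1
      · refine hgo _ false (s * P.eval (z ^ n) / Q.eval (z ^ n)) ?_ (by rw [hev]; simp [ψ])
        rw [norm_div, div_le_iff₀ hqn]
        exact h1.trans (mul_le_mul_of_nonneg_right he2 hqn.le)
      · have hsp : 0 < ‖s * P.eval (z ^ n)‖ := by
          rcases (norm_nonneg (s * P.eval (z ^ n))).lt_or_eq with h | h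
          · exact h
          · rw [← h, mul_zero] at h1; linarith
        have hsp' : s * P.eval (z ^ n) ≠ 0 := norm_pos_iff.1 hsp
        refine hgo _ true (Q.eval (z ^ n) / (s * P.eval (z ^ n))) ?_ ?_
        · rw [norm_div, div_le_iff₀ hsp]
          exact h1.trans (mul_le_mul_of_nonneg_right he2 hsp.le)
        · rw [hev]
          simp only [ψ, if_true]
          rw [sinv_coe (div_ne_zero hq hsp'), inv_div]
    · exfalso
      apply hnot
      set P' := Polynomial.C s * Polynomial.expand ℂ n P with hP'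
      set Q' := Polynomial.expand ℂ n Q with hQ'
      have hQ'z : Q'.eval z ≠ 0 := by rwa [hQ', Polynomial.expand_eval]
      have hder := (P'.hasStrictDerivAt z).fun_div (Q'.hasStrictDerivAt z) hQ'z
      have hne : (P'.derivative.eval z * Q'.eval z - P'.eval z * Q'.derivative.eval z) /
          (Q'.eval z) ^ 2 ≠ 0 := by
        apply div_ne_zero _ (pow_ne_zero _ hQ'z)
        have e1 : P'.derivative.eval z * Q'.eval z - P'.eval z * Q'.derivative.eval z =
            s * (n * z ^ (n - 1)) * (wro P Q).eval (z ^ n) := by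
          rw [hP', hQ', Polynomial.derivative_C_mul, Polynomial.derivative_expand,
            Polynomial.derivative_expand, wro]
          simp only [Polynomial.eval_mul, Polynomial.eval_C, Polynomial.expand_eval,
            Polynomial.eval_sub, Polynomial.eval_pow, Polynomial.eval_X, Polynomial.eval_natCast]
          ring
        rw [e1]
        have hnc : (n : ℂ) ≠ 0 := by exact_mod_cast hn0.ne'
        exact mul_ne_zero (mul_ne_zero hs0 (mul_ne_zero hnc (pow_ne_zero _ hz))) hW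
      obtain ⟨U, hU, hinj⟩ := injOn_of_deriv hder hne
      have hUQ : {x : ℂ | Q'.eval x ≠ 0} ∈ 𝓝 z :=
        (isOpen_ne_fun Q'.continuous continuous_const).mem_nhds hQ'z
      refine ⟨(fun x : ℂ => (x : OnePoint ℂ)) '' (U ∩ {x : ℂ | Q'.eval x ≠ 0}), ?_, ?_⟩
      · exact (OnePoint.isOpenEmbedding_coe (X := ℂ)).isOpenMap.image_mem_nhds
          (inter_mem hU hUQ)
      · rintro _ ⟨x, ⟨hx, hxQ⟩, rfl⟩ _ ⟨y, ⟨hy, hyQ⟩, rfl⟩ hxy
        simp only at hxy
        rw [hf.eval x hxQ, hf.eval y hyQ, OnePoint.coe_eq_coe] at hxy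
        rw [hinj hx hy hxy]

end Pool.Agent.H762R2.Rt
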