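import Mathlib
import Pool.Agent.H762R2.RtC

set_option autoImplicit false

open Set Filter Topology

namespace Pool.Agent.H762R2.Rt

theorem wro_eq (P Q : Polynomial ℂ) : wro P Q = -Polynomial.wronskian P Q := by
  unfold wro Polynomial.wronskian; ring

theorem wro_ne_zero {P Q : Polynomial ℂ} (hc : IsCoprime P Q)
    (hD : 1 ≤ max P.natDegree Q.natDegree) : wro P Q ≠ 0 := by
  rw [wro_eq, neg_ne_zero]
  intro h
  rw [hc.wronskian_eq_zero_iff] at h
  obtain ⟨h1, h2⟩ := h
  have := Polynomial.derivative_eq_zero.1 h1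
  have := Polynomial.derivative_eq_zero.1 h2
  omega

theorem wro_natDegree {P Q : Polynomial ℂ} (hc : IsCoprime P Q)
    (hD : 1 ≤ max P.natDegree Q.natDegree) :
    (wro P Q).natDegree + 1 ≤ 2 * max P.natDegree Q.natDegree := by
  have h := wro_ne_zero hc hD
  rw [wro_eq, neg_ne_zero] at h
  have := Polynomial.natDegree_wronskian_lt_add h
  rw [wro_eq, Polynomial.natDegree_neg]
  omega

/-- The values of `(P, Q)` (homogeneous coordinates of the value of `P / Q`) at `0`, at `∞` and at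
the zeros of `P' Q - P Q'`. -/
noncomputable def marks (P Q : Polynomial ℂ) : Finset (ℂ × ℂ) :=
  insert (P.coeff 0, Q.coeff 0) (insert (P.coeff (max P.natDegree Q.natDegree),
    Q.coeff (max P.natDegree Q.natDegree))
    ((wro P Q).roots.toFinset.image fun y => (P.eval y, Q.eval y)))

/-- The radii `|s|` for which `s P / Q` has modulus one at one of the points `0`, `∞` or at one of
the zeros of `P' Q - P Q'`. -/
noncomputable def radii (P Q : Polynomial ℂ) : Finset ℝ :=
  ((marks P Q).filter fun m => m.1 ≠ 0).image fun m => ‖m.2‖ / ‖m.1‖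

theorem card_marks {P Q : Polynomial ℂ} (hc : IsCoprime P Q)
    (hD : 1 ≤ max P.natDegree Q.natDegree) :
    (marks P Q).card ≤ 2 * max P.natDegree Q.natDegree + 1 := by
  have h1 := wro_natDegree hc hD
  have h2 : ((wro P Q).roots.toFinset.image fun y => (P.eval y, Q.eval y)).card ≤
      (wro P Q).natDegree :=
    Finset.card_image_le.trans ((Multiset.toFinset_card_le _).trans (Polynomial.card_roots' _))
  unfold marks
  have h3 := Finset.card_insert_le (P.coeff 0, Q.coeff 0)
    (insert (P.coeff (max P.natDegree Q.natDegree),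
    Q.coeff (max P.natDegree Q.natDegree))
    ((wro P Q).roots.toFinset.image fun y => (P.eval y, Q.eval y)))
  have h4 := Finset.card_insert_le (P.coeff (max P.natDegree Q.natDegree),
    Q.coeff (max P.natDegree Q.natDegree))
    ((wro P Q).roots.toFinset.image fun y => (P.eval y, Q.eval y))
  omega

theorem card_radii {P Q : Polynomial ℂ} (hc : IsCoprime P Q)
    (hD : 1 ≤ max P.natDegree Q.natDegree) :
    (radii P Q).card ≤ 2 * max P.natDegree Q.natDegree + 1 :=
  Finset.card_image_le.trans ((Finset.card_filter_le _ _).trans (card_marks hc hD))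

/-- The normalised class: degree `D`, coefficients of modulus at most `M`, and the values at `0`
and at `∞` are not degenerate, quantified by `M`. -/
def Cls (D : ℕ) (M : ℝ) (P Q : Polynomial ℂ) : Prop :=
  IsCoprime P Q ∧ max P.natDegree Q.natDegree = D ∧
    (∀ k, ‖P.coeff k‖ ≤ M) ∧ (∀ k, ‖Q.coeff k‖ ≤ M) ∧
    M⁻¹ ≤ max ‖P.coeff 0‖ ‖Q.coeff 0‖ ∧ M⁻¹ ≤ max ‖P.coeff D‖ ‖Q.coeff D‖

theorem Cls.mono {D : ℕ} {M N : ℝ} {P Q : Polynomial ℂ} (h : Cls D M P Q) (hM : 0 < M)
    (hMN : M ≤ N) : Cls D N P Q := by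
  obtain ⟨h1, h2, h3, h4, h5, h6⟩ := h
  have : N⁻¹ ≤ M⁻¹ := inv_anti₀ hM hMN
  exact ⟨h1, h2, fun k => (h3 k).trans hMN, fun k => (h4 k).trans hMN, this.trans h5, this.trans h6⟩

/-- Every rational map of degree at least one is in a class. -/
theorem exists_cls {P Q : Polynomial ℂ} (hc : IsCoprime P Q)
    (hD : 1 ≤ max P.natDegree Q.natDegree) :
    ∃ M : ℝ, 1 ≤ M ∧ Cls (max P.natDegree Q.natDegree) M P Q := by
  set D := max P.natDegree Q.natDegree with hDD
  have hpos0 : 0 < max ‖P.coeff 0‖ ‖Q.coeff 0‖ := by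
    by_contra h
    rw [not_lt, max_le_iff] at h
    have h1 : P.coeff 0 = 0 := norm_le_zero_iff.1 h.1
    have h2 : Q.coeff 0 = 0 := norm_le_zero_iff.1 h.2
    obtain ⟨a, b, hab⟩ := hc
    have := congrArg (Polynomial.eval 0) hab
    rw [Polynomial.eval_add, Polynomial.eval_mul, Polynomial.eval_mul,
      ← Polynomial.coeff_zero_eq_eval_zero P, ← Polynomial.coeff_zero_eq_eval_zero Q, h1, h2] at this
    simp at this
  have hposD : 0 < max ‖P.coeff D‖ ‖Q.coeff D‖ := by
    by_contra h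
    rw [not_lt, max_le_iff] at h
    have h1 : P.coeff D = 0 := norm_le_zero_iff.1 h.1
    have h2 : Q.coeff D = 0 := norm_le_zero_iff.1 h.2
    rcases le_total P.natDegree Q.natDegree with hle | hle
    · rw [max_eq_right hle] at hDD
      rw [hDD] at h2
      have : Q = 0 := Polynomial.leadingCoeff_eq_zero.1 h2
      rw [this, Polynomial.natDegree_zero] at hDD
      omega
    · rw [max_eq_left hle] at hDD
      rw [hDD] at h1
      have : P = 0 := Polynomial.leadingCoeff_eq_zero.1 h1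
      rw [this, Polynomial.natDegree_zero] at hDD
      omega
  have hbd : ∀ R : Polynomial ℂ, ∀ k, ‖R.coeff k‖ ≤ ∑ i ∈ R.support, ‖R.coeff i‖ := by
    intro R k
    by_cases hk : k ∈ R.support
    · exact Finset.single_le_sum (f := fun i => ‖R.coeff i‖) (fun i _ => norm_nonneg _) hk
    · rw [Polynomial.notMem_support_iff.1 hk, norm_zero]
      exact Finset.sum_nonneg fun i _ => norm_nonneg _
  set A := ∑ i ∈ P.support, ‖P.coeff i‖ with hA
  set B := ∑ i ∈ Q.support, ‖Q.coeff i‖ with hB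
  have hA0 : 0 ≤ A := Finset.sum_nonneg fun i _ => norm_nonneg _
  have hB0 : 0 ≤ B := Finset.sum_nonneg fun i _ => norm_nonneg _
  set M : ℝ := 1 + A + B + (max ‖P.coeff 0‖ ‖Q.coeff 0‖)⁻¹ + (max ‖P.coeff D‖ ‖Q.coeff D‖)⁻¹ with hM
  have i0 : 0 < (max ‖P.coeff 0‖ ‖Q.coeff 0‖)⁻¹ := inv_pos.2 hpos0
  have i1 : 0 < (max ‖P.coeff D‖ ‖Q.coeff D‖)⁻¹ := inv_pos.2 hposD
  refine ⟨M, by linarith, hc, hDD.symm, ?_, ?_, ?_, ?_⟩
  · intro k
    have := hbd P k
    linarith
  · intro k
    have := hbd Q k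
    linarith
  · rw [inv_le_comm₀ (by linarith) hpos0]
    linarith
  · rw [inv_le_comm₀ (by linarith) hposD]
    linarith

/-- Hyperbolicity away from the marked radii. -/
theorem hyp_family (D : ℕ) (hD : 1 ≤ D) (M : ℝ) (hM : 1 ≤ M) :
    ∃ C : ℝ, 0 < C ∧ ∀ P Q : Polynomial ℂ, Cls D M P Q → ∀ n : ℕ, 2 ≤ n → ∀ s : ℂ,
      M⁻¹ ≤ ‖s‖ → ‖s‖ ≤ M → (∀ e ∈ radii P Q, C * (Real.log n / n) ≤ |‖s‖ - e|) →
      Hyp (Polynomial.C s * Polynomial.expand ℂ n P) (Polynomial.expand ℂ n Q) := by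
  have hM0 : 0 < M := by linarith
  obtain ⟨K, hK1, hK⟩ := constants D (M := M * M) (μ := (M * M)⁻¹) (by positivity) (by positivity)
  refine ⟨2 * K * M * Real.exp (2 * K), by positivity, ?_⟩
  rintro P Q ⟨hc, hdeg, hPM, hQM, h0, hinf⟩ n hn s hs1 hs2 hE
  set w : ℝ := K * Real.log n / n with hw
  have hn2 : (2 : ℝ) ≤ n := by exact_mod_cast hn
  have hn0 : (0 : ℝ) < n := by linarith
  have hln : 0 < Real.log n := Real.log_pos (by linarith)
  have hwpos : 0 < w := by rw [hw]; positivity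
  have hwK : w ≤ K := by
    rw [hw, div_le_iff₀ hn0]
    have := Real.log_le_sub_one_of_pos hn0
    nlinarith
  obtain ⟨c1, c2, c3⟩ := hK n hn w hw
  have hfar : ∀ m ∈ marks P Q, Far w s m.1 m.2 := by
    intro m hm
    unfold Far
    by_cases hm1 : m.1 = 0
    · left
      rw [hm1, mul_zero, norm_zero]
      positivity
    have hp : 0 < ‖m.1‖ := norm_pos_iff.2 hm1
    have he := hE (‖m.2‖ / ‖m.1‖) (Finset.mem_image.2 ⟨m, Finset.mem_filter.2 ⟨hm, hm1⟩, rfl⟩)
    set e := ‖m.2‖ / ‖m.1‖ with hedef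
    have hme : ‖m.2‖ = e * ‖m.1‖ := by rw [hedef]; field_simp
    have hexp : Real.exp (2 * w) - 1 ≤ 2 * w * Real.exp (2 * w) := by
      have h1 := Real.add_one_le_exp (-(2 * w))
      have h2 : Real.exp (-(2 * w)) * Real.exp (2 * w) = 1 := by
        rw [← Real.exp_add]; simp
      have h3 := Real.exp_pos (2 * w)
      nlinarith
    have hexpK : Real.exp (2 * w) ≤ Real.exp (2 * K) := by
      rw [Real.exp_le_exp]; linarith
    have hC : 2 * K * M * Real.exp (2 * K) * (Real.log n / n) = 2 * w * (M * Real.exp (2 * K)) := by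
      rw [hw]; ring
    rw [hC] at he
    have hneg : Real.exp (-2 * w) * Real.exp (2 * w) = 1 := by
      rw [← Real.exp_add]; simp
    have hepos := Real.exp_pos (2 * w)
    have heneg := Real.exp_pos (-2 * w)
    have hMs : ‖s‖ * (Real.exp (2 * w) - 1) ≤ 2 * w * (M * Real.exp (2 * K)) := by
      calc ‖s‖ * (Real.exp (2 * w) - 1) ≤ M * (2 * w * Real.exp (2 * K)) := by
            apply mul_le_mul hs2 (hexp.trans _) _ hM0.le
            · apply mul_le_mul_of_nonneg_left hexpK (by positivity)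
            · have := Real.add_one_le_exp (2 * w)
              linarith
        _ = _ := by ring
    rcases le_total 0 (‖s‖ - e) with h | h
    · right
      rw [abs_of_nonneg h] at he
      have h5 : ‖s‖ * (1 - Real.exp (-2 * w)) ≤ 2 * w * (M * Real.exp (2 * K)) := by
        refine le_trans ?_ hMs
        apply mul_le_mul_of_nonneg_left _ (norm_nonneg _)
        have i1 := Real.add_one_le_exp (2 * w)
        have i2 := Real.add_one_le_exp (-2 * w)
        linarith
      have h6 : e ≤ Real.exp (-2 * w) * ‖s‖ := by linarith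
      rw [hme, norm_mul, ← mul_assoc]
      exact mul_le_mul_of_nonneg_right h6 hp.le
    · left
      rw [abs_of_nonpos h] at he
      have h6 : ‖s‖ * Real.exp (2 * w) ≤ e := by linarith
      rw [hme, norm_mul]
      have h7 : ‖s‖ ≤ Real.exp (-2 * w) * e := by
        calc ‖s‖ = Real.exp (-2 * w) * (‖s‖ * Real.exp (2 * w)) := by
              linear_combination (-‖s‖) * hneg
          _ ≤ _ := mul_le_mul_of_nonneg_left h6 heneg.le
      calc ‖s‖ * ‖m.1‖ ≤ (Real.exp (-2 * w) * e) * ‖m.1‖ := mul_le_mul_of_nonneg_right h7 hp.le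
        _ = _ := by ring
  have hQ0 : Q ≠ 0 := by
    intro h
    rw [h, isCoprime_zero_right, Polynomial.isUnit_iff_degree_eq_zero] at hc
    have : P.natDegree = 0 := Polynomial.natDegree_eq_zero_iff_degree_le_zero.2 hc.le
    rw [this, h, Polynomial.natDegree_zero] at hdeg
    omega
  have hw0 : wro P Q ≠ 0 := wro_ne_zero hc (by omega)
  refine hyp_of_far hdeg.symm hD hc hQ0 hM hPM hQM (le_max_iff.1 h0) (le_max_iff.1 hinf) hs1 hs2 hn
    hwpos c1 c2 c3 ?_ ?_ ?_
  · exact hfar _ (Finset.mem_insert_self _ _)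
  · have := hfar _ (Finset.mem_insert_of_mem (Finset.mem_insert_self _ _))
    rwa [hdeg] at this
  · intro y _ hy
    refine hfar (P.eval y, Q.eval y) ?_
    refine Finset.mem_insert_of_mem (Finset.mem_insert_of_mem (Finset.mem_image.2 ⟨y, ?_, rfl⟩))
    rw [Multiset.mem_toFinset, Polynomial.mem_roots hw0]
    exact hy

/-- Coarse density. -/
theorem coarse (D : ℕ) (hD : 1 ≤ D) (M : ℝ) (hM : 1 ≤ M) :
    ∃ C : ℝ, 0 < C ∧ ∃ n₀ : ℕ, ∀ P Q : Polynomial ℂ, Cls D M P Q → ∀ n : ℕ, n₀ ≤ n →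
      ∃ s : ℝ, 1 ≤ s ∧ s ≤ 1 + C * (Real.log n / n) ∧
        Hyp (Polynomial.C (s : ℂ) * Polynomial.expand ℂ n P) (Polynomial.expand ℂ n Q) := by
  obtain ⟨C, hC0, hC⟩ := hyp_family D hD (M + 1) (by linarith)
  have hlim : Tendsto (fun n : ℕ => 3 * C * (2 * D + 1) * (Real.log n / n)) atTop (𝓝 0) := by
    have h1 : Tendsto (fun x : ℝ => Real.log x / x) atTop (𝓝 0) := by
      simpa using Real.isLittleO_log_id_atTop.tendsto_div_nhds_zero
    have h2 := (h1.comp tendsto_natCast_atTop_atTop).const_mul (3 * C * (2 * D + 1))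
    simpa using h2
  obtain ⟨n₁, hn₁⟩ := eventually_atTop.1 (hlim.eventually (ge_mem_nhds (zero_lt_one' ℝ)))
  refine ⟨3 * C * (2 * D + 1), by positivity, max n₁ 2, ?_⟩
  intro P Q hcls n hn
  have hn1 := hn₁ n (le_of_max_le_left hn)
  have hn2 : 2 ≤ n := le_of_max_le_right hn
  have hn2' : (2 : ℝ) ≤ n := by exact_mod_cast hn2
  have hln : 0 < Real.log n := Real.log_pos (by linarith)
  set v : ℝ := C * (Real.log n / n) with hv
  have hv0 : 0 < v := by rw [hv]; positivity
  obtain ⟨hcop, hdeg, -⟩ := id hcls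
  have hcard := card_radii hcop (by omega : 1 ≤ max P.natDegree Q.natDegree)
  rw [hdeg] at hcard
  -- pigeonhole
  have hgood : ∃ j ∈ Finset.range (2 * D + 2), ∀ e ∈ radii P Q, v ≤ |(1 + 3 * v * j) - e| := by
    by_contra hno
    push Not at hno
    choose! g hg1 hg2 using hno
    obtain ⟨i, hi, j, hj, hij, hgij⟩ := Finset.exists_ne_map_eq_of_card_lt_of_maps_to
      (s := Finset.range (2 * D + 2)) (t := radii P Q) (by rw [Finset.card_range]; omega) hg1
    have a1 := hg2 i hi
    have a2 := hg2 j hj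
    rw [hgij] at a1
    have a3 : |3 * v * i - 3 * v * j| < 2 * v := by
      calc |3 * v * (i : ℝ) - 3 * v * j| = |((1 + 3 * v * i) - g j) - ((1 + 3 * v * j) - g j)| := by
            congr 1; ring
        _ ≤ |(1 + 3 * v * i) - g j| + |(1 + 3 * v * j) - g j| := abs_sub _ _
        _ < 2 * v := by linarith
    have a4 : (1 : ℝ) ≤ |(i : ℝ) - j| := by
      have : (1 : ℤ) ≤ |(i : ℤ) - j| := by
        apply Int.one_le_abs
        intro h
        apply hij
        omega
      exact_mod_cast this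
    have a5 : |3 * v * (i : ℝ) - 3 * v * j| = 3 * v * |(i : ℝ) - j| := by
      rw [← mul_sub, abs_mul, abs_of_pos (by positivity : 0 < 3 * v)]
    rw [a5] at a3
    nlinarith
  obtain ⟨j, hj, hgj⟩ := hgood
  have hjD : (j : ℝ) ≤ 2 * D + 1 := by
    have := Finset.mem_range.1 hj
    have h2 : j ≤ 2 * D + 1 := by omega
    exact_mod_cast h2
  have hj0 : (0 : ℝ) ≤ j := Nat.cast_nonneg j
  have hup : 3 * v * j ≤ 3 * C * (2 * D + 1) * (Real.log n / n) := by
    calc 3 * v * j ≤ 3 * v * (2 * D + 1) := by gcongr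
      _ = _ := by rw [hv]; ring
  have hs0 : 0 ≤ 3 * v * j := by positivity
  refine ⟨1 + 3 * v * j, by linarith, by linarith, ?_⟩
  have hnorm : ‖((1 + 3 * v * j : ℝ) : ℂ)‖ = 1 + 3 * v * j := by
    rw [Complex.norm_real, Real.norm_eq_abs, abs_of_nonneg (by linarith)]
  refine hC P Q (hcls.mono (by linarith) (by linarith)) n hn2 _ ?_ ?_ ?_
  · rw [hnorm]
    have : (M + 1)⁻¹ ≤ 1 := inv_le_one_of_one_le₀ (by linarith)
    linarith
  · rw [hnorm]; linarith
  · intro e he
    rw [hnorm]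
    exact hgj e he

end Pool.Agent.H762R2.Rt
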