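import Pool.Agent.H762R2.Polar

set_option autoImplicit false

open Set Filter Topology Metric MeasureTheory Complex
open scoped ENNReal Real

namespace Pool.Agent.H762R2

/-- the lower integral of an elementary function over an interval -/
theorem lint_Ioo {f F : ℝ → ℝ} {a b : ℝ} (hab : a ≤ b) (hf : ContinuousOn f (Icc a b))
    (hf0 : ∀ x ∈ Icc a b, 0 ≤ f x) (hF : ∀ x ∈ Icc a b, HasDerivAt F (f x) x) :
    ∫⁻ r in Ioo a b, ENNReal.ofReal (f r) = ENNReal.ofReal (F b - F a) := by
  have hint : IntervalIntegrable f volume a b := by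
    apply ContinuousOn.intervalIntegrable
    rwa [uIcc_of_le hab]
  have h1 : ∫ x in a..b, f x = F b - F a := by
    apply intervalIntegral.integral_eq_sub_of_hasDerivAt
    · intro x hx
      rw [uIcc_of_le hab] at hx
      exact hF x hx
    · exact hint
  rw [← h1, intervalIntegral.integral_of_le hab, Measure.restrict_congr_set Ioo_ae_eq_Ioc,
    ofReal_integral_eq_lintegral_ofReal]
  · exact (intervalIntegrable_iff_integrableOn_Ioc_of_le hab).1 hint
  · rw [Filter.EventuallyLE, ae_restrict_iff' measurableSet_Ioc]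
    exact Filter.Eventually.of_forall fun x hx => hf0 x (Ioc_subset_Icc_self hx)

theorem lower_id {W : Set ℂ} (hW : IsOpen W) {R : ℝ} (hsub : W ⊆ ball 0 R) {T : Set ℝ}
    (hT : T.Countable) (hcirc : ∀ r : ℝ, 0 < r → r < R → r ∉ T → ∀ w : ℂ, ‖w‖ = r → w ∈ W)
    {k : ℂ → ℂ} (hk : ContinuousOn k W)
    (hk0 : ∀ r : ℝ, 0 < r → r < R → r ∉ T → ∫ θ in (-π)..π, pc r θ * k (pc r θ) = 0)
    {ε : ℝ} (hε : 0 < ε) (hεR : ε < R) :
    ∫⁻ w in W \ closedBall 0 ε, ENNReal.ofReal (‖1 + w * k w‖ ^ 2 / ‖w‖ ^ 2) =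
      ENNReal.ofReal (2 * π * Real.log (R / ε)) +
        ∫⁻ w in W \ closedBall 0 ε, ENNReal.ofReal (‖k w‖ ^ 2) := by
  set S := W \ closedBall (0 : ℂ) ε with hS
  have hSo : IsOpen S := hW.sdiff isClosed_closedBall
  have hSm : MeasurableSet S := hSo.measurableSet
  have hSW : S ⊆ W := sdiff_subset
  have hS0 : ∀ w ∈ S, ‖w‖ ≠ 0 := by
    intro w hw h0
    apply hw.2
    rw [mem_closedBall_zero_iff, h0]
    exact hε.le
  have hkS : ContinuousOn k S := hk.mono hSW
  have hg1 : ContinuousOn (fun w => ENNReal.ofReal (‖1 + w * k w‖ ^ 2 / ‖w‖ ^ 2)) S := by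
    apply ENNReal.continuous_ofReal.comp_continuousOn
    apply ContinuousOn.div
    · exact ((continuousOn_const.add (continuousOn_id.mul hkS)).norm).pow 2
    · exact (continuous_norm.continuousOn).pow 2
    · intro w hw
      exact pow_ne_zero 2 (hS0 w hw)
  have hg2 : ContinuousOn (fun w => ENNReal.ofReal (‖k w‖ ^ 2)) S :=
    ENNReal.continuous_ofReal.comp_continuousOn (hkS.norm.pow 2)
  rw [lint_polar hSm hg1, lint_polar hSm hg2]
  have hlog : ∫⁻ r in Ioi (0 : ℝ), (Ioo ε R).indicator (fun r => ENNReal.ofReal (2 * π / r)) r =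
      ENNReal.ofReal (2 * π * Real.log (R / ε)) := by
    rw [lintegral_indicator measurableSet_Ioo, Measure.restrict_restrict measurableSet_Ioo]
    have h1 : Ioo ε R ∩ Ioi 0 = Ioo ε R := by
      apply inter_eq_left.2
      intro x hx
      exact hε.trans hx.1
    rw [h1, lint_Ioo (F := fun r => 2 * π * Real.log r) hεR.le]
    · congr 1
      rw [Real.log_div (hε.trans hεR).ne' hε.ne']
      ring
    · apply ContinuousOn.div continuousOn_const continuousOn_id
      intro x hx
      exact (hε.trans_le hx.1).ne'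
    · intro x hx
      have : 0 < x := hε.trans_le hx.1
      positivity
    · intro x hx
      have : x ≠ 0 := (hε.trans_le hx.1).ne'
      have h2 := (Real.hasDerivAt_log this).const_mul (2 * π)
      rwa [← div_eq_mul_inv] at h2
  rw [← hlog, ← lintegral_add_left]
  swap
  · apply Measurable.indicator _ measurableSet_Ioo
    exact (measurable_const.div measurable_id).ennreal_ofReal
  apply lintegral_congr_ae
  have hae : ∀ᵐ r ∂(volume.restrict (Ioi (0 : ℝ))), r ∉ T :=
    ae_restrict_of_ae (hT.ae_notMem volume)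
  filter_upwards [hae, ae_restrict_mem measurableSet_Ioi] with r hrT hr0
  have hr0' : 0 < r := hr0
  by_cases hr : r ∈ Ioo ε R
  · have hcW : ∀ θ, pc r θ ∈ S := by
      intro θ
      refine ⟨hcirc r hr0' hr.2 hrT _ (norm_pc hr0'.le θ), ?_⟩
      rw [mem_closedBall_zero_iff, norm_pc hr0'.le]
      exact not_le.2 hr.1
    set x : ℝ → ℂ := fun θ => pc r θ * k (pc r θ) with hx
    have hpc : Continuous (fun θ => pc r θ) :=
      continuous_pc.comp (continuous_const.prodMk continuous_id)
    have hxc : Continuous x := by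
      apply hpc.mul
      rw [continuous_iff_continuousAt]
      intro θ
      exact (hkS.continuousAt (hSo.mem_nhds (hcW θ))).comp hpc.continuousAt
    have h1 := circle_lint hxc (hk0 r hr0' hr.2 hrT)
    have e1 : ∫⁻ θ in Ioo (-π) π, S.indicator
        (fun w => ENNReal.ofReal (‖1 + w * k w‖ ^ 2 / ‖w‖ ^ 2)) (pc r θ) =
        ENNReal.ofReal (1 / r ^ 2) * ∫⁻ θ in Ioo (-π) π, ENNReal.ofReal (‖1 + x θ‖ ^ 2) := by
      rw [← lintegral_const_mul _ (by fun_prop)]
      apply lintegral_congr
      intro θ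
      rw [indicator_of_mem (hcW θ), ← ENNReal.ofReal_mul (by positivity), norm_pc hr0'.le]
      congr 1
      ring
    have e2 : ∫⁻ θ in Ioo (-π) π, S.indicator (fun w => ENNReal.ofReal (‖k w‖ ^ 2)) (pc r θ) =
        ENNReal.ofReal (1 / r ^ 2) * ∫⁻ θ in Ioo (-π) π, ENNReal.ofReal (‖x θ‖ ^ 2) := by
      rw [← lintegral_const_mul _ (by fun_prop)]
      apply lintegral_congr
      intro θ
      rw [indicator_of_mem (hcW θ), ← ENNReal.ofReal_mul (by positivity)]
      congr 1
      simp only [hx]
      rw [norm_mul, norm_pc hr0'.le]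
      field_simp
    rw [e1, e2, h1, indicator_of_mem hr, mul_add, mul_add]
    congr 1
    rw [← ENNReal.ofReal_mul (by positivity), ← ENNReal.ofReal_mul (by positivity)]
    congr 1
    field_simp
  · have hz : ∀ (g : ℂ → ℝ≥0∞), ∫⁻ θ in Ioo (-π) π, S.indicator g (pc r θ) = 0 := by
      intro g
      have : ∀ θ, S.indicator g (pc r θ) = 0 := by
        intro θ
        apply indicator_of_notMem
        rintro ⟨h1, h2⟩
        apply hr
        have h3 := hsub h1
        rw [mem_ball_zero_iff, norm_pc hr0'.le] at h3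
        rw [mem_closedBall_zero_iff, norm_pc hr0'.le, not_le] at h2
        exact ⟨h2, h3⟩
      simp [this]
    rw [hz, hz, indicator_of_notMem hr]
    simp

theorem upper_bd {E : Set ℂ} (hE : MeasurableSet E) {δ ρ : ℝ} (hδ : 0 < δ) (hδρ : δ < ρ)
    (hEδ : ∀ v ∈ E, δ ≤ ‖v‖) (hvol : volume E ≤ ENNReal.ofReal (π * ρ ^ 2)) :
    ∫⁻ v in E, ENNReal.ofReal (1 / ‖v‖ ^ 2) ≤
      ENNReal.ofReal (2 * π * Real.log (ρ / δ) + π * δ ^ 2 / ρ ^ 2) := by
  have hρ : 0 < ρ := hδ.trans hδρ
  set S : Set ℂ := ball 0 ρ \ closedBall 0 δ with hS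
  have hSm : MeasurableSet S := (isOpen_ball.sdiff isClosed_closedBall).measurableSet
  set g : ℂ → ℝ≥0∞ := fun v => ENNReal.ofReal (1 / ‖v‖ ^ 2 - 1 / ρ ^ 2) with hg
  have hgS : ContinuousOn g S := by
    apply ENNReal.continuous_ofReal.comp_continuousOn
    apply ContinuousOn.sub _ continuousOn_const
    apply ContinuousOn.div continuousOn_const ((continuous_norm.continuousOn).pow 2)
    intro w hw
    apply pow_ne_zero
    intro h0
    have h0' : ‖w‖ = 0 := h0
    apply hw.2
    rw [mem_closedBall_zero_iff, h0']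
    exact hδ.le
  have h1 : ∫⁻ v in E, ENNReal.ofReal (1 / ‖v‖ ^ 2) ≤
      ∫⁻ v in E, (ENNReal.ofReal (1 / ρ ^ 2) + S.indicator g v) := by
    have hsph : ∀ᵐ v : ℂ, v ∉ sphere (0 : ℂ) δ := by
      rw [ae_iff]
      simp only [not_not]
      exact Measure.addHaar_sphere volume (0 : ℂ) δ
    apply setLIntegral_mono_ae'  hE
    filter_upwards [hsph] with v hvs hvE
    have hvδ := hEδ v hvE
    by_cases hv : v ∈ S
    · rw [indicator_of_mem hv, ← ENNReal.ofReal_add (by positivity)]
      · apply ENNReal.ofReal_le_ofReal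
        linarith
      · rw [sub_nonneg]
        have h2 := hv.1
        rw [mem_ball_zero_iff] at h2
        have h3 : 0 < ‖v‖ := hδ.trans_le hvδ
        gcongr
    · rw [indicator_of_notMem hv, add_zero]
      apply ENNReal.ofReal_le_ofReal
      have h2 : ρ ≤ ‖v‖ := by
        by_contra hcon
        push Not at hcon
        apply hv
        refine ⟨by rwa [mem_ball_zero_iff], ?_⟩
        rw [mem_closedBall_zero_iff, not_le]
        apply lt_of_le_of_ne hvδ
        intro h
        exact hvs (by rw [mem_sphere_zero_iff_norm, h])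
      gcongr
  have h2 : ∫⁻ v in E, (ENNReal.ofReal (1 / ρ ^ 2) + S.indicator g v) ≤
      ENNReal.ofReal π + ∫⁻ v in S, g v := by
    rw [lintegral_add_left measurable_const]
    refine add_le_add ?_ ?_
    · rw [lintegral_const, Measure.restrict_apply_univ]
      calc ENNReal.ofReal (1 / ρ ^ 2) * volume E ≤ ENNReal.ofReal (1 / ρ ^ 2) * ENNReal.ofReal (π * ρ ^ 2) := by
            gcongr
        _ = ENNReal.ofReal π := by
            rw [← ENNReal.ofReal_mul (by positivity)]
            congr 1
            field_simp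
    · rw [← lintegral_indicator hSm]
      exact setLIntegral_le_lintegral _ _
  have h3 : ∫⁻ v in S, g v = ENNReal.ofReal (2 * π * Real.log (ρ / δ) - π * (ρ ^ 2 - δ ^ 2) / ρ ^ 2) := by
    rw [lint_polar hSm hgS]
    have e1 : ∀ r ∈ Ioi (0 : ℝ), ENNReal.ofReal r * ∫⁻ θ in Ioo (-π) π, S.indicator g (pc r θ) =
        (Ioo δ ρ).indicator (fun r => ENNReal.ofReal (2 * π * (1 / r - r / ρ ^ 2))) r := by
      intro r hr
      have hr' : 0 < r := hr
      by_cases h : r ∈ Ioo δ ρ
      · rw [indicator_of_mem h]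
        have e2 : ∀ θ, S.indicator g (pc r θ) = ENNReal.ofReal (1 / r ^ 2 - 1 / ρ ^ 2) := by
          intro θ
          rw [indicator_of_mem]
          · simp only [hg]
            rw [norm_pc hr'.le]
          · refine ⟨?_, ?_⟩
            · rw [mem_ball_zero_iff, norm_pc hr'.le]; exact h.2
            · rw [mem_closedBall_zero_iff, norm_pc hr'.le]; exact not_le.2 h.1
        simp_rw [e2]
        rw [lintegral_const, Measure.restrict_apply_univ, Real.volume_Ioo,
          ← ENNReal.ofReal_mul, ← ENNReal.ofReal_mul hr'.le]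
        · congr 1
          field_simp
          ring
        · rw [sub_nonneg]
          have := h.2.le
          gcongr
      · rw [indicator_of_notMem h]
        have e2 : ∀ θ, S.indicator g (pc r θ) = 0 := by
          intro θ
          apply indicator_of_notMem
          rintro ⟨h1, h2⟩
          apply h
          rw [mem_ball_zero_iff, norm_pc hr'.le] at h1
          rw [mem_closedBall_zero_iff, norm_pc hr'.le, not_le] at h2
          exact ⟨h2, h1⟩
        simp [e2]
    rw [setLIntegral_congr_fun measurableSet_Ioi e1, lintegral_indicator measurableSet_Ioo,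
      Measure.restrict_restrict measurableSet_Ioo]
    have h4 : Ioo δ ρ ∩ Ioi 0 = Ioo δ ρ := by
      apply inter_eq_left.2
      intro x hx
      exact hδ.trans hx.1
    rw [h4, lint_Ioo (F := fun r => 2 * π * (Real.log r - r ^ 2 / (2 * ρ ^ 2))) hδρ.le]
    · congr 1
      rw [Real.log_div hρ.ne' hδ.ne']
      field_simp
      ring
    · apply ContinuousOn.mul continuousOn_const
      apply ContinuousOn.sub
      · apply ContinuousOn.div continuousOn_const continuousOn_id
        intro x hx
        exact (hδ.trans_le hx.1).ne'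
      · fun_prop
    · intro x hx
      have hx0 : 0 < x := hδ.trans_le hx.1
      have : 0 ≤ 1 / x - x / ρ ^ 2 := by
        rw [sub_nonneg, div_le_div_iff₀ (by positivity) hx0]
        nlinarith [hx.2]
      positivity
    · intro x hx
      have hx0 : 0 < x := hδ.trans_le hx.1
      have h5 := ((Real.hasDerivAt_log hx0.ne').sub ((hasDerivAt_pow 2 x).div_const (2 * ρ ^ 2))).const_mul (2 * π)
      refine h5.congr_deriv ?_
      field_simp
      ring
  refine h1.trans (h2.trans ?_)
  rw [h3, ← ENNReal.ofReal_add Real.pi_pos.le]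
  · apply ENNReal.ofReal_le_ofReal
    apply le_of_eq
    field_simp
    ring
  · have h5 : Real.log (ρ / δ) ≥ 1 - (ρ / δ)⁻¹ := Real.one_sub_inv_le_log_of_pos (by positivity)
    have h6 : Real.log (ρ / δ) ≥ (1 - (δ / ρ) ^ 2) / 2 := by
      have h7 := Real.one_sub_inv_le_log_of_pos (show 0 < (ρ / δ) ^ 2 by positivity)
      rw [Real.log_pow] at h7
      have h8 : ((ρ / δ) ^ 2)⁻¹ = (δ / ρ) ^ 2 := by
        field_simp
      rw [h8] at h7
      push_cast at h7
      linarith
    have h9 : π * (ρ ^ 2 - δ ^ 2) / ρ ^ 2 = π * (1 - (δ / ρ) ^ 2) := by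
      field_simp
    rw [h9]
    nlinarith [Real.pi_pos]

end Pool.Agent.H762R2
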