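import Pool.Agent.H762R2.AI1
import Pool.Agent.Helper405.AreaA

set_option autoImplicit false

open Set Filter Topology Metric MeasureTheory Complex
open scoped ENNReal Real

namespace Pool.Agent.H762R2

open Pool.Agent.Helper405.Conv (inv_facts deriv_ne_zero_of_injOn)

/-- change of variables for conformal maps -/
theorem lint_image {S : Set ℂ} (hS : IsOpen S) {Φ : ℂ → ℂ} (hΦ : DifferentiableOn ℂ Φ S)
    (hi : InjOn Φ S) (g : ℂ → ℝ≥0∞) :
    ∫⁻ v in Φ '' S, g v = ∫⁻ w in S, ENNReal.ofReal (‖deriv Φ w‖ ^ 2) * g (Φ w) := by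
  rw [lintegral_image_eq_lintegral_abs_det_fderiv_mul volume hS.measurableSet
    (f' := fun w => (ContinuousLinearMap.toSpanSingleton ℂ (deriv Φ w)).restrictScalars ℝ) _ hi]
  · apply setLIntegral_congr_fun hS.measurableSet
    intro w _
    simp only
    rw [Pool.Agent.Helper405.Area.det_mul, abs_of_nonneg (by positivity)]
  · intro w hw
    exact ((hΦ.differentiableAt (hS.mem_nhds hw)).hasDerivAt.hasFDerivAt.restrictScalars ℝ).hasFDerivWithinAt

theorem near_zero {Φ : ℂ → ℂ} (hΦ : HasDerivAt Φ 1 0) (hΦ0 : Φ 0 = 0) {η : ℝ} (hη : 0 < η) :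
    ∀ᶠ w in 𝓝 (0 : ℂ), (1 - η) * ‖w‖ ≤ ‖Φ w‖ := by
  have h1 := (hasDerivAt_iff_isLittleO.1 hΦ).def hη
  filter_upwards [h1] with w hw
  simp only [hΦ0, sub_zero, smul_eq_mul, mul_one] at hw
  have h2 : ‖w‖ ≤ ‖Φ w‖ + ‖Φ w - w‖ := by
    have := norm_sub_norm_le w (Φ w)
    rw [norm_sub_rev w (Φ w)] at this
    linarith
  nlinarith

theorem ball_sub_image {W : Set ℂ} {Φ : ℂ → ℂ} (hΦ : DifferentiableOn ℂ Φ W)
    (hi : InjOn Φ W) (hΦ0 : Φ 0 = 0) {ε δ : ℝ} (hε : 0 < ε) (hδ : 0 < δ)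
    (hεW : closedBall 0 ε ⊆ W) (h : ∀ w : ℂ, ‖w‖ = ε → δ ≤ ‖Φ w‖) :
    ball 0 δ ⊆ Φ '' ball 0 ε := by
  have hbW : ball (0 : ℂ) ε ⊆ W := ball_subset_closedBall.trans hεW
  have ho : IsOpen (Φ '' ball 0 ε) := (inv_facts isOpen_ball (hΦ.mono hbW) (hi.mono hbW)).1
  apply (convex_ball (0 : ℂ) δ).isPreconnected.subset_of_closure_inter_subset ho
  · exact ⟨0, mem_ball_self hδ, 0, mem_ball_self hε, hΦ0⟩
  · rintro v ⟨hv1, hv2⟩
    have hk : IsClosed (Φ '' closedBall 0 ε) :=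
      ((isCompact_closedBall (0 : ℂ) ε).image_of_continuousOn (hΦ.continuousOn.mono hεW)).isClosed
    have h1 : v ∈ Φ '' closedBall 0 ε :=
      closure_minimal (image_mono ball_subset_closedBall) hk hv1
    obtain ⟨w, hw, rfl⟩ := h1
    refine ⟨w, ?_, rfl⟩
    rw [mem_closedBall_zero_iff] at hw
    rw [mem_ball_zero_iff]
    rcases hw.lt_or_eq with h2 | h2
    · exact h2
    · exfalso
      have h3 := h w h2
      rw [mem_ball_zero_iff] at hv2
      linarith

theorem eq_id_of_ode {W : Set ℂ} (hW : IsOpen W) (hWc : IsPreconnected W) (h0 : (0 : ℂ) ∈ W)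
    {Φ : ℂ → ℂ} (hΦ : DifferentiableOn ℂ Φ W) (hΦ0 : Φ 0 = 0) (hΦ1 : deriv Φ 0 = 1)
    (h : ∀ w ∈ W, w * deriv Φ w = Φ w) : ∀ w ∈ W, Φ w = w := by
  obtain ⟨r, hr, hrW⟩ := Metric.isOpen_iff.1 hW 0 h0
  have hd0 : HasDerivAt Φ 1 0 := by
    rw [← hΦ1]
    exact (hΦ.differentiableAt (hW.mem_nhds h0)).hasDerivAt
  have hball : ∀ w ∈ ball (0 : ℂ) r, Φ w = w := by
    intro w hw
    rw [mem_ball_zero_iff] at hw
    -- the function t ↦ Φ (t w) / t is constant on (0, 1]
    have hmem : ∀ t ∈ Ioc (0 : ℝ) 1, (t : ℂ) * w ∈ W := by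
      intro t ht
      apply hrW
      rw [mem_ball_zero_iff, norm_mul, Complex.norm_real, Real.norm_of_nonneg ht.1.le]
      nlinarith [norm_nonneg w, ht.2]
    have hder : ∀ t ∈ Ioc (0 : ℝ) 1, HasDerivAt (fun t : ℝ => Φ ((t : ℂ) * w) / (t : ℂ)) 0 t := by
      intro t ht
      have ht0 : (t : ℂ) ≠ 0 := by exact_mod_cast ht.1.ne'
      have e1 : HasDerivAt (fun t : ℝ => (t : ℂ) * w) w t := by
        have := (Complex.ofRealCLM.hasDerivAt (x := t)).mul_const w
        simpa using this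
      have e2 : HasDerivAt (fun t : ℝ => Φ ((t : ℂ) * w)) (deriv Φ ((t : ℂ) * w) * w) t :=
        (hΦ.differentiableAt (hW.mem_nhds (hmem t ht))).hasDerivAt.comp t e1
      have e3 : HasDerivAt (fun t : ℝ => (t : ℂ)) 1 t := by
        simpa using (hasDerivAt_id t).ofReal_comp
      refine (e2.div e3 ht0).congr_deriv ?_
      have e4 := h _ (hmem t ht)
      rw [div_eq_zero_iff]
      left
      linear_combination e4
    have hconst : ∀ t ∈ Ioc (0 : ℝ) 1, Φ ((t : ℂ) * w) / (t : ℂ) = Φ w := by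
      intro t ht
      have h5 : Convex ℝ (Ioc (0 : ℝ) 1) := convex_Ioc 0 1
      have h6 := h5.norm_image_sub_le_of_norm_hasDerivWithin_le (f := fun t : ℝ => Φ ((t : ℂ) * w) / (t : ℂ))
        (f' := fun _ => 0) (C := 0) (fun x hx => (hder x hx).hasDerivWithinAt) (fun x _ => by simp)
        (show (1 : ℝ) ∈ Ioc (0 : ℝ) 1 by simp) ht
      simp only [zero_mul, norm_le_zero_iff, sub_eq_zero] at h6
      rw [h6]
      simp
    have hlim : Tendsto (fun t : ℝ => Φ ((t : ℂ) * w) / (t : ℂ)) (𝓝[>] 0) (𝓝 w) := by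
      have e1 : HasDerivAt (fun t : ℝ => (t : ℂ) * w) w 0 := by
        have := (Complex.ofRealCLM.hasDerivAt (x := (0 : ℝ))).mul_const w
        simpa using this
      have e2 : HasDerivAt (fun t : ℝ => Φ ((t : ℂ) * w)) (1 * w) 0 := by
        apply HasDerivAt.comp (h₂ := Φ) (0 : ℝ) _ e1
        simpa using hd0
      have e3 := (hasDerivAt_iff_tendsto_slope.1 e2).mono_left
        (nhdsWithin_mono (0 : ℝ) (fun x (hx : 0 < x) => hx.ne'))
      rw [one_mul] at e3
      refine e3.congr' ?_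
      filter_upwards [self_mem_nhdsWithin] with t ht
      simp only [slope, vsub_eq_sub, sub_zero, ofReal_zero, zero_mul, hΦ0]
      rw [Complex.real_smul, Complex.ofReal_inv]
      field_simp
    have hlim2 : Tendsto (fun t : ℝ => Φ ((t : ℂ) * w) / (t : ℂ)) (𝓝[>] 0) (𝓝 (Φ w)) := by
      refine tendsto_const_nhds.congr' ?_
      filter_upwards [Ioc_mem_nhdsGT (show (0 : ℝ) < 1 by norm_num)] with t ht
      exact (hconst t ht).symm
    exact tendsto_nhds_unique hlim2 hlim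
  have ha : AnalyticOnNhd ℂ Φ W := hΦ.analyticOnNhd hW
  have hb : AnalyticOnNhd ℂ (fun w : ℂ => w) W := analyticOnNhd_id
  have hev : Φ =ᶠ[𝓝 0] fun w => w := by
    filter_upwards [ball_mem_nhds (0 : ℂ) hr] with w hw using hball w hw
  intro w hw
  exact ha.eqOn_of_preconnected_of_eventuallyEq hb hWc h0 hev hw

/-- Area inequality for circular slit discs, with the case of equality. -/
theorem area_main {W : Set ℂ} (hW : IsOpen W) (hWc : IsConnected W) (h0 : (0 : ℂ) ∈ W) {R : ℝ}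
    (hR : 0 < R) (hsub : W ⊆ ball 0 R) {T : Set ℝ} (hT : T.Countable)
    (hcirc : ∀ r : ℝ, 0 < r → r < R → r ∉ T → ∀ w : ℂ, ‖w‖ = r → w ∈ W)
    {Φ k : ℂ → ℂ} (hΦ : DifferentiableOn ℂ Φ W) (hi : InjOn Φ W) (hΦ0 : Φ 0 = 0)
    (hΦ1 : deriv Φ 0 = 1) (hk : ContinuousOn k W)
    (hΦk : ∀ w ∈ W, w * deriv Φ w = Φ w * (1 + w * k w))
    (hk0 : ∀ r : ℝ, 0 < r → r < R → r ∉ T → ∫ θ in (-π)..π, pc r θ * k (pc r θ) = 0) :
    ENNReal.ofReal (π * R ^ 2) ≤ volume (Φ '' W) ∧
      (volume (Φ '' W) = ENNReal.ofReal (π * R ^ 2) → ∀ w ∈ W, Φ w = w) := by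
  by_cases htop : volume (Φ '' W) = ⊤
  · refine ⟨by rw [htop]; exact le_top, fun h => ?_⟩
    rw [htop] at h
    exact absurd h.symm ENNReal.ofReal_ne_top
  have hEo : IsOpen (Φ '' W) := (inv_facts hW hΦ hi).1
  have hEpos : 0 < (volume (Φ '' W)).toReal := by
    apply ENNReal.toReal_pos _ htop
    exact (hEo.measure_pos volume ⟨_, 0, h0, rfl⟩).ne'
  set ρ : ℝ := Real.sqrt ((volume (Φ '' W)).toReal / π) with hρd
  have hρ : 0 < ρ := Real.sqrt_pos.2 (div_pos hEpos Real.pi_pos)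
  have hρ2 : π * ρ ^ 2 = (volume (Φ '' W)).toReal := by
    rw [hρd, Real.sq_sqrt (div_pos hEpos Real.pi_pos).le]
    field_simp
  have hvol : volume (Φ '' W) = ENNReal.ofReal (π * ρ ^ 2) := by
    rw [hρ2, ENNReal.ofReal_toReal htop]
  set K : ℝ → ℝ≥0∞ := fun ε => ∫⁻ w in W \ closedBall 0 ε, ENNReal.ofReal (‖k w‖ ^ 2) with hK
  have hKmono : ∀ ε ε' : ℝ, ε ≤ ε' → K ε' ≤ K ε := by
    intro ε ε' h
    apply lintegral_mono_set
    exact sdiff_subset_sdiff_right (closedBall_subset_closedBall h)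
  have hd0 : HasDerivAt Φ 1 0 := by
    rw [← hΦ1]
    exact (hΦ.differentiableAt (hW.mem_nhds h0)).hasDerivAt
  -- the basic inequality
  have basic : ∀ η : ℝ, 0 < η → η < 1 → ∃ ε0 > 0, ∀ ε : ℝ, 0 < ε → ε < ε0 →
      ENNReal.ofReal (2 * π * Real.log (R / ε)) + K ε ≤
        ENNReal.ofReal (2 * π * Real.log (ρ / ((1 - η) * ε)) + π * ((1 - η) * ε) ^ 2 / ρ ^ 2) := by
    intro η hη hη1
    obtain ⟨r1, hr1, hr1W⟩ := Metric.isOpen_iff.1 hW 0 h0
    obtain ⟨r2, hr2, hr2'⟩ := Metric.eventually_nhds_iff.1 (near_zero hd0 hΦ0 hη)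
    refine ⟨min (min r1 r2) (min ρ R), by positivity, ?_⟩
    intro ε hε hε0
    have hεr1 : ε < r1 := hε0.trans_le ((min_le_left _ _).trans (min_le_left _ _))
    have hεr2 : ε < r2 := hε0.trans_le ((min_le_left _ _).trans (min_le_right _ _))
    have hερ : ε < ρ := hε0.trans_le ((min_le_right _ _).trans (min_le_left _ _))
    have hεR : ε < R := hε0.trans_le ((min_le_right _ _).trans (min_le_right _ _))
    have hη' : 0 < 1 - η := by linarith
    set δ : ℝ := (1 - η) * ε with hδd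
    have hδ : 0 < δ := by positivity
    have hδρ : δ < ρ := by
      refine lt_of_le_of_lt ?_ hερ
      rw [hδd]; nlinarith
    have hcW : closedBall (0 : ℂ) ε ⊆ W := (closedBall_subset_ball hεr1).trans hr1W
    have hlow : ∀ w : ℂ, ‖w‖ = ε → δ ≤ ‖Φ w‖ := by
      intro w hw
      have := hr2' (show dist w 0 < r2 by rw [dist_zero_right, hw]; exact hεr2)
      rwa [hw] at this
    have hballsub := ball_sub_image hΦ hi hΦ0 hε hδ hcW hlow
    set S := W \ closedBall (0 : ℂ) ε with hS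
    have hSo : IsOpen S := hW.sdiff isClosed_closedBall
    have hSW : S ⊆ W := sdiff_subset
    have hESo : IsOpen (Φ '' S) := (inv_facts hSo (hΦ.mono hSW) (hi.mono hSW)).1
    have hEδ : ∀ v ∈ Φ '' S, δ ≤ ‖v‖ := by
      rintro v ⟨w, hw, rfl⟩
      by_contra hcon
      push Not at hcon
      obtain ⟨w', hw', he⟩ := hballsub (mem_ball_zero_iff.2 hcon)
      have hw'W : w' ∈ W := hcW (ball_subset_closedBall hw')
      have := hi hw'W hw.1 he
      rw [this] at hw'
      exact hw.2 (ball_subset_closedBall hw')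
    have hup := upper_bd hESo.measurableSet hδ hδρ hEδ
      ((measure_mono (image_mono hSW)).trans hvol.le)
    have hlo := lower_id hW hsub hT hcirc hk hk0 hε hεR
    rw [lint_image hSo (hΦ.mono hSW) (hi.mono hSW)] at hup
    have hcongr : ∫⁻ w in S, ENNReal.ofReal (‖deriv Φ w‖ ^ 2) * ENNReal.ofReal (1 / ‖Φ w‖ ^ 2) =
        ∫⁻ w in S, ENNReal.ofReal (‖1 + w * k w‖ ^ 2 / ‖w‖ ^ 2) := by
      apply setLIntegral_congr_fun hSo.measurableSet
      intro w hw
      simp only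
      rw [← ENNReal.ofReal_mul (by positivity)]
      congr 1
      have hΦw : ‖Φ w‖ ≠ 0 := (hδ.trans_le (hEδ _ ⟨w, hw, rfl⟩)).ne'
      have hw0 : ‖w‖ ≠ 0 := by
        intro h
        apply hw.2
        rw [mem_closedBall_zero_iff, h]
        exact hε.le
      have h3 := congrArg norm (hΦk w hw.1)
      rw [norm_mul, norm_mul] at h3
      have h4 : ‖deriv Φ w‖ = ‖Φ w‖ * ‖1 + w * k w‖ / ‖w‖ := by
        rw [eq_div_iff hw0, ← h3]; ring
      rw [h4]
      field_simp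
    rw [hcongr, hlo] at hup
    exact hup
  have key : ∀ ε1 : ℝ, 0 < ε1 → ∀ τ : ℝ, 0 < τ →
      K ε1 ≠ ⊤ ∧ 2 * π * Real.log R + (K ε1).toReal ≤ 2 * π * Real.log ρ + τ := by
    intro ε1 hε1 τ hτ
    -- choose η
    obtain ⟨η, hη, hη1, hητ⟩ : ∃ η : ℝ, 0 < η ∧ η < 1 ∧ -(2 * π * Real.log (1 - η)) ≤ τ / 2 := by
      have hc : ContinuousAt (fun η : ℝ => -(2 * π * Real.log (1 - η))) 0 := by
        have : ContinuousAt (fun η : ℝ => Real.log (1 - η)) 0 :=
          (Real.continuousAt_log (by norm_num)).comp (by fun_prop)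
        fun_prop
      have h1 : ∀ᶠ η in 𝓝 (0 : ℝ), -(2 * π * Real.log (1 - η)) < τ / 2 := by
        apply hc.eventually_lt_const
        simp [hτ]
      obtain ⟨r, hr, hr'⟩ := Metric.eventually_nhds_iff.1 h1
      refine ⟨min (r / 2) (1 / 2), by positivity, ?_, ?_⟩
      · exact lt_of_le_of_lt (min_le_right _ _) (by norm_num)
      · apply le_of_lt
        apply hr'
        rw [Real.dist_eq, sub_zero, abs_of_pos (by positivity)]
        exact lt_of_le_of_lt (min_le_left _ _) (by linarith)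
    obtain ⟨ε0, hε0, hb⟩ := basic η hη hη1
    obtain ⟨ε, hε, hεε0, hεε1, hετ, hεR⟩ : ∃ ε : ℝ, 0 < ε ∧ ε < ε0 ∧ ε ≤ ε1 ∧ π * ε ^ 2 / ρ ^ 2 ≤ τ / 2 ∧ ε < R := by
      have hc : ContinuousAt (fun ε : ℝ => π * ε ^ 2 / ρ ^ 2) 0 := by fun_prop
      have h1 : ∀ᶠ ε in 𝓝 (0 : ℝ), π * ε ^ 2 / ρ ^ 2 < τ / 2 := by
        apply hc.eventually_lt_const
        simp [hτ]
      obtain ⟨r, hr, hr'⟩ := Metric.eventually_nhds_iff.1 h1
      refine ⟨min (min (r / 2) (ε0 / 2)) (min ε1 (R / 2)), by positivity, ?_, ?_, ?_, ?_⟩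
      · exact lt_of_le_of_lt ((min_le_left _ _).trans (min_le_right _ _)) (by linarith)
      · exact (min_le_right _ _).trans (min_le_left _ _)
      · apply le_of_lt
        apply hr'
        rw [Real.dist_eq, sub_zero, abs_of_pos (by positivity)]
        exact lt_of_le_of_lt ((min_le_left _ _).trans (min_le_left _ _)) (by linarith)
      · exact lt_of_le_of_lt ((min_le_right _ _).trans (min_le_right _ _)) (by linarith)
    have h1 := hb ε hε hεε0
    have hKε : K ε ≠ ⊤ := by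
      intro h
      rw [h, add_top, top_le_iff] at h1
      exact ENNReal.ofReal_ne_top h1
    have hKε1 : K ε1 ≠ ⊤ := ne_top_of_le_ne_top hKε (hKmono ε ε1 hεε1)
    refine ⟨hKε1, ?_⟩
    have h2 : (K ε1).toReal ≤ (K ε).toReal := ENNReal.toReal_mono hKε (hKmono ε ε1 hεε1)
    have hη' : 0 < 1 - η := by linarith
    have hlog0 : 0 ≤ Real.log (R / ε) := Real.log_nonneg (by rw [le_div_iff₀ hε]; linarith)
    have h3 : 2 * π * Real.log (R / ε) + (K ε).toReal ≤
        2 * π * Real.log (ρ / ((1 - η) * ε)) + π * ((1 - η) * ε) ^ 2 / ρ ^ 2 := by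
      rw [← ENNReal.ofReal_toReal hKε, ← ENNReal.ofReal_add (by positivity) ENNReal.toReal_nonneg] at h1
      by_contra hcon
      push Not at hcon
      have h4 : 0 < 2 * π * Real.log (R / ε) + (K ε).toReal ∨
          2 * π * Real.log (R / ε) + (K ε).toReal ≤ 0 := lt_or_ge _ _
      rcases h4 with h4 | h4
      · exact absurd ((ENNReal.ofReal_le_ofReal_iff' ).1 h1) (by
          push Not
          exact ⟨hcon, h4⟩)
      · have h5 : 0 < Real.log (R / ε) := Real.log_pos (by rw [lt_div_iff₀ hε]; linarith)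
        have : 0 ≤ (K ε).toReal := ENNReal.toReal_nonneg
        nlinarith [Real.pi_pos, mul_pos Real.pi_pos h5]
    rw [Real.log_div hR.ne' hε.ne', Real.log_div hρ.ne' (by positivity),
      Real.log_mul hη'.ne' hε.ne'] at h3
    have h4 : π * ((1 - η) * ε) ^ 2 / ρ ^ 2 ≤ π * ε ^ 2 / ρ ^ 2 := by
      gcongr
      nlinarith
    nlinarith
  have key2 : ∀ ε1 : ℝ, 0 < ε1 → 2 * π * Real.log R + (K ε1).toReal ≤ 2 * π * Real.log ρ :=
    fun ε1 hε1 => le_of_forall_pos_le_add fun τ hτ => (key ε1 hε1 τ hτ).2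
  constructor
  · have h1 := key2 1 one_pos
    have h2 : 0 ≤ (K 1).toReal := ENNReal.toReal_nonneg
    have h3 : Real.log R ≤ Real.log ρ := by
      have : 2 * π * Real.log R ≤ 2 * π * Real.log ρ := by linarith
      exact le_of_mul_le_mul_left this (by positivity)
    have h4 : R ≤ ρ := (Real.log_le_log_iff hR hρ).1 h3
    rw [hvol]
    apply ENNReal.ofReal_le_ofReal
    gcongr
  · intro heq
    have hρR : ρ = R := by
      rw [hvol, ENNReal.ofReal_eq_ofReal_iff (by positivity) (by positivity)] at heq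
      have h1 : ρ ^ 2 = R ^ 2 := mul_left_cancel₀ Real.pi_pos.ne' heq
      exact (sq_eq_sq₀ hρ.le hR.le).1 h1
    have hK0 : ∀ ε1 : ℝ, 0 < ε1 → K ε1 = 0 := by
      intro ε1 hε1
      have h1 := key2 ε1 hε1
      rw [hρR] at h1
      have h2 : (K ε1).toReal = 0 := le_antisymm (by linarith) ENNReal.toReal_nonneg
      rcases (ENNReal.toReal_eq_zero_iff _).1 h2 with h3 | h3
      · exact h3
      · exact absurd h3 (key ε1 hε1 1 one_pos).1
    have hkz : ∀ w ∈ W, w ≠ 0 → k w = 0 := by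
      intro w hw hw0
      have hwpos : 0 < ‖w‖ := norm_pos_iff.2 hw0
      have h1 := hK0 (‖w‖ / 2) (by positivity)
      set S := W \ closedBall (0 : ℂ) (‖w‖ / 2) with hS
      have hSo : IsOpen S := hW.sdiff isClosed_closedBall
      have hkS : ContinuousOn k S := hk.mono sdiff_subset
      have hae : AEMeasurable (fun w => ENNReal.ofReal (‖k w‖ ^ 2)) (volume.restrict S) :=
        (ENNReal.continuous_ofReal.comp_continuousOn (hkS.norm.pow 2)).aemeasurable hSo.measurableSet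
      have h2 : (fun w => ENNReal.ofReal (‖k w‖ ^ 2)) =ᵐ[volume.restrict S] 0 :=
        (lintegral_eq_zero_iff' hae).1 h1
      have h3 : k =ᵐ[volume.restrict S] (fun _ => 0) := by
        filter_upwards [h2] with v hv
        simp only [Pi.zero_apply, ENNReal.ofReal_eq_zero] at hv
        have : ‖k v‖ = 0 := by nlinarith [norm_nonneg (k v)]
        exact norm_eq_zero.1 this
      have h4 := Measure.eqOn_open_of_ae_eq h3 hSo hkS continuousOn_const
      apply h4
      refine ⟨hw, ?_⟩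
      rw [mem_closedBall_zero_iff, not_le]
      linarith
    apply eq_id_of_ode hW hWc.isPreconnected h0 hΦ hΦ0 hΦ1
    intro w hw
    by_cases hw0 : w = 0
    · rw [hw0, hΦ0, zero_mul]
    · rw [hΦk w hw, hkz w hw hw0]
      ring

end Pool.Agent.H762R2
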