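import Mathlib
import Pool.Agent.Helper240.ZFM.C2
import Pool.Agent.Helper240.ZFM.C4

set_option autoImplicit false

open Set Filter Topology Metric
open scoped OnePoint

namespace Pool.Agent.H762R2

/-- the complement of a plane set in the Riemann sphere -/
def sc (D : Set ℂ) : Set (OnePoint ℂ) := ((↑) '' D)ᶜ

theorem coe_mem_sc {D : Set ℂ} {w : ℂ} : (w : OnePoint ℂ) ∈ sc D ↔ w ∉ D := by
  unfold sc
  rw [mem_compl_iff, not_iff_not]
  constructor
  · rintro ⟨v, hv, h⟩
    rwa [← OnePoint.coe_injective h]
  · intro h
    exact ⟨w, h, rfl⟩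

theorem infty_mem_sc (D : Set ℂ) : (∞ : OnePoint ℂ) ∈ sc D := by
  rintro ⟨v, _, h⟩
  exact OnePoint.coe_ne_infty v h

theorem isClosed_sc {D : Set ℂ} (hD : IsOpen D) : IsClosed (sc D) :=
  (OnePoint.isOpenEmbedding_coe.isOpenMap D hD).isClosed_compl

theorem isClosed_connectedComponentIn {X : Type*} [TopologicalSpace X] {F : Set X}
    (hF : IsClosed F) (x : X) : IsClosed (connectedComponentIn F x) := by
  by_cases hx : x ∈ F
  · rw [connectedComponentIn_eq_image hx]
    exact hF.isClosedEmbedding_subtypeVal.isClosedMap _ isClosed_connectedComponent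
  · rw [connectedComponentIn_eq_empty hx]
    exact isClosed_empty

/-- In a connected space, the complement of a component of the complement of a connected open set
is connected. -/
theorem isConnected_compl_component {X : Type*} [TopologicalSpace X] [ConnectedSpace X]
    {A : Set X} (hA : IsConnected A) (hAo : IsOpen A) (x : X) :
    IsConnected (connectedComponentIn Aᶜ x)ᶜ := by
  set C := connectedComponentIn Aᶜ x with hC
  have hCA : C ⊆ Aᶜ := connectedComponentIn_subset _ _
  have hAC : A ⊆ Cᶜ := fun a ha hc => hCA hc ha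
  have hCc : IsClosed C := isClosed_connectedComponentIn hAo.isClosed_compl x
  have key : ∀ P Q : Set X, IsOpen P → IsOpen Q → Disjoint P Q → P ∪ Q = Cᶜ → A ⊆ P → Q = ∅ := by
    intro P Q hP hQ hPQ hU hAP
    have hCQ : C ∪ Q = Pᶜ := by
      ext y
      constructor
      · rintro (hy | hy)
        · intro hyP
          have : y ∈ Cᶜ := hU ▸ Or.inl hyP
          exact this hy
        · exact fun hyP => (Set.disjoint_left.1 hPQ hyP hy)
      · intro hy
        by_cases hyC : y ∈ C
        · exact Or.inl hyC
        · have : y ∈ P ∪ Q := hU ▸ hyC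
          rcases this with h | h
          · exact absurd h hy
          · exact Or.inr h
    have hclosed : IsClosed (C ∪ Q) := by rw [hCQ]; exact hP.isClosed_compl
    have hAQ : Disjoint A Q := hPQ.mono_left hAP
    have hsub : C ∪ Q ⊆ Aᶜ := by
      rintro y (hy | hy)
      · exact hCA hy
      · exact fun h => Set.disjoint_left.1 hAQ h hy
    by_cases hx : x ∈ Aᶜ
    · have hxC : x ∈ C := mem_connectedComponentIn hx
      have hCp : IsPreconnected C := isPreconnected_connectedComponentIn
      have hpre : IsPreconnected (C ∪ Q) := by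
        rw [isPreconnected_iff_subset_of_fully_disjoint_closed hclosed]
        have aux : ∀ u v : Set X, IsClosed u → IsClosed v → C ∪ Q ⊆ u ∪ v → Disjoint u v →
            C ⊆ u → C ∪ Q ⊆ u := by
          intro u v hu hv huv hd hCu
          set N := (C ∪ Q) ∩ v with hN
          have hNc : IsClosed N := hclosed.inter hv
          have hNQ : N = Q ∩ uᶜ := by
            ext y
            constructor
            · rintro ⟨hy | hy, hyv⟩
              · exact absurd hyv (Set.disjoint_left.1 hd (hCu hy))
              · exact ⟨hy, fun h => Set.disjoint_left.1 hd h hyv⟩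
            · rintro ⟨hy, hyu⟩
              refine ⟨Or.inr hy, ?_⟩
              rcases huv (Or.inr hy) with h | h
              · exact absurd h hyu
              · exact h
          have hNo : IsOpen N := by rw [hNQ]; exact hQ.inter hu.isOpen_compl
          have hclopen : IsClopen N := ⟨hNc, hNo⟩
          rcases isClopen_iff.1 hclopen with h | h
          · intro y hy
            rcases huv hy with h1 | h1
            · exact h1
            · have : y ∈ N := ⟨hy, h1⟩
              rw [h] at this
              exact absurd this (notMem_empty y)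
          · obtain ⟨a, ha⟩ := hA.nonempty
            have : a ∈ N := h ▸ mem_univ a
            rw [hNQ] at this
            exact absurd this.1 (Set.disjoint_left.1 hAQ ha)
        intro u v hu hv huv hd
        have hCuv : C ⊆ u ∪ v := subset_union_left.trans huv
        rcases (isPreconnected_iff_subset_of_fully_disjoint_closed hCc).1 hCp u v hu hv hCuv hd with h | h
        · exact Or.inl (aux u v hu hv huv hd h)
        · exact Or.inr (aux v u hv hu (by rw [union_comm v u]; exact huv) hd.symm h)
      have h1 : C ∪ Q ⊆ C := hpre.subset_connectedComponentIn (Or.inl hxC) hsub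
      rw [Set.eq_empty_iff_forall_notMem]
      intro y hy
      have h2 : y ∈ C := h1 (Or.inr hy)
      have h3 : y ∈ Cᶜ := hU ▸ Or.inr hy
      exact h3 h2
    · have hCe : C = ∅ := connectedComponentIn_eq_empty hx
      rw [hCe, compl_empty] at hU
      have hPc : IsClopen P := ⟨by
        have : P = Qᶜ := by
          ext y
          constructor
          · exact fun hy hyQ => Set.disjoint_left.1 hPQ hy hyQ
          · intro hy
            have : y ∈ P ∪ Q := hU ▸ mem_univ y
            rcases this with h | h
            · exact h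
            · exact absurd h hy
        rw [this]; exact hQ.isClosed_compl, hP⟩
      rcases isClopen_iff.1 hPc with h | h
      · obtain ⟨a, ha⟩ := hA.nonempty
        exact absurd (hAP ha) (by rw [h]; exact notMem_empty a)
      · rw [h] at hPQ
        exact Set.univ_disjoint.1 hPQ
  refine ⟨hA.nonempty.mono hAC, ?_⟩
  rw [isPreconnected_iff_subset_of_disjoint]
  intro u v hu hv huv hd
  set P := Cᶜ ∩ u with hPd
  set Q := Cᶜ ∩ v with hQd
  have hPo : IsOpen P := hCc.isOpen_compl.inter hu
  have hQo : IsOpen Q := hCc.isOpen_compl.inter hv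
  have hPQ : Disjoint P Q := by
    rw [Set.disjoint_left]
    intro y hy hy'
    have : y ∈ Cᶜ ∩ (u ∩ v) := ⟨hy.1, hy.2, hy'.2⟩
    rw [hd] at this
    exact this
  have hPQu : P ∪ Q = Cᶜ := by
    rw [← inter_union_distrib_left, inter_eq_left]
    exact huv
  have hApq : A ⊆ P ∨ A ⊆ Q :=
    (isPreconnected_iff_subset_of_disjoint.1 hA.isPreconnected) P Q hPo hQo
      (hAC.trans hPQu.ge) (by rw [hPQ.inter_eq, inter_empty])
  rcases hApq with h | h
  · left
    have := key P Q hPo hQo hPQ hPQu h
    rw [this, union_empty] at hPQu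
    rw [← hPQu]
    exact inter_subset_right
  · right
    have := key Q P hQo hPo hPQ.symm (by rw [union_comm]; exact hPQu) h
    rw [this, empty_union] at hPQu
    rw [← hPQu]
    exact inter_subset_right

/-- the plane set with sphere complement `K` -/
def pl (K : Set (OnePoint ℂ)) : Set ℂ := {w | (w : OnePoint ℂ) ∉ K}

theorem coe_image_pl {K : Set (OnePoint ℂ)} (hK : (∞ : OnePoint ℂ) ∈ K) :
    ((↑) : ℂ → OnePoint ℂ) '' pl K = Kᶜ := by
  ext x
  constructor
  · rintro ⟨w, hw, rfl⟩
    exact hw
  · intro hx
    induction x using OnePoint.rec with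
    | infty => exact absurd hK hx
    | coe w => exact ⟨w, hx, rfl⟩

theorem sc_pl {K : Set (OnePoint ℂ)} (hK : (∞ : OnePoint ℂ) ∈ K) : sc (pl K) = K := by
  unfold sc
  rw [coe_image_pl hK, compl_compl]

theorem isOpen_pl {K : Set (OnePoint ℂ)} (hK : IsClosed K) : IsOpen (pl K) :=
  hK.isOpen_compl.preimage OnePoint.continuous_coe

theorem isConnected_pl {K : Set (OnePoint ℂ)} (hK : (∞ : OnePoint ℂ) ∈ K)
    (hc : IsConnected Kᶜ) : IsConnected (pl K) := by
  have h1 : pl K = ((↑) : ℂ → OnePoint ℂ) ⁻¹' Kᶜ := rfl
  rw [h1]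
  refine hc.preimage_of_isOpenMap OnePoint.coe_injective
    OnePoint.isOpenEmbedding_coe.isOpenMap ?_
  rw [← coe_image_pl hK]
  exact image_subset_range _ _

theorem isPreconnected_norm_gt (R : ℝ) (hR : 0 ≤ R) : IsPreconnected {w : ℂ | R < ‖w‖} := by
  have h1 : {w : ℂ | R < ‖w‖} = (fun p : ℝ × ℝ => (p.1 : ℂ) * Complex.exp (p.2 * Complex.I)) ''
      (Ioi R ×ˢ univ) := by
    ext w
    constructor
    · intro hw
      refine ⟨(‖w‖, w.arg), ⟨hw, mem_univ _⟩, ?_⟩
      exact Complex.norm_mul_exp_arg_mul_I w
    · rintro ⟨⟨r, t⟩, ⟨hr, -⟩, rfl⟩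
      have hr' : R < r := hr
      show R < ‖(r : ℂ) * Complex.exp (t * Complex.I)‖
      rw [norm_mul, Complex.norm_exp_ofReal_mul_I, mul_one, Complex.norm_real,
        Real.norm_of_nonneg (hR.trans hr'.le)]
      exact hr'
  rw [h1]
  apply (isPreconnected_Ioi.prod isPreconnected_univ).image
  fun_prop

/-- if the complement of `U` in the sphere is connected then holomorphic functions on `U` have
primitives -/
theorem hp_of_sc {U : Set ℂ} (hU : IsOpen U) (hc : IsPreconnected (sc U)) :
    ∀ f : ℂ → ℂ, DifferentiableOn ℂ f U → ∃ F : ℂ → ℂ, ∀ z ∈ U, HasDerivAt F (f z) z := by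
  refine ZFM.J_c2.primitive_of_good hU ?_
  intro L hLU hL
  obtain ⟨R0, hR0⟩ := hL.isBounded.subset_closedBall 0
  set R := max R0 0 with hR
  have hLR : L ⊆ closedBall 0 R := hR0.trans (closedBall_subset_closedBall (le_max_left _ _))
  have hR0' : 0 ≤ R := le_max_right _ _
  set x0 : ℂ := ((R + 1 : ℝ) : ℂ) with hx0
  have hx0n : R < ‖x0‖ := by
    rw [hx0, Complex.norm_real, Real.norm_of_nonneg (by linarith)]
    linarith
  set V := connectedComponentIn Lᶜ x0 with hV
  have hout : {w : ℂ | R < ‖w‖} ⊆ Lᶜ := by
    intro w hw hwL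
    have := hLR hwL
    rw [mem_closedBall_zero_iff] at this
    exact absurd hw (not_lt.2 this)
  have hoV : {w : ℂ | R < ‖w‖} ⊆ V :=
    (isPreconnected_norm_gt R hR0').subset_connectedComponentIn hx0n hout
  have hVo : IsOpen V := hL.isClosed.isOpen_compl.connectedComponentIn
  have hVL : V ⊆ Lᶜ := connectedComponentIn_subset _ _
  refine ⟨Vᶜ, ?_, ?_, ?_, ?_⟩
  · intro p hp
    by_contra hpU
    have hpL : p ∈ Lᶜ := fun h => hpU (hLU h)
    set B := connectedComponentIn Lᶜ p with hB
    have hBo : IsOpen B := hL.isClosed.isOpen_compl.connectedComponentIn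
    have hpB : p ∈ B := mem_connectedComponentIn hpL
    have hdisj : Disjoint B V := by
      rw [Set.disjoint_left]
      intro y hyB hyV
      have e1 : connectedComponentIn Lᶜ p = connectedComponentIn Lᶜ y := connectedComponentIn_eq hyB
      have e2 : connectedComponentIn Lᶜ x0 = connectedComponentIn Lᶜ y := connectedComponentIn_eq hyV
      apply hp
      rw [hV, e2, ← e1]
      exact hpB
    have hBb : B ⊆ closedBall 0 R := by
      intro y hy
      rw [mem_closedBall_zero_iff]
      by_contra hcon
      push Not at hcon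
      exact Set.disjoint_left.1 hdisj hy (hoV hcon)
    -- the other components
    have hOo : IsOpen (((↑) '' (L ∪ B) : Set (OnePoint ℂ))ᶜ) := by
      rw [OnePoint.isOpen_compl_image_coe]
      have hcl : IsClosed (L ∪ B) := by
        have : (L ∪ B)ᶜ = ⋃ y ∈ Lᶜ \ B, connectedComponentIn Lᶜ y := by
          ext y
          simp only [mem_compl_iff, mem_union, not_or, mem_iUnion, exists_prop]
          constructor
          · rintro ⟨h1, h2⟩
            exact ⟨y, ⟨h1, h2⟩, mem_connectedComponentIn h1⟩
          · rintro ⟨z, ⟨hz1, hz2⟩, hyz⟩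
            refine ⟨connectedComponentIn_subset _ _ hyz, fun hyB => hz2 ?_⟩
            have e1 : connectedComponentIn Lᶜ p = connectedComponentIn Lᶜ y :=
              connectedComponentIn_eq hyB
            have e2 : connectedComponentIn Lᶜ z = connectedComponentIn Lᶜ y :=
              connectedComponentIn_eq hyz
            rw [hB, e1, ← e2]
            exact mem_connectedComponentIn hz1
        rw [← isOpen_compl_iff, this]
        exact isOpen_biUnion fun y _ => hL.isClosed.isOpen_compl.connectedComponentIn
      exact ⟨hcl, (isCompact_closedBall (0 : ℂ) R).of_isClosed_subset hcl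
        (union_subset hLR hBb)⟩
    have hBo' : IsOpen ((↑) '' B : Set (OnePoint ℂ)) := OnePoint.isOpenEmbedding_coe.isOpenMap B hBo
    have hsub : sc U ⊆ ((↑) '' B) ∪ ((↑) '' (L ∪ B) : Set (OnePoint ℂ))ᶜ := by
      intro x hx
      by_cases h : x ∈ ((↑) '' (L ∪ B) : Set (OnePoint ℂ))
      · left
        obtain ⟨y, hy, rfl⟩ := h
        rcases hy with hy | hy
        · exact absurd (hLU hy) (coe_mem_sc.1 hx)
        · exact ⟨y, hy, rfl⟩
      · exact Or.inr h
    have hd2 : Disjoint ((↑) '' B : Set (OnePoint ℂ)) ((↑) '' (L ∪ B) : Set (OnePoint ℂ))ᶜ := by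
      rw [Set.disjoint_compl_right_iff_subset]
      exact image_mono subset_union_right
    rcases (isPreconnected_iff_subset_of_disjoint.1 hc) _ _ hBo' hOo hsub
      (by rw [hd2.inter_eq, inter_empty]) with h | h
    · obtain ⟨y, _, hy⟩ := h (infty_mem_sc U)
      exact OnePoint.coe_ne_infty y hy
    · exact h (coe_mem_sc.2 hpU) ⟨p, Or.inr hpB, rfl⟩
  · exact fun y hy hyV => hVL hyV hy
  · refine (isCompact_closedBall (0 : ℂ) R).of_isClosed_subset hVo.isClosed_compl ?_
    intro y hy
    rw [mem_closedBall_zero_iff]
    by_contra hcon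
    push Not at hcon
    exact hy (hoV hcon)
  · rw [compl_compl]
    exact isConnected_connectedComponentIn_iff.2 (hout hx0n)

end Pool.Agent.H762R2
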