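import Pool.Agent.H762R2.AreaOm
import Pool.Agent.H762R2.Top1

set_option autoImplicit false

open Set Filter Topology Metric MeasureTheory Complex
open scoped ENNReal Real

namespace Pool.Agent.H762R2

open Pool.Agent.Helper405.Conv (inv_facts deriv_ne_zero_of_injOn)

/-- injective holomorphic maps of the form `w ↦ w exp (ψ w)`, `ψ` holomorphic, `ψ 0 = 0` -/
def Adm (Ω : Set ℂ) (F : ℂ → ℂ) : Prop :=
  InjOn F Ω ∧ ∃ ψ : ℂ → ℂ, DifferentiableOn ℂ ψ Ω ∧ ψ 0 = 0 ∧ ∀ w ∈ Ω, F w = w * exp (ψ w)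

theorem Adm.diff {Ω : Set ℂ} {F : ℂ → ℂ} (h : Adm Ω F) : DifferentiableOn ℂ F Ω := by
  obtain ⟨-, ψ, hψ, -, hF⟩ := h
  exact (differentiableOn_id.mul hψ.cexp).congr hF

theorem Adm.zero {Ω : Set ℂ} {F : ℂ → ℂ} (h : Adm Ω F) (h0 : (0 : ℂ) ∈ Ω) : F 0 = 0 := by
  obtain ⟨-, ψ, hψ, -, hF⟩ := h
  rw [hF 0 h0, zero_mul]

theorem Adm.hasDerivAt {Ω : Set ℂ} (hΩ : IsOpen Ω) {F : ℂ → ℂ} (h : Adm Ω F) (h0 : (0 : ℂ) ∈ Ω) :
    HasDerivAt F 1 0 := by
  obtain ⟨-, ψ, hψ, hψ0, hF⟩ := h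
  have h1 := (hψ.differentiableAt (hΩ.mem_nhds h0)).hasDerivAt
  have h2 := (hasDerivAt_id (0 : ℂ)).mul h1.cexp
  simp only [id, hψ0, exp_zero, one_mul, zero_mul, add_zero, mul_one] at h2
  refine h2.congr_of_eventuallyEq ?_
  filter_upwards [hΩ.mem_nhds h0] with w hw
  simp only [hF w hw, Pi.mul_apply, id]

theorem Adm.deriv {Ω : Set ℂ} (hΩ : IsOpen Ω) {F : ℂ → ℂ} (h : Adm Ω F) (h0 : (0 : ℂ) ∈ Ω) :
    _root_.deriv F 0 = 1 := (h.hasDerivAt hΩ h0).deriv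

theorem Adm.mono {Ω Ω' : Set ℂ} {F : ℂ → ℂ} (h : Adm Ω F) (hs : Ω' ⊆ Ω) : Adm Ω' F := by
  obtain ⟨hi, ψ, hψ, hψ0, hF⟩ := h
  exact ⟨hi.mono hs, ψ, hψ.mono hs, hψ0, fun w hw => hF w (hs hw)⟩

theorem Adm.id (Ω : Set ℂ) : Adm Ω (fun w => w) :=
  ⟨injOn_id Ω, fun _ => 0, differentiableOn_const _, rfl, fun w _ => by simp⟩

theorem Adm.comp {Ω : Set ℂ} {F G : ℂ → ℂ} (hF : Adm Ω F) (hG : Adm (F '' Ω) G)
    (h0 : (0 : ℂ) ∈ Ω) : Adm Ω (fun w => G (F w)) := by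
  have hFd := hF.diff
  have hF0 := hF.zero h0
  obtain ⟨hi, ψ, hψ, hψ0, hFe⟩ := hF
  obtain ⟨hi', ψ', hψ', hψ0', hFe'⟩ := hG
  refine ⟨fun z hz w hw h => hi hz hw (hi' ⟨z, hz, rfl⟩ ⟨w, hw, rfl⟩ h), fun w => ψ w + ψ' (F w),
    ?_, ?_, ?_⟩
  · exact hψ.add (hψ'.comp hFd (fun w hw => ⟨w, hw, rfl⟩))
  · show ψ 0 + ψ' (F 0) = 0
    rw [hF0, hψ0, hψ0', add_zero]
  · intro w hw
    show G (F w) = _
    rw [hFe' _ ⟨w, hw, rfl⟩, exp_add, ← mul_assoc, ← hFe w hw]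

theorem Adm.congr {Ω : Set ℂ} {F G : ℂ → ℂ} (hF : Adm Ω F) (h : ∀ w ∈ Ω, G w = F w) : Adm Ω G := by
  obtain ⟨hi, ψ, hψ, hψ0, hFe⟩ := hF
  exact ⟨fun z hz w hw e => hi hz hw (by rw [← h z hz, ← h w hw, e]), ψ, hψ, hψ0,
    fun w hw => by rw [h w hw, hFe w hw]⟩

theorem Adm.inv {Ω : Set ℂ} (hΩ : IsOpen Ω) {F : ℂ → ℂ} (hF : Adm Ω F) (h0 : (0 : ℂ) ∈ Ω) :
    ∃ G, Adm (F '' Ω) G ∧ (∀ w ∈ Ω, G (F w) = w) ∧ (∀ v ∈ F '' Ω, F (G v) = v) := by
  have hF0 := hF.zero h0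
  obtain ⟨hO, g, hgd, hg, -⟩ := inv_facts hΩ hF.diff hF.1
  obtain ⟨hi, ψ, hψ, hψ0, hFe⟩ := hF
  refine ⟨g, ⟨?_, fun v => -ψ (g v), ?_, ?_, ?_⟩, hg, ?_⟩
  · rintro _ ⟨z, hz, rfl⟩ _ ⟨w, hw, rfl⟩ h
    rw [hg z hz, hg w hw] at h
    rw [h]
  · apply DifferentiableOn.neg
    apply hψ.comp hgd
    rintro _ ⟨z, hz, rfl⟩
    rw [hg z hz]
    exact hz
  · show -ψ (g 0) = 0
    have : g 0 = 0 := by
      have := hg 0 h0
      rwa [hF0] at this
    rw [this, hψ0, neg_zero]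
  · rintro _ ⟨z, hz, rfl⟩
    show g (F z) = F z * exp (-ψ (g (F z)))
    rw [hg z hz, hFe z hz, mul_assoc, ← exp_add, add_neg_cancel, exp_zero, mul_one]
  · rintro _ ⟨z, hz, rfl⟩
    rw [hg z hz]

theorem circle_exact {W : Set ℂ} (hW : IsOpen W) {ψ : ℂ → ℂ} (hψ : DifferentiableOn ℂ ψ W) {r : ℝ}
    (hr : ∀ θ : ℝ, pc r θ ∈ W) : ∫ θ in (-π)..π, pc r θ * _root_.deriv ψ (pc r θ) = 0 := by
  have hpc : ∀ θ : ℝ, HasDerivAt (fun θ : ℝ => pc r θ) (pc r θ * I) θ := by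
    intro θ
    have h1 : HasDerivAt (fun θ : ℝ => (θ : ℂ) * I) I θ := by
      simpa using (Complex.ofRealCLM.hasDerivAt (x := θ)).mul_const I
    have h2 := h1.cexp.const_mul (r : ℂ)
    simpa [pc, mul_assoc] using h2
  have hd : ∀ θ : ℝ, HasDerivAt (fun θ : ℝ => ψ (pc r θ)) (_root_.deriv ψ (pc r θ) * (pc r θ * I)) θ := by
    intro θ
    exact HasDerivAt.comp (h₂ := ψ) θ (hψ.differentiableAt (hW.mem_nhds (hr θ))).hasDerivAt (hpc θ)
  have hc : Continuous fun θ : ℝ => pc r θ := by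
    unfold pc
    fun_prop
  have hcd : Continuous fun θ : ℝ => _root_.deriv ψ (pc r θ) := by
    have h1 : ContinuousOn (_root_.deriv ψ) W := (hψ.deriv hW).continuousOn
    rw [← continuousOn_univ]
    exact h1.comp hc.continuousOn fun θ _ => hr θ
  have h1 := intervalIntegral.integral_eq_sub_of_hasDerivAt (a := -π) (b := π) (fun θ _ => hd θ)
    ((hcd.mul (hc.mul continuous_const)).intervalIntegrable _ _)
  have h2 : pc r π = pc r (-π) := by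
    unfold pc
    congr 1
    rw [ofReal_neg, exp_pi_mul_I, neg_mul, exp_neg, exp_pi_mul_I]
    norm_num
  rw [h2, sub_self] at h1
  have h3 : ∀ θ : ℝ, _root_.deriv ψ (pc r θ) * (pc r θ * I) = (pc r θ * _root_.deriv ψ (pc r θ)) * I :=
    fun θ => by ring
  simp only [h3] at h1
  rw [intervalIntegral.integral_mul_const] at h1
  simpa using h1

/-- area inequality for admissible maps of circular slit discs -/
theorem area_adm {W : Set ℂ} (hW : IsOpen W) (hWc : IsConnected W) (h0 : (0 : ℂ) ∈ W) {R : ℝ}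
    (hR : 0 < R) (hsub : W ⊆ ball 0 R) {T : Set ℝ} (hT : T.Countable)
    (hcirc : ∀ r : ℝ, 0 < r → r < R → r ∉ T → ∀ w : ℂ, ‖w‖ = r → w ∈ W)
    {Φ : ℂ → ℂ} (hΦ : Adm W Φ) :
    ENNReal.ofReal (π * R ^ 2) ≤ volume (Φ '' W) ∧
      (volume (Φ '' W) = ENNReal.ofReal (π * R ^ 2) → ∀ w ∈ W, Φ w = w) := by
  have hd := hΦ.diff
  have hz := hΦ.zero h0
  have hd1 := hΦ.deriv hW h0
  obtain ⟨hi, ψ, hψ, hψ0, hΦe⟩ := hΦ
  refine area_main hW hWc h0 hR hsub hT hcirc (k := _root_.deriv ψ) hd hi hz hd1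
    (hψ.deriv hW).continuousOn ?_ ?_
  · intro w hw
    have h1 : HasDerivAt Φ (1 * exp (ψ w) + w * (exp (ψ w) * _root_.deriv ψ w)) w := by
      have h2 := (hasDerivAt_id w).mul (hψ.differentiableAt (hW.mem_nhds hw)).hasDerivAt.cexp
      refine h2.congr_of_eventuallyEq ?_
      filter_upwards [hW.mem_nhds hw] with v hv
      simp only [hΦe v hv, Pi.mul_apply, id]
    rw [h1.deriv, hΦe w hw]
    ring
  · intro r hr hrR hrT
    apply circle_exact hW hψ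
    intro θ
    exact hcirc r hr hrR hrT _ (norm_pc hr.le θ)

/-- the ball case -/
theorem area_ball {R : ℝ} (hR : 0 < R) {Φ : ℂ → ℂ} (hΦ : Adm (ball 0 R) Φ) :
    ENNReal.ofReal (π * R ^ 2) ≤ volume (Φ '' ball 0 R) ∧
      (volume (Φ '' ball 0 R) = ENNReal.ofReal (π * R ^ 2) → ∀ w ∈ ball 0 R, Φ w = w) := by
  refine area_adm isOpen_ball ((convex_ball (0 : ℂ) R).isConnected ⟨0, mem_ball_self hR⟩)
    (mem_ball_self hR) hR Subset.rfl countable_empty ?_ hΦ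
  intro r _ hrR _ w hw
  rw [mem_ball_zero_iff, hw]
  exact hrR

/-- logarithms of nonvanishing functions on domains with the primitive property -/
theorem exists_log {U : Set ℂ} (hU : IsOpen U) (hc : IsPreconnected U)
    (hp : ZFM.J_c4.HP U) {g : ℂ → ℂ}
    (hg : DifferentiableOn ℂ g U) (hne : ∀ z ∈ U, g z ≠ 0) {a : ℂ} (ha : a ∈ U) (hga : g a = 1) :
    ∃ ψ : ℂ → ℂ, DifferentiableOn ℂ ψ U ∧ ψ a = 0 ∧ ∀ z ∈ U, g z = exp (ψ z) := by
  obtain ⟨F, hF⟩ := hp (fun z => _root_.deriv g z / g z) ((hg.deriv hU).div hg hne)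
  have hd : ∀ z ∈ U, HasDerivAt (fun z => g z * exp (-F z)) 0 z := by
    intro z hz
    have h1 : HasDerivAt g (_root_.deriv g z) z := (hg.differentiableAt (hU.mem_nhds hz)).hasDerivAt
    have h2 := h1.mul (hF z hz).neg.cexp
    refine h2.congr_deriv ?_
    have := hne z hz
    field_simp
    ring
  have hconst : ∀ z ∈ U, g z * exp (-F z) = g a * exp (-F a) := by
    intro z hz
    exact hU.is_const_of_deriv_eq_zero (f := fun z => g z * exp (-F z)) hc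
      (fun w hw => (hd w hw).differentiableAt.differentiableWithinAt)
      (fun w hw => (hd w hw).deriv) hz ha
  refine ⟨fun z => F z - F a, fun z hz => ((hF z hz).sub_const _).differentiableAt.differentiableWithinAt,
    sub_self _, ?_⟩
  intro z hz
  have h1 := hconst z hz
  rw [hga, one_mul] at h1
  calc g z = (g z * exp (-F z)) * exp (F z) := by
        rw [mul_assoc, ← exp_add, neg_add_cancel, exp_zero, mul_one]
    _ = exp (-F a) * exp (F z) := by rw [h1]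
    _ = exp (F z - F a) := by rw [← exp_add]; congr 1; ring

theorem adm_of_hp {U : Set ℂ} (hU : IsOpen U) (hc : IsPreconnected U)
    (hp : ZFM.J_c4.HP U) (h0 : (0 : ℂ) ∈ U) {g : ℂ → ℂ} (hg : DifferentiableOn ℂ g U)
    (hi : InjOn g U) (hg0 : g 0 = 0) (hg1 : _root_.deriv g 0 = 1) : Adm U g := by
  have hd : DifferentiableOn ℂ (dslope g 0) U := (differentiableOn_dslope (hU.mem_nhds h0)).2 hg
  have h1 : ∀ z ∈ U, dslope g 0 z ≠ 0 := by
    intro z hz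
    by_cases hz0 : z = 0
    · rw [hz0, dslope_same, hg1]
      exact one_ne_zero
    · rw [dslope_of_ne _ hz0, slope_def_field, hg0, sub_zero, sub_zero]
      apply div_ne_zero _ hz0
      intro h
      exact hz0 (hi hz h0 (h.trans hg0.symm))
  obtain ⟨ψ, hψ, hψ0, hψe⟩ := exists_log hU hc hp hd h1 h0 (by rw [dslope_same, hg1])
  refine ⟨hi, ψ, hψ, hψ0, fun z hz => ?_⟩
  rw [← hψe z hz]
  by_cases hz0 : z = 0
  · rw [hz0, zero_mul, hg0]
  · rw [dslope_of_ne _ hz0, slope_def_field, hg0, sub_zero, sub_zero]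
    field_simp

/-- Riemann mapping theorem, normalised at the origin -/
theorem adm_riemann {U : Set ℂ} (hU : IsOpen U) (hc : IsConnected U)
    (hp : ZFM.J_c4.HP U) (hne : U ≠ univ) (h0 : (0 : ℂ) ∈ U) :
    ∃ (g : ℂ → ℂ) (ρ : ℝ), 0 < ρ ∧ Adm U g ∧ g '' U = ball 0 ρ := by
  obtain ⟨φ, h1, h2, h3, h4⟩ := ZFM.J_c4.riemann hU hc hp hne h0
  set d := _root_.deriv φ 0 with hd
  have hd0 : d ≠ 0 := h3 0 h0
  refine ⟨fun z => φ z / d, ‖d‖⁻¹, inv_pos.2 (norm_pos_iff.2 hd0), ?_, ?_⟩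
  · apply adm_of_hp hU hc.isPreconnected hp h0 (h1.div_const d)
    · intro z hz w hw h
      have h' : φ z / d = φ w / d := h
      apply h2.injOn hz hw
      field_simp at h'
      exact h'
    · simp [h4]
    · have h5 := (h1.differentiableAt (hU.mem_nhds h0)).hasDerivAt.div_const d
      rw [h5.deriv]
      exact div_self hd0
  · ext v
    rw [mem_ball_zero_iff]
    constructor
    · rintro ⟨z, hz, rfl⟩
      have h5 := h2.mapsTo hz
      rw [mem_ball_zero_iff] at h5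
      rw [norm_div, div_eq_mul_inv]
      calc ‖φ z‖ * ‖d‖⁻¹ < 1 * ‖d‖⁻¹ := by
            apply mul_lt_mul_of_pos_right h5 (inv_pos.2 (norm_pos_iff.2 hd0))
        _ = ‖d‖⁻¹ := one_mul _
    · intro hv
      have h5 : v * d ∈ ball (0 : ℂ) 1 := by
        rw [mem_ball_zero_iff, norm_mul]
        calc ‖v‖ * ‖d‖ < ‖d‖⁻¹ * ‖d‖ := by
              apply mul_lt_mul_of_pos_right hv (norm_pos_iff.2 hd0)
          _ = 1 := inv_mul_cancel₀ (norm_ne_zero_iff.2 hd0)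
      obtain ⟨z, hz, hzv⟩ := h2.surjOn h5
      refine ⟨z, hz, ?_⟩
      show φ z / d = v
      rw [hzv]
      field_simp

end Pool.Agent.H762R2
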