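import Pool.Agent.H762R2.AI2

set_option autoImplicit false
open Complex MeasureTheory Set Filter Topology Metric

/-!
The area theorem for a function injective and holomorphic on the punctured unit disc with a simple pole at `0`,
keeping the area of the omitted set (variant of `Helper405.AreaA`).
-/

namespace Pool.Agent.H762R2
open Pool.Agent.Helper405.Conv Pool.Agent.Helper405.Area

/-- the identity function, as a local abbreviation -/
def V0 : ℂ → ℂ := fun w => w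

theorem area_int2 {h : ℂ → ℂ} (hd : DifferentiableOn ℂ h Dp) (hi : InjOn h Dp)
    (hp : Tendsto h (𝓝[≠] 0) (Bornology.cobounded ℂ)) {χ : ℝ → ℝ} (hχ : ContDiff ℝ 1 χ)
    {a b : ℝ} (ha : 0 < a) (hab : a < b) (hb : b < 1) (h0 : ∀ s ≤ a, χ s = 0)
    (h1 : ∀ s, b ≤ s → χ s = 1) (hχ0 : ∀ s, 0 ≤ χ s) :
    (∫ z : ℂ, ((deriv χ (‖z‖ ^ 2) : ℝ) : ℂ) * (z * ((starRingEnd ℂ) (V0 (h z)) * (deriv V0 (h z) * deriv h z)))).re ≤
      -(volume.real (h '' Dp)ᶜ) := by
  set V : ℂ → ℂ := V0 with hVdef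
  have hV : Differentiable ℂ V := differentiable_id
  obtain ⟨Φ, hΦc, hΦs, hΦ1, hΦ2, hΦ0⟩ := cutoff hd hi hp hχ ha hab hb h0 h1 hχ0
  have hO := (inv_facts isOpen_Dp hd hi).1
  have hχd : Differentiable ℝ χ := hχ.differentiable (by norm_num)
  have hP := parts hΦc hΦs hV
  have e1 : ∫ w, gr Φ w * ((starRingEnd ℂ) (V w) * deriv V w) = ∫ w in h '' Dp, gr Φ w * ((starRingEnd ℂ) (V w) * deriv V w) := by
    rw [← MeasureTheory.setIntegral_eq_integral_of_forall_compl_eq_zero]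
    intro w hw
    rw [gr_zero (hΦ2 w hw), zero_mul]
  have e2 : ∫ w in h '' Dp, gr Φ w * ((starRingEnd ℂ) (V w) * deriv V w)
      = ∫ z in Dp, |((ContinuousLinearMap.toSpanSingleton ℂ (deriv h z)).restrictScalars ℝ).det| • (gr Φ (h z) * ((starRingEnd ℂ) (V (h z)) * deriv V (h z))) := by
    apply integral_image_eq_integral_abs_det_fderiv_smul volume isOpen_Dp.measurableSet _ hi
    intro z hz
    exact (((hd z hz).differentiableAt (isOpen_Dp.mem_nhds hz)).hasDerivAt.hasFDerivAt.restrictScalars ℝ).hasFDerivWithinAt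
  have e3 : ∫ z in Dp, |((ContinuousLinearMap.toSpanSingleton ℂ (deriv h z)).restrictScalars ℝ).det| • (gr Φ (h z) * ((starRingEnd ℂ) (V (h z)) * deriv V (h z)))
      = ∫ z in Dp, 2 * (((deriv χ (‖z‖ ^ 2) : ℝ) : ℂ) * (z * ((starRingEnd ℂ) (V (h z)) * (deriv V (h z) * deriv h z)))) := by
    apply MeasureTheory.setIntegral_congr_fun isOpen_Dp.measurableSet
    intro z hz
    have hdz := ((hd z hz).differentiableAt (isOpen_Dp.mem_nhds hz)).hasDerivAt
    have h3 := gr_comp hdz (hΦc.differentiable (by norm_num) (h z))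
    have h4 : gr (fun z => Φ (h z)) z = gr (fun z => χ (‖z‖ ^ 2)) z := by
      have h5 : (fun z => Φ (h z)) =ᶠ[𝓝 z] fun z => χ (‖z‖ ^ 2) := by
        filter_upwards [isOpen_Dp.mem_nhds hz] with y hy
        exact hΦ1 y hy
      unfold gr
      rw [h5.fderiv_eq]
    rw [h4, gr_radial hχd] at h3
    simp only
    rw [det_mul, abs_of_nonneg (by positivity), real_smul]
    have h6 : ((‖deriv h z‖ ^ 2 : ℝ) : ℂ) = (starRingEnd ℂ) (deriv h z) * deriv h z := by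
      rw [← Complex.normSq_eq_norm_sq, Complex.normSq_eq_conj_mul_self]
    rw [h6]
    linear_combination (-(deriv h z) * ((starRingEnd ℂ) (V (h z)) * deriv V (h z))) * h3
  have e4 : ∫ z in Dp, 2 * (((deriv χ (‖z‖ ^ 2) : ℝ) : ℂ) * (z * ((starRingEnd ℂ) (V (h z)) * (deriv V (h z) * deriv h z))))
      = ∫ z : ℂ, 2 * (((deriv χ (‖z‖ ^ 2) : ℝ) : ℂ) * (z * ((starRingEnd ℂ) (V (h z)) * (deriv V (h z) * deriv h z)))) := by
    apply MeasureTheory.setIntegral_eq_integral_of_forall_compl_eq_zero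
    intro z hz
    by_cases hz0 : z = 0
    · simp [hz0]
    · have hz1 : 1 ≤ ‖z‖ := by
        by_contra hlt
        push Not at hlt
        exact hz ⟨by simpa using hlt, hz0⟩
      have h7 : deriv χ (‖z‖ ^ 2) = 0 := by
        have h8 : χ =ᶠ[𝓝 (‖z‖ ^ 2)] fun _ => 1 := by
          have h9 : b < ‖z‖ ^ 2 := by nlinarith
          filter_upwards [lt_mem_nhds h9] with s hs
          exact h1 s hs.le
        rw [h8.deriv_eq]
        simp
      rw [h7]
      simp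
  rw [e1, e2, e3, e4, integral_const_mul] at hP
  have h9 := congrArg Complex.re hP
  have h12 : (∫ w, ((Φ w * (2 * ‖deriv V w‖ ^ 2) : ℝ) : ℂ)) = ((∫ w, Φ w * (2 * ‖deriv V w‖ ^ 2) : ℝ) : ℂ) :=
    integral_complex_ofReal
  rw [h12, neg_re, ofReal_re] at h9
  have hV1 : ∀ w, deriv V w = 1 := fun w => deriv_id w
  have h10 : 2 * volume.real (h '' Dp)ᶜ ≤ ∫ w, Φ w * (2 * ‖deriv V w‖ ^ 2) := by
    have hint : Integrable (fun w => Φ w * (2 * ‖deriv V w‖ ^ 2)) := by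
      simp only [hV1]
      exact (hΦc.continuous.mul continuous_const).integrable_of_hasCompactSupport hΦs.mul_right
    have hm : MeasurableSet (h '' Dp)ᶜ := hO.measurableSet.compl
    have e5 : ∫ w in (h '' Dp)ᶜ, Φ w * (2 * ‖deriv V w‖ ^ 2) ≤ ∫ w, Φ w * (2 * ‖deriv V w‖ ^ 2) := by
      apply setIntegral_le_integral hint
      refine Eventually.of_forall fun w => ?_
      have := hΦ0 w
      simp only [Pi.zero_apply]
      positivity
    have e6 : ∫ w in (h '' Dp)ᶜ, Φ w * (2 * ‖deriv V w‖ ^ 2) = ∫ w in (h '' Dp)ᶜ, (2 : ℝ) := by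
      apply MeasureTheory.setIntegral_congr_fun hm
      intro w hw
      simp only
      rw [(hΦ2 w hw).self_of_nhds, hV1]
      simp
    rw [e6, setIntegral_const, smul_eq_mul, mul_comm] at e5
    exact e5
  have h11 : (2 * ∫ z : ℂ, ((deriv χ (‖z‖ ^ 2) : ℝ) : ℂ) * (z * ((starRingEnd ℂ) (V (h z)) * (deriv V (h z) * deriv h z)))).re
    = 2 * (∫ z : ℂ, ((deriv χ (‖z‖ ^ 2) : ℝ) : ℂ) * (z * ((starRingEnd ℂ) (V (h z)) * (deriv V (h z) * deriv h z)))).re := by simp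
  rw [h11] at h9
  linarith


theorem area2 {h : ℂ → ℂ} (hd : DifferentiableOn ℂ h Dp) (hi : InjOn h Dp)
    (hp : Tendsto h (𝓝[≠] 0) (Bornology.cobounded ℂ)) 
    {P : ℂ → ℂ} (hP : DifferentiableOn ℂ P (ball 0 1)) (hF0 : ∀ z ∈ Dp, h z * z = P z)
    {a : ℕ → ℂ} (ha : ∀ z ∈ ball (0:ℂ) 1, HasSum (fun j => a j * z ^ j) (P z)) {r : ℝ} (hr0 : 0 < r) (hr1 : r < 1) :
    (Summable fun j : ℕ => ((j : ℝ) - 1) * ‖a j‖ ^ 2 * r ^ (2 * j)) ∧
      Real.pi * ((r ^ 2)⁻¹ * ∑' j : ℕ, ((j : ℝ) - 1) * ‖a j‖ ^ 2 * r ^ (2 * j)) ≤ -(volume.real (h '' Dp)ᶜ) := by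
  set V : ℂ → ℂ := V0 with hVdef
  have hV : Differentiable ℂ V := differentiable_id
  obtain ⟨m, hm1⟩ : ∃ m : ℕ, m = 1 := ⟨1, rfl⟩
  have hF : ∀ z ∈ Dp, V (h z) * z ^ m = P z := by
    intro z hz
    rw [hm1, pow_one]
    exact hF0 z hz
  set Q : ℂ → ℂ := fun z => z * deriv P z - m * P z with hQ
  have hQs := hasSum_Q ha m
  have hQz : ∀ z ∈ Dp, z * ((starRingEnd ℂ) (V (h z)) * (deriv V (h z) * deriv h z)) = (((‖z‖ ^ (2 * m) : ℝ) : ℂ))⁻¹ * ((starRingEnd ℂ) (P z) * Q z) := by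
    intro z hz
    have hz0 : z ≠ 0 := hz.2
    have hdz := ((hd z hz).differentiableAt (isOpen_Dp.mem_nhds hz)).hasDerivAt
    have h1 : HasDerivAt (fun z => V (h z) * z ^ m) (deriv V (h z) * deriv h z * z ^ m + V (h z) * (m * z ^ (m - 1))) z :=
      ((hV (h z)).hasDerivAt.comp z hdz).mul (hasDerivAt_pow m z)
    have h2 : deriv P z = deriv V (h z) * deriv h z * z ^ m + V (h z) * (m * z ^ (m - 1)) := by
      rw [← h1.deriv]
      apply Filter.EventuallyEq.deriv_eq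
      filter_upwards [isOpen_Dp.mem_nhds hz] with w hw
      exact (hF w hw).symm
    have h3 : Q z = z * (deriv V (h z) * deriv h z) * z ^ m := by
      simp only [hQ]
      rw [h2, ← hF z hz]
      rcases Nat.eq_zero_or_pos m with hm | hm
      · subst hm; simp
      · have : z ^ m = z * z ^ (m - 1) := by
          rw [← pow_succ', Nat.sub_add_cancel hm]
        rw [this]; ring
    have h4 : ((‖z‖ ^ (2 * m) : ℝ) : ℂ) = (starRingEnd ℂ) (z ^ m) * z ^ m := by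
      rw [← Complex.normSq_eq_conj_mul_self, Complex.normSq_eq_norm_sq, norm_pow]
      push_cast
      ring
    rw [h3, h4, ← hF z hz, map_mul]
    have h5 : z ^ m ≠ 0 := pow_ne_zero _ hz0
    have h6 : (starRingEnd ℂ) (z ^ m) ≠ 0 := (map_ne_zero _).2 h5
    field_simp
  -- the function B
  set S : ℝ → ℝ := fun s => ∑' j : ℕ, ((j : ℝ) - m) * ‖a j‖ ^ 2 * s ^ (2 * j) with hS
  have key : ∀ s : ℝ, 0 < s → s < 1 → (Summable fun j : ℕ => ((j : ℝ) - m) * ‖a j‖ ^ 2 * s ^ (2 * j)) ∧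
      ∫ θ in (0:ℝ)..(2 * Real.pi), (starRingEnd ℂ) (P (circleMap 0 s θ)) * Q (circleMap 0 s θ)
      = ((2 * Real.pi * S s : ℝ) : ℂ) := by
    intro s hs0 hs1
    have h1 := parseval hs0.le (summable_of_hasSum ha hs0.le hs1) (summable_of_hasSum hQs hs0.le hs1)
      (fun z hz => ha z (by rw [mem_ball_zero_iff, hz]; exact hs1))
      (fun z hz => hQs z (by rw [mem_ball_zero_iff, hz]; exact hs1))
    have h2 : (fun j : ℕ => (starRingEnd ℂ) (a j) * (((j : ℂ) - m) * a j) * ((s ^ (2 * j) : ℝ) : ℂ))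
        = fun j : ℕ => ((((j : ℝ) - m) * ‖a j‖ ^ 2 * s ^ (2 * j) : ℝ) : ℂ) := by
      funext j
      have h3 : ((‖a j‖ ^ 2 : ℝ) : ℂ) = (starRingEnd ℂ) (a j) * a j := by
        rw [← Complex.normSq_eq_norm_sq, Complex.normSq_eq_conj_mul_self]
      rw [ofReal_mul, ofReal_mul, h3]
      push_cast
      ring
    rw [h2] at h1
    set c : ℂ := (2 * Real.pi : ℂ)⁻¹ * ∫ θ in (0:ℝ)..(2 * Real.pi), (starRingEnd ℂ) (P (circleMap 0 s θ)) * Q (circleMap 0 s θ) with hc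
    have hre := Complex.hasSum_re h1
    have him := Complex.hasSum_im h1
    simp only [ofReal_re, ofReal_im] at hre him
    have him0 : c.im = 0 := him.unique hasSum_zero
    refine ⟨hre.summable, ?_⟩
    have h4 : c = ((S s : ℝ) : ℂ) := by
      apply Complex.ext
      · rw [ofReal_re, hS]
        exact hre.tsum_eq.symm
      · rw [him0, ofReal_im]
    have h5 : ∫ θ in (0:ℝ)..(2 * Real.pi), (starRingEnd ℂ) (P (circleMap 0 s θ)) * Q (circleMap 0 s θ) = (2 * Real.pi : ℂ) * c := by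
      have hpi : (Real.pi : ℂ) ≠ 0 := by exact_mod_cast Real.pi_ne_zero
      rw [hc]
      field_simp
    rw [h5, h4]
    push_cast
    ring
  have hmono : ∀ s : ℝ, r ≤ s → s < 1 → (r ^ (2 * m))⁻¹ * S r ≤ (s ^ (2 * m))⁻¹ * S s := by
    intro s hrs hs1
    have hs0 : 0 < s := hr0.trans_le hrs
    simp only [hS]
    rw [← tsum_mul_left, ← tsum_mul_left]
    apply Summable.tsum_le_tsum _ ((key r hr0 hr1).1.mul_left _) ((key s hs0 hs1).1.mul_left _)
    intro j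
    have h1 : ∀ t : ℝ, 0 < t → (t ^ (2 * m))⁻¹ * (((j : ℝ) - m) * ‖a j‖ ^ 2 * t ^ (2 * j)) = ‖a j‖ ^ 2 * (((j : ℝ) - m) * (t ^ (2 * m))⁻¹ * t ^ (2 * j)) := by
      intro t _; ring
    rw [h1 r hr0, h1 s hs0]
    apply mul_le_mul_of_nonneg_left _ (by positivity)
    rcases le_total m j with hmj | hmj
    · have e : ∀ t : ℝ, 0 < t → ((j : ℝ) - m) * (t ^ (2 * m))⁻¹ * t ^ (2 * j) = ((j : ℝ) - m) * t ^ (2 * (j - m)) := by
        intro t ht
        have : t ^ (2 * j) = t ^ (2 * m) * t ^ (2 * (j - m)) := by rw [← pow_add]; congr 1; omega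
        rw [this]
        field_simp
      rw [e r hr0, e s hs0]
      have : (0:ℝ) ≤ (j : ℝ) - m := by
        rw [sub_nonneg]; exact_mod_cast hmj
      gcongr
    · have e : ∀ t : ℝ, 0 < t → ((j : ℝ) - m) * (t ^ (2 * m))⁻¹ * t ^ (2 * j) = -(((m : ℝ) - j) * (t ^ (2 * (m - j)))⁻¹) := by
        intro t ht
        have : t ^ (2 * m) = t ^ (2 * j) * t ^ (2 * (m - j)) := by rw [← pow_add]; congr 1; omega
        rw [this]
        field_simp
        ring
      rw [e r hr0, e s hs0]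
      have : (0:ℝ) ≤ (m : ℝ) - j := by
        rw [sub_nonneg]; exact_mod_cast hmj
      apply neg_le_neg
      gcongr
  set κ : ℝ := (r ^ (2 * m))⁻¹ * S r with hκ
  set A : ℝ := r ^ 2 with hA
  set Bb : ℝ := (1 + r ^ 2) / 2 with hB
  have hA0 : 0 < A := by positivity
  have hA1 : A < 1 := by simp only [hA]; nlinarith
  have hAB : A < Bb := by simp only [hB]; linarith
  have hB1 : Bb < 1 := by simp only [hB]; linarith
  set χ : ℝ → ℝ := fun s => Real.smoothTransition ((s - A) / (Bb - A)) with hχ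
  have hBA : 0 < Bb - A := by linarith
  have hχc : ContDiff ℝ 1 χ := by
    apply Real.smoothTransition.contDiff.comp
    fun_prop
  have hχ0 : ∀ s ≤ A, χ s = 0 := fun s hs => Real.smoothTransition.zero_of_nonpos (div_nonpos_of_nonpos_of_nonneg (by linarith) hBA.le)
  have hχ1 : ∀ s, Bb ≤ s → χ s = 1 := fun s hs => Real.smoothTransition.one_of_one_le ((one_le_div hBA).2 (by linarith))
  have hχn : ∀ s, 0 ≤ χ s := fun s => Real.smoothTransition.nonneg _
  have hχm : Monotone χ := by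
    intro s t hst
    apply Real.smoothTransition.monotone
    gcongr
  have hχd0 : ∀ s, 0 ≤ deriv χ s := fun s => hχm.deriv_nonneg
  have hχdA : ∀ s < A, deriv χ s = 0 := by
    intro s hs
    have : χ =ᶠ[𝓝 s] fun _ => 0 := by
      filter_upwards [gt_mem_nhds hs] with t ht
      exact hχ0 t ht.le
    rw [this.deriv_eq]; simp
  have hχdB : ∀ s, Bb < s → deriv χ s = 0 := by
    intro s hs
    have : χ =ᶠ[𝓝 s] fun _ => 1 := by
      filter_upwards [lt_mem_nhds hs] with t ht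
      exact hχ1 t ht.le
    rw [this.deriv_eq]; simp
  have hχdc : Continuous (deriv χ) := hχc.continuous_deriv (by norm_num)
  have hint := area_int2 hd hi hp hχc hA0 hAB hB1 hχ0 hχ1 hχn
  set f : ℂ → ℂ := fun z => ((deriv χ (‖z‖ ^ 2) : ℝ) : ℂ) * (z * ((starRingEnd ℂ) (V (h z)) * (deriv V (h z) * deriv h z))) with hf
  have hfD : ∀ z ∈ Dp, f z = ((deriv χ (‖z‖ ^ 2) : ℝ) : ℂ) * ((((‖z‖ ^ (2 * m) : ℝ) : ℂ))⁻¹ * ((starRingEnd ℂ) (P z) * Q z)) := by
    intro z hz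
    simp only [hf]
    rw [hQz z hz]
  have hf0 : ∀ z, 1 ≤ ‖z‖ → f z = 0 := by
    intro z hz
    simp only [hf]
    rw [hχdB _ (by nlinarith)]
    simp
  have hPd : ContinuousOn (deriv P) (ball 0 1) := (hP.deriv isOpen_ball).continuousOn
  have hfc : Continuous f := by
    rw [continuous_iff_continuousAt]
    intro z
    by_cases hz : z ∈ Dp
    · have hz0 : z ≠ 0 := hz.2
      have h1 : ContinuousAt (fun z => ((deriv χ (‖z‖ ^ 2) : ℝ) : ℂ) * ((((‖z‖ ^ (2 * m) : ℝ) : ℂ))⁻¹ * ((starRingEnd ℂ) (P z) * Q z))) z := by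
        have c1 : ContinuousAt P z := hP.continuousOn.continuousAt (isOpen_ball.mem_nhds hz.1)
        have c2 : ContinuousAt (deriv P) z := hPd.continuousAt (isOpen_ball.mem_nhds hz.1)
        have c3 : ContinuousAt Q z := (continuousAt_id.mul c2).sub (continuousAt_const.mul c1)
        have c4 : ContinuousAt (fun z : ℂ => ((‖z‖ ^ (2 * m) : ℝ) : ℂ)) z := by fun_prop
        have c5 : ContinuousAt (fun z : ℂ => ((deriv χ (‖z‖ ^ 2) : ℝ) : ℂ)) z := by
          apply Complex.continuous_ofReal.continuousAt.comp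
          exact hχdc.continuousAt.comp (continuous_norm.pow 2).continuousAt
        refine c5.mul ((c4.inv₀ ?_).mul ((Complex.continuous_conj.continuousAt.comp c1).mul c3))
        have : (0:ℝ) < ‖z‖ ^ (2 * m) := pow_pos (norm_pos_iff.2 hz0) _
        exact_mod_cast this.ne'
      refine h1.congr ?_
      filter_upwards [isOpen_Dp.mem_nhds hz] with w hw
      exact (hfD w hw).symm
    · have h1 : ∀ᶠ w in 𝓝 z, f w = 0 := by
        by_cases hz0 : z = 0
        · subst hz0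
          have : ∀ᶠ w in 𝓝 (0:ℂ), ‖w‖ ^ 2 < A := by
            apply (isOpen_lt (continuous_norm.pow 2) continuous_const).mem_nhds
            simpa using hA0
          filter_upwards [this] with w hw
          simp only [hf]
          rw [hχdA _ hw]
          simp
        · have hz1 : 1 ≤ ‖z‖ := by
            by_contra hlt
            push Not at hlt
            exact hz ⟨by simpa using hlt, hz0⟩
          have : ∀ᶠ w in 𝓝 z, Bb < ‖w‖ ^ 2 := by
            apply (isOpen_lt continuous_const (continuous_norm.pow 2)).mem_nhds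
            show Bb < ‖z‖ ^ 2
            nlinarith
          filter_upwards [this] with w hw
          simp only [hf]
          rw [hχdB _ hw]
          simp
      have h2 : f =ᶠ[𝓝 z] fun _ => 0 := h1
      exact continuousAt_const.congr h2.symm
  obtain ⟨hpi1, hpi2⟩ := polar_int hfc hf0
  have hinner : ∀ s ∈ Ioo (0:ℝ) 1, (s : ℂ) * ∫ θ in (0:ℝ)..(2 * Real.pi), f (circleMap 0 s θ)
      = ((s * deriv χ (s ^ 2) * (2 * Real.pi * ((s ^ (2 * m))⁻¹ * S s)) : ℝ) : ℂ) := by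
    intro s hs
    have h1 : ∀ θ : ℝ, f (circleMap 0 s θ) = (((deriv χ (s ^ 2) : ℝ) : ℂ) * (((s ^ (2 * m) : ℝ) : ℂ))⁻¹) * ((starRingEnd ℂ) (P (circleMap 0 s θ)) * Q (circleMap 0 s θ)) := by
      intro θ
      have hn : ‖circleMap 0 s θ‖ = s := by simp [abs_of_pos hs.1]
      rw [hfD, hn, mul_assoc]
      refine ⟨by rw [mem_ball_zero_iff, hn]; exact hs.2, ?_⟩
      intro h0
      rw [mem_singleton_iff] at h0
      rw [h0, norm_zero] at hn
      exact hs.1.ne hn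
    simp only [h1]
    rw [intervalIntegral.integral_const_mul, (key s hs.1 hs.2).2]
    push_cast
    ring
  have hreal : ∫ z, f z = ((∫ s in Ioo (0:ℝ) 1, s * deriv χ (s ^ 2) * (2 * Real.pi * ((s ^ (2 * m))⁻¹ * S s)) : ℝ) : ℂ) := by
    rw [hpi2, MeasureTheory.setIntegral_congr_fun measurableSet_Ioo hinner]
    exact integral_complex_ofReal
  have hintg : IntegrableOn (fun s => s * deriv χ (s ^ 2) * (2 * Real.pi * ((s ^ (2 * m))⁻¹ * S s))) (Ioo 0 1) := by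
    have h1 : IntegrableOn (fun s => ((s * deriv χ (s ^ 2) * (2 * Real.pi * ((s ^ (2 * m))⁻¹ * S s)) : ℝ) : ℂ)) (Ioo 0 1) :=
      hpi1.congr_fun hinner measurableSet_Ioo
    exact h1.re
  have hlow : ∫ s in Ioo (0:ℝ) 1, s * deriv χ (s ^ 2) * (2 * Real.pi * κ) ≤ ∫ s in Ioo (0:ℝ) 1, s * deriv χ (s ^ 2) * (2 * Real.pi * ((s ^ (2 * m))⁻¹ * S s)) := by
    apply MeasureTheory.setIntegral_mono_on _ hintg measurableSet_Ioo
    · intro s hs
      rcases lt_or_ge s r with hsr | hsr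
      · rw [hχdA (s ^ 2) (by simp only [hA]; nlinarith [hs.1])]
        simp
      · have h1 := hmono s hsr hs.2
        have h2 := hχd0 (s ^ 2)
        have h3 := hs.1
        have h4 := Real.pi_pos
        gcongr
    · have hc : Continuous fun s : ℝ => s * deriv χ (s ^ 2) * (2 * Real.pi * κ) := by fun_prop
      exact (hc.integrableOn_Icc (a := 0) (b := 1)).mono_set Ioo_subset_Icc_self
  have hval : ∫ s in Ioo (0:ℝ) 1, s * deriv χ (s ^ 2) * (2 * Real.pi * κ) = Real.pi * κ := by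
    rw [← integral_Ioc_eq_integral_Ioo, ← intervalIntegral.integral_of_le zero_le_one]
    have h1 : ∀ s ∈ uIcc (0:ℝ) 1, HasDerivAt (fun s => Real.pi * κ * χ (s ^ 2)) (s * deriv χ (s ^ 2) * (2 * Real.pi * κ)) s := by
      intro s _
      have h2 : HasDerivAt χ (deriv χ (s ^ 2)) (s ^ 2) := (hχc.differentiable (by norm_num) _).hasDerivAt
      have hp2 : HasDerivAt (fun s : ℝ => s ^ 2) (2 * s) s := by simpa using hasDerivAt_pow 2 s
      have h3 : HasDerivAt (fun s => χ (s ^ 2)) (deriv χ (s ^ 2) * (2 * s)) s := HasDerivAt.comp (h := fun s : ℝ => s ^ 2) s h2 hp2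
      have h4 : HasDerivAt (fun s => Real.pi * κ * χ (s ^ 2)) (Real.pi * κ * (deriv χ (s ^ 2) * (2 * s))) s := h3.const_mul (Real.pi * κ)
      have h5 : s * deriv χ (s ^ 2) * (2 * Real.pi * κ) = Real.pi * κ * (deriv χ (s ^ 2) * (2 * s)) := by ring
      rw [h5]
      exact h4
    rw [intervalIntegral.integral_eq_sub_of_hasDerivAt h1]
    · rw [hχ1 (1 ^ 2) (by simpa using hB1.le), hχ0 (0 ^ 2) (by simpa using hA0.le)]
      ring
    · have hc : Continuous fun s : ℝ => s * deriv χ (s ^ 2) * (2 * Real.pi * κ) := by fun_prop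
      exact hc.intervalIntegrable _ _
  rw [hreal, ofReal_re] at hint
  have h9 : Real.pi * κ ≤ -(volume.real (h '' Dp)ᶜ) := by linarith
  have h10 := (key r hr0 hr1).1
  simp only [hκ, hS, hm1, Nat.cast_one, mul_one] at h9 h10
  exact ⟨h10, h9⟩

theorem area_om {h : ℂ → ℂ} (hd : DifferentiableOn ℂ h Dp) (hi : InjOn h Dp)
    (hp : Tendsto h (𝓝[≠] 0) (Bornology.cobounded ℂ))
    {P : ℂ → ℂ} (hP : DifferentiableOn ℂ P (ball 0 1)) (hF0 : ∀ z ∈ Dp, h z * z = P z)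
    {a : ℕ → ℂ} (ha : ∀ z ∈ ball (0:ℂ) 1, HasSum (fun j => a j * z ^ j) (P z)) :
    (Summable fun j : ℕ => (j : ℝ) * ‖a (j + 1)‖ ^ 2) ∧
      volume.real (h '' Dp)ᶜ + Real.pi * ∑' j : ℕ, (j : ℝ) * ‖a (j + 1)‖ ^ 2 ≤ Real.pi * ‖a 0‖ ^ 2 := by
  have hpi := Real.pi_pos
  have h1 : ∀ r : ℝ, 0 < r → r < 1 → ∀ N : ℕ,
      ∑ j ∈ Finset.range N, (j : ℝ) * ‖a (j + 1)‖ ^ 2 * r ^ (2 * j) ≤
        ‖a 0‖ ^ 2 * (r ^ 2)⁻¹ - volume.real (h '' Dp)ᶜ / Real.pi := by
    intro r hr0 hr1 N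
    obtain ⟨hs, hle⟩ := area2 hd hi hp hP hF0 ha hr0 hr1
    rw [hs.tsum_eq_zero_add] at hle
    have hs2 := (summable_nat_add_iff 1).2 hs
    have e1 : (fun j : ℕ => (((j + 1 : ℕ) : ℝ) - 1) * ‖a (j + 1)‖ ^ 2 * r ^ (2 * (j + 1))) =
        fun j : ℕ => r ^ 2 * ((j : ℝ) * ‖a (j + 1)‖ ^ 2 * r ^ (2 * j)) := by
      funext j
      push_cast
      ring
    rw [e1] at hle hs2
    have hr2 : (r ^ 2) ≠ 0 := (pow_pos hr0 2).ne'
    have hs3 : Summable fun j : ℕ => (j : ℝ) * ‖a (j + 1)‖ ^ 2 * r ^ (2 * j) := by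
      have := hs2.mul_left (r ^ 2)⁻¹
      simpa [← mul_assoc, inv_mul_cancel₀ hr2] using this
    rw [tsum_mul_left] at hle
    have h3 : ∑ j ∈ Finset.range N, (j : ℝ) * ‖a (j + 1)‖ ^ 2 * r ^ (2 * j) ≤
        ∑' j : ℕ, (j : ℝ) * ‖a (j + 1)‖ ^ 2 * r ^ (2 * j) :=
      hs3.sum_le_tsum _ fun j _ => by positivity
    set SS := ∑' j : ℕ, (j : ℝ) * ‖a (j + 1)‖ ^ 2 * r ^ (2 * j) with hSS
    have h4 : (r ^ 2)⁻¹ * ((((0 : ℕ) : ℝ) - 1) * ‖a 0‖ ^ 2 * r ^ (2 * 0) + r ^ 2 * SS) =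
        SS - ‖a 0‖ ^ 2 * (r ^ 2)⁻¹ := by
      field_simp
      push_cast
      ring
    rw [h4] at hle
    have h5 : SS - ‖a 0‖ ^ 2 * (r ^ 2)⁻¹ ≤ -(volume.real (h '' Dp)ᶜ) / Real.pi := by
      rw [le_div_iff₀ hpi]; linarith
    have h6 : -(volume.real (h '' Dp)ᶜ) / Real.pi = -(volume.real (h '' Dp)ᶜ / Real.pi) := neg_div _ _
    linarith
  have h2 : ∀ N : ℕ, ∑ j ∈ Finset.range N, (j : ℝ) * ‖a (j + 1)‖ ^ 2 ≤
      ‖a 0‖ ^ 2 - volume.real (h '' Dp)ᶜ / Real.pi := by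
    intro N
    have c1 : ContinuousAt (fun r : ℝ => ∑ j ∈ Finset.range N, (j : ℝ) * ‖a (j + 1)‖ ^ 2 * r ^ (2 * j)) 1 := by
      fun_prop
    have c2 : ContinuousAt (fun r : ℝ => ‖a 0‖ ^ 2 * (r ^ 2)⁻¹ - volume.real (h '' Dp)ᶜ / Real.pi) 1 := by
      have : ((1 : ℝ) ^ 2) ≠ 0 := by norm_num
      fun_prop (disch := assumption)
    have t1 := c1.tendsto.mono_left (nhdsWithin_le_nhds (s := Iio (1 : ℝ)))
    have t2 := c2.tendsto.mono_left (nhdsWithin_le_nhds (s := Iio (1 : ℝ)))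
    have h3 := le_of_tendsto_of_tendsto t1 t2 (by
      filter_upwards [Ioo_mem_nhdsLT (show (0 : ℝ) < 1 by norm_num)] with r hr
      exact h1 r hr.1 hr.2 N)
    simpa using h3
  have hsum : Summable fun j : ℕ => (j : ℝ) * ‖a (j + 1)‖ ^ 2 :=
    summable_of_sum_range_le (fun j => by positivity) h2
  refine ⟨hsum, ?_⟩
  have h3 : ∑' j : ℕ, (j : ℝ) * ‖a (j + 1)‖ ^ 2 ≤ ‖a 0‖ ^ 2 - volume.real (h '' Dp)ᶜ / Real.pi :=
    hsum.tsum_le_of_sum_range_le h2
  have h4 : Real.pi * ∑' j : ℕ, (j : ℝ) * ‖a (j + 1)‖ ^ 2 ≤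
      Real.pi * (‖a 0‖ ^ 2 - volume.real (h '' Dp)ᶜ / Real.pi) :=
    mul_le_mul_of_nonneg_left h3 hpi.le
  have h5 : Real.pi * (‖a 0‖ ^ 2 - volume.real (h '' Dp)ᶜ / Real.pi) =
      Real.pi * ‖a 0‖ ^ 2 - volume.real (h '' Dp)ᶜ := by
    field_simp
  linarith

theorem omitted_bdd {h : ℂ → ℂ} (hd : DifferentiableOn ℂ h Dp)
    (hp : Tendsto h (𝓝[≠] 0) (Bornology.cobounded ℂ)) : ∃ M : ℝ, (h '' Dp)ᶜ ⊆ ball 0 M := by
  obtain ⟨M, hM⟩ := image_cofinal hd hp (show (0 : ℝ) < 1 / 2 by norm_num) (by norm_num)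
  refine ⟨M, fun w hw => ?_⟩
  rw [mem_ball_zero_iff]
  by_contra hcon
  push Not at hcon
  obtain ⟨z, hz, rfl⟩ := hM w hcon
  apply hw
  refine ⟨z, ⟨?_, hz.1⟩, rfl⟩
  rw [mem_ball_zero_iff]
  nlinarith [norm_nonneg z, hz.2]

theorem omitted_fin {h : ℂ → ℂ} (hd : DifferentiableOn ℂ h Dp)
    (hp : Tendsto h (𝓝[≠] 0) (Bornology.cobounded ℂ)) : volume (h '' Dp)ᶜ ≠ ⊤ := by
  obtain ⟨M, hM⟩ := omitted_bdd hd hp
  exact ne_top_of_le_ne_top measure_ball_lt_top.ne (measure_mono hM)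

end Pool.Agent.H762R2
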