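import Mathlib

set_option autoImplicit false

namespace Pool.Agent.H762R2.Bir

lemma second_le_of_max {f f1 f2 : ℝ → ℝ} (h1 : ∀ t, HasDerivAt f (f1 t) t)
    (h2 : ∀ t, HasDerivAt f1 (f2 t) t) {t0 : ℝ} (hmax : ∀ t, f t ≤ f t0) :
    f1 t0 = 0 ∧ f2 t0 ≤ 0 := by
  have hloc : IsLocalMax f t0 := Filter.Eventually.of_forall hmax
  have e1 : deriv f = f1 := funext fun t => (h1 t).deriv
  have e2 : deriv f1 = f2 := funext fun t => (h2 t).deriv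
  have hz : f1 t0 = 0 := by
    have := hloc.deriv_eq_zero
    rwa [e1] at this
  refine ⟨hz, ?_⟩
  by_contra hcon
  push Not at hcon
  have hmin : IsLocalMin f t0 := by
    apply isLocalMin_of_deriv_deriv_pos
    · rw [e1, e2]; exact hcon
    · rw [e1]; exact hz
    · exact (h1 t0).continuousAt
  have hconst : ∀ᶠ t in nhds t0, f t = f t0 := by
    filter_upwards [hmin] with t ht
    exact le_antisymm (hmax t) ht
  have hf1 : ∀ᶠ t in nhds t0, f1 t = 0 := by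
    have := hconst.eventually_nhds
    filter_upwards [this] with t ht
    have h : HasDerivAt f 0 t := by
      have hc : HasDerivAt (fun _ : ℝ => f t0) 0 t := hasDerivAt_const t (f t0)
      exact hc.congr_of_eventuallyEq ht
    exact (h1 t).unique h
  have h0 : HasDerivAt f1 0 t0 := by
    have hc : HasDerivAt (fun _ : ℝ => (0:ℝ)) 0 t0 := hasDerivAt_const t0 0
    exact hc.congr_of_eventuallyEq hf1
  have := (h2 t0).unique h0
  linarith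

lemma second_ge_of_min {f f1 f2 : ℝ → ℝ} (h1 : ∀ t, HasDerivAt f (f1 t) t)
    (h2 : ∀ t, HasDerivAt f1 (f2 t) t) {t0 : ℝ} (hmin : ∀ t, f t0 ≤ f t) :
    f1 t0 = 0 ∧ 0 ≤ f2 t0 := by
  have := second_le_of_max (f := fun t => - f t) (f1 := fun t => - f1 t) (f2 := fun t => - f2 t)
    (fun t => (h1 t).neg) (fun t => (h2 t).neg) (t0 := t0) (fun t => neg_le_neg (hmin t))
  constructor <;> linarith [this.1, this.2]

lemma exists_max_of_periodic {f : ℝ → ℝ} (hc : Continuous f) (hp : Function.Periodic f 1) :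
    ∃ t0, ∀ t, f t ≤ f t0 := by
  obtain ⟨t0, -, h0⟩ := isCompact_Icc.exists_isMaxOn (Set.nonempty_Icc.mpr (zero_le_one' ℝ))
    hc.continuousOn
  refine ⟨t0, fun t => ?_⟩
  have hfr : f (Int.fract t) = f t := by
    have : Int.fract t = t - ⌊t⌋ • (1:ℝ) := by rw [zsmul_one]; rfl
    rw [this]
    exact hp.sub_zsmul_eq _
  rw [← hfr]
  exact h0 ⟨Int.fract_nonneg t, (Int.fract_lt_one t).le⟩

lemma exists_min_of_periodic {f : ℝ → ℝ} (hc : Continuous f) (hp : Function.Periodic f 1) :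
    ∃ t0, ∀ t, f t0 ≤ f t := by
  obtain ⟨t0, h0⟩ := exists_max_of_periodic (f := fun t => - f t) hc.neg
    (fun t => by simp [hp t])
  exact ⟨t0, fun t => neg_le_neg_iff.mp (h0 t)⟩

/-- algebraic core: the critical point computation. -/
lemma crit_core {n11 n12 n21 n22 x y x1 y1 x2 y2 : ℝ}
    {p11 p12 p22 D Δ T z1 z2 m g k : ℝ}
    (hp11 : p11 = Δ + n22 ^ 2 + n12 ^ 2) (hp12 : p12 = -(n22 * n21 + n12 * n11))
    (hp22 : p22 = Δ + n21 ^ 2 + n11 ^ 2) (hΔ : Δ = n11 * n22 - n12 * n21) (hT : T = n11 + n22)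
    (hD : D = p11 * p22 - p12 ^ 2)
    (hz1 : z1 = p22 * x - p12 * y) (hz2 : z2 = -p12 * x + p11 * y)
    (hm : m = z1 * y1 - z2 * x1)
    (hg : g = (n11 * x + n12 * y) * y1 - (n21 * x + n22 * y) * x1)
    (hk : k = x1 * y2 - y1 * x2)
    (hcrit : z1 * x1 + z2 * y1 = 0)
    (hS : 0 < z1 ^ 2 + z2 ^ 2) :
    D * g = m * (T * Δ) ∧ (x1 ^ 2 + y1 ^ 2) * (z1 ^ 2 + z2 ^ 2) = m ^ 2 ∧
    k * (z1 ^ 2 + z2 ^ 2) = - m * (z1 * x2 + z2 * y2) ∧
    (p22 * x1 ^ 2 - 2 * p12 * x1 * y1 + p11 * y1 ^ 2) * (z1 ^ 2 + z2 ^ 2) ^ 2 =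
      m ^ 2 * (D * (p22 * x ^ 2 - 2 * p12 * x * y + p11 * y ^ 2)) := by
  have hx1 : x1 * (z1 ^ 2 + z2 ^ 2) = - m * z2 := by
    rw [hm]; linear_combination z1 * hcrit
  have hy1 : y1 * (z1 ^ 2 + z2 ^ 2) = m * z1 := by
    rw [hm]; linear_combination z2 * hcrit
  refine ⟨?_, ?_, ?_, ?_⟩
  · -- D g |z|^2 = m T Δ |z|^2
    have key : D * ((n11 * x + n12 * y) * z1 + (n21 * x + n22 * y) * z2) =
        T * Δ * (z1 ^ 2 + z2 ^ 2) := by
      rw [hz1, hz2, hD, hp11, hp12, hp22, hΔ, hT]; ring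
    have h1 : g * (z1 ^ 2 + z2 ^ 2) = m * ((n11 * x + n12 * y) * z1 + (n21 * x + n22 * y) * z2) := by
      rw [hg]; linear_combination (n11 * x + n12 * y) * hy1 - (n21 * x + n22 * y) * hx1
    have h2 : (D * g) * (z1 ^ 2 + z2 ^ 2) = (m * (T * Δ)) * (z1 ^ 2 + z2 ^ 2) := by
      linear_combination D * h1 + m * key
    exact mul_right_cancel₀ hS.ne' h2
  · have : ((x1 ^ 2 + y1 ^ 2) * (z1 ^ 2 + z2 ^ 2)) * (z1 ^ 2 + z2 ^ 2) = m ^ 2 * (z1 ^ 2 + z2 ^ 2) := by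
      have e1 : (x1 * (z1 ^ 2 + z2 ^ 2)) ^ 2 = (- m * z2) ^ 2 := by rw [hx1]
      have e2 : (y1 * (z1 ^ 2 + z2 ^ 2)) ^ 2 = (m * z1) ^ 2 := by rw [hy1]
      linear_combination e1 + e2
    exact mul_right_cancel₀ hS.ne' this
  · rw [hk]; linear_combination y2 * hx1 - x2 * hy1
  · have e : (p22 * x1 ^ 2 - 2 * p12 * x1 * y1 + p11 * y1 ^ 2) * (z1 ^ 2 + z2 ^ 2) ^ 2 =
        m ^ 2 * (p22 * z2 ^ 2 + 2 * p12 * z1 * z2 + p11 * z1 ^ 2) := by
      have e1 : (x1 * (z1 ^ 2 + z2 ^ 2)) * (x1 * (z1 ^ 2 + z2 ^ 2)) = (- m * z2) * (- m * z2) := by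
        rw [hx1]
      have e2 : (x1 * (z1 ^ 2 + z2 ^ 2)) * (y1 * (z1 ^ 2 + z2 ^ 2)) = (- m * z2) * (m * z1) := by
        rw [hx1, hy1]
      have e3 : (y1 * (z1 ^ 2 + z2 ^ 2)) * (y1 * (z1 ^ 2 + z2 ^ 2)) = (m * z1) * (m * z1) := by
        rw [hy1]
      linear_combination p22 * e1 - 2 * p12 * e2 + p11 * e3
    rw [e, hz1, hz2, hD]; ring


lemma crit_both {n11 n12 n21 n22 C x y x1 y1 x2 y2 : ℝ}
    {p11 p12 p22 D Δ T z1 z2 g k F q : ℝ}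
    (hp11 : p11 = Δ + n22 ^ 2 + n12 ^ 2) (hp12 : p12 = -(n22 * n21 + n12 * n11))
    (hp22 : p22 = Δ + n21 ^ 2 + n11 ^ 2) (hΔ : Δ = n11 * n22 - n12 * n21) (hT : T = n11 + n22)
    (hD : D = p11 * p22 - p12 ^ 2)
    (hz1 : z1 = p22 * x - p12 * y) (hz2 : z2 = -p12 * x + p11 * y)
    (hg : g = (n11 * x + n12 * y) * y1 - (n21 * x + n22 * y) * x1)
    (hk : k = x1 * y2 - y1 * x2)
    (hF : F = p22 * x ^ 2 - 2 * p12 * x * y + p11 * y ^ 2)
    (hq : q = p22 * x1 ^ 2 - 2 * p12 * x1 * y1 + p11 * y1 ^ 2)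
    (hcrit : z1 * x1 + z2 * y1 = 0)
    (hode : g ^ 3 * k = C * (x1 ^ 2 + y1 ^ 2) ^ 3)
    (hS : 0 < z1 ^ 2 + z2 ^ 2) (hgp : 0 < g) (hTΔ : 0 < T * Δ) (hDp : 0 < D) :
    (z1 * x2 + z2 * y2 + q ≤ 0 → (T * Δ) ^ 3 * F ≤ C * D ^ 2) ∧
    (0 ≤ z1 * x2 + z2 * y2 + q → C * D ^ 2 ≤ (T * Δ) ^ 3 * F) := by
  obtain ⟨m, hm⟩ : ∃ m, m = z1 * y1 - z2 * x1 := ⟨_, rfl⟩
  obtain ⟨e1, e2, e3, e4⟩ := crit_core hp11 hp12 hp22 hΔ hT hD hz1 hz2 hm hg hk hcrit hS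
  rw [← hF, ← hq] at e4
  obtain ⟨S, hSd⟩ : ∃ S, S = z1 ^ 2 + z2 ^ 2 := ⟨_, rfl⟩
  rw [← hSd] at e2 e3 e4 hS
  obtain ⟨r, hr⟩ : ∃ r, r = z1 * x2 + z2 * y2 := ⟨_, rfl⟩
  rw [← hr] at e3 ⊢
  obtain ⟨v, hv⟩ : ∃ v, v = x1 ^ 2 + y1 ^ 2 := ⟨_, rfl⟩
  rw [← hv] at e2 hode
  clear hp11 hp12 hp22 hΔ hT hD hz1 hz2 hm hg hk hF hq hcrit hSd hr hv
  have hmpos : 0 < m := by
    by_contra hcon
    push Not at hcon
    have h1 : D * g ≤ 0 := by rw [e1]; exact mul_nonpos_of_nonpos_of_nonneg hcon hTΔ.le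
    have h2 : 0 < D * g := mul_pos hDp hgp
    linarith
  have E1 : (D * g) ^ 3 * (k * S) * S ^ 2 = C * D ^ 3 * m ^ 6 := by
    have h1 : (D * g) ^ 3 * (k * S) * S ^ 2 = D ^ 3 * (g ^ 3 * k) * S ^ 3 := by ring
    rw [h1, hode]
    have h2 : D ^ 3 * (C * v ^ 3) * S ^ 3 = C * D ^ 3 * (v * S) ^ 3 := by ring
    rw [h2, e2]; ring
  have E3 : (m * (T * Δ)) ^ 3 * (m * q) * S ^ 2 = m ^ 6 * D * ((T * Δ) ^ 3 * F) := by
    have h1 : (m * (T * Δ)) ^ 3 * (m * q) * S ^ 2 = m ^ 4 * (T * Δ) ^ 3 * (q * S ^ 2) := by ring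
    rw [h1, e4]; ring
  have h3 : 0 ≤ (m * (T * Δ)) ^ 3 := by positivity
  have h4 : 0 ≤ S ^ 2 := by positivity
  have hmD : 0 < m ^ 6 * D := by positivity
  constructor
  · intro h
    have hkS : m * q ≤ k * S := by
      rw [e3]; nlinarith
    have E2 : (m * (T * Δ)) ^ 3 * (m * q) * S ^ 2 ≤ C * D ^ 3 * m ^ 6 := by
      rw [← E1, e1]
      exact mul_le_mul_of_nonneg_right (mul_le_mul_of_nonneg_left hkS h3) h4
    rw [E3] at E2
    have : m ^ 6 * D * ((T * Δ) ^ 3 * F) ≤ m ^ 6 * D * (C * D ^ 2) := by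
      calc _ ≤ C * D ^ 3 * m ^ 6 := E2
        _ = _ := by ring
    exact le_of_mul_le_mul_left this hmD
  · intro h
    have hkS : k * S ≤ m * q := by
      rw [e3]; nlinarith
    have E2 : C * D ^ 3 * m ^ 6 ≤ (m * (T * Δ)) ^ 3 * (m * q) * S ^ 2 := by
      rw [← E1, e1]
      exact mul_le_mul_of_nonneg_right (mul_le_mul_of_nonneg_left hkS h3) h4
    rw [E3] at E2
    have : m ^ 6 * D * (C * D ^ 2) ≤ m ^ 6 * D * ((T * Δ) ^ 3 * F) := by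
      calc _ = C * D ^ 3 * m ^ 6 := by ring
        _ ≤ _ := E2
    exact le_of_mul_le_mul_left this hmD

/-- Closed curves satisfying `g^3 k = C |γ'|^6` for a stable linear field are ellipses. -/
theorem ellipse_of_ode {X Y X1 Y1 X2 Y2 : ℝ → ℝ}
    (hX : ∀ t, HasDerivAt X (X1 t) t) (hY : ∀ t, HasDerivAt Y (Y1 t) t)
    (hX1 : ∀ t, HasDerivAt X1 (X2 t) t) (hY1 : ∀ t, HasDerivAt Y1 (Y2 t) t)
    (hXp : Function.Periodic X 1) (hYp : Function.Periodic Y 1)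
    {n11 n12 n21 n22 C : ℝ} (hT : 0 < n11 + n22) (hΔ : 0 < n11 * n22 - n12 * n21) (hC : 0 < C)
    (hg : ∀ t, 0 < (n11 * X t + n12 * Y t) * Y1 t - (n21 * X t + n22 * Y t) * X1 t)
    (hode : ∀ t, ((n11 * X t + n12 * Y t) * Y1 t - (n21 * X t + n22 * Y t) * X1 t) ^ 3 *
      (X1 t * Y2 t - Y1 t * X2 t) = C * (X1 t ^ 2 + Y1 t ^ 2) ^ 3) :
    ∃ a b d : ℝ, 0 < a ∧ 0 < a * d - b ^ 2 ∧
      ∀ t, a * X t ^ 2 + 2 * b * X t * Y t + d * Y t ^ 2 = 1 := by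
  obtain ⟨Δ, hΔe⟩ : ∃ Δ, Δ = n11 * n22 - n12 * n21 := ⟨_, rfl⟩
  obtain ⟨T, hTe⟩ : ∃ T, T = n11 + n22 := ⟨_, rfl⟩
  obtain ⟨p11, hp11⟩ : ∃ p, p = Δ + n22 ^ 2 + n12 ^ 2 := ⟨_, rfl⟩
  obtain ⟨p12, hp12⟩ : ∃ p, p = -(n22 * n21 + n12 * n11) := ⟨_, rfl⟩
  obtain ⟨p22, hp22⟩ : ∃ p, p = Δ + n21 ^ 2 + n11 ^ 2 := ⟨_, rfl⟩
  obtain ⟨D, hD⟩ : ∃ D, D = p11 * p22 - p12 ^ 2 := ⟨_, rfl⟩
  rw [← hΔe] at hΔ
  rw [← hTe] at hT
  have hDpos : 0 < D := by
    have : D = Δ * (2 * Δ + n11 ^ 2 + n12 ^ 2 + n21 ^ 2 + n22 ^ 2) := by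
      rw [hD, hp11, hp12, hp22, hΔe]; ring
    rw [this]; positivity
  have hp11pos : 0 < p11 := by rw [hp11]; positivity
  have hp22pos : 0 < p22 := by rw [hp22]; positivity
  set F : ℝ → ℝ := fun t => p22 * X t ^ 2 - 2 * p12 * X t * Y t + p11 * Y t ^ 2 with hF
  set F1 : ℝ → ℝ := fun t => 2 * ((p22 * X t - p12 * Y t) * X1 t + (-p12 * X t + p11 * Y t) * Y1 t)
    with hF1
  set F2 : ℝ → ℝ := fun t => 2 * ((p22 * X t - p12 * Y t) * X2 t + (-p12 * X t + p11 * Y t) * Y2 t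
      + (p22 * X1 t ^ 2 - 2 * p12 * X1 t * Y1 t + p11 * Y1 t ^ 2)) with hF2
  have hFd : ∀ t, HasDerivAt F (F1 t) t := by
    intro t
    have h := ((((hX t).pow 2).const_mul p22).sub ((((hX t).const_mul (2 * p12)).mul (hY t)))).add
      (((hY t).pow 2).const_mul p11)
    refine (h.congr_deriv ?_)
    simp only [hF1]; push_cast; ring
  have hF1d : ∀ t, HasDerivAt F1 (F2 t) t := by
    intro t
    have hz1 := ((hX t).const_mul p22).sub ((hY t).const_mul p12)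
    have hz2 := ((hX t).const_mul (-p12)).add ((hY t).const_mul p11)
    have h := ((hz1.mul (hX1 t)).add (hz2.mul (hY1 t))).const_mul 2
    refine (h.congr_deriv ?_)
    simp only [hF2]; simp only [Pi.add_apply, Pi.sub_apply]; ring
  have hFc : Continuous F := continuous_iff_continuousAt.mpr fun t => (hFd t).continuousAt
  have hFp : Function.Periodic F 1 := by
    intro t
    simp only [hF, hXp t, hYp t]
  -- positivity of |z|^2
  have hSpos : ∀ t, 0 < (p22 * X t - p12 * Y t) ^ 2 + (-p12 * X t + p11 * Y t) ^ 2 := by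
    intro t
    by_contra hcon
    push Not at hcon
    have h1 : p22 * X t - p12 * Y t = 0 := by
      have : (p22 * X t - p12 * Y t) ^ 2 ≤ 0 := by
        linarith only [hcon, sq_nonneg (-p12 * X t + p11 * Y t)]
      exact pow_eq_zero_iff (two_ne_zero) |>.mp (le_antisymm this (sq_nonneg _))
    have h2 : -p12 * X t + p11 * Y t = 0 := by
      have : (-p12 * X t + p11 * Y t) ^ 2 ≤ 0 := by
        linarith only [hcon, sq_nonneg (p22 * X t - p12 * Y t)]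
      exact pow_eq_zero_iff (two_ne_zero) |>.mp (le_antisymm this (sq_nonneg _))
    have hx : D * X t = 0 := by rw [hD]; linear_combination p11 * h1 + p12 * h2
    have hy : D * Y t = 0 := by rw [hD]; linear_combination p12 * h1 + p22 * h2
    have hx0 : X t = 0 := by
      rcases mul_eq_zero.mp hx with h | h
      · exact absurd h hDpos.ne'
      · exact h
    have hy0 : Y t = 0 := by
      rcases mul_eq_zero.mp hy with h | h
      · exact absurd h hDpos.ne'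
      · exact h
    have := hg t
    rw [hx0, hy0] at this
    norm_num at this
  obtain ⟨ta, hta⟩ := exists_max_of_periodic hFc hFp
  obtain ⟨tb, htb⟩ := exists_min_of_periodic hFc hFp
  have hTΔ : 0 < T * Δ := mul_pos hT hΔ
  have hmaxle : (T * Δ) ^ 3 * F ta ≤ C * D ^ 2 := by
    obtain ⟨hc1, hc2⟩ := second_le_of_max hFd hF1d hta
    refine (crit_both (x := X ta) (y := Y ta) (x1 := X1 ta) (y1 := Y1 ta)
      (x2 := X2 ta) (y2 := Y2 ta) hp11 hp12 hp22 hΔe hTe hD rfl rfl rfl rfl rfl rfl ?_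
      (hode ta) (hSpos ta) (hg ta) hTΔ hDpos).1 ?_
    · simp only [hF1] at hc1; linarith only [hc1]
    · simp only [hF2] at hc2; linarith only [hc2]
  have hminge : C * D ^ 2 ≤ (T * Δ) ^ 3 * F tb := by
    obtain ⟨hc1, hc2⟩ := second_ge_of_min hFd hF1d htb
    refine (crit_both (x := X tb) (y := Y tb) (x1 := X1 tb) (y1 := Y1 tb)
      (x2 := X2 tb) (y2 := Y2 tb) hp11 hp12 hp22 hΔe hTe hD rfl rfl rfl rfl rfl rfl ?_
      (hode tb) (hSpos tb) (hg tb) hTΔ hDpos).2 ?_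
    · simp only [hF1] at hc1; linarith only [hc1]
    · simp only [hF2] at hc2; linarith only [hc2]
  have hT3 : 0 < (T * Δ) ^ 3 := by positivity
  have hFconst : ∀ t, F t = C * D ^ 2 / (T * Δ) ^ 3 := by
    intro t
    have h1 : (T * Δ) ^ 3 * F t ≤ C * D ^ 2 :=
      (mul_le_mul_of_nonneg_left (hta t) hT3.le).trans hmaxle
    have h2 : C * D ^ 2 ≤ (T * Δ) ^ 3 * F t :=
      hminge.trans (mul_le_mul_of_nonneg_left (htb t) hT3.le)
    rw [eq_div_iff hT3.ne']; linarith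
  set F0 := C * D ^ 2 / (T * Δ) ^ 3 with hF0
  have hF0pos : 0 < F0 := by positivity
  refine ⟨p22 / F0, - p12 / F0, p11 / F0, by positivity, ?_, ?_⟩
  · have : p22 / F0 * (p11 / F0) - (-p12 / F0) ^ 2 = D / F0 ^ 2 := by
      rw [hD]; field_simp
    rw [this]; positivity
  · intro t
    have := hFconst t
    simp only [hF] at this
    field_simp
    linarith

end Pool.Agent.H762R2.Bir
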