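import Pool.Agent.H762R2.BirA

set_option autoImplicit false

namespace Pool.Agent.H762R2.Bir

/-- Rays from a point of a bounded open set hit the frontier. -/
lemma ray_hits_frontier {Ω : Set (ℝ × ℝ)} (ho : IsOpen Ω) (hb : Bornology.IsBounded Ω)
    {z d : ℝ × ℝ} (hz : z ∈ Ω) (hd : d ≠ 0) :
    ∃ α : ℝ, 0 < α ∧ z + α • d ∈ frontier Ω ∧ ∀ β, 0 ≤ β → β < α → z + β • d ∈ Ω := by
  set S : Set ℝ := {α | 0 ≤ α ∧ z + α • d ∉ Ω} with hS
  have hcont : Continuous fun α : ℝ => z + α • d := by fun_prop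
  have hclosed : IsClosed S := by
    have : S = Set.Ici 0 ∩ (fun α : ℝ => z + α • d) ⁻¹' Ωᶜ := by
      ext α; simp [hS]
    rw [this]
    exact isClosed_Ici.inter (ho.isClosed_compl.preimage hcont)
  have hne : S.Nonempty := by
    obtain ⟨R, hR⟩ := hb.subset_closedBall 0
    have hdn : 0 < ‖d‖ := norm_pos_iff.mpr hd
    refine ⟨(|R| + ‖z‖ + 1) / ‖d‖, by positivity, fun hmem => ?_⟩
    have h1 := hR hmem
    rw [mem_closedBall_zero_iff] at h1
    have h2 : ‖((|R| + ‖z‖ + 1) / ‖d‖) • d‖ = |R| + ‖z‖ + 1 := by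
      rw [norm_smul, Real.norm_of_nonneg (by positivity)]; field_simp
    have h3 : ‖((|R| + ‖z‖ + 1) / ‖d‖) • d‖ ≤ ‖z + ((|R| + ‖z‖ + 1) / ‖d‖) • d‖ + ‖z‖ := by
      have := norm_sub_le (z + ((|R| + ‖z‖ + 1) / ‖d‖) • d) z
      simpa using this
    have := le_abs_self R
    linarith
  have hbdd : BddBelow S := ⟨0, fun α h => h.1⟩
  have hmem := hclosed.csInf_mem hne hbdd
  set α := sInf S with hα
  have hlt : ∀ β, 0 ≤ β → β < α → z + β • d ∈ Ω := by
    intro β h0 h1
    by_contra hcon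
    exact absurd (csInf_le hbdd (show β ∈ S from ⟨h0, hcon⟩)) (not_le.mpr h1)
  have hαpos : 0 < α := by
    rcases hmem.1.lt_or_eq with h | h
    · exact h
    · exfalso; apply hmem.2; rw [← h]; simpa using hz
  refine ⟨α, hαpos, ?_, hlt⟩
  rw [frontier, ho.interior_eq]
  refine ⟨?_, hmem.2⟩
  have hmaps : Set.MapsTo (fun β : ℝ => z + β • d) (Set.Ico 0 α) Ω := fun β hβ => hlt β hβ.1 hβ.2
  have hcl : α ∈ closure (Set.Ico 0 α) := by
    rw [closure_Ico hαpos.ne]; exact ⟨hαpos.le, le_refl _⟩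
  exact map_mem_closure (f := fun β : ℝ => z + β • d) hcont hcl hmaps

/-- The quadratic form of the frozen statement. -/
def qf (c : ℝ × ℝ) (a b d : ℝ) (x : ℝ × ℝ) : ℝ :=
  a * (x.1 - c.1) ^ 2 + 2 * b * (x.1 - c.1) * (x.2 - c.2) + d * (x.2 - c.2) ^ 2

lemma frontier_eq_ellipse {Ω : Set (ℝ × ℝ)} (ho : IsOpen Ω) (hb : Bornology.IsBounded Ω)
    (hne : Ω.Nonempty) {c : ℝ × ℝ} {a b d : ℝ} (ha : 0 < a) (hdet : 0 < a * d - b ^ 2)
    (h : ∀ x ∈ frontier Ω, qf c a b d x = 1) :
    frontier Ω = {x : ℝ × ℝ | a * (x.1 - c.1) ^ 2 + 2 * b * (x.1 - c.1) * (x.2 - c.2)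
        + d * (x.2 - c.2) ^ 2 = 1} := by
  have hscale : ∀ (x : ℝ × ℝ) (s : ℝ), qf c a b d (x + s • (x - c)) = (1 + s) ^ 2 * qf c a b d x := by
    intro x s
    simp only [qf, Prod.fst_add, Prod.snd_add, Prod.smul_fst, Prod.smul_snd, Prod.fst_sub,
      Prod.snd_sub, smul_eq_mul]
    ring
  have hnonneg : ∀ x, 0 ≤ qf c a b d x := by
    intro x
    have : a * qf c a b d x = (a * (x.1 - c.1) + b * (x.2 - c.2)) ^ 2 +
        (a * d - b ^ 2) * (x.2 - c.2) ^ 2 := by simp only [qf]; ring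
    have h2 : 0 ≤ a * qf c a b d x := by rw [this]; positivity
    exact nonneg_of_mul_nonneg_right h2 ha
  have hconv : ∀ (x y : ℝ × ℝ) (s : ℝ), 0 ≤ s → s ≤ 1 → qf c a b d (x + s • (y - x)) ≤
      (1 - s) * qf c a b d x + s * qf c a b d y := by
    intro x y s h0 h1
    have e : (1 - s) * qf c a b d x + s * qf c a b d y - qf c a b d (x + s • (y - x)) =
        s * (1 - s) * (a * (y.1 - x.1) ^ 2 + 2 * b * (y.1 - x.1) * (y.2 - x.2) +
          d * (y.2 - x.2) ^ 2) := by
      simp only [qf, Prod.fst_add, Prod.snd_add, Prod.smul_fst, Prod.smul_snd, Prod.fst_sub,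
        Prod.snd_sub, smul_eq_mul]
      ring
    have h2 : 0 ≤ a * (y.1 - x.1) ^ 2 + 2 * b * (y.1 - x.1) * (y.2 - x.2) +
          d * (y.2 - x.2) ^ 2 := by
      have : a * (a * (y.1 - x.1) ^ 2 + 2 * b * (y.1 - x.1) * (y.2 - x.2) +
          d * (y.2 - x.2) ^ 2) = (a * (y.1 - x.1) + b * (y.2 - x.2)) ^ 2 +
          (a * d - b ^ 2) * (y.2 - x.2) ^ 2 := by ring
      have h3 : 0 ≤ a * (a * (y.1 - x.1) ^ 2 + 2 * b * (y.1 - x.1) * (y.2 - x.2) +
          d * (y.2 - x.2) ^ 2) := by rw [this]; positivity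
      exact nonneg_of_mul_nonneg_right h3 ha
    have h4 : 0 ≤ s * (1 - s) := mul_nonneg h0 (by linarith)
    nlinarith [mul_nonneg h4 h2]
  have hle : ∀ x ∈ Ω, qf c a b d x < 1 := by
    intro x hx
    by_contra hcon
    push Not at hcon
    have hd0 : x - c ≠ 0 := by
      intro h0
      have : x = c := sub_eq_zero.mp h0
      rw [this] at hcon
      simp [qf] at hcon
      linarith
    obtain ⟨α, hα, hf, -⟩ := ray_hits_frontier ho hb hx hd0
    have h1 := h _ hf
    rw [hscale] at h1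
    nlinarith
  obtain ⟨z, hz⟩ := hne
  have hsub : ∀ y, qf c a b d y < 1 → y ∈ Ω := by
    intro y hy
    by_contra hcon
    have hd0 : y - z ≠ 0 := by
      intro h0; rw [sub_eq_zero.mp h0] at hcon; exact hcon hz
    obtain ⟨α, hα, hf, hin⟩ := ray_hits_frontier ho hb hz hd0
    have hα1 : α ≤ 1 := by
      by_contra hc
      push Not at hc
      have := hin 1 zero_le_one hc
      simp at this
      exact hcon this
    have h1 := h _ hf
    have h2 := hconv z y α hα.le hα1
    have h3 := hle z hz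
    nlinarith
  apply Set.Subset.antisymm
  · intro x hx; exact h x hx
  · intro x hx
    have hx1 : qf c a b d x = 1 := hx
    rw [frontier, ho.interior_eq]
    refine ⟨?_, fun hmem => ?_⟩
    · have hcont : Continuous fun s : ℝ => x + s • (x - c) := by fun_prop
      have hmaps : Set.MapsTo (fun s : ℝ => x + s • (x - c)) (Set.Ioo (-1) 0) Ω := by
        intro s hs
        apply hsub
        simp only
        rw [hscale, hx1]
        nlinarith [hs.1, hs.2]
      have hcl : (0:ℝ) ∈ closure (Set.Ioo (-1:ℝ) 0) := by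
        rw [closure_Ioo (by norm_num)]; constructor <;> norm_num
      have := map_mem_closure hcont hcl hmaps
      simpa using this
    · have := hle x hmem
      linarith

section
variable {X Y X1 Y1 : ℝ → ℝ}

lemma trace_aux (hX : ∀ t, HasDerivAt X (X1 t) t) (hY : ∀ t, HasDerivAt Y (Y1 t) t)
    (m11 m12 m21 m22 w1 w2 z1 z2 : ℝ) (t : ℝ) :
    HasDerivAt (fun t => m21 * (X t - z1) ^ 2 / 2 - m12 * (Y t - z2) ^ 2 / 2 +
      (m22 - m11) / 2 * ((X t - z1) * (Y t - z2)) +
      ((X t - z1) * (m21 * z1 + m22 * z2 + w2) - (Y t - z2) * (m11 * z1 + m12 * z2 + w1)))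
      ((X1 t * (m21 * X t + m22 * Y t + w2) - Y1 t * (m11 * X t + m12 * Y t + w1)) +
      (m11 + m22) / 2 * (X1 t * (z2 - Y t) - Y1 t * (z1 - X t))) t := by
  have hx := (hX t).sub_const z1
  have hy := (hY t).sub_const z2
  have h := (((((hx.pow 2).const_mul m21).div_const 2).sub
    (((hy.pow 2).const_mul m12).div_const 2)).add ((hx.mul hy).const_mul ((m22 - m11) / 2))).add
    ((hx.mul_const (m21 * z1 + m22 * z2 + w2)).sub (hy.mul_const (m11 * z1 + m12 * z2 + w1)))
  refine h.congr_deriv ?_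
  push_cast
  ring

lemma periodic_not_strict {f f1 : ℝ → ℝ} (hf : ∀ t, HasDerivAt f (f1 t) t)
    (hp : Function.Periodic f 1) (hpos : ∀ t, 0 < f1 t) : False := by
  have hm : StrictMono f := strictMono_of_deriv_pos (fun t => by rw [(hf t).deriv]; exact hpos t)
  have h1 := hm (show (0:ℝ) < 0 + 1 by norm_num)
  rw [hp 0] at h1
  exact lt_irrefl _ h1

lemma trace_neg (hX : ∀ t, HasDerivAt X (X1 t) t) (hY : ∀ t, HasDerivAt Y (Y1 t) t)
    (hXp : Function.Periodic X 1) (hYp : Function.Periodic Y 1)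
    {m11 m12 m21 m22 w1 w2 z1 z2 : ℝ}
    (hz : ∀ t, 0 < X1 t * (z2 - Y t) - Y1 t * (z1 - X t))
    (hg : ∀ t, 0 < X1 t * (m21 * X t + m22 * Y t + w2) - Y1 t * (m11 * X t + m12 * Y t + w1)) :
    m11 + m22 < 0 := by
  by_contra hcon
  push Not at hcon
  refine periodic_not_strict (fun t => trace_aux hX hY m11 m12 m21 m22 w1 w2 z1 z2 t) ?_ ?_
  · intro t; simp only [hXp t, hYp t]
  · intro t
    have h1 := mul_nonneg hcon (hz t).le
    have h2 := hg t
    nlinarith

lemma trace_zero (hX : ∀ t, HasDerivAt X (X1 t) t) (hY : ∀ t, HasDerivAt Y (Y1 t) t)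
    (hXp : Function.Periodic X 1) (hYp : Function.Periodic Y 1)
    {m11 m12 m21 m22 w1 w2 z1 z2 : ℝ}
    (hz : ∀ t, 0 < X1 t * (z2 - Y t) - Y1 t * (z1 - X t))
    (hg : ∀ t, X1 t * (m21 * X t + m22 * Y t + w2) - Y1 t * (m11 * X t + m12 * Y t + w1) = 0) :
    m11 + m22 = 0 := by
  rcases lt_trichotomy (m11 + m22) 0 with h | h | h
  · exfalso
    refine periodic_not_strict (fun t => (trace_aux hX hY m11 m12 m21 m22 w1 w2 z1 z2 t).neg) ?_ ?_
    · intro t; simp only [Pi.neg_apply, hXp t, hYp t]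
    · intro t
      rw [hg t]
      have := mul_neg_of_neg_of_pos h (hz t)
      linarith
  · exact h
  · exfalso
    refine periodic_not_strict (fun t => trace_aux hX hY m11 m12 m21 m22 w1 w2 z1 z2 t) ?_ ?_
    · intro t; simp only [hXp t, hYp t]
    · intro t
      rw [hg t]
      have := mul_pos h (hz t)
      linarith

lemma exists_left_eigen {m11 m12 m21 m22 : ℝ} (hdet : m11 * m22 - m12 * m21 ≤ 0) :
    ∃ lam l1 l2 : ℝ, 0 ≤ lam ∧ (l1 ≠ 0 ∨ l2 ≠ 0) ∧ l1 * m11 + l2 * m21 = lam * l1 ∧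
      l1 * m12 + l2 * m22 = lam * l2 := by
  set T := m11 + m22 with hT
  set Δ := m11 * m22 - m12 * m21 with hΔ
  have hdisc : 0 ≤ T ^ 2 - 4 * Δ := by nlinarith [sq_nonneg T]
  set r := Real.sqrt (T ^ 2 - 4 * Δ) with hr
  have hr2 : r ^ 2 = T ^ 2 - 4 * Δ := Real.sq_sqrt hdisc
  have hrT : |T| ≤ r := by
    apply Real.abs_le_sqrt; linarith
  set lam := (T + r) / 2 with hlam
  have hlam0 : 0 ≤ lam := by
    have := neg_abs_le T
    rw [hlam]; linarith
  have hchar : lam ^ 2 - T * lam + Δ = 0 := by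
    rw [hlam]; nlinarith
  have hchar' : lam ^ 2 - (m11 + m22) * lam + (m11 * m22 - m12 * m21) = 0 := hchar
  clear_value lam r
  clear hchar hlam hrT hr2 hr hdisc
  by_cases h1 : m21 ≠ 0 ∨ lam - m11 ≠ 0
  · refine ⟨lam, m21, lam - m11, hlam0, h1, by ring, ?_⟩
    linear_combination (-1) * hchar'
  · push Not at h1
    by_cases h2 : lam - m22 ≠ 0 ∨ m12 ≠ 0
    · refine ⟨lam, lam - m22, m12, hlam0, h2, ?_, by ring⟩
      linear_combination (-1) * hchar'
    · push Not at h2
      refine ⟨lam, 1, 0, hlam0, Or.inl one_ne_zero, ?_, ?_⟩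
      · linarith [h1.2]
      · rw [h2.2]; ring

lemma det_pos (hX : ∀ t, HasDerivAt X (X1 t) t) (hY : ∀ t, HasDerivAt Y (Y1 t) t)
    (hXp : Function.Periodic X 1) (hYp : Function.Periodic Y 1)
    {m11 m12 m21 m22 w1 w2 : ℝ}
    (hreg : ∀ t, 0 < X1 t ^ 2 + Y1 t ^ 2)
    (hex : ∀ t, ∃ s, 0 < X1 t * (Y s - Y t) - Y1 t * (X s - X t))
    (hg : ∀ t, 0 < X1 t * (m21 * X t + m22 * Y t + w2) - Y1 t * (m11 * X t + m12 * Y t + w1)) :
    0 < m11 * m22 - m12 * m21 := by
  by_contra hcon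
  push Not at hcon
  obtain ⟨lam, l1, l2, hlam, hl, e1, e2⟩ := exists_left_eigen hcon
  have hfd : ∀ t, HasDerivAt (fun t => l1 * X t + l2 * Y t) (l1 * X1 t + l2 * Y1 t) t :=
    fun t => ((hX t).const_mul l1).add ((hY t).const_mul l2)
  have hfc : Continuous (fun t => l1 * X t + l2 * Y t) :=
    continuous_iff_continuousAt.mpr fun t => (hfd t).continuousAt
  have hfp : Function.Periodic (fun t => l1 * X t + l2 * Y t) 1 := fun t => by
    simp only [hXp t, hYp t]
  obtain ⟨ta, hta⟩ := exists_max_of_periodic hfc hfp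
  obtain ⟨tb, htb⟩ := exists_min_of_periodic hfc hfp
  have ha0 : l1 * X1 ta + l2 * Y1 ta = 0 := by
    have : IsLocalMax (fun t => l1 * X t + l2 * Y t) ta := Filter.Eventually.of_forall hta
    have h := this.deriv_eq_zero
    rwa [(hfd ta).deriv] at h
  have hb0 : l1 * X1 tb + l2 * Y1 tb = 0 := by
    have : IsLocalMin (fun t => l1 * X t + l2 * Y t) tb := Filter.Eventually.of_forall htb
    have h := this.deriv_eq_zero
    rwa [(hfd tb).deriv] at h
  have key : ∀ (t : ℝ), l1 * X1 t + l2 * Y1 t = 0 → ∀ v1 v2 : ℝ,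
      (X1 t ^ 2 + Y1 t ^ 2) * (l1 * v1 + l2 * v2) =
        (X1 t * l2 - Y1 t * l1) * (X1 t * v2 - Y1 t * v1) := by
    intro t h v1 v2
    linear_combination (X1 t * v1 + Y1 t * v2) * h
  have hne : ∀ t, l1 * X1 t + l2 * Y1 t = 0 → X1 t * l2 - Y1 t * l1 ≠ 0 := by
    intro t h h0
    have h1 := key t h l1 l2
    rw [h0] at h1
    have : l1 ^ 2 + l2 ^ 2 = 0 := by
      have h2 : (X1 t ^ 2 + Y1 t ^ 2) * (l1 ^ 2 + l2 ^ 2) = 0 := by linarith
      rcases mul_eq_zero.mp h2 with h3 | h3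
      · exact absurd h3 (hreg t).ne'
      · exact h3
    rcases hl with h3 | h3
    · exact h3 (by nlinarith [sq_nonneg l1, sq_nonneg l2])
    · exact h3 (by nlinarith [sq_nonneg l1, sq_nonneg l2])
  have hka : X1 ta * l2 - Y1 ta * l1 < 0 := by
    obtain ⟨s, hs⟩ := hex ta
    have h1 := key ta ha0 (X s - X ta) (Y s - Y ta)
    have h2 : l1 * (X s - X ta) + l2 * (Y s - Y ta) ≤ 0 := by
      have : l1 * X s + l2 * Y s ≤ l1 * X ta + l2 * Y ta := hta s
      linarith
    rcases lt_or_gt_of_ne (hne ta ha0) with h3 | h3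
    · exact h3
    · exfalso
      have h4 := mul_pos h3 hs
      have h5 := mul_nonpos_of_nonneg_of_nonpos (hreg ta).le h2
      linarith
  have hkb : 0 < X1 tb * l2 - Y1 tb * l1 := by
    obtain ⟨s, hs⟩ := hex tb
    have h1 := key tb hb0 (X s - X tb) (Y s - Y tb)
    have h2 : 0 ≤ l1 * (X s - X tb) + l2 * (Y s - Y tb) := by
      have : l1 * X tb + l2 * Y tb ≤ l1 * X s + l2 * Y s := htb s
      linarith
    rcases lt_or_gt_of_ne (hne tb hb0) with h3 | h3
    · exfalso
      have h4 := mul_neg_of_neg_of_pos h3 hs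
      have h5 := mul_nonneg (hreg tb).le h2
      linarith
    · exact h3
  have hVa : l1 * (m11 * X ta + m12 * Y ta + w1) + l2 * (m21 * X ta + m22 * Y ta + w2) < 0 := by
    have h1 := key ta ha0 (m11 * X ta + m12 * Y ta + w1) (m21 * X ta + m22 * Y ta + w2)
    have h2 := mul_neg_of_neg_of_pos hka (hg ta)
    rw [← h1] at h2
    by_contra hc
    push Not at hc
    have := mul_nonneg (hreg ta).le hc
    linarith
  have hVb : 0 < l1 * (m11 * X tb + m12 * Y tb + w1) + l2 * (m21 * X tb + m22 * Y tb + w2) := by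
    have h1 := key tb hb0 (m11 * X tb + m12 * Y tb + w1) (m21 * X tb + m22 * Y tb + w2)
    have h2 := mul_pos hkb (hg tb)
    rw [← h1] at h2
    by_contra hc
    push Not at hc
    have := mul_nonpos_of_nonneg_of_nonpos (hreg tb).le hc
    linarith
  have hVa' : lam * (l1 * X ta + l2 * Y ta) + (l1 * w1 + l2 * w2) < 0 := by
    have : lam * (l1 * X ta + l2 * Y ta) + (l1 * w1 + l2 * w2) =
      l1 * (m11 * X ta + m12 * Y ta + w1) + l2 * (m21 * X ta + m22 * Y ta + w2) := by
      linear_combination (-X ta) * e1 - Y ta * e2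
    rw [this]; exact hVa
  have hVb' : 0 < lam * (l1 * X tb + l2 * Y tb) + (l1 * w1 + l2 * w2) := by
    have : lam * (l1 * X tb + l2 * Y tb) + (l1 * w1 + l2 * w2) =
      l1 * (m11 * X tb + m12 * Y tb + w1) + l2 * (m21 * X tb + m22 * Y tb + w2) := by
      linear_combination (-X tb) * e1 - Y tb * e2
    rw [this]; exact hVb
  have h : l1 * X tb + l2 * Y tb ≤ l1 * X ta + l2 * Y ta := hta tb
  have := mul_le_mul_of_nonneg_left h hlam
  linarith

end

/-- If an affine vector field is tangent to the boundary curve, the curve is an ellipse. -/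
theorem ellipse_of_tangent {Ω : Set (ℝ × ℝ)} (ho : IsOpen Ω) (hb : Bornology.IsBounded Ω)
    (hne : Ω.Nonempty) {X Y X1 Y1 : ℝ → ℝ}
    (hX : ∀ t, HasDerivAt X (X1 t) t) (hY : ∀ t, HasDerivAt Y (Y1 t) t)
    (hfr : frontier Ω = Set.range fun t => (X t, Y t))
    {m11 m12 m21 m22 w1 w2 : ℝ} (htr : m11 + m22 = 0)
    (hnz : ¬ (m11 = 0 ∧ m12 = 0 ∧ m21 = 0 ∧ m22 = 0 ∧ w1 = 0 ∧ w2 = 0))
    (hg : ∀ t, X1 t * (m21 * X t + m22 * Y t + w2) - Y1 t * (m11 * X t + m12 * Y t + w1) = 0) :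
    ∃ (c : ℝ × ℝ) (a b d : ℝ), 0 < a ∧ 0 < a * d - b ^ 2 ∧ ∀ x ∈ frontier Ω, qf c a b d x = 1 := by
  have hm22 : m22 = - m11 := by linarith
  set H : ℝ × ℝ → ℝ := fun x => m21 * x.1 ^ 2 / 2 - m12 * x.2 ^ 2 / 2 - m11 * (x.1 * x.2) +
    x.1 * w2 - x.2 * w1 with hH
  -- H is constant on the curve
  have hHd : ∀ t, HasDerivAt (fun t => H (X t, Y t)) 0 t := by
    intro t
    have h := ((((((hX t).pow 2).const_mul m21).div_const 2).sub
      ((((hY t).pow 2).const_mul m12).div_const 2)).sub (((hX t).mul (hY t)).const_mul m11)).add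
      ((hX t).mul_const w2) |>.sub ((hY t).mul_const w1)
    refine h.congr_deriv ?_
    have := hg t
    rw [hm22] at this
    push_cast
    linear_combination this
  have hconst : ∀ t, H (X t, Y t) = H (X 0, Y 0) := by
    intro t
    have hdiff : Differentiable ℝ (fun t => H (X t, Y t)) := fun t => (hHd t).differentiableAt
    exact is_const_of_deriv_eq_zero hdiff (fun t => (hHd t).deriv) t 0
  set h0 := H (X 0, Y 0) with hh0
  have hfrH : ∀ x ∈ frontier Ω, H x = h0 := by
    intro x hx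
    rw [hfr] at hx
    obtain ⟨t, rfl⟩ := hx
    exact hconst t
  obtain ⟨z, hz⟩ := hne
  by_cases hdet : 0 < - m21 * m12 - m11 ^ 2
  · -- definite case
    have hm21 : m21 ≠ 0 := by
      intro h; rw [h] at hdet; nlinarith [sq_nonneg m11]
    set Δ := - m21 * m12 - m11 ^ 2 with hΔ
    set c1 := (m12 * w2 + m11 * w1) / Δ with hc1
    set c2 := (m21 * w1 - m11 * w2) / Δ with hc2
    have ec1 : m21 * c1 - m11 * c2 + w2 = 0 := by
      rw [hc1, hc2]; field_simp; rw [hΔ]; ring
    have ec2 : - m11 * c1 - m12 * c2 - w1 = 0 := by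
      rw [hc1, hc2]; field_simp; rw [hΔ]; ring
    have hexp : ∀ x : ℝ × ℝ, m21 * (x.1 - c1) ^ 2 - 2 * m11 * (x.1 - c1) * (x.2 - c2) -
        m12 * (x.2 - c2) ^ 2 = 2 * (H x - H (c1, c2)) := by
      intro x
      simp only [hH]
      linear_combination (-2) * (x.1 - c1) * ec1 - 2 * (x.2 - c2) * ec2
    have hpos : ∀ x : ℝ × ℝ, x ≠ (c1, c2) → 0 < m21 * (m21 * (x.1 - c1) ^ 2 -
        2 * m11 * (x.1 - c1) * (x.2 - c2) - m12 * (x.2 - c2) ^ 2) := by
      intro x hx
      have e : m21 * (m21 * (x.1 - c1) ^ 2 -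
        2 * m11 * (x.1 - c1) * (x.2 - c2) - m12 * (x.2 - c2) ^ 2) =
        (m21 * (x.1 - c1) - m11 * (x.2 - c2)) ^ 2 + Δ * (x.2 - c2) ^ 2 := by
        rw [hΔ]; ring
      rw [e]
      by_cases h2 : x.2 - c2 = 0
      · have h1 : x.1 - c1 ≠ 0 := by
          intro h1
          apply hx
          ext
          · simp; linarith
          · simp; linarith
        rw [h2]
        have : m21 * (x.1 - c1) ≠ 0 := mul_ne_zero hm21 h1
        have := pow_pos (abs_pos.mpr this) 2
        rw [sq_abs] at this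
        simpa using this
      · have := pow_pos (abs_pos.mpr h2) 2
        rw [sq_abs] at this
        have := mul_pos hdet this
        positivity
    -- a frontier point different from the centre
    obtain ⟨x0, hx0, hx0c⟩ : ∃ x0 ∈ frontier Ω, x0 ≠ (c1, c2) := by
      obtain ⟨α, hα, hf1, -⟩ := ray_hits_frontier ho hb hz (d := (1, 0)) (by simp)
      obtain ⟨β, hβ, hf2, -⟩ := ray_hits_frontier ho hb hz (d := (-1, 0)) (by simp)
      by_cases h : z + α • ((1:ℝ), (0:ℝ)) = (c1, c2)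
      · refine ⟨_, hf2, fun h2 => ?_⟩
        have h3 := h.trans h2.symm
        have := congrArg Prod.fst h3
        simp at this
        linarith
      · exact ⟨_, hf1, h⟩
    set ρ := 2 * (h0 - H (c1, c2)) with hρ
    have hρpos : 0 < m21 * ρ := by
      have := hpos x0 hx0c
      rw [hexp, hfrH x0 hx0] at this
      exact this
    have hρ0 : ρ ≠ 0 := by
      intro h; rw [h] at hρpos; simp at hρpos
    refine ⟨(c1, c2), m21 / ρ, - m11 / ρ, - m12 / ρ, ?_, ?_, ?_⟩
    · have : m21 / ρ = m21 * ρ / ρ ^ 2 := by field_simp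
      rw [this]; positivity
    · have : m21 / ρ * (-m12 / ρ) - (-m11 / ρ) ^ 2 = Δ / ρ ^ 2 := by
        rw [hΔ]; field_simp
      rw [this]; positivity
    · intro x hx
      have h1 := hexp x
      rw [hfrH x hx] at h1
      have : qf (c1, c2) (m21 / ρ) (-m11 / ρ) (-m12 / ρ) x = (m21 * (x.1 - c1) ^ 2 -
        2 * m11 * (x.1 - c1) * (x.2 - c2) - m12 * (x.2 - c2) ^ 2) / ρ := by
        simp only [qf]; field_simp; ring
      rw [this, h1, ← hρ, div_self hρ0]
  · exfalso
    push Not at hdet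
    -- an isotropic direction
    obtain ⟨d1, d2, hd, hiso⟩ : ∃ d1 d2 : ℝ, (d1, d2) ≠ ((0:ℝ), (0:ℝ)) ∧
        m21 * d1 ^ 2 - 2 * m11 * d1 * d2 - m12 * d2 ^ 2 = 0 := by
      by_cases h21 : m21 = 0
      · exact ⟨1, 0, by simp, by rw [h21]; ring⟩
      · have hnn : 0 ≤ m11 ^ 2 + m21 * m12 := by linarith
        refine ⟨(m11 + Real.sqrt (m11 ^ 2 + m21 * m12)) / m21, 1, by simp, ?_⟩
        have := Real.sq_sqrt hnn
        field_simp
        nlinarith
    have hHconst : ∀ y ∈ Ω, H y = h0 := by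
      intro y hy
      obtain ⟨α, hα, hf1, -⟩ := ray_hits_frontier ho hb hy (d := (d1, d2)) hd
      obtain ⟨β, hβ, hf2, -⟩ := ray_hits_frontier ho hb hy (d := -(d1, d2))
        (by intro h; apply hd; exact neg_eq_zero.mp h)
      have e1 := hfrH _ hf1
      have e2 := hfrH _ hf2
      set L := d1 * (m21 * y.1 - m11 * y.2 + w2) + d2 * (- m12 * y.2 - m11 * y.1 - w1) with hL
      have e1' : H y + α * L = h0 := by
        rw [← e1]
        simp only [hH, hL, Prod.fst_add, Prod.snd_add, Prod.smul_fst, Prod.smul_snd, smul_eq_mul]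
        linear_combination (- α ^ 2 / 2) * hiso
      have e2' : H y - β * L = h0 := by
        rw [← e2]
        simp only [hH, hL, Prod.fst_add, Prod.snd_add, Prod.smul_fst, Prod.smul_snd, smul_eq_mul,
          Prod.fst_neg, Prod.snd_neg]
        linear_combination (- β ^ 2 / 2) * hiso
      have : (α + β) * L = 0 := by linarith
      rcases mul_eq_zero.mp this with h | h
      · linarith
      · rw [h] at e1'; linarith
    -- H is constant on a ball
    obtain ⟨r, hr, hball⟩ := Metric.isOpen_iff.mp ho z hz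
    have hin : ∀ u v : ℝ, |u| ≤ r / 2 → |v| ≤ r / 2 → H (z.1 + u, z.2 + v) = h0 := by
      intro u v hu hv
      apply hHconst
      apply hball
      rw [Metric.mem_ball, Prod.dist_eq]
      simp only [Real.dist_eq]
      rw [max_lt_iff]
      constructor
      · have : z.1 + u - z.1 = u := by ring
        rw [this]; linarith
      · have : z.2 + v - z.2 = v := by ring
        rw [this]; linarith
    have hs0 : |(0:ℝ)| ≤ r / 2 := by simp; linarith
    have hs1 : |r / 2| ≤ r / 2 := by rw [abs_of_pos (by linarith)]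
    have hs2 : |-(r / 2)| ≤ r / 2 := by rw [abs_neg, abs_of_pos (by linarith)]
    have a00 := hin 0 0 hs0 hs0
    have a10 := hin (r / 2) 0 hs1 hs0
    have am0 := hin (-(r / 2)) 0 hs2 hs0
    have a01 := hin 0 (r / 2) hs0 hs1
    have a0m := hin 0 (-(r / 2)) hs0 hs2
    have a11 := hin (r / 2) (r / 2) hs1 hs1
    simp only [hH] at a00 a10 am0 a01 a0m a11
    have hr2 : r ^ 2 ≠ 0 := by positivity
    have c21 : m21 = 0 := by
      have : m21 * r ^ 2 = 0 := by linear_combination 4 * (a10 + am0 - 2 * a00)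
      rcases mul_eq_zero.mp this with h | h
      · exact h
      · exact absurd h hr2
    have c12 : m12 = 0 := by
      have : m12 * r ^ 2 = 0 := by linear_combination (-4) * (a01 + a0m - 2 * a00)
      rcases mul_eq_zero.mp this with h | h
      · exact h
      · exact absurd h hr2
    have c11 : m11 = 0 := by
      have : m11 * r ^ 2 = 0 := by
        linear_combination (-4) * (a11 - a10 - a01 + a00)
      rcases mul_eq_zero.mp this with h | h
      · exact h
      · exact absurd h hr2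
    have cw2 : w2 = 0 := by
      have : w2 * r = 0 := by
        linear_combination 2 * (a10 - a00) - (2 * z.1 * (r / 2) + (r / 2) ^ 2) * c21 +
          2 * (r / 2) * z.2 * c11
      rcases mul_eq_zero.mp this with h | h
      · exact h
      · exact absurd h hr.ne'
    have cw1 : w1 = 0 := by
      have : w1 * r = 0 := by
        linear_combination (-2) * (a01 - a00) - (2 * z.2 * (r / 2) + (r / 2) ^ 2) * c12 -
          2 * (r / 2) * z.1 * c11
      rcases mul_eq_zero.mp this with h | h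
      · exact h
      · exact absurd h hr.ne'
    exact hnz ⟨c11, c12, c21, by rw [hm22, c11]; simp, cw1, cw2⟩

end Pool.Agent.H762R2.Bir
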