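import Mathlib

set_option autoImplicit false

open Filter Topology Asymptotics

namespace Pool.Agent.H762R2.Bir

lemma littleO_integrate {F f : ℝ → ℝ} {n : ℕ} (hF : ∀ τ, HasDerivAt F (f τ) τ) (h0 : F 0 = 0)
    (hf : f =o[𝓝 0] fun τ : ℝ => τ ^ n) : F =o[𝓝 0] fun τ : ℝ => τ ^ (n + 1) := by
  rw [isLittleO_iff] at hf ⊢
  intro c hc
  have h := hf hc
  rw [Metric.eventually_nhds_iff] at h ⊢
  obtain ⟨δ, hδ, hball⟩ := h
  refine ⟨δ, hδ, fun {τ} hτ => ?_⟩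
  have hτ' : |τ| < δ := by simpa [Real.dist_eq] using hτ
  have hconv : Convex ℝ (Set.Icc (-|τ|) |τ|) := convex_Icc _ _
  have h1 := hconv.norm_image_sub_le_of_norm_hasDerivWithin_le (f := F) (f' := f)
    (C := c * |τ| ^ n) (x := 0) (y := τ)
    (fun x _ => (hF x).hasDerivWithinAt) (fun x hx => by
      have hx' : |x| ≤ |τ| := abs_le.mpr hx
      have := hball (y := x) (by rw [Real.dist_eq, sub_zero]; exact lt_of_le_of_lt hx' hτ')
      rw [norm_pow, Real.norm_eq_abs x] at this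
      refine this.trans ?_
      exact mul_le_mul_of_nonneg_left (pow_le_pow_left₀ (abs_nonneg x) hx' n) hc.le)
    (by constructor <;> simp) (by constructor <;> [exact neg_abs_le τ; exact le_abs_self τ])
  rw [h0, sub_zero, sub_zero] at h1
  refine h1.trans (le_of_eq ?_)
  rw [norm_pow, Real.norm_eq_abs, pow_succ]; ring

lemma exists_taylor {F F1 F2 F3 : ℝ → ℝ} (h : ∀ t, HasDerivAt F (F1 t) t)
    (h1 : ∀ t, HasDerivAt F1 (F2 t) t) (h2 : ∀ t, HasDerivAt F2 (F3 t) t) (t0 : ℝ) :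
    ∃ B C : ℝ → ℝ, Tendsto B (𝓝 0) (𝓝 (F3 t0 / 2)) ∧ Tendsto C (𝓝 0) (𝓝 (F3 t0 / 6)) ∧
      (∀ τ, F1 (t0 + τ) = F1 t0 + F2 t0 * τ + B τ * τ ^ 2) ∧
      (∀ τ, F (t0 + τ) = F t0 + F1 t0 * τ + F2 t0 / 2 * τ ^ 2 + C τ * τ ^ 3) := by
  have hsh : ∀ {G G1 : ℝ → ℝ}, (∀ t, HasDerivAt G (G1 t) t) → ∀ τ,
      HasDerivAt (fun τ => G (t0 + τ)) (G1 (t0 + τ)) τ := by
    intro G G1 hG τ
    exact HasDerivAt.comp_const_add t0 τ (hG (t0 + τ))
  have k2 : (fun τ => F2 (t0 + τ) - F2 t0 - F3 t0 * τ) =o[𝓝 0] fun τ : ℝ => τ ^ 1 := by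
    have h3 := h2 t0
    rw [hasDerivAt_iff_isLittleO_nhds_zero] at h3
    simpa [mul_comm] using h3
  have k1 : (fun τ => F1 (t0 + τ) - F1 t0 - F2 t0 * τ - F3 t0 / 2 * τ ^ 2) =o[𝓝 0]
      fun τ : ℝ => τ ^ 2 := by
    refine littleO_integrate (fun τ => ?_) (by simp) k2
    have := (((hsh h1 τ).sub_const (F1 t0)).sub ((hasDerivAt_id τ).const_mul (F2 t0))).sub
      (((hasDerivAt_id τ).pow 2).const_mul (F3 t0 / 2))
    refine this.congr_deriv ?_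
    simp; ring
  have k0 : (fun τ => F (t0 + τ) - F t0 - F1 t0 * τ - F2 t0 / 2 * τ ^ 2 - F3 t0 / 6 * τ ^ 3) =o[𝓝 0]
      fun τ : ℝ => τ ^ 3 := by
    refine littleO_integrate (fun τ => ?_) (by simp) k1
    have := ((((hsh h τ).sub_const (F t0)).sub ((hasDerivAt_id τ).const_mul (F1 t0))).sub
      (((hasDerivAt_id τ).pow 2).const_mul (F2 t0 / 2))).sub
      (((hasDerivAt_id τ).pow 3).const_mul (F3 t0 / 6))
    refine this.congr_deriv ?_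
    simp; ring
  have gen : ∀ (G : ℝ → ℝ) (c : ℝ) (n : ℕ), (fun τ => G τ - c * τ ^ n) =o[𝓝 0] (fun τ : ℝ => τ ^ n) →
      0 < n → G 0 = 0 → ∃ B : ℝ → ℝ, Tendsto B (𝓝 0) (𝓝 c) ∧ ∀ τ, G τ = B τ * τ ^ n := by
    intro G c n hG hn hG0
    refine ⟨fun τ => if τ = 0 then c else G τ / τ ^ n, ?_, ?_⟩
    · have ht := hG.tendsto_div_nhds_zero
      have ht2 : Tendsto (fun τ => (G τ - c * τ ^ n) / τ ^ n + c) (𝓝 0) (𝓝 (0 + c)) :=
        ht.add tendsto_const_nhds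
      rw [zero_add] at ht2
      refine ht2.congr ?_
      intro τ
      by_cases hτ : τ = 0
      · rw [if_pos hτ, hτ, hG0]; simp [hn.ne']
      · rw [if_neg hτ]
        have : τ ^ n ≠ 0 := pow_ne_zero n hτ
        field_simp
        ring
    · intro τ
      by_cases hτ : τ = 0
      · rw [hτ, hG0]; simp [hn.ne']
      · simp only [if_neg hτ]
        have : τ ^ n ≠ 0 := pow_ne_zero n hτ
        field_simp
  obtain ⟨B, hB, hB'⟩ := gen (fun τ => F1 (t0 + τ) - F1 t0 - F2 t0 * τ) (F3 t0 / 2) 2 k1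
    (by norm_num) (by simp)
  obtain ⟨C, hC, hC'⟩ := gen (fun τ => F (t0 + τ) - F t0 - F1 t0 * τ - F2 t0 / 2 * τ ^ 2)
    (F3 t0 / 6) 3 k0 (by norm_num) (by simp)
  refine ⟨B, C, hB, hC, fun τ => ?_, fun τ => ?_⟩
  · have : F1 (t0 + τ) - F1 t0 - F2 t0 * τ = B τ * τ ^ 2 := hB' τ
    linarith
  · have : F (t0 + τ) - F t0 - F1 t0 * τ - F2 t0 / 2 * τ ^ 2 = C τ * τ ^ 3 := hC' τ
    linarith

end Pool.Agent.H762R2.Bir
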