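import Pool.Agent.H762R2.BirC

set_option autoImplicit false

open Filter Topology Asymptotics

namespace Pool.Agent.H762R2.Bir

section
variable {ι : Type*} {l : Filter ι} {X Y X1 Y1 X2 Y2 X3 Y3 : ℝ → ℝ}

/-- Expansion at one contact point. -/
lemma side (hX : ∀ t, HasDerivAt X (X1 t) t) (hY : ∀ t, HasDerivAt Y (Y1 t) t)
    (hX1 : ∀ t, HasDerivAt X1 (X2 t) t) (hY1 : ∀ t, HasDerivAt Y1 (Y2 t) t)
    (hX2 : ∀ t, HasDerivAt X2 (X3 t) t) (hY2 : ∀ t, HasDerivAt Y2 (Y3 t) t) (t0 : ℝ)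
    {ε m11 m12 m21 m22 w1 w2 : ι → ℝ} {M11 M12 M21 M22 W1 W2 : ℝ}
    (hε : Tendsto ε l (𝓝 0))
    (h11 : Tendsto m11 l (𝓝 M11)) (h12 : Tendsto m12 l (𝓝 M12))
    (h21 : Tendsto m21 l (𝓝 M21)) (h22 : Tendsto m22 l (𝓝 M22))
    (hw1 : Tendsto w1 l (𝓝 W1)) (hw2 : Tendsto w2 l (𝓝 W2))
    {τ : ι → ℝ} (hτ : Tendsto τ l (𝓝 0))
    (hT : ∀ᶠ j in l,
      (X1 (t0 + τ j) + ε j * (m11 j * X1 (t0 + τ j) + m12 j * Y1 (t0 + τ j))) *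
        (Y (t0 + τ j) - Y t0 + ε j * (m21 j * X (t0 + τ j) + m22 j * Y (t0 + τ j) + w2 j)) -
      (Y1 (t0 + τ j) + ε j * (m21 j * X1 (t0 + τ j) + m22 j * Y1 (t0 + τ j))) *
        (X (t0 + τ j) - X t0 + ε j * (m11 j * X (t0 + τ j) + m12 j * Y (t0 + τ j) + w1 j)) = 0) :
    ∃ S Γ Q E F δ Bc : ι → ℝ,
      Tendsto S l (𝓝 (-(X1 t0 * Y3 t0 - Y1 t0 * X3 t0) / 3)) ∧
      Tendsto Γ l (𝓝 (X2 t0 * (M21 * X t0 + M22 * Y t0 + W2) -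
        Y2 t0 * (M11 * X t0 + M12 * Y t0 + W1))) ∧
      (∃ Q0, Tendsto Q l (𝓝 Q0)) ∧
      Tendsto E l (𝓝 (X1 t0 * (M21 * X1 t0 + M22 * Y1 t0) - Y1 t0 * (M11 * X1 t0 + M12 * Y1 t0))) ∧
      (∃ F0, Tendsto F l (𝓝 F0)) ∧
      Tendsto δ l (𝓝 (X1 t0 * X2 t0 + Y1 t0 * Y2 t0)) ∧
      Tendsto Bc l (𝓝 ((X1 t0 * Y3 t0 - Y1 t0 * X3 t0) / 2)) ∧
      (∀ᶠ j in l, ε j * ((X1 t0 * (m21 j * X t0 + m22 j * Y t0 + w2 j) -
          Y1 t0 * (m11 j * X t0 + m12 j * Y t0 + w1 j)) + τ j * Γ j + ε j * Q j) =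
        τ j ^ 2 * ((X1 t0 * Y2 t0 - Y1 t0 * X2 t0) / 2 - τ j * S j)) ∧
      (∀ j, X1 t0 * (Y1 (t0 + τ j) + ε j * (m21 j * X1 (t0 + τ j) + m22 j * Y1 (t0 + τ j))) -
        Y1 t0 * (X1 (t0 + τ j) + ε j * (m11 j * X1 (t0 + τ j) + m12 j * Y1 (t0 + τ j))) =
        (X1 t0 * Y2 t0 - Y1 t0 * X2 t0) * τ j + τ j ^ 2 * Bc j + ε j * E j) ∧
      (∀ j, X1 t0 * (X1 (t0 + τ j) + ε j * (m11 j * X1 (t0 + τ j) + m12 j * Y1 (t0 + τ j))) +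
        Y1 t0 * (Y1 (t0 + τ j) + ε j * (m21 j * X1 (t0 + τ j) + m22 j * Y1 (t0 + τ j))) =
        (X1 t0 ^ 2 + Y1 t0 ^ 2) + τ j * δ j + ε j * F j) := by
  obtain ⟨Bx, Cx, hBx, hCx, hBx', hCx'⟩ := exists_taylor hX hX1 hX2 t0
  obtain ⟨By, Cy, hBy, hCy, hBy', hCy'⟩ := exists_taylor hY hY1 hY2 t0
  -- the vector of all data
  set ξ : ι → (Fin 12 → ℝ) := fun j => ![τ j, Bx (τ j), By (τ j), Cx (τ j), Cy (τ j),
    m11 j, m12 j, m21 j, m22 j, w1 j, w2 j, ε j] with hξ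
  set ζ : Fin 12 → ℝ := ![0, X3 t0 / 2, Y3 t0 / 2, X3 t0 / 6, Y3 t0 / 6,
    M11, M12, M21, M22, W1, W2, 0] with hζ
  have hξt : Tendsto ξ l (𝓝 ζ) := by
    rw [tendsto_pi_nhds]
    intro i
    fin_cases i
    · exact hτ
    · exact hBx.comp hτ
    · exact hBy.comp hτ
    · exact hCx.comp hτ
    · exact hCy.comp hτ
    · exact h11
    · exact h12
    · exact h21
    · exact h22
    · exact hw1
    · exact hw2
    · exact hε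
  have htend : ∀ P : (Fin 12 → ℝ) → ℝ, Continuous P → Tendsto (fun j => P (ξ j)) l (𝓝 (P ζ)) :=
    fun P hP => (hP.tendsto ζ).comp hξt
  set x := X t0 with hx
  set y := Y t0 with hy
  set e1 := X1 t0 with he1
  set e2 := Y1 t0 with he2
  set a1 := X2 t0 with ha1
  set a2 := Y2 t0 with ha2
  -- polynomials
  let PS : (Fin 12 → ℝ) → ℝ := fun z => (e1 * (z 4 - z 2) - e2 * (z 3 - z 1)) +
    z 0 * ((a1 * z 4 - a2 * z 3) + (z 1 * a2 - z 2 * a1) / 2) + z 0 ^ 2 * (z 1 * z 4 - z 2 * z 3)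
  let PΓ : (Fin 12 → ℝ) → ℝ := fun z =>
    ((a1 + z 0 * z 1) * (z 7 * x + z 8 * y + z 10) - (a2 + z 0 * z 2) * (z 5 * x + z 6 * y + z 9)) +
    ((e1 + z 0 * (a1 + z 0 * z 1)) * (z 7 * (e1 + a1 / 2 * z 0 + z 3 * z 0 ^ 2) +
        z 8 * (e2 + a2 / 2 * z 0 + z 4 * z 0 ^ 2)) -
      (e2 + z 0 * (a2 + z 0 * z 2)) * (z 5 * (e1 + a1 / 2 * z 0 + z 3 * z 0 ^ 2) +
        z 6 * (e2 + a2 / 2 * z 0 + z 4 * z 0 ^ 2))) +
    ((z 5 * (e1 + z 0 * (a1 + z 0 * z 1)) + z 6 * (e2 + z 0 * (a2 + z 0 * z 2))) *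
        (e2 + a2 / 2 * z 0 + z 4 * z 0 ^ 2) -
      (z 7 * (e1 + z 0 * (a1 + z 0 * z 1)) + z 8 * (e2 + z 0 * (a2 + z 0 * z 2))) *
        (e1 + a1 / 2 * z 0 + z 3 * z 0 ^ 2))
  let PQ : (Fin 12 → ℝ) → ℝ := fun z =>
    (z 5 * (e1 + a1 * z 0 + z 1 * z 0 ^ 2) + z 6 * (e2 + a2 * z 0 + z 2 * z 0 ^ 2)) *
      (z 7 * (x + e1 * z 0 + a1 / 2 * z 0 ^ 2 + z 3 * z 0 ^ 3) +
       z 8 * (y + e2 * z 0 + a2 / 2 * z 0 ^ 2 + z 4 * z 0 ^ 3) + z 10) -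
    (z 7 * (e1 + a1 * z 0 + z 1 * z 0 ^ 2) + z 8 * (e2 + a2 * z 0 + z 2 * z 0 ^ 2)) *
      (z 5 * (x + e1 * z 0 + a1 / 2 * z 0 ^ 2 + z 3 * z 0 ^ 3) +
       z 6 * (y + e2 * z 0 + a2 / 2 * z 0 ^ 2 + z 4 * z 0 ^ 3) + z 9)
  let PE : (Fin 12 → ℝ) → ℝ := fun z =>
    e1 * (z 7 * (e1 + a1 * z 0 + z 1 * z 0 ^ 2) + z 8 * (e2 + a2 * z 0 + z 2 * z 0 ^ 2)) -
    e2 * (z 5 * (e1 + a1 * z 0 + z 1 * z 0 ^ 2) + z 6 * (e2 + a2 * z 0 + z 2 * z 0 ^ 2))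
  let PF : (Fin 12 → ℝ) → ℝ := fun z =>
    e1 * (z 5 * (e1 + a1 * z 0 + z 1 * z 0 ^ 2) + z 6 * (e2 + a2 * z 0 + z 2 * z 0 ^ 2)) +
    e2 * (z 7 * (e1 + a1 * z 0 + z 1 * z 0 ^ 2) + z 8 * (e2 + a2 * z 0 + z 2 * z 0 ^ 2))
  let Pδ : (Fin 12 → ℝ) → ℝ := fun z => (e1 * a1 + e2 * a2) + z 0 * (e1 * z 1 + e2 * z 2)
  let PB : (Fin 12 → ℝ) → ℝ := fun z => e1 * z 2 - e2 * z 1
  refine ⟨fun j => PS (ξ j), fun j => PΓ (ξ j), fun j => PQ (ξ j), fun j => PE (ξ j),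
    fun j => PF (ξ j), fun j => Pδ (ξ j), fun j => PB (ξ j), ?_, ?_, ?_, ?_, ?_, ?_, ?_, ?_, ?_, ?_⟩
  · have := htend PS (by fun_prop)
    convert this using 2
    simp only [PS, hζ]
    simp [Matrix.cons_val]
    ring
  · have := htend PΓ (by fun_prop)
    convert this using 2
    simp only [PΓ, hζ]
    simp [Matrix.cons_val]
    ring
  · exact ⟨_, htend PQ (by fun_prop)⟩
  · have := htend PE (by fun_prop)
    convert this using 2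
    simp only [PE, hζ]
    simp [Matrix.cons_val]
  · exact ⟨_, htend PF (by fun_prop)⟩
  · have := htend Pδ (by fun_prop)
    convert this using 2
    simp only [Pδ, hζ]
    simp [Matrix.cons_val]
  · have := htend PB (by fun_prop)
    convert this using 2
    simp only [PB, hζ]
    simp [Matrix.cons_val]
    ring
  · filter_upwards [hT] with j hj
    rw [hBx' (τ j), hBy' (τ j), hCx' (τ j), hCy' (τ j)] at hj
    simp only [PΓ, PQ, PS, hξ]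
    simp [Matrix.cons_val]
    linear_combination hj
  · intro j
    rw [hBx' (τ j), hBy' (τ j)]
    simp only [PB, PE, hξ]
    simp [Matrix.cons_val]
    ring
  · intro j
    rw [hBx' (τ j), hBy' (τ j)]
    simp only [Pδ, PF, hξ]
    simp [Matrix.cons_val]
    ring

end

end Pool.Agent.H762R2.Bir
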