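import Pool.Agent.H762R2.BirC2

set_option autoImplicit false

open Filter Topology Asymptotics

namespace Pool.Agent.H762R2.Bir

/-- ratio `ε / τ²` at one side -/
lemma side_ratio {ι : Type*} {l : Filter ι} {ε τ S Γ Q G0 : ι → ℝ} {k g S0 Γ0 Q0 : ℝ}
    (hε : Tendsto ε l (𝓝 0)) (hεp : ∀ᶠ j in l, 0 < ε j) (hτ : Tendsto τ l (𝓝 0))
    (hS : Tendsto S l (𝓝 S0)) (hΓ : Tendsto Γ l (𝓝 Γ0)) (hQ : Tendsto Q l (𝓝 Q0))
    (hG : Tendsto G0 l (𝓝 g)) (hg : 0 < g)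
    (h : ∀ᶠ j in l, ε j * (G0 j + τ j * Γ j + ε j * Q j) = τ j ^ 2 * (k / 2 - τ j * S j)) :
    (∀ᶠ j in l, τ j ≠ 0) ∧ Tendsto (fun j => ε j / τ j ^ 2) l (𝓝 (k / (2 * g))) := by
  have hden : Tendsto (fun j => G0 j + τ j * Γ j + ε j * Q j) l (𝓝 g) := by
    have := (hG.add (hτ.mul hΓ)).add (hε.mul hQ)
    simpa using this
  have hnum : Tendsto (fun j => k / 2 - τ j * S j) l (𝓝 (k / 2)) := by
    have := (tendsto_const_nhds (x := k / 2)).sub (hτ.mul hS)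
    simpa using this
  have hden0 : ∀ᶠ j in l, 0 < G0 j + τ j * Γ j + ε j * Q j := hden.eventually (lt_mem_nhds hg)
  have hne : ∀ᶠ j in l, τ j ≠ 0 := by
    filter_upwards [h, hden0, hεp] with j h1 h2 h3 h0
    rw [h0] at h1
    have := mul_pos h3 h2
    rw [h0, h1] at this
    norm_num at this
  refine ⟨hne, ?_⟩
  have hq := hnum.div hden hg.ne'
  have hval : k / 2 / g = k / (2 * g) := by field_simp
  rw [hval] at hq
  refine hq.congr' ?_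
  filter_upwards [h, hden0, hne] with j h1 h2 h3
  have h3' : τ j ^ 2 ≠ 0 := pow_ne_zero 2 h3
  simp only [Pi.div_apply]
  rw [div_eq_div_iff h2.ne' h3']
  linarith

/-- Limit of the sum of the reflection and tangency equations. -/
lemma combine {ι : Type*} {l : Filter ι} [l.NeBot]
    {ε p q G0 S S' Γ Γ' Q Q' E E' F F' δ δ' B B' : ι → ℝ}
    {k g K S0 Γ0 Q0 Q0' E0 F0 F0' δ0 B0 : ℝ}
    (hε : Tendsto ε l (𝓝 0)) (hεp : ∀ᶠ j in l, 0 < ε j)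
    (hp : Tendsto p l (𝓝 0)) (hq : Tendsto q l (𝓝 0))
    (hG : Tendsto G0 l (𝓝 g)) (hg : 0 < g) (hk : 0 < k) (hK : 0 < K)
    (hS : Tendsto S l (𝓝 S0)) (hS' : Tendsto S' l (𝓝 S0))
    (hΓ : Tendsto Γ l (𝓝 Γ0)) (hΓ' : Tendsto Γ' l (𝓝 Γ0))
    (hQ : Tendsto Q l (𝓝 Q0)) (hQ' : Tendsto Q' l (𝓝 Q0'))
    (hE : Tendsto E l (𝓝 E0)) (hE' : Tendsto E' l (𝓝 E0))
    (hF : Tendsto F l (𝓝 F0)) (hF' : Tendsto F' l (𝓝 F0'))
    (hδ : Tendsto δ l (𝓝 δ0)) (hδ' : Tendsto δ' l (𝓝 δ0))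
    (hB : Tendsto B l (𝓝 B0)) (hB' : Tendsto B' l (𝓝 B0))
    (hT : ∀ᶠ j in l, ε j * (G0 j + p j * Γ j + ε j * Q j) = p j ^ 2 * (k / 2 - p j * S j))
    (hT' : ∀ᶠ j in l, ε j * (G0 j + q j * Γ' j + ε j * Q' j) = q j ^ 2 * (k / 2 - q j * S' j))
    (hpos : ∀ᶠ j in l, 0 < k * p j + p j ^ 2 * B j + ε j * E j)
    (hneg : ∀ᶠ j in l, k * q j + q j ^ 2 * B' j + ε j * E' j < 0)
    (hrefl : ∀ᶠ j in l, (k * p j + p j ^ 2 * B j + ε j * E j) * (K + q j * δ' j + ε j * F' j) +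
      (k * q j + q j ^ 2 * B' j + ε j * E' j) * (K + p j * δ j + ε j * F j) = 0) :
    (k / g) * (Γ0 + E0) + 2 * S0 + 2 * B0 - 2 * k * δ0 / K = 0 := by
  obtain ⟨hpne, hlp⟩ := side_ratio hε hεp hp hS hΓ hQ hG hg hT
  obtain ⟨hqne, hlq⟩ := side_ratio hε hεp hq hS' hΓ' hQ' hG hg hT'
  -- signs
  have hppos : ∀ᶠ j in l, 0 < p j := by
    have h1 : Tendsto (fun j => k + p j * B j + (ε j / p j ^ 2) * p j * E j) l (𝓝 k) := by
      have := ((tendsto_const_nhds (x := k)).add (hp.mul hB)).add ((hlp.mul hp).mul hE)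
      simpa using this
    filter_upwards [hpos, hpne, h1.eventually (lt_mem_nhds hk)] with j h2 h3 h4
    have e : k * p j + p j ^ 2 * B j + ε j * E j =
        p j * (k + p j * B j + (ε j / p j ^ 2) * p j * E j) := by field_simp
    rw [e] at h2
    exact pos_of_mul_pos_left h2 h4.le |> fun h => by
      rcases lt_or_gt_of_ne h3 with h5 | h5
      · exfalso; have := mul_neg_of_neg_of_pos h5 h4; linarith
      · exact h5
  have hqneg : ∀ᶠ j in l, q j < 0 := by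
    have h1 : Tendsto (fun j => k + q j * B' j + (ε j / q j ^ 2) * q j * E' j) l (𝓝 k) := by
      have := ((tendsto_const_nhds (x := k)).add (hq.mul hB')).add ((hlq.mul hq).mul hE')
      simpa using this
    filter_upwards [hneg, hqne, h1.eventually (lt_mem_nhds hk)] with j h2 h3 h4
    have e : k * q j + q j ^ 2 * B' j + ε j * E' j =
        q j * (k + q j * B' j + (ε j / q j ^ 2) * q j * E' j) := by field_simp
    rw [e] at h2
    rcases lt_or_gt_of_ne h3 with h5 | h5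
    · exact h5
    · exfalso; have := mul_pos h5 h4; linarith
  -- r = -q/p tends to 1
  have hkg : 0 < k / (2 * g) := by positivity
  have hr2 : Tendsto (fun j => (ε j / p j ^ 2) / (ε j / q j ^ 2)) l (𝓝 1) := by
    have := hlp.div hlq hkg.ne'
    rw [div_self hkg.ne'] at this
    exact this
  have hr : Tendsto (fun j => - q j / p j) l (𝓝 1) := by
    have h1 := (Real.continuous_sqrt.tendsto 1).comp hr2
    rw [Real.sqrt_one] at h1
    refine h1.congr' ?_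
    filter_upwards [hppos, hqneg, hεp] with j h2 h3 h4
    have e : (ε j / p j ^ 2) / (ε j / q j ^ 2) = (- q j / p j) ^ 2 := by
      have : q j ≠ 0 := h3.ne
      field_simp
    simp only [Function.comp]
    rw [e, Real.sqrt_sq]
    exact div_nonneg (by linarith) h2.le
  set lam : ι → ℝ := fun j => ε j / p j ^ 2 with hlam
  set r : ι → ℝ := fun j => - q j / p j with hrdef
  set θ : ι → ℝ := fun j => (p j + q j) / p j ^ 2 with hθdef
  -- first identity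
  have hI : ∀ᶠ j in l, θ j = (k * r j * (δ j + δ' j) - k * lam j * (p j * F' j + q j * F j) -
      (B j + lam j * E j) * (K + q j * δ' j + ε j * F' j) -
      (r j ^ 2 * B' j + lam j * E' j) * (K + p j * δ j + ε j * F j)) / (k * K) := by
    filter_upwards [hrefl, hppos] with j h1 h2
    have hp0 : p j ≠ 0 := h2.ne'
    simp only [hθdef, hlam, hrdef]
    field_simp
    linear_combination h1
  have hθ : Tendsto θ l (𝓝 ((k * 1 * (δ0 + δ0) - k * (k / (2 * g)) * (0 * F0' + 0 * F0) -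
      (B0 + k / (2 * g) * E0) * (K + 0 * δ0 + 0 * F0') -
      (1 ^ 2 * B0 + k / (2 * g) * E0) * (K + 0 * δ0 + 0 * F0)) / (k * K))) := by
    have hnum := ((((hr.const_mul k).mul (hδ.add hδ')).sub
      ((hlp.const_mul k).mul ((hp.mul hF').add (hq.mul hF)))).sub
      ((hB.add (hlp.mul hE)).mul (((hq.mul hδ').const_add K).add (hε.mul hF')))).sub
      ((((hr.pow 2).mul hB').add (hlp.mul hE')).mul (((hp.mul hδ).const_add K).add (hε.mul hF)))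
    have h := hnum.div_const (k * K)
    refine h.congr' ?_
    filter_upwards [hI] with j hj
    rw [hj]
  -- second identity
  have hII : ∀ᶠ j in l, lam j * (Γ j + r j * Γ' j) + lam j * (lam j * p j) * (Q j - Q' j) =
      k / 2 * θ j * (1 + r j) - S j - r j ^ 3 * S' j := by
    filter_upwards [hT, hT', hppos] with j h1 h2 h3
    have hp0 : p j ≠ 0 := h3.ne'
    simp only [hθdef, hlam, hrdef]
    field_simp
    linear_combination 2 * h1 - 2 * h2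
  have hL := (hlp.mul (hΓ.add (hr.mul hΓ'))).add ((hlp.mul (hlp.mul hp)).mul (hQ.sub hQ'))
  have hR := (((hθ.const_mul (k / 2)).mul (hr.const_add 1)).sub hS).sub ((hr.pow 3).mul hS')
  have huniq := tendsto_nhds_unique (hL.congr' hII) hR
  have hg0 : g ≠ 0 := hg.ne'
  have hk0 : k ≠ 0 := hk.ne'
  have hK0 : K ≠ 0 := hK.ne'
  field_simp at huniq ⊢
  apply mul_left_cancel₀ (show (4 * g) ≠ 0 by positivity)
  linear_combination huniq


section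
variable {ι : Type*} {l : Filter ι} [l.NeBot] {X Y X1 Y1 X2 Y2 X3 Y3 : ℝ → ℝ}

/-- The first order caustic equation at a point. -/
theorem local_ode (hX : ∀ t, HasDerivAt X (X1 t) t) (hY : ∀ t, HasDerivAt Y (Y1 t) t)
    (hX1 : ∀ t, HasDerivAt X1 (X2 t) t) (hY1 : ∀ t, HasDerivAt Y1 (Y2 t) t)
    (hX2 : ∀ t, HasDerivAt X2 (X3 t) t) (hY2 : ∀ t, HasDerivAt Y2 (Y3 t) t) (t0 : ℝ)
    {ε m11 m12 m21 m22 w1 w2 : ι → ℝ} {M11 M12 M21 M22 W1 W2 : ℝ}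
    (hε : Tendsto ε l (𝓝 0)) (hεp : ∀ᶠ j in l, 0 < ε j)
    (h11 : Tendsto m11 l (𝓝 M11)) (h12 : Tendsto m12 l (𝓝 M12))
    (h21 : Tendsto m21 l (𝓝 M21)) (h22 : Tendsto m22 l (𝓝 M22))
    (hw1 : Tendsto w1 l (𝓝 W1)) (hw2 : Tendsto w2 l (𝓝 W2))
    {p q : ι → ℝ} (hp : Tendsto p l (𝓝 0)) (hq : Tendsto q l (𝓝 0))
    (hTp : ∀ᶠ j in l,
      (X1 (t0 + p j) + ε j * (m11 j * X1 (t0 + p j) + m12 j * Y1 (t0 + p j))) *
        (Y (t0 + p j) - Y t0 + ε j * (m21 j * X (t0 + p j) + m22 j * Y (t0 + p j) + w2 j)) -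
      (Y1 (t0 + p j) + ε j * (m21 j * X1 (t0 + p j) + m22 j * Y1 (t0 + p j))) *
        (X (t0 + p j) - X t0 + ε j * (m11 j * X (t0 + p j) + m12 j * Y (t0 + p j) + w1 j)) = 0)
    (hTq : ∀ᶠ j in l,
      (X1 (t0 + q j) + ε j * (m11 j * X1 (t0 + q j) + m12 j * Y1 (t0 + q j))) *
        (Y (t0 + q j) - Y t0 + ε j * (m21 j * X (t0 + q j) + m22 j * Y (t0 + q j) + w2 j)) -
      (Y1 (t0 + q j) + ε j * (m21 j * X1 (t0 + q j) + m22 j * Y1 (t0 + q j))) *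
        (X (t0 + q j) - X t0 + ε j * (m11 j * X (t0 + q j) + m12 j * Y (t0 + q j) + w1 j)) = 0)
    (hpos : ∀ᶠ j in l, 0 <
      X1 t0 * (Y1 (t0 + p j) + ε j * (m21 j * X1 (t0 + p j) + m22 j * Y1 (t0 + p j))) -
        Y1 t0 * (X1 (t0 + p j) + ε j * (m11 j * X1 (t0 + p j) + m12 j * Y1 (t0 + p j))))
    (hneg : ∀ᶠ j in l,
      X1 t0 * (Y1 (t0 + q j) + ε j * (m21 j * X1 (t0 + q j) + m22 j * Y1 (t0 + q j))) -
        Y1 t0 * (X1 (t0 + q j) + ε j * (m11 j * X1 (t0 + q j) + m12 j * Y1 (t0 + q j))) < 0)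
    (hrefl : ∀ᶠ j in l,
      (X1 t0 * (Y1 (t0 + p j) + ε j * (m21 j * X1 (t0 + p j) + m22 j * Y1 (t0 + p j))) -
        Y1 t0 * (X1 (t0 + p j) + ε j * (m11 j * X1 (t0 + p j) + m12 j * Y1 (t0 + p j)))) *
      (X1 t0 * (X1 (t0 + q j) + ε j * (m11 j * X1 (t0 + q j) + m12 j * Y1 (t0 + q j))) +
        Y1 t0 * (Y1 (t0 + q j) + ε j * (m21 j * X1 (t0 + q j) + m22 j * Y1 (t0 + q j)))) +
      (X1 t0 * (Y1 (t0 + q j) + ε j * (m21 j * X1 (t0 + q j) + m22 j * Y1 (t0 + q j))) -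
        Y1 t0 * (X1 (t0 + q j) + ε j * (m11 j * X1 (t0 + q j) + m12 j * Y1 (t0 + q j)))) *
      (X1 t0 * (X1 (t0 + p j) + ε j * (m11 j * X1 (t0 + p j) + m12 j * Y1 (t0 + p j))) +
        Y1 t0 * (Y1 (t0 + p j) + ε j * (m21 j * X1 (t0 + p j) + m22 j * Y1 (t0 + p j)))) = 0)
    (hg : 0 < X1 t0 * (M21 * X t0 + M22 * Y t0 + W2) - Y1 t0 * (M11 * X t0 + M12 * Y t0 + W1))
    (hk : 0 < X1 t0 * Y2 t0 - Y1 t0 * X2 t0)
    (hK : 0 < X1 t0 ^ 2 + Y1 t0 ^ 2) :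
    3 * (X1 t0 * Y2 t0 - Y1 t0 * X2 t0) * (X1 t0 ^ 2 + Y1 t0 ^ 2) *
        (X2 t0 * (M21 * X t0 + M22 * Y t0 + W2) - Y2 t0 * (M11 * X t0 + M12 * Y t0 + W1) +
         (X1 t0 * (M21 * X1 t0 + M22 * Y1 t0) - Y1 t0 * (M11 * X1 t0 + M12 * Y1 t0))) +
      ((X1 t0 * Y3 t0 - Y1 t0 * X3 t0) * (X1 t0 ^ 2 + Y1 t0 ^ 2) -
        6 * (X1 t0 * Y2 t0 - Y1 t0 * X2 t0) * (X1 t0 * X2 t0 + Y1 t0 * Y2 t0)) *
        (X1 t0 * (M21 * X t0 + M22 * Y t0 + W2) - Y1 t0 * (M11 * X t0 + M12 * Y t0 + W1)) = 0 := by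
  obtain ⟨S, Γ, Q, E, F, δ, B, hS, hΓ, ⟨Q0, hQ⟩, hE, ⟨F0, hF⟩, hδ, hB, i1, i2, i3⟩ :=
    side hX hY hX1 hY1 hX2 hY2 t0 hε h11 h12 h21 h22 hw1 hw2 hp hTp
  obtain ⟨S', Γ', Q', E', F', δ', B', hS', hΓ', ⟨Q0', hQ'⟩, hE', ⟨F0', hF'⟩, hδ', hB', i1', i2',
    i3'⟩ := side hX hY hX1 hY1 hX2 hY2 t0 hε h11 h12 h21 h22 hw1 hw2 hq hTq
  have hG : Tendsto (fun j => X1 t0 * (m21 j * X t0 + m22 j * Y t0 + w2 j) -
      Y1 t0 * (m11 j * X t0 + m12 j * Y t0 + w1 j)) l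
      (𝓝 (X1 t0 * (M21 * X t0 + M22 * Y t0 + W2) - Y1 t0 * (M11 * X t0 + M12 * Y t0 + W1))) :=
    ((((h21.mul_const _).add (h22.mul_const _)).add hw2).const_mul _).sub
      ((((h11.mul_const _).add (h12.mul_const _)).add hw1).const_mul _)
  simp only [i2] at hpos hrefl
  simp only [i2'] at hneg hrefl
  simp only [i3] at hrefl
  simp only [i3'] at hrefl
  have h := combine hε hεp hp hq hG hg hk hK hS hS' hΓ hΓ' hQ hQ' hE hE' hF hF' hδ hδ' hB hB'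
    i1 i1' hpos hneg hrefl
  set g := X1 t0 * (M21 * X t0 + M22 * Y t0 + W2) - Y1 t0 * (M11 * X t0 + M12 * Y t0 + W1)
  set k := X1 t0 * Y2 t0 - Y1 t0 * X2 t0
  set K := X1 t0 ^ 2 + Y1 t0 ^ 2
  have hg0 : g ≠ 0 := hg.ne'
  have hK0 : K ≠ 0 := hK.ne'
  field_simp at h
  linear_combination h

end

end Pool.Agent.H762R2.Bir
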