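import Pool.Agent.H762R2.BirB

set_option autoImplicit false

namespace Pool.Agent.H762R2.Bir

/-- If `(g^3 k / s^3)' = 0` wherever `g, k > 0` then either `g^3 k = C s^3` with `C > 0` or
`g^3 k = 0` identically. -/
lemma dichotomy {g g1 k k1 s s1 : ℝ → ℝ} (hgd : ∀ t, HasDerivAt g (g1 t) t)
    (hkd : ∀ t, HasDerivAt k (k1 t) t) (hsd : ∀ t, HasDerivAt s (2 * s1 t) t)
    (hs : ∀ t, 0 < s t) (hg : ∀ t, 0 ≤ g t) (hk : ∀ t, 0 ≤ k t)
    (hode : ∀ t, 0 < g t → 0 < k t →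
      3 * k t * s t * g1 t + (k1 t * s t - 6 * k t * s1 t) * g t = 0) :
    (∃ C : ℝ, 0 < C ∧ (∀ t, 0 < g t) ∧ ∀ t, g t ^ 3 * k t = C * s t ^ 3) ∨
      (∀ t, g t = 0 ∨ k t = 0) := by
  obtain ⟨q, hq⟩ : ∃ q : ℝ → ℝ, ∀ t, q t = g t ^ 3 * k t / s t ^ 3 := ⟨_, fun t => rfl⟩
  have hqd : ∀ t, HasDerivAt q ((3 * g t ^ 2 * g1 t * k t + g t ^ 3 * k1 t) / s t ^ 3 -
      g t ^ 3 * k t * (6 * s1 t) / s t ^ 4) t := by
    intro t
    have hsne : s t ≠ 0 := (hs t).ne'
    have h := (((hgd t).pow 3).mul (hkd t)).div ((hsd t).pow 3) (pow_ne_zero 3 hsne)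
    have hfun : q = fun t => g t ^ 3 * k t / s t ^ 3 := funext hq
    rw [hfun]
    refine h.congr_deriv ?_
    simp only [Pi.pow_apply, Pi.mul_apply]
    field_simp
    push_cast
    ring
  have hqn : ∀ t, 0 ≤ q t := by
    intro t
    rw [hq]
    have h1 := hg t
    have h2 := hk t
    have h3 := hs t
    positivity
  have hqd0 : ∀ t, deriv q t = 0 := by
    intro t
    by_cases h0 : q t = 0
    · have : IsLocalMin q t := Filter.Eventually.of_forall fun y => by rw [h0]; exact hqn y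
      exact this.deriv_eq_zero
    · have hgt : 0 < g t := by
        rcases (hg t).lt_or_eq with h | h
        · exact h
        · exfalso; apply h0; rw [hq, ← h]; simp
      have hkt : 0 < k t := by
        rcases (hk t).lt_or_eq with h | h
        · exact h
        · exfalso; apply h0; rw [hq, ← h]; simp
      rw [(hqd t).deriv]
      have h := hode t hgt hkt
      have hsne : s t ≠ 0 := (hs t).ne'
      field_simp
      linear_combination (g t) ^ 2 * h
  have hqdiff : Differentiable ℝ q := fun t => (hqd t).differentiableAt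
  have hqc : ∀ t, q t = q 0 := fun t => is_const_of_deriv_eq_zero hqdiff hqd0 t 0
  rcases (hqn 0).lt_or_eq with hC | hC
  · left
    have hkey : ∀ t, g t ^ 3 * k t = q 0 * s t ^ 3 := by
      intro t
      have hsne : s t ≠ 0 := (hs t).ne'
      rw [← hqc t, hq t]; field_simp
    refine ⟨q 0, hC, ?_, hkey⟩
    intro t
    rcases (hg t).lt_or_eq with h | h
    · exact h
    · exfalso
      have h1 := hkey t
      rw [← h] at h1
      have h2 : 0 < q 0 * s t ^ 3 := mul_pos hC (pow_pos (hs t) 3)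
      rw [← h1] at h2
      norm_num at h2
  · right
    intro t
    have h1 := hqc t
    rw [← hC, hq t] at h1
    have hsne : s t ^ 3 ≠ 0 := (pow_pos (hs t) 3).ne'
    rcases div_eq_zero_iff.mp h1 with h2 | h2
    · rcases mul_eq_zero.mp h2 with h3 | h3
      · left; exact pow_eq_zero_iff (three_ne_zero) |>.mp h3
      · right; exact h3
    · exact absurd h2 hsne

/-- The endgame: a closed convex curve along which the affine field `V = M x + w` satisfies the
first order caustic equation is an ellipse. -/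
theorem endgame {Ω : Set (ℝ × ℝ)} (ho : IsOpen Ω) (hb : Bornology.IsBounded Ω)
    (hne : Ω.Nonempty) {X Y X1 Y1 X2 Y2 X3 Y3 : ℝ → ℝ}
    (hX : ∀ t, HasDerivAt X (X1 t) t) (hY : ∀ t, HasDerivAt Y (Y1 t) t)
    (hX1 : ∀ t, HasDerivAt X1 (X2 t) t) (hY1 : ∀ t, HasDerivAt Y1 (Y2 t) t)
    (hX2 : ∀ t, HasDerivAt X2 (X3 t) t) (hY2 : ∀ t, HasDerivAt Y2 (Y3 t) t)
    (hXp : Function.Periodic X 1) (hYp : Function.Periodic Y 1)
    (hreg : ∀ t, 0 < X1 t ^ 2 + Y1 t ^ 2)
    (hfr : frontier Ω = Set.range fun t => (X t, Y t))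
    (hor : ∀ t, ∀ z ∈ Ω, 0 < X1 t * (z.2 - Y t) - Y1 t * (z.1 - X t))
    {m11 m12 m21 m22 w1 w2 : ℝ}
    (hnz : ¬ (m11 = 0 ∧ m12 = 0 ∧ m21 = 0 ∧ m22 = 0 ∧ w1 = 0 ∧ w2 = 0))
    (hk : ∀ t, 0 ≤ X1 t * Y2 t - Y1 t * X2 t)
    (hflat : ∀ u v : ℝ, u < v → ∃ t ∈ Set.Ioo u v, X1 t * Y2 t - Y1 t * X2 t ≠ 0)
    (hg : ∀ t, 0 ≤ X1 t * (m21 * X t + m22 * Y t + w2) - Y1 t * (m11 * X t + m12 * Y t + w1))
    (hode : ∀ t, 0 < X1 t * (m21 * X t + m22 * Y t + w2) - Y1 t * (m11 * X t + m12 * Y t + w1) →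
      0 < X1 t * Y2 t - Y1 t * X2 t →
      3 * (X1 t * Y2 t - Y1 t * X2 t) * (X1 t ^ 2 + Y1 t ^ 2) *
        (X2 t * (m21 * X t + m22 * Y t + w2) - Y2 t * (m11 * X t + m12 * Y t + w1) +
         (X1 t * (m21 * X1 t + m22 * Y1 t) - Y1 t * (m11 * X1 t + m12 * Y1 t))) +
      ((X1 t * Y3 t - Y1 t * X3 t) * (X1 t ^ 2 + Y1 t ^ 2) -
        6 * (X1 t * Y2 t - Y1 t * X2 t) * (X1 t * X2 t + Y1 t * Y2 t)) *
        (X1 t * (m21 * X t + m22 * Y t + w2) - Y1 t * (m11 * X t + m12 * Y t + w1)) = 0) :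
    ∃ (c : ℝ × ℝ) (a b d : ℝ), 0 < a ∧ 0 < a * d - b ^ 2 ∧
      frontier Ω = {x : ℝ × ℝ | a * (x.1 - c.1) ^ 2 + 2 * b * (x.1 - c.1) * (x.2 - c.2)
        + d * (x.2 - c.2) ^ 2 = 1} := by
  obtain ⟨z, hz⟩ := hne
  have hzc := fun t => hor t z hz
  suffices hsuff : ∃ (c : ℝ × ℝ) (a b d : ℝ), 0 < a ∧ 0 < a * d - b ^ 2 ∧
      ∀ x ∈ frontier Ω, qf c a b d x = 1 by
    obtain ⟨c, a, b, d, ha, hd, h⟩ := hsuff
    exact ⟨c, a, b, d, ha, hd, frontier_eq_ellipse ho hb ⟨z, hz⟩ ha hd h⟩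
  have hgd : ∀ t, HasDerivAt (fun t => X1 t * (m21 * X t + m22 * Y t + w2) -
      Y1 t * (m11 * X t + m12 * Y t + w1)) (X2 t * (m21 * X t + m22 * Y t + w2) -
    Y2 t * (m11 * X t + m12 * Y t + w1) +
         (X1 t * (m21 * X1 t + m22 * Y1 t) - Y1 t * (m11 * X1 t + m12 * Y1 t))) t := by
    intro t
    have hV2 := (((hX t).const_mul m21).add ((hY t).const_mul m22)).add_const w2
    have hV1 := (((hX t).const_mul m11).add ((hY t).const_mul m12)).add_const w1
    have h := ((hX1 t).mul hV2).sub ((hY1 t).mul hV1)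
    refine h.congr_deriv ?_
    simp only [Pi.add_apply]; ring
  have hkd : ∀ t, HasDerivAt (fun t => X1 t * Y2 t - Y1 t * X2 t)
      (X1 t * Y3 t - Y1 t * X3 t) t := by
    intro t
    have h := ((hX1 t).mul (hY2 t)).sub ((hY1 t).mul (hX2 t))
    refine h.congr_deriv ?_
    ring
  have hsd : ∀ t, HasDerivAt (fun t => X1 t ^ 2 + Y1 t ^ 2)
      (2 * (X1 t * X2 t + Y1 t * Y2 t)) t := by
    intro t
    have h := ((hX1 t).pow 2).add ((hY1 t).pow 2)
    refine h.congr_deriv ?_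
    push_cast; ring
  have hgc : Continuous (fun t => X1 t * (m21 * X t + m22 * Y t + w2) -
      Y1 t * (m11 * X t + m12 * Y t + w1)) :=
    continuous_iff_continuousAt.mpr fun t => (hgd t).continuousAt
  rcases dichotomy hgd hkd hsd hreg hg hk hode with ⟨C, hC, hgp, hCk⟩ | hzero
  · -- nondegenerate case
    have hex : ∀ t, ∃ r, 0 < X1 t * (Y r - Y t) - Y1 t * (X r - X t) := by
      intro t
      have hd : ((- Y1 t, X1 t) : ℝ × ℝ) ≠ 0 := by
        intro h
        have h1 : - Y1 t = 0 := congrArg Prod.fst h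
        have h2 : X1 t = 0 := congrArg Prod.snd h
        have := hreg t
        have h3 : Y1 t = 0 := by linarith
        rw [h2, h3] at this
        norm_num at this
      obtain ⟨α, hα, hf, -⟩ := ray_hits_frontier ho hb hz hd
      rw [hfr] at hf
      obtain ⟨r, hr⟩ := hf
      refine ⟨r, ?_⟩
      have h1 : X r = z.1 + α * (- Y1 t) := by
        have := congrArg Prod.fst hr
        simpa using this
      have h2 : Y r = z.2 + α * X1 t := by
        have := congrArg Prod.snd hr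
        simpa using this
      rw [h1, h2]
      have h3 := hzc t
      have h4 := mul_pos hα (hreg t)
      nlinarith only [h3, h4]
    have htr := trace_neg hX hY hXp hYp hzc hgp
    have hdet := det_pos hX hY hXp hYp hreg hex hgp
    obtain ⟨Δ, hΔ⟩ : ∃ Δ, Δ = m11 * m22 - m12 * m21 := ⟨_, rfl⟩
    have hΔ0 : Δ ≠ 0 := by rw [hΔ]; exact hdet.ne'
    obtain ⟨c1, hc1⟩ : ∃ c, c = (m12 * w2 - m22 * w1) / Δ := ⟨_, rfl⟩
    obtain ⟨c2, hc2⟩ : ∃ c, c = (m21 * w1 - m11 * w2) / Δ := ⟨_, rfl⟩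
    have ec1 : m11 * c1 + m12 * c2 + w1 = 0 := by
      rw [hc1, hc2]; field_simp; rw [hΔ]; ring
    have ec2 : m21 * c1 + m22 * c2 + w2 = 0 := by
      rw [hc1, hc2]; field_simp; rw [hΔ]; ring
    have hgeq : ∀ t, ((-m11) * (X t - c1) + (-m12) * (Y t - c2)) * Y1 t -
        ((-m21) * (X t - c1) + (-m22) * (Y t - c2)) * X1 t =
        X1 t * (m21 * X t + m22 * Y t + w2) - Y1 t * (m11 * X t + m12 * Y t + w1) := by
      intro t
      linear_combination (Y1 t) * ec1 - (X1 t) * ec2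
    obtain ⟨a, b, d, ha, hd, h⟩ := ellipse_of_ode (X := fun t => X t - c1) (Y := fun t => Y t - c2)
      (X1 := X1) (Y1 := Y1) (X2 := X2) (Y2 := Y2)
      (fun t => (hX t).sub_const c1) (fun t => (hY t).sub_const c2) hX1 hY1
      (fun t => by simp only [hXp t]) (fun t => by simp only [hYp t])
      (n11 := - m11) (n12 := - m12) (n21 := - m21) (n22 := - m22) (C := C)
      (by linarith only [htr]) (by linarith only [hdet]) hC
      (fun t => by rw [hgeq t]; exact hgp t)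
      (fun t => by rw [hgeq t]; exact hCk t)
    refine ⟨(c1, c2), a, b, d, ha, hd, ?_⟩
    intro x hx
    rw [hfr] at hx
    obtain ⟨t, rfl⟩ := hx
    exact h t
  · -- degenerate case
    have hg0 : ∀ t, X1 t * (m21 * X t + m22 * Y t + w2) -
      Y1 t * (m11 * X t + m12 * Y t + w1) = 0 := by
      intro t
      by_contra hne0
      have hgt := lt_of_le_of_ne (hg t) (Ne.symm hne0)
      have hev := hgc.continuousAt.eventually (lt_mem_nhds hgt)
      obtain ⟨ε, hε, hball⟩ := Metric.eventually_nhds_iff.mp hev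
      obtain ⟨r, hr, hkr⟩ := hflat t (t + ε) (by linarith)
      have h1 := hball (y := r) (by rw [Real.dist_eq, abs_of_pos] <;> linarith [hr.1, hr.2])
      rcases hzero r with h2 | h2
      · rw [h2] at h1; exact lt_irrefl _ h1
      · exact hkr h2
    have htr := trace_zero hX hY hXp hYp hzc hg0
    exact ellipse_of_tangent ho hb ⟨z, hz⟩ hX hY hfr htr hnz hg0

end Pool.Agent.H762R2.Bir
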