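import Pool.Agent.H762R2.BirC3
import Pool.Agent.H762R2.BirE

set_option autoImplicit false

open Filter Topology

namespace Pool.Agent.H762R2.Bir

/-- The line through `p` with direction `w` supports the set `K`. -/
def Supp (p w : ℝ × ℝ) (K : Set (ℝ × ℝ)) : Prop :=
  w ≠ 0 ∧ (∃ y ∈ K, w.1 * (y.2 - p.2) - w.2 * (y.1 - p.1) = 0) ∧
    ((∀ y ∈ K, 0 ≤ w.1 * (y.2 - p.2) - w.2 * (y.1 - p.1)) ∨
     (∀ y ∈ K, w.1 * (y.2 - p.2) - w.2 * (y.1 - p.1) ≤ 0))

/-- `K` is a convex billiard caustic of the table `Ω` with boundary curve `γ`. -/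
def IsCaustic (Ω : Set (ℝ × ℝ)) (γ : ℝ → ℝ × ℝ) (K : Set (ℝ × ℝ)) : Prop :=
  IsCompact K ∧ Convex ℝ K ∧ (interior K).Nonempty ∧ K ⊆ Ω ∧
    ∀ (p w u r : ℝ × ℝ) (t s : ℝ), Supp p w K → γ t = p + s • w → u = deriv γ t →
      r = (2 * (w.1 * u.1 + w.2 * u.2)) • u - (u.1 ^ 2 + u.2 ^ 2) • w → Supp (γ t) r K

def cr (a b : ℝ × ℝ) : ℝ := a.1 * b.2 - a.2 * b.1
def dt (a b : ℝ × ℝ) : ℝ := a.1 * b.1 + a.2 * b.2

lemma cr_dt (e a b : ℝ × ℝ) : dt e e * cr a b = dt e a * cr e b - dt e b * cr e a := by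
  simp only [cr, dt]; ring

lemma contact {Ω : Set (ℝ × ℝ)} {γ : ℝ → ℝ × ℝ} {K : Set (ℝ × ℝ)} (hK : IsCaustic Ω γ K)
    {t0 : ℝ} {x0 e : ℝ × ℝ} (hx0 : γ t0 = x0) (he : deriv γ t0 = e)
    (hor : ∀ z ∈ Ω, 0 < cr e (z - x0)) :
    ∃ yp ∈ K, ∃ ym ∈ K, (∀ y ∈ K, 0 ≤ cr (yp - x0) (y - x0)) ∧
      (∀ y ∈ K, cr (ym - x0) (y - x0) ≤ 0) ∧
      (∀ y ∈ K, dt e (y - x0) * cr e (yp - x0) ≤ dt e (yp - x0) * cr e (y - x0)) ∧
      (0 < dt e (yp - x0) →
        dt e (ym - x0) * cr e (yp - x0) + dt e (yp - x0) * cr e (ym - x0) = 0) := by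
  obtain ⟨hcomp, -, hint, hsub, hca⟩ := hK
  have hne : K.Nonempty := hint.mono interior_subset
  have hcrpos : ∀ y ∈ K, 0 < cr e (y - x0) := fun y hy => hor y (hsub hy)
  have hee : 0 < dt e e := by
    obtain ⟨y, hy⟩ := hne
    have h := hcrpos y hy
    by_contra hcon
    push Not at hcon
    have h1 : e.1 = 0 := by simp only [dt] at hcon; nlinarith [sq_nonneg e.1, sq_nonneg e.2]
    have h2 : e.2 = 0 := by simp only [dt] at hcon; nlinarith [sq_nonneg e.1, sq_nonneg e.2]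
    simp only [cr, h1, h2] at h
    norm_num at h
  have hcont : ContinuousOn (fun y => dt e (y - x0) / cr e (y - x0)) K := by
    apply ContinuousOn.div
    · simp only [dt]; fun_prop
    · simp only [cr]; fun_prop
    · intro y hy; exact (hcrpos y hy).ne'
  obtain ⟨yp, hyp, hmax⟩ := hcomp.exists_isMaxOn hne hcont
  obtain ⟨ym, hym, hmin⟩ := hcomp.exists_isMinOn hne hcont
  have hmax' : ∀ y ∈ K, dt e (y - x0) * cr e (yp - x0) ≤ dt e (yp - x0) * cr e (y - x0) := by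
    intro y hy
    have h : dt e (y - x0) / cr e (y - x0) ≤ dt e (yp - x0) / cr e (yp - x0) := hmax hy
    rwa [div_le_div_iff₀ (hcrpos y hy) (hcrpos yp hyp)] at h
  have hmin' : ∀ y ∈ K, dt e (ym - x0) * cr e (y - x0) ≤ dt e (y - x0) * cr e (ym - x0) := by
    intro y hy
    have h : dt e (ym - x0) / cr e (ym - x0) ≤ dt e (y - x0) / cr e (y - x0) := hmin hy
    rwa [div_le_div_iff₀ (hcrpos ym hym) (hcrpos y hy)] at h
  have hL : ∀ y ∈ K, 0 ≤ cr (yp - x0) (y - x0) := by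
    intro y hy
    have h1 := cr_dt e (yp - x0) (y - x0)
    have h2 := hmax' y hy
    have : 0 ≤ dt e e * cr (yp - x0) (y - x0) := by rw [h1]; linarith
    exact nonneg_of_mul_nonneg_right this hee
  have hR : ∀ y ∈ K, cr (ym - x0) (y - x0) ≤ 0 := by
    intro y hy
    have h1 := cr_dt e (ym - x0) (y - x0)
    have h2 := hmin' y hy
    have : dt e e * cr (ym - x0) (y - x0) ≤ 0 := by rw [h1]; linarith
    by_contra hc
    push Not at hc
    have := mul_pos hee hc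
    linarith
  refine ⟨yp, hyp, ym, hym, hL, hR, hmax', fun hdpos => ?_⟩
  set W := yp - x0 with hW
  have hcW : 0 < cr e W := hcrpos yp hyp
  set r := (2 * (W.1 * e.1 + W.2 * e.2)) • e - (e.1 ^ 2 + e.2 ^ 2) • W with hr
  have hsupp : Supp x0 W K := by
    refine ⟨?_, ⟨yp, hyp, ?_⟩, Or.inl ?_⟩
    · intro h0; rw [h0] at hcW; simp [cr] at hcW
    · rw [hW]; simp only [Prod.fst_sub, Prod.snd_sub]; ring
    · intro y hy; exact hL y hy
  have hres := hca x0 W e r t0 0 hsupp (by rw [hx0]; simp) he.symm hr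
  rw [hx0] at hres
  obtain ⟨-, ⟨y0, hy0, hy0r⟩, hside⟩ := hres
  have hr1 : r.1 = 2 * (W.1 * e.1 + W.2 * e.2) * e.1 - (e.1 ^ 2 + e.2 ^ 2) * W.1 := by
    rw [hr]; simp
  have hr2 : r.2 = 2 * (W.1 * e.1 + W.2 * e.2) * e.2 - (e.1 ^ 2 + e.2 ^ 2) * W.2 := by
    rw [hr]; simp
  -- cross products with r
  have hcrr : ∀ b : ℝ × ℝ, r.1 * b.2 - r.2 * b.1 = dt e W * cr e b + cr e W * dt e b := by
    intro b
    rw [hr1, hr2]; simp only [dt, cr]; ring
  have h0 : dt e W * cr e (y0 - x0) + cr e W * dt e (y0 - x0) = 0 := by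
    rw [← hcrr]; simpa using hy0r
  have hc0 := hcrpos y0 hy0
  have hle : dt e (ym - x0) * cr e W + dt e W * cr e (ym - x0) ≤ 0 := by
    have h1 := hmin' y0 hy0
    have hcm := hcrpos ym hym
    have h2 : cr e (y0 - x0) * (dt e (ym - x0) * cr e W + dt e W * cr e (ym - x0)) ≤ 0 := by
      have h3 : cr e (y0 - x0) * (dt e (ym - x0) * cr e W + dt e W * cr e (ym - x0)) =
          cr e W * (dt e (ym - x0) * cr e (y0 - x0) - dt e (y0 - x0) * cr e (ym - x0)) +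
          cr e (ym - x0) * (dt e W * cr e (y0 - x0) + cr e W * dt e (y0 - x0)) := by ring
      rw [h3, h0]
      have := mul_nonpos_of_nonneg_of_nonpos hcW.le (sub_nonpos.mpr h1)
      linarith
    by_contra hc
    push Not at hc
    have := mul_pos hc0 hc
    linarith
  have hge : 0 ≤ dt e (ym - x0) * cr e W + dt e W * cr e (ym - x0) := by
    rcases hside with hs | hs
    · have h1 := hs ym hym
      have h2 := hcrr (ym - x0)
      simp only [Prod.fst_sub, Prod.snd_sub] at h2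
      rw [h2] at h1
      linarith
    · exfalso
      have h1 := hs yp hyp
      have h2 := hcrr (yp - x0)
      simp only [Prod.fst_sub, Prod.snd_sub] at h2
      rw [h2] at h1
      have := mul_pos hdpos hcW
      rw [← hW] at h1
      nlinarith
  linarith

/-- If a tangent line of `K` is parallel to the supporting line of `K` through `x0` then they
coincide. -/
lemma tang_of_parallel {K : Set (ℝ × ℝ)} {x0 w ys yt : ℝ × ℝ} (hys : ys ∈ K) (hyt : yt ∈ K)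
    (hpar : cr w (ys - x0) = 0) (hpos : ∀ y ∈ K, 0 ≤ cr w (y - x0))
    (htan : ∀ y ∈ K, 0 ≤ cr w (y - yt)) : cr w (yt - x0) = 0 := by
  have h1 := hpos yt hyt
  have h2 := htan ys hys
  have h3 : cr w (ys - yt) = cr w (ys - x0) - cr w (yt - x0) := by
    simp only [cr, Prod.fst_sub, Prod.snd_sub]; ring
  rw [h3, hpar] at h2
  linarith

lemma zero_seq {ι : Type*} {l : Filter ι} {Ψ : ι → ℝ → ℝ} {Φ : ℝ → ℝ}
    (hcont : ∀ j, Continuous (Ψ j)) (hlim : ∀ τ, Tendsto (fun j => Ψ j τ) l (𝓝 (Φ τ)))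
    (hΦ : ∀ᶠ τ in 𝓝 (0:ℝ), (0 < τ → 0 < Φ τ) ∧ (τ < 0 → Φ τ < 0)) :
    ∃ τ : ι → ℝ, Tendsto τ l (𝓝 0) ∧ ∀ᶠ j in l, Ψ j (τ j) = 0 := by
  classical
  have hex : ∀ j, ∃ τ : ℝ, (∃ τ' ∈ Set.Icc (-1:ℝ) 1, Ψ j τ' = 0) → Ψ j τ = 0 ∧
      ∀ τ' ∈ Set.Icc (-1:ℝ) 1, Ψ j τ' = 0 → |τ| ≤ |τ'| := by
    intro j
    by_cases h : ∃ τ' ∈ Set.Icc (-1:ℝ) 1, Ψ j τ' = 0
    · have hcl : IsClosed {τ | Ψ j τ = 0} := isClosed_eq (hcont j) continuous_const
      have hcomp : IsCompact (Set.Icc (-1:ℝ) 1 ∩ {τ | Ψ j τ = 0}) := isCompact_Icc.inter_right hcl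
      obtain ⟨τ, hτ, hmin⟩ := hcomp.exists_isMinOn (by obtain ⟨τ', h1, h2⟩ := h; exact ⟨τ', h1, h2⟩)
        (continuous_abs.continuousOn)
      exact ⟨τ, fun _ => ⟨hτ.2, fun τ' h1 h2 => hmin ⟨h1, h2⟩⟩⟩
    · exact ⟨0, fun h' => absurd h' h⟩
  choose τ hτ using hex
  have key : ∀ η > 0, η ≤ 1 → ∀ᶠ j in l, Ψ j (τ j) = 0 ∧ |τ j| ≤ η := by
    intro η hη hη1
    obtain ⟨δ, hδ, hball⟩ := Metric.eventually_nhds_iff.mp hΦ
    set η' := min η (δ / 2) with hη'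
    have hη'pos : 0 < η' := lt_min hη (by linarith)
    have hη'le : η' ≤ η := min_le_left _ _
    have hη'δ : η' < δ := lt_of_le_of_lt (min_le_right _ _) (by linarith)
    have hp : 0 < Φ η' := (hball (by rw [Real.dist_eq, sub_zero, abs_of_pos hη'pos]; exact hη'δ)).1
      hη'pos
    have hn : Φ (-η') < 0 := (hball (by
      rw [Real.dist_eq, sub_zero, abs_neg, abs_of_pos hη'pos]; exact hη'δ)).2 (by linarith)
    filter_upwards [(hlim η').eventually (lt_mem_nhds hp), (hlim (-η')).eventually (gt_mem_nhds hn)]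
      with j h1 h2
    have hivt := intermediate_value_Icc (show -η' ≤ η' by linarith) (hcont j).continuousOn
    obtain ⟨τ', hτ', hz⟩ := hivt ⟨h2.le, h1.le⟩
    have hmem : τ' ∈ Set.Icc (-1:ℝ) 1 := ⟨by linarith [hτ'.1], by linarith [hτ'.2]⟩
    obtain ⟨h3, h4⟩ := hτ j ⟨τ', hmem, hz⟩
    refine ⟨h3, (h4 τ' hmem hz).trans ?_⟩
    exact (abs_le.mpr ⟨hτ'.1, hτ'.2⟩).trans hη'le
  refine ⟨τ, ?_, (key 1 one_pos le_rfl).mono fun j h => h.1⟩
  rw [Metric.tendsto_nhds]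
  intro η hη
  filter_upwards [key (min (η / 2) 1) (lt_min (by linarith) one_pos) (min_le_right _ _)] with j hj
  rw [Real.dist_eq, sub_zero]
  exact lt_of_le_of_lt (hj.2.trans (min_le_left _ _)) (by linarith)

lemma sign_of_deriv {f : ℝ → ℝ} {k : ℝ} (h : HasDerivAt f k 0) (h0 : f 0 = 0) (hk : 0 < k) :
    ∀ᶠ τ in 𝓝 (0:ℝ), (0 < τ → 0 < f τ) ∧ (τ < 0 → f τ < 0) := by
  have h1 := hasDerivAt_iff_tendsto_slope.mp h
  have h2 := h1.eventually (lt_mem_nhds hk)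
  rw [eventually_nhdsWithin_iff] at h2
  filter_upwards [h2] with τ hτ
  constructor
  · intro hpos
    have h3 := hτ (by simpa using hpos.ne')
    rw [slope_def_field, h0, sub_zero, sub_zero] at h3
    rcases (div_pos_iff.mp h3) with h4 | h4
    · exact h4.1
    · linarith [h4.2]
  · intro hneg
    have h3 := hτ (by simpa using hneg.ne)
    rw [slope_def_field, h0, sub_zero, sub_zero] at h3
    rcases (div_pos_iff.mp h3) with h4 | h4
    · linarith [h4.2]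
    · exact h4.1

end Pool.Agent.H762R2.Bir
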