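import Pool.Agent.H762R2.BirD

set_option autoImplicit false

open Filter Topology

namespace Pool.Agent.H762R2.Bir

lemma dt_cr (e W w b : ℝ × ℝ) : dt e W * cr w b - dt e w * cr W b = - cr W w * dt e b := by
  simp only [cr, dt]; ring

/-- The affine map `x ↦ x + ε (M x + w)`. -/
def amap (ε m11 m12 m21 m22 w1 w2 : ℝ) (x : ℝ × ℝ) : ℝ × ℝ :=
  (x.1 + ε * (m11 * x.1 + m12 * x.2 + w1), x.2 + ε * (m21 * x.1 + m22 * x.2 + w2))

theorem ode_at {Ω : Set (ℝ × ℝ)} {γ : ℝ → ℝ × ℝ} {X Y X1 Y1 X2 Y2 X3 Y3 : ℝ → ℝ}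
    (hX : ∀ t, HasDerivAt X (X1 t) t) (hY : ∀ t, HasDerivAt Y (Y1 t) t)
    (hX1 : ∀ t, HasDerivAt X1 (X2 t) t) (hY1 : ∀ t, HasDerivAt Y1 (Y2 t) t)
    (hX2 : ∀ t, HasDerivAt X2 (X3 t) t) (hY2 : ∀ t, HasDerivAt Y2 (Y3 t) t)
    (hγ : ∀ t, γ t = (X t, Y t)) (hγ' : ∀ t, deriv γ t = (X1 t, Y1 t))
    (hor : ∀ t, ∀ z ∈ Ω, 0 < X1 t * (z.2 - Y t) - Y1 t * (z.1 - X t))
    (horc : ∀ t, ∀ z ∈ closure Ω, 0 ≤ X1 t * (z.2 - Y t) - Y1 t * (z.1 - X t))
    (hcl : ∀ t, (X t, Y t) ∈ closure Ω)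
    {ι : Type*} {l : Filter ι} [l.NeBot]
    {ε m11 m12 m21 m22 w1 w2 : ι → ℝ} {M11 M12 M21 M22 W1 W2 : ℝ}
    (hε : Tendsto ε l (𝓝 0)) (hεp : ∀ j, 0 < ε j)
    (h11 : Tendsto m11 l (𝓝 M11)) (h12 : Tendsto m12 l (𝓝 M12))
    (h21 : Tendsto m21 l (𝓝 M21)) (h22 : Tendsto m22 l (𝓝 M22))
    (hw1 : Tendsto w1 l (𝓝 W1)) (hw2 : Tendsto w2 l (𝓝 W2))
    {K : ι → Set (ℝ × ℝ)} (hK : ∀ j, IsCaustic Ω γ (K j))
    (hKe : ∀ j, K j = amap (ε j) (m11 j) (m12 j) (m21 j) (m22 j) (w1 j) (w2 j) '' closure Ω)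
    (t0 : ℝ)
    (hg : 0 < X1 t0 * (M21 * X t0 + M22 * Y t0 + W2) - Y1 t0 * (M11 * X t0 + M12 * Y t0 + W1))
    (hk : 0 < X1 t0 * Y2 t0 - Y1 t0 * X2 t0)
    (hreg : 0 < X1 t0 ^ 2 + Y1 t0 ^ 2) :
    3 * (X1 t0 * Y2 t0 - Y1 t0 * X2 t0) * (X1 t0 ^ 2 + Y1 t0 ^ 2) *
        (X2 t0 * (M21 * X t0 + M22 * Y t0 + W2) - Y2 t0 * (M11 * X t0 + M12 * Y t0 + W1) +
         (X1 t0 * (M21 * X1 t0 + M22 * Y1 t0) - Y1 t0 * (M11 * X1 t0 + M12 * Y1 t0))) +
      ((X1 t0 * Y3 t0 - Y1 t0 * X3 t0) * (X1 t0 ^ 2 + Y1 t0 ^ 2) -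
        6 * (X1 t0 * Y2 t0 - Y1 t0 * X2 t0) * (X1 t0 * X2 t0 + Y1 t0 * Y2 t0)) *
        (X1 t0 * (M21 * X t0 + M22 * Y t0 + W2) - Y1 t0 * (M11 * X t0 + M12 * Y t0 + W1)) = 0 := by
  obtain ⟨x0, hx0⟩ : ∃ x0 : ℝ × ℝ, x0 = (X t0, Y t0) := ⟨_, rfl⟩
  obtain ⟨e, he⟩ : ∃ e : ℝ × ℝ, e = (X1 t0, Y1 t0) := ⟨_, rfl⟩
  have hore : ∀ z ∈ Ω, 0 < cr e (z - x0) := by
    intro z hz
    have := hor t0 z hz
    rw [he, hx0]; simpa [cr] using this
  have hct : ∀ j, ∃ yp ∈ K j, ∃ ym ∈ K j, (∀ y ∈ K j, 0 ≤ cr (yp - x0) (y - x0)) ∧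
      (∀ y ∈ K j, cr (ym - x0) (y - x0) ≤ 0) ∧
      (∀ y ∈ K j, dt e (y - x0) * cr e (yp - x0) ≤ dt e (yp - x0) * cr e (y - x0)) ∧
      (0 < dt e (yp - x0) →
        dt e (ym - x0) * cr e (yp - x0) + dt e (yp - x0) * cr e (ym - x0) = 0) :=
    fun j => contact (hK j) (by rw [hγ, hx0]) (by rw [hγ', he]) hore
  choose yp hyp ym hym hL hR hmax hrel using hct
  have hsub : ∀ j, K j ⊆ Ω := fun j => (hK j).2.2.2.1
  have hcp : ∀ j, 0 < cr e (yp j - x0) := fun j => hore _ (hsub j (hyp j))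
  have hcm : ∀ j, 0 < cr e (ym j - x0) := fun j => hore _ (hsub j (hym j))
  have hee : dt e e = X1 t0 ^ 2 + Y1 t0 ^ 2 := by rw [he]; simp [dt]; ring
  -- (a) the slopes tend to zero
  have hslope : ∀ L : ℝ, ∀ᶠ j in l, L * cr e (yp j - x0) < dt e (yp j - x0) := by
    intro L
    have hφ : HasDerivAt (fun τ => (X1 t0 * (X (t0 + τ) - X t0) + Y1 t0 * (Y (t0 + τ) - Y t0)) -
        L * (X1 t0 * (Y (t0 + τ) - Y t0) - Y1 t0 * (X (t0 + τ) - X t0)))
        (X1 t0 ^ 2 + Y1 t0 ^ 2) 0 := by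
      have h1 : HasDerivAt (fun τ => X (t0 + τ)) (X1 t0) 0 := by
        have := HasDerivAt.comp_const_add t0 0 (hX (t0 + 0))
        simpa using this
      have h2 : HasDerivAt (fun τ => Y (t0 + τ)) (Y1 t0) 0 := by
        have := HasDerivAt.comp_const_add t0 0 (hY (t0 + 0))
        simpa using this
      have h3 := (((h1.sub_const (X t0)).const_mul (X1 t0)).add
        ((h2.sub_const (Y t0)).const_mul (Y1 t0))).sub
        ((((h2.sub_const (Y t0)).const_mul (X1 t0)).sub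
        ((h1.sub_const (X t0)).const_mul (Y1 t0))).const_mul L)
      refine h3.congr_deriv ?_
      ring
    have hs := sign_of_deriv hφ (by simp) hreg
    obtain ⟨δ, hδ, hball⟩ := Metric.eventually_nhds_iff.mp hs
    have hpos := (hball (y := δ / 2) (by rw [Real.dist_eq, sub_zero, abs_of_pos] <;> linarith)).1
      (by linarith)
    set s := t0 + δ / 2 with hsdef
    -- the image point
    have hmem : ∀ j, amap (ε j) (m11 j) (m12 j) (m21 j) (m22 j) (w1 j) (w2 j) (X s, Y s) ∈ K j := by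
      intro j; rw [hKe j]; exact ⟨_, hcl s, rfl⟩
    have hlim : Tendsto (fun j => (X1 t0 * (X s + ε j * (m11 j * X s + m12 j * Y s + w1 j) - X t0) +
        Y1 t0 * (Y s + ε j * (m21 j * X s + m22 j * Y s + w2 j) - Y t0)) -
        L * (X1 t0 * (Y s + ε j * (m21 j * X s + m22 j * Y s + w2 j) - Y t0) -
          Y1 t0 * (X s + ε j * (m11 j * X s + m12 j * Y s + w1 j) - X t0))) l
        (𝓝 ((X1 t0 * (X s + 0 * (M11 * X s + M12 * Y s + W1) - X t0) +
        Y1 t0 * (Y s + 0 * (M21 * X s + M22 * Y s + W2) - Y t0)) -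
        L * (X1 t0 * (Y s + 0 * (M21 * X s + M22 * Y s + W2) - Y t0) -
          Y1 t0 * (X s + 0 * (M11 * X s + M12 * Y s + W1) - X t0)))) := by
      have t1 := (((hε.mul (((h11.mul_const (X s)).add (h12.mul_const (Y s))).add hw1)).const_add
        (X s)).sub_const (X t0))
      have t2 := (((hε.mul (((h21.mul_const (X s)).add (h22.mul_const (Y s))).add hw2)).const_add
        (Y s)).sub_const (Y t0))
      exact ((t1.const_mul (X1 t0)).add (t2.const_mul (Y1 t0))).sub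
        (((t2.const_mul (X1 t0)).sub (t1.const_mul (Y1 t0))).const_mul L)
    have hpos' : 0 < ((X1 t0 * (X s + 0 * (M11 * X s + M12 * Y s + W1) - X t0) +
        Y1 t0 * (Y s + 0 * (M21 * X s + M22 * Y s + W2) - Y t0)) -
        L * (X1 t0 * (Y s + 0 * (M21 * X s + M22 * Y s + W2) - Y t0) -
          Y1 t0 * (X s + 0 * (M11 * X s + M12 * Y s + W1) - X t0))) := by
      simpa using hpos
    filter_upwards [hlim.eventually (lt_mem_nhds hpos')] with j hj
    set y := amap (ε j) (m11 j) (m12 j) (m21 j) (m22 j) (w1 j) (w2 j) (X s, Y s) with hy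
    have h1 := hmax j y (hmem j)
    have h2 : 0 < cr e (y - x0) := hore _ (hsub j (hmem j))
    have h3 : L * cr e (y - x0) < dt e (y - x0) := by
      rw [he, hx0, hy]
      simp only [cr, dt, amap, Prod.fst_sub, Prod.snd_sub]
      linarith
    have h4 := mul_lt_mul_of_pos_right h3 (hcp j)
    have h5 : cr e (y - x0) * (L * cr e (yp j - x0)) < cr e (y - x0) * dt e (yp j - x0) := by
      nlinarith
    exact lt_of_mul_lt_mul_left h5 h2.le
  have hdpos : ∀ᶠ j in l, 0 < dt e (yp j - x0) := by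
    filter_upwards [hslope 0] with j hj
    linarith
  -- slopes
  obtain ⟨m, hm⟩ : ∃ m : ι → ℝ, ∀ j, m j = cr e (yp j - x0) / dt e (yp j - x0) := ⟨_, fun _ => rfl⟩
  have hmpos : ∀ᶠ j in l, 0 < m j := by
    filter_upwards [hdpos] with j hj
    rw [hm]; exact div_pos (hcp j) hj
  have hm0 : Tendsto m l (𝓝 0) := by
    rw [Metric.tendsto_nhds]
    intro η hη
    filter_upwards [hslope (1 / η), hdpos, hmpos] with j h1 h2 h3
    rw [Real.dist_eq, sub_zero, abs_of_pos h3, hm, div_lt_iff₀ h2]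
    rw [one_div, inv_mul_lt_iff₀ hη] at h1
    exact h1
  -- the functions κ and D
  let kap : ι → ℝ → ℝ := fun j τ =>
    X1 t0 * (Y1 (t0 + τ) + ε j * (m21 j * X1 (t0 + τ) + m22 j * Y1 (t0 + τ))) -
        Y1 t0 * (X1 (t0 + τ) + ε j * (m11 j * X1 (t0 + τ) + m12 j * Y1 (t0 + τ)))
  let D : ι → ℝ → ℝ := fun j τ =>
    X1 t0 * (X1 (t0 + τ) + ε j * (m11 j * X1 (t0 + τ) + m12 j * Y1 (t0 + τ))) +
        Y1 t0 * (Y1 (t0 + τ) + ε j * (m21 j * X1 (t0 + τ) + m22 j * Y1 (t0 + τ)))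
  have hX1c : Continuous X1 := continuous_iff_continuousAt.mpr fun t => (hX1 t).continuousAt
  have hY1c : Continuous Y1 := continuous_iff_continuousAt.mpr fun t => (hY1 t).continuousAt
  have hkapc : ∀ j, Continuous (kap j) := fun j => by simp only [kap]; fun_prop
  have hDc : ∀ j, Continuous (D j) := fun j => by simp only [D]; fun_prop
  -- general limits along sequences of parameters
  have hklim : ∀ τ : ι → ℝ, ∀ τ0 : ℝ, Tendsto τ l (𝓝 τ0) →
      Tendsto (fun j => kap j (τ j)) l (𝓝 (X1 t0 * Y1 (t0 + τ0) - Y1 t0 * X1 (t0 + τ0))) := by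
    intro τ τ0 hτ
    have t1 : Tendsto (fun j => X1 (t0 + τ j)) l (𝓝 (X1 (t0 + τ0))) :=
      (hX1c.tendsto _).comp (hτ.const_add t0)
    have t2 : Tendsto (fun j => Y1 (t0 + τ j)) l (𝓝 (Y1 (t0 + τ0))) :=
      (hY1c.tendsto _).comp (hτ.const_add t0)
    have := ((t2.add (hε.mul ((h21.mul t1).add (h22.mul t2)))).const_mul (X1 t0)).sub
      ((t1.add (hε.mul ((h11.mul t1).add (h12.mul t2)))).const_mul (Y1 t0))
    simpa using this
  have hDlim : ∀ τ : ι → ℝ, ∀ τ0 : ℝ, Tendsto τ l (𝓝 τ0) →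
      Tendsto (fun j => D j (τ j)) l (𝓝 (X1 t0 * X1 (t0 + τ0) + Y1 t0 * Y1 (t0 + τ0))) := by
    intro τ τ0 hτ
    have t1 : Tendsto (fun j => X1 (t0 + τ j)) l (𝓝 (X1 (t0 + τ0))) :=
      (hX1c.tendsto _).comp (hτ.const_add t0)
    have t2 : Tendsto (fun j => Y1 (t0 + τ j)) l (𝓝 (Y1 (t0 + τ0))) :=
      (hY1c.tendsto _).comp (hτ.const_add t0)
    have := ((t1.add (hε.mul ((h11.mul t1).add (h12.mul t2)))).const_mul (X1 t0)).add
      ((t2.add (hε.mul ((h21.mul t1).add (h22.mul t2)))).const_mul (Y1 t0))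
    simpa using this
  have hΦd : HasDerivAt (fun τ => X1 t0 * Y1 (t0 + τ) - Y1 t0 * X1 (t0 + τ))
      (X1 t0 * Y2 t0 - Y1 t0 * X2 t0) 0 := by
    have h1 : HasDerivAt (fun τ => X1 (t0 + τ)) (X2 t0) 0 := by
      have := HasDerivAt.comp_const_add t0 0 (hX1 (t0 + 0))
      simpa using this
    have h2 : HasDerivAt (fun τ => Y1 (t0 + τ)) (Y2 t0) 0 := by
      have := HasDerivAt.comp_const_add t0 0 (hY1 (t0 + 0))
      simpa using this
    exact (h2.const_mul (X1 t0)).sub (h1.const_mul (Y1 t0))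
  have hΦ := sign_of_deriv hΦd (by simp; ring) hk
  -- contact parameters
  obtain ⟨p, hp, hpz⟩ := zero_seq (Ψ := fun j τ => kap j τ - m j * D j τ)
    (Φ := fun τ => X1 t0 * Y1 (t0 + τ) - Y1 t0 * X1 (t0 + τ))
    (fun j => (hkapc j).sub ((hDc j).const_mul _))
    (fun τ => by
      have := (hklim (fun _ => τ) τ tendsto_const_nhds).sub
        (hm0.mul (hDlim (fun _ => τ) τ tendsto_const_nhds))
      simpa using this) hΦ
  obtain ⟨q, hq, hqz⟩ := zero_seq (Ψ := fun j τ => kap j τ + m j * D j τ)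
    (Φ := fun τ => X1 t0 * Y1 (t0 + τ) - Y1 t0 * X1 (t0 + τ))
    (fun j => (hkapc j).add ((hDc j).const_mul _))
    (fun τ => by
      have := (hklim (fun _ => τ) τ tendsto_const_nhds).add
        (hm0.mul (hDlim (fun _ => τ) τ tendsto_const_nhds))
      simpa using this) hΦ
  have hDpl := hDlim p 0 hp
  have hDql := hDlim q 0 hq
  have hDval : X1 t0 * X1 (t0 + 0) + Y1 t0 * Y1 (t0 + 0) = X1 t0 ^ 2 + Y1 t0 ^ 2 := by
    rw [add_zero]; ring
  rw [hDval] at hDpl hDql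
  have hDp := hDpl.eventually (lt_mem_nhds hreg)
  have hDq := hDql.eventually (lt_mem_nhds hreg)
  -- determinant
  have hdet : ∀ᶠ j in l, 0 < (1 + ε j * m11 j) * (1 + ε j * m22 j) -
      (ε j * m12 j) * (ε j * m21 j) := by
    have := (((hε.mul h11).const_add 1).mul ((hε.mul h22).const_add 1)).sub
      ((hε.mul h12).mul (hε.mul h21))
    have h1 := this.eventually (lt_mem_nhds (a := 0) (by norm_num))
    exact h1
  -- tangent line inequality
  have htan : ∀ j, 0 < (1 + ε j * m11 j) * (1 + ε j * m22 j) - (ε j * m12 j) * (ε j * m21 j) →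
      ∀ s, ∀ y ∈ K j, 0 ≤ cr (X1 s + ε j * (m11 j * X1 s + m12 j * Y1 s),
        Y1 s + ε j * (m21 j * X1 s + m22 j * Y1 s))
        (y - amap (ε j) (m11 j) (m12 j) (m21 j) (m22 j) (w1 j) (w2 j) (X s, Y s)) := by
    intro j hdj s y hy
    rw [hKe j] at hy
    obtain ⟨z, hz, rfl⟩ := hy
    have h1 := horc s z hz
    have h2 := mul_nonneg hdj.le h1
    refine h2.trans (le_of_eq ?_)
    simp only [cr, amap, Prod.fst_sub, Prod.snd_sub]
    ring
  refine local_ode hX hY hX1 hY1 hX2 hY2 t0 hε (Eventually.of_forall hεp) h11 h12 h21 h22 hw1 hw2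
    hp hq ?_ ?_ ?_ ?_ ?_ hg hk hreg
  · -- tangency at p
    filter_upwards [hpz, hDp, hdet, hdpos, hmpos] with j h1 h2 h3 h4 h5
    set w : ℝ × ℝ := (X1 (t0 + p j) + ε j * (m11 j * X1 (t0 + p j) + m12 j * Y1 (t0 + p j)),
        Y1 (t0 + p j) + ε j * (m21 j * X1 (t0 + p j) + m22 j * Y1 (t0 + p j))) with hw
    have hkw : cr e w = kap j (p j) := by rw [he, hw]; rfl
    have hdw : dt e w = D j (p j) := by rw [he, hw]; rfl
    have hkm : cr e w = m j * dt e w := by rw [hkw, hdw]; linarith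
    have hmj : m j * dt e (yp j - x0) = cr e (yp j - x0) := by
      rw [hm]; field_simp
    have hpar : cr w (yp j - x0) = 0 := by
      have h6 := cr_dt e w (yp j - x0)
      have h7 : dt e e * cr w (yp j - x0) = 0 := by
        rw [h6, hkm, ← hmj]; ring
      rcases mul_eq_zero.mp h7 with h8 | h8
      · rw [hee] at h8; linarith
      · exact h8
    have hposw : ∀ y ∈ K j, 0 ≤ cr w (y - x0) := by
      intro y hy
      have h6 := dt_cr e (yp j - x0) w (y - x0)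
      have h7 : cr (yp j - x0) w = - cr w (yp j - x0) := by simp only [cr]; ring
      rw [h7, hpar] at h6
      have h8 : dt e (yp j - x0) * cr w (y - x0) = dt e w * cr (yp j - x0) (y - x0) := by linarith
      have h9 : 0 ≤ dt e w * cr (yp j - x0) (y - x0) := mul_nonneg (by rw [hdw]; exact h2.le)
        (hL j y hy)
      rw [← h8] at h9
      exact nonneg_of_mul_nonneg_right h9 h4
    have hyt : amap (ε j) (m11 j) (m12 j) (m21 j) (m22 j) (w1 j) (w2 j)
        (X (t0 + p j), Y (t0 + p j)) ∈ K j := by rw [hKe j]; exact ⟨_, hcl _, rfl⟩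
    have hres := tang_of_parallel (hyp j) hyt hpar hposw (htan j h3 (t0 + p j))
    rw [hw, hx0] at hres
    simp only [cr, amap, Prod.fst_sub, Prod.snd_sub] at hres
    linear_combination hres
  · -- tangency at q
    filter_upwards [hqz, hDq, hdet, hdpos, hmpos] with j h1 h2 h3 h4 h5
    set w : ℝ × ℝ := (X1 (t0 + q j) + ε j * (m11 j * X1 (t0 + q j) + m12 j * Y1 (t0 + q j)),
        Y1 (t0 + q j) + ε j * (m21 j * X1 (t0 + q j) + m22 j * Y1 (t0 + q j))) with hw
    have hkw : cr e w = kap j (q j) := by rw [he, hw]; rfl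
    have hdw : dt e w = D j (q j) := by rw [he, hw]; rfl
    have hkm : cr e w = - (m j * dt e w) := by rw [hkw, hdw]; linarith
    have hmj : m j * dt e (yp j - x0) = cr e (yp j - x0) := by
      rw [hm]; field_simp
    have hr := hrel j h4
    have hcm' : cr e (ym j - x0) = - (m j * dt e (ym j - x0)) := by
      rw [← hmj] at hr
      have : dt e (yp j - x0) * (cr e (ym j - x0) + m j * dt e (ym j - x0)) = 0 := by
        linear_combination hr
      rcases mul_eq_zero.mp this with h6 | h6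
      · exact absurd h6 h4.ne'
      · linarith
    have hdm : dt e (ym j - x0) < 0 := by
      have := hcm j
      rw [hcm'] at this
      by_contra hc
      push Not at hc
      have := mul_nonneg h5.le hc
      linarith
    have hpar : cr w (ym j - x0) = 0 := by
      have h6 := cr_dt e w (ym j - x0)
      have h7 : dt e e * cr w (ym j - x0) = 0 := by
        rw [h6, hkm, hcm']; ring
      rcases mul_eq_zero.mp h7 with h8 | h8
      · rw [hee] at h8; linarith
      · exact h8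
    have hposw : ∀ y ∈ K j, 0 ≤ cr w (y - x0) := by
      intro y hy
      have h6 := dt_cr e (ym j - x0) w (y - x0)
      have h7 : cr (ym j - x0) w = - cr w (ym j - x0) := by simp only [cr]; ring
      rw [h7, hpar] at h6
      have h8 : dt e (ym j - x0) * cr w (y - x0) = dt e w * cr (ym j - x0) (y - x0) := by linarith
      have h9 : dt e w * cr (ym j - x0) (y - x0) ≤ 0 :=
        mul_nonpos_of_nonneg_of_nonpos (by rw [hdw]; exact h2.le) (hR j y hy)
      rw [← h8] at h9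
      by_contra hc
      push Not at hc
      have := mul_pos_of_neg_of_neg hdm hc
      linarith
    have hyt : amap (ε j) (m11 j) (m12 j) (m21 j) (m22 j) (w1 j) (w2 j)
        (X (t0 + q j), Y (t0 + q j)) ∈ K j := by rw [hKe j]; exact ⟨_, hcl _, rfl⟩
    have hres := tang_of_parallel (hym j) hyt hpar hposw (htan j h3 (t0 + q j))
    rw [hw, hx0] at hres
    simp only [cr, amap, Prod.fst_sub, Prod.snd_sub] at hres
    linear_combination hres
  · filter_upwards [hpz, hDp, hmpos] with j h1 h2 h3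
    have h4 : kap j (p j) = m j * D j (p j) := by linarith
    have : 0 < kap j (p j) := by rw [h4]; exact mul_pos h3 h2
    exact this
  · filter_upwards [hqz, hDq, hmpos] with j h1 h2 h3
    have h4 : kap j (q j) = - (m j * D j (q j)) := by linarith
    have : kap j (q j) < 0 := by rw [h4]; linarith [mul_pos h3 h2]
    exact this
  · filter_upwards [hpz, hqz] with j h1 h2
    have h3 : kap j (p j) = m j * D j (p j) := by linarith
    have h4 : kap j (q j) = - (m j * D j (q j)) := by linarith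
    have : kap j (p j) * D j (q j) + kap j (q j) * D j (p j) = 0 := by rw [h3, h4]; ring
    exact this

end Pool.Agent.H762R2.Bir
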