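import Pool.Agent.H762R2.BirD2

set_option autoImplicit false

open Filter Topology

namespace Pool.Agent.H762R2.Bir

/-- Affine maps by columns. -/
abbrev Cols := (ℝ × ℝ) × (ℝ × ℝ) × (ℝ × ℝ)

def am (T : Cols) (x : ℝ × ℝ) : ℝ × ℝ := x.1 • T.1 + x.2 • T.2.1 + T.2.2

def cdet (T : Cols) : ℝ := T.1.1 * T.2.1.2 - T.1.2 * T.2.1.1

noncomputable def cinv (T : Cols) : Cols :=
  ((T.2.1.2 / cdet T, - T.1.2 / cdet T), (- T.2.1.1 / cdet T, T.1.1 / cdet T),
    (-(T.2.1.2 * T.2.2.1 - T.2.1.1 * T.2.2.2) / cdet T,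
      -(- T.1.2 * T.2.2.1 + T.1.1 * T.2.2.2) / cdet T))

def ccomp (S T : Cols) : Cols :=
  (T.1.1 • S.1 + T.1.2 • S.2.1, T.2.1.1 • S.1 + T.2.1.2 • S.2.1, am S T.2.2)

lemma am_ccomp (S T : Cols) (x : ℝ × ℝ) : am (ccomp S T) x = am S (am T x) := by
  simp only [am, ccomp]
  ext <;> simp <;> ring

lemma am_cinv_left {T : Cols} (h : cdet T ≠ 0) (x : ℝ × ℝ) : am (cinv T) (am T x) = x := by
  simp only [am, cinv]
  ext
  · simp
    field_simp
    simp only [cdet]; ring
  · simp
    field_simp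
    simp only [cdet]; ring

lemma am_cinv_right {T : Cols} (h : cdet T ≠ 0) (x : ℝ × ℝ) : am T (am (cinv T) x) = x := by
  simp only [am, cinv]
  ext
  · simp
    field_simp
    simp only [cdet]; ring
  · simp
    field_simp
    simp only [cdet]; ring

lemma continuous_am : Continuous fun p : Cols × (ℝ × ℝ) => am p.1 p.2 := by
  simp only [am]; fun_prop

lemma continuous_ccomp (T : Cols) : Continuous fun S : Cols => ccomp S T := by
  simp only [ccomp, am]; fun_prop

lemma am_of_affine (φ : (ℝ × ℝ) →ᵃ[ℝ] (ℝ × ℝ)) : ∃ T : Cols, ∀ x, φ x = am T x := by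
  refine ⟨(φ.linear (1, 0), φ.linear (0, 1), φ 0), fun x => ?_⟩
  have h1 : φ x = φ.linear x + φ 0 := by
    have := φ.map_vadd 0 x
    simpa using this
  rw [h1]
  have h2 : φ.linear x = x.1 • φ.linear (1, 0) + x.2 • φ.linear (0, 1) := by
    rw [← map_smul, ← map_smul, ← map_add]
    congr 1
    ext <;> simp
  rw [h2]; rfl

/-- If the image of a set under `am T` contains a ball then `T` is invertible. -/
lemma cdet_ne {T : Cols} {B U : Set (ℝ × ℝ)} (hU : IsOpen U) (hne : U.Nonempty)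
    (hsub : U ⊆ am T '' B) : cdet T ≠ 0 := by
  intro h0
  -- a nonzero covector killing both columns
  obtain ⟨n1, n2, hn, e1, e2⟩ : ∃ n1 n2 : ℝ, (n1 ≠ 0 ∨ n2 ≠ 0) ∧ n1 * T.1.1 + n2 * T.1.2 = 0 ∧
      n1 * T.2.1.1 + n2 * T.2.1.2 = 0 := by
    by_cases h1 : T.1.1 ≠ 0 ∨ T.1.2 ≠ 0
    · refine ⟨- T.1.2, T.1.1, ?_, by ring, ?_⟩
      · rcases h1 with h | h
        · right; exact h
        · left; exact neg_ne_zero.mpr h
      · simp only [cdet] at h0; linarith
    · push Not at h1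
      by_cases h2 : T.2.1.1 ≠ 0 ∨ T.2.1.2 ≠ 0
      · refine ⟨- T.2.1.2, T.2.1.1, ?_, by rw [h1.1, h1.2]; ring, by ring⟩
        rcases h2 with h | h
        · right; exact h
        · left; exact neg_ne_zero.mpr h
      · push Not at h2
        exact ⟨1, 0, Or.inl one_ne_zero, by rw [h1.1]; ring, by rw [h2.1]; ring⟩
  have hline : ∀ z ∈ U, n1 * z.1 + n2 * z.2 = n1 * T.2.2.1 + n2 * T.2.2.2 := by
    intro z hz
    obtain ⟨b, -, rfl⟩ := hsub hz
    simp only [am, Prod.fst_add, Prod.snd_add, Prod.smul_fst, Prod.smul_snd, smul_eq_mul]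
    linear_combination b.1 * e1 + b.2 * e2
  obtain ⟨z, hz⟩ := hne
  obtain ⟨r, hr, hball⟩ := Metric.isOpen_iff.mp hU z hz
  have h1 := hline z hz
  have h2 := hline (z.1 + r / 2, z.2) (hball (by
    rw [Metric.mem_ball, Prod.dist_eq, Real.dist_eq, Real.dist_eq]
    simp only [add_sub_cancel_left, sub_self, abs_zero]
    rw [abs_of_pos (by linarith), max_lt_iff]; constructor <;> linarith))
  have h3 := hline (z.1, z.2 + r / 2) (hball (by
    rw [Metric.mem_ball, Prod.dist_eq, Real.dist_eq, Real.dist_eq]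
    simp only [add_sub_cancel_left, sub_self, abs_zero]
    rw [abs_of_pos (by linarith), max_lt_iff]; constructor <;> linarith))
  simp only at h2 h3
  rcases hn with h | h
  · apply h
    have : n1 * r = 0 := by linear_combination 2 * (h2 - h1)
    rcases mul_eq_zero.mp this with h4 | h4
    · exact h4
    · exact absurd h4 hr.ne'
  · apply h
    have : n2 * r = 0 := by linear_combination 2 * (h3 - h1)
    rcases mul_eq_zero.mp this with h4 | h4
    · exact h4
    · exact absurd h4 hr.ne'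

/-- Compact exhaustion of a convex open set by homothetic copies. -/
lemma exhaust {Ω : Set (ℝ × ℝ)} (ho : IsOpen Ω) (hconv : Convex ℝ Ω)
    (hb : Bornology.IsBounded Ω) {z0 : ℝ × ℝ} (hz0 : z0 ∈ Ω) :
    ∃ C : ℕ → Set (ℝ × ℝ), (∀ n, IsCompact (C n)) ∧ (∀ n, C n ⊆ Ω) ∧
      ∀ z ∈ Ω, ∀ᶠ n in atTop, z ∈ C n := by
  refine ⟨fun n => (fun x => z0 + (1 - 1 / ((n:ℝ) + 2)) • (x - z0)) '' closure Ω, ?_, ?_, ?_⟩
  · intro n
    exact (hb.isCompact_closure).image (by fun_prop)
  · rintro n _ ⟨x, hx, rfl⟩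
    have h2 : (0:ℝ) < 1 / ((n:ℝ) + 2) := by positivity
    have h3 : 1 / ((n:ℝ) + 2) < 1 := by
      rw [div_lt_one (by positivity)]; linarith [Nat.cast_nonneg (α := ℝ) n]
    have h1 := hconv.combo_interior_closure_mem_interior (x := z0) (y := x)
      (by rw [ho.interior_eq]; exact hz0) hx (a := 1 / ((n:ℝ) + 2)) (b := 1 - 1 / ((n:ℝ) + 2))
      h2 (by linarith) (by ring)
    rw [ho.interior_eq] at h1
    convert h1 using 1
    module
  · intro z hz
    have hlim : Tendsto (fun n : ℕ => z0 + (1 / (1 - 1 / ((n:ℝ) + 2))) • (z - z0)) atTop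
        (𝓝 (z0 + (1 / (1 - 0) : ℝ) • (z - z0))) := by
      have h0 : Tendsto (fun n : ℕ => 1 / ((n:ℝ) + 2)) atTop (𝓝 0) := by
        have := tendsto_const_div_atTop_nhds_zero_nat (1:ℝ)
        have h2 := this.comp (tendsto_add_atTop_nat 2)
        refine h2.congr fun n => ?_
        simp
      have h1 : Tendsto (fun n : ℕ => 1 / (1 - 1 / ((n:ℝ) + 2))) atTop (𝓝 (1 / (1 - 0))) :=
        tendsto_const_nhds.div (tendsto_const_nhds.sub h0) (by norm_num)
      exact (h1.smul_const (z - z0)).const_add z0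
    have hz' : z0 + (1 / (1 - 0) : ℝ) • (z - z0) = z := by simp
    rw [hz'] at hlim
    filter_upwards [hlim.eventually (ho.mem_nhds hz)] with n hn
    refine ⟨_, subset_closure hn, ?_⟩
    have h3 : 1 - 1 / ((n:ℝ) + 2) ≠ 0 := by
      have : 1 / ((n:ℝ) + 2) < 1 := by
        rw [div_lt_one (by positivity)]; linarith [Nat.cast_nonneg (α := ℝ) n]
      linarith
    simp only [add_sub_cancel_left, smul_smul]
    rw [mul_one_div_cancel h3, one_smul]
    abel

def idc : Cols := ((1, 0), (0, 1), (0, 0))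

lemma am_idc (x : ℝ × ℝ) : am idc x = x := by
  simp only [am, idc]; ext <;> simp

lemma ccomp_cinv {T : Cols} (h : cdet T ≠ 0) : ccomp T (cinv T) = idc := by
  have h1 := am_cinv_right h
  have key : ∀ x, am (ccomp T (cinv T)) x = x := fun x => by rw [am_ccomp]; exact h1 x
  have h0 := key 0
  have h10 := key (1, 0)
  have h01 := key (0, 1)
  set U := ccomp T (cinv T) with hU
  have e3 : U.2.2 = 0 := by simpa [am] using h0
  have e1 : U.1 = (1, 0) := by
    have : (1:ℝ) • U.1 + (0:ℝ) • U.2.1 + U.2.2 = (1, 0) := h10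
    rw [e3] at this; simpa using this
  have e2 : U.2.1 = (0, 1) := by
    have : (0:ℝ) • U.1 + (1:ℝ) • U.2.1 + U.2.2 = (0, 1) := h01
    rw [e3] at this; simpa using this
  have : U = (U.1, U.2.1, U.2.2) := rfl
  rw [this, e1, e2, e3]; rfl

set_option maxHeartbeats 2000000 in
theorem compactness {Ω : Set (ℝ × ℝ)} (ho : IsOpen Ω) (hconv : Convex ℝ Ω)
    (hb : Bornology.IsBounded Ω) (hne : Ω.Nonempty) {P : Set (ℝ × ℝ) → Prop}
    (hP : ∀ K, P K → IsCompact K ∧ (interior K).Nonempty ∧ K ⊆ Ω) {B : Set (ℝ × ℝ)}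
    (hB : ∀ C : Set (ℝ × ℝ), IsCompact C → C ⊆ Ω →
      ∃ K, P K ∧ C ⊆ K ∧ ∃ φ : (ℝ × ℝ) →ᵃ[ℝ] (ℝ × ℝ), K = φ '' B) :
    ∃ (ε m11 m12 m21 m22 w1 w2 : ℕ → ℝ) (M11 M12 M21 M22 W1 W2 : ℝ) (K : ℕ → Set (ℝ × ℝ)),
      Tendsto ε atTop (𝓝 0) ∧ (∀ j, 0 < ε j) ∧ Tendsto m11 atTop (𝓝 M11) ∧
      Tendsto m12 atTop (𝓝 M12) ∧ Tendsto m21 atTop (𝓝 M21) ∧ Tendsto m22 atTop (𝓝 M22) ∧
      Tendsto w1 atTop (𝓝 W1) ∧ Tendsto w2 atTop (𝓝 W2) ∧
      (¬ (M11 = 0 ∧ M12 = 0 ∧ M21 = 0 ∧ M22 = 0 ∧ W1 = 0 ∧ W2 = 0)) ∧ (∀ j, P (K j)) ∧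
      ∀ j, K j = amap (ε j) (m11 j) (m12 j) (m21 j) (m22 j) (w1 j) (w2 j) '' closure Ω := by
  obtain ⟨z0, hz0⟩ := hne
  obtain ⟨C, hCc, hCs, hCe⟩ := exhaust ho hconv hb hz0
  choose K hPK hCK φ hφ using fun n => hB (C n) (hCc n) (hCs n)
  obtain ⟨K0, hPK0, -, φ0, hφ0⟩ := hB ∅ isCompact_empty (Set.empty_subset _)
  choose S hS using fun n => am_of_affine (φ n)
  obtain ⟨S0, hS0⟩ := am_of_affine φ0
  obtain ⟨hK0c, hK0i, hK0s⟩ := hP K0 hPK0
  have hK0e : K0 = am S0 '' B := by
    rw [hφ0]; exact Set.image_congr fun x _ => hS0 x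
  have hd0 : cdet S0 ≠ 0 := cdet_ne isOpen_interior hK0i (by
    rw [← hK0e]; exact interior_subset)
  set T : ℕ → Cols := fun n => ccomp (S n) (cinv S0) with hT
  have hKT : ∀ n, K n = am (T n) '' K0 := by
    intro n
    rw [hφ n, hK0e, ← Set.image_comp]
    apply Set.image_congr
    intro x _
    simp only [Function.comp, hT]
    rw [am_ccomp, am_cinv_left hd0, hS]
  -- boundedness
  obtain ⟨R, hR⟩ := hb.subset_closedBall 0
  obtain ⟨b0, hb0⟩ := hK0i
  obtain ⟨r, hr, hball⟩ := Metric.isOpen_iff.mp isOpen_interior b0 hb0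
  have hballK : ∀ x, dist x b0 < r → x ∈ K0 := fun x hx => interior_subset (hball hx)
  have hnorm : ∀ n, ∀ x ∈ K0, ‖am (T n) x‖ ≤ R := by
    intro n x hx
    have h1 : am (T n) x ∈ K n := by rw [hKT n]; exact ⟨x, hx, rfl⟩
    have h2 := hR ((hP _ (hPK n)).2.2 h1)
    rwa [mem_closedBall_zero_iff] at h2
  have hbb : ∀ n, ‖am (T n) b0‖ ≤ R := fun n => hnorm n b0 (hballK b0 (by simpa using hr))
  have hRnn : 0 ≤ R := (norm_nonneg _).trans (hbb 0)
  have hc1 : ∀ n, ‖(T n).1‖ ≤ 4 * R / r := by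
    intro n
    have h1 := hnorm n (b0.1 + r / 2, b0.2) (hballK _ (by
      rw [Prod.dist_eq, Real.dist_eq, Real.dist_eq]
      simp only [add_sub_cancel_left, sub_self, abs_zero]
      rw [abs_of_pos (by linarith), max_lt_iff]; constructor <;> linarith))
    have h2 := hbb n
    have h3 : am (T n) (b0.1 + r / 2, b0.2) - am (T n) b0 = (r / 2) • (T n).1 := by
      simp only [am]; module
    have h4 : ‖(r / 2) • (T n).1‖ ≤ R + R := by
      rw [← h3]; exact (norm_sub_le _ _).trans (add_le_add h1 h2)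
    rw [norm_smul, Real.norm_of_nonneg (by linarith)] at h4
    rw [le_div_iff₀ hr]; linarith
  have hc2 : ∀ n, ‖(T n).2.1‖ ≤ 4 * R / r := by
    intro n
    have h1 := hnorm n (b0.1, b0.2 + r / 2) (hballK _ (by
      rw [Prod.dist_eq, Real.dist_eq, Real.dist_eq]
      simp only [add_sub_cancel_left, sub_self, abs_zero]
      rw [abs_of_pos (by linarith), max_lt_iff]; constructor <;> linarith))
    have h2 := hbb n
    have h3 : am (T n) (b0.1, b0.2 + r / 2) - am (T n) b0 = (r / 2) • (T n).2.1 := by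
      simp only [am]; module
    have h4 : ‖(r / 2) • (T n).2.1‖ ≤ R + R := by
      rw [← h3]; exact (norm_sub_le _ _).trans (add_le_add h1 h2)
    rw [norm_smul, Real.norm_of_nonneg (by linarith)] at h4
    rw [le_div_iff₀ hr]; linarith
  have hc3 : ∀ n, ‖(T n).2.2‖ ≤ R + |b0.1| * (4 * R / r) + |b0.2| * (4 * R / r) := by
    intro n
    have h3 : (T n).2.2 = am (T n) b0 - b0.1 • (T n).1 - b0.2 • (T n).2.1 := by
      simp only [am]; module
    rw [h3]
    refine (norm_sub_le _ _).trans (add_le_add ((norm_sub_le _ _).trans (add_le_add (hbb n) ?_)) ?_)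
    · rw [norm_smul, Real.norm_eq_abs]
      exact mul_le_mul_of_nonneg_left (hc1 n) (abs_nonneg _)
    · rw [norm_smul, Real.norm_eq_abs]
      exact mul_le_mul_of_nonneg_left (hc2 n) (abs_nonneg _)
  set R' := max (4 * R / r) (max (4 * R / r) (R + |b0.1| * (4 * R / r) + |b0.2| * (4 * R / r)))
    with hR'
  have hTn : ∀ n, T n ∈ Metric.closedBall (0 : Cols) R' := by
    intro n
    rw [mem_closedBall_zero_iff, Prod.norm_def, Prod.norm_def]
    exact max_le_max (hc1 n) (max_le_max (hc2 n) (hc3 n))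
  obtain ⟨Ti, -, ν, hν, hTi⟩ := (isCompact_closedBall (0 : Cols) R').tendsto_subseq hTn
  have himg : am Ti '' K0 = closure Ω := by
    apply Set.Subset.antisymm
    · rintro _ ⟨x, hx, rfl⟩
      have h1 : Tendsto (fun n => am (T (ν n)) x) atTop (𝓝 (am Ti x)) :=
        (continuous_am.tendsto (Ti, x)).comp (hTi.prodMk_nhds tendsto_const_nhds)
      refine mem_closure_of_tendsto h1 (Eventually.of_forall fun n => ?_)
      have h2 : am (T (ν n)) x ∈ K (ν n) := by rw [hKT]; exact ⟨x, hx, rfl⟩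
      exact (hP _ (hPK _)).2.2 h2
    · have hcomp : IsCompact (am Ti '' K0) := hK0c.image (by
        have : Continuous fun x => am Ti x := continuous_am.comp (by fun_prop : Continuous fun x => (Ti, x))
        exact this)
      apply closure_minimal _ hcomp.isClosed
      intro z hz
      have hev : ∀ᶠ n in atTop, z ∈ C (ν n) := hν.tendsto_atTop.eventually (hCe z hz)
      have hex : ∀ n, ∃ b ∈ K0, z ∈ C (ν n) → am (T (ν n)) b = z := by
        intro n
        by_cases h : z ∈ C (ν n)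
        · have h1 := hCK (ν n) h
          rw [hKT] at h1
          obtain ⟨b, hb1, hb2⟩ := h1
          exact ⟨b, hb1, fun _ => hb2⟩
        · exact ⟨b0, interior_subset hb0, fun h' => absurd h' h⟩
      choose b hbK hbz using hex
      obtain ⟨bi, hbi, κ, hκ, hlim⟩ := hK0c.tendsto_subseq hbK
      refine ⟨bi, hbi, ?_⟩
      have h1 : Tendsto (fun n => am (T (ν (κ n))) (b (κ n))) atTop (𝓝 (am Ti bi)) :=
        (continuous_am.tendsto (Ti, bi)).comp
          ((hTi.comp hκ.tendsto_atTop).prodMk_nhds hlim)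
      have h2 : Tendsto (fun n => am (T (ν (κ n))) (b (κ n))) atTop (𝓝 z) := by
        refine tendsto_const_nhds.congr' ?_
        filter_upwards [hκ.tendsto_atTop.eventually hev] with n hn
        exact (hbz (κ n) hn).symm
      exact tendsto_nhds_unique h1 h2
  have hdi : cdet Ti ≠ 0 := cdet_ne ho ⟨z0, hz0⟩ (by rw [himg]; exact subset_closure)
  set D : ℕ → Cols := fun n => ccomp (T (ν n)) (cinv Ti) with hD
  have hDlim : Tendsto D atTop (𝓝 idc) := by
    rw [← ccomp_cinv hdi]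
    exact ((continuous_ccomp (cinv Ti)).tendsto Ti).comp hTi
  have hKD : ∀ n, K (ν n) = am (D n) '' closure Ω := by
    intro n
    rw [hKT, ← himg, ← Set.image_comp]
    apply Set.image_congr
    intro x _
    simp only [Function.comp, hD]
    rw [am_ccomp (T (ν n)) (cinv Ti) (am Ti x), am_cinv_left hdi]
  -- the difference to the identity
  have hEne : ∀ n, 0 < ‖D n - idc‖ := by
    intro n
    rw [norm_pos_iff]
    intro h0
    have h1 : D n = idc := sub_eq_zero.mp h0
    have h2 := hKD n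
    rw [h1] at h2
    have h3 : am idc '' closure Ω = closure Ω := by
      ext z; constructor
      · rintro ⟨x, hx, rfl⟩; rwa [am_idc]
      · intro hz; exact ⟨z, hz, am_idc z⟩
    rw [h3] at h2
    have h4 : closure Ω ⊆ Ω := by rw [← h2]; exact (hP _ (hPK _)).2.2
    obtain ⟨α, hα, hf, -⟩ := ray_hits_frontier ho hb hz0 (d := (1, 0)) (by simp)
    rw [frontier, ho.interior_eq] at hf
    exact hf.2 (h4 hf.1)
  have hElim : Tendsto (fun n => ‖D n - idc‖) atTop (𝓝 0) := by
    have := (hDlim.sub_const idc).norm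
    simpa using this
  set F : ℕ → Cols := fun n => ‖D n - idc‖⁻¹ • (D n - idc) with hF
  have hFs : ∀ n, F n ∈ Metric.sphere (0 : Cols) 1 := by
    intro n
    rw [mem_sphere_zero_iff_norm, hF]
    simp only [norm_smul, norm_inv, norm_norm]
    exact inv_mul_cancel₀ (hEne n).ne'
  obtain ⟨Fi, hFi, μ, hμ, hFlim⟩ := (isCompact_sphere (0 : Cols) 1).tendsto_subseq hFs
  have hFi1 : ‖Fi‖ = 1 := by rwa [mem_sphere_zero_iff_norm] at hFi
  have hDF : ∀ n, ∀ x, am (D n) x = amap ‖D n - idc‖ (F n).1.1 (F n).2.1.1 (F n).1.2 (F n).2.1.2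
      (F n).2.2.1 (F n).2.2.2 x := by
    intro n x
    have h1 : D n = idc + ‖D n - idc‖ • F n := by
      simp only [hF, smul_smul]
      rw [mul_inv_cancel₀ (hEne n).ne', one_smul]; abel
    have e11 : (D n).1.1 = 1 + ‖D n - idc‖ * (F n).1.1 := by
      have := congrArg (fun T : Cols => T.1.1) h1; simpa [idc] using this
    have e12 : (D n).1.2 = ‖D n - idc‖ * (F n).1.2 := by
      have := congrArg (fun T : Cols => T.1.2) h1; simpa [idc] using this
    have e21 : (D n).2.1.1 = ‖D n - idc‖ * (F n).2.1.1 := by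
      have := congrArg (fun T : Cols => T.2.1.1) h1; simpa [idc] using this
    have e22 : (D n).2.1.2 = 1 + ‖D n - idc‖ * (F n).2.1.2 := by
      have := congrArg (fun T : Cols => T.2.1.2) h1; simpa [idc] using this
    have e31 : (D n).2.2.1 = ‖D n - idc‖ * (F n).2.2.1 := by
      have := congrArg (fun T : Cols => T.2.2.1) h1; simpa [idc] using this
    have e32 : (D n).2.2.2 = ‖D n - idc‖ * (F n).2.2.2 := by
      have := congrArg (fun T : Cols => T.2.2.2) h1; simpa [idc] using this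
    simp only [am, amap]
    ext
    · simp only [Prod.fst_add, Prod.smul_fst, smul_eq_mul]
      rw [e11, e21, e31]; ring
    · simp only [Prod.snd_add, Prod.smul_snd, smul_eq_mul]
      rw [e12, e22, e32]; ring
  refine ⟨fun n => ‖D (μ n) - idc‖, fun n => (F (μ n)).1.1, fun n => (F (μ n)).2.1.1,
    fun n => (F (μ n)).1.2, fun n => (F (μ n)).2.1.2, fun n => (F (μ n)).2.2.1,
    fun n => (F (μ n)).2.2.2, Fi.1.1, Fi.2.1.1, Fi.1.2, Fi.2.1.2, Fi.2.2.1, Fi.2.2.2,
    fun n => K (ν (μ n)), hElim.comp hμ.tendsto_atTop, fun j => hEne _, ?_, ?_, ?_, ?_, ?_, ?_,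
    ?_, fun j => hPK _, fun j => ?_⟩
  · exact ((continuous_fst.comp continuous_fst).tendsto Fi).comp hFlim
  · exact ((continuous_fst.comp (continuous_fst.comp continuous_snd)).tendsto Fi).comp hFlim
  · exact ((continuous_snd.comp continuous_fst).tendsto Fi).comp hFlim
  · exact ((continuous_snd.comp (continuous_fst.comp continuous_snd)).tendsto Fi).comp hFlim
  · exact ((continuous_fst.comp (continuous_snd.comp continuous_snd)).tendsto Fi).comp hFlim
  · exact ((continuous_snd.comp (continuous_snd.comp continuous_snd)).tendsto Fi).comp hFlim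
  · rintro ⟨a1, a2, a3, a4, a5, a6⟩
    have : Fi = 0 := by
      ext
      · exact a1
      · exact a3
      · exact a2
      · exact a4
      · exact a5
      · exact a6
    rw [this] at hFi1
    simp at hFi1
  · change K (ν (μ j)) = _
    rw [hKD (μ j)]
    exact Set.image_congr fun x _ => hDF (μ j) x

end Pool.Agent.H762R2.Bir
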