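import Pool.Agent.H762R2.BirD3

set_option autoImplicit false

open Filter Topology

namespace Pool.Agent.H762R2.Bir

/-- The tangent line at a boundary point misses the table. -/
lemma tangent_misses {Ω : Set (ℝ × ℝ)} {γ : ℝ → ℝ × ℝ} (ho : IsOpen Ω) (hconv : Convex ℝ Ω)
    (hd : Differentiable ℝ γ) (hreg : ∀ t, deriv γ t ≠ 0) (hfr : frontier Ω = Set.range γ)
    (t : ℝ) {z : ℝ × ℝ} (hz : z ∈ Ω) : cr (deriv γ t) (z - γ t) ≠ 0 := by
  intro h0
  have hx : γ t ∈ frontier Ω := by rw [hfr]; exact ⟨t, rfl⟩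
  have hxn : γ t ∉ Ω := by
    rw [frontier, ho.interior_eq] at hx; exact hx.2
  obtain ⟨f, hf⟩ := geometric_hahn_banach_open_point hconv ho hxn
  have hfc : ∀ y ∈ closure Ω, f y ≤ f (γ t) := by
    intro y hy
    have hsub : closure Ω ⊆ {y | f y ≤ f (γ t)} :=
      closure_minimal (fun y hy => (hf y hy).le) (isClosed_le f.continuous continuous_const)
    exact hsub hy
  have hmax : ∀ s, f (γ s) ≤ f (γ t) := by
    intro s
    apply hfc
    have : γ s ∈ frontier Ω := by rw [hfr]; exact ⟨s, rfl⟩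
    exact frontier_subset_closure this
  have hder : HasDerivAt (fun s => f (γ s)) (f (deriv γ t)) t :=
    f.hasFDerivAt.comp_hasDerivAt t (hd t).hasDerivAt
  have hloc : IsLocalMax (fun s => f (γ s)) t := Eventually.of_forall hmax
  have hz0 : f (deriv γ t) = 0 := by
    have := hloc.deriv_eq_zero
    rwa [hder.deriv] at this
  -- z - γ t is parallel to deriv γ t
  set e := deriv γ t with he
  have hee : e.1 ^ 2 + e.2 ^ 2 ≠ 0 := by
    intro h
    apply hreg t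
    have h1 : e.1 = 0 := by nlinarith [sq_nonneg e.1, sq_nonneg e.2]
    have h2 : e.2 = 0 := by nlinarith [sq_nonneg e.1, sq_nonneg e.2]
    rw [← he]; ext
    · exact h1
    · exact h2
  have hpar : (e.1 ^ 2 + e.2 ^ 2) • (z - γ t) = (dt e (z - γ t)) • e := by
    simp only [cr] at h0
    ext
    · simp only [Prod.smul_fst, smul_eq_mul, dt]
      linear_combination (-e.2) * h0
    · simp only [Prod.smul_snd, smul_eq_mul, dt]
      linear_combination (e.1) * h0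
  have h1 : (e.1 ^ 2 + e.2 ^ 2) * (f z - f (γ t)) = 0 := by
    have := congrArg f hpar
    rw [map_smul, map_smul, map_sub, hz0] at this
    simpa using this
  rcases mul_eq_zero.mp h1 with h2 | h2
  · exact hee h2
  · have := hf z hz
    linarith

lemma hasDeriv_components {γ : ℝ → ℝ × ℝ} (hd : Differentiable ℝ γ) (t : ℝ) :
    HasDerivAt (fun t => (γ t).1) (deriv γ t).1 t ∧
      HasDerivAt (fun t => (γ t).2) (deriv γ t).2 t := by
  have h := (hd t).hasDerivAt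
  exact ⟨(hasFDerivAt_fst (𝕜 := ℝ) (p := γ t)).comp_hasDerivAt t h,
    (hasFDerivAt_snd (𝕜 := ℝ) (p := γ t)).comp_hasDerivAt t h⟩

/-- Flat arcs are excluded by strict convexity. -/
lemma no_flat {Ω : Set (ℝ × ℝ)} {X Y X1 Y1 X2 Y2 : ℝ → ℝ} (ho : IsOpen Ω) (hconv : Convex ℝ Ω)
    (hne : Ω.Nonempty)
    (hstrict : StrictConvex ℝ (closure Ω))
    (hX : ∀ t, HasDerivAt X (X1 t) t) (hY : ∀ t, HasDerivAt Y (Y1 t) t)
    (hX1 : ∀ t, HasDerivAt X1 (X2 t) t) (hY1 : ∀ t, HasDerivAt Y1 (Y2 t) t)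
    (hreg : ∀ t, 0 < X1 t ^ 2 + Y1 t ^ 2)
    (hor : ∀ t, ∀ z ∈ Ω, 0 < X1 t * (z.2 - Y t) - Y1 t * (z.1 - X t))
    (hcl : ∀ t, (X t, Y t) ∈ closure Ω) (u v : ℝ) (huv : u < v) :
    ∃ t ∈ Set.Ioo u v, X1 t * Y2 t - Y1 t * X2 t ≠ 0 := by
  by_contra hcon
  push Not at hcon
  set t1 := (u + v) / 2 with ht1
  have ht1m : t1 ∈ Set.Ioo u v := ⟨by rw [ht1]; linarith, by rw [ht1]; linarith⟩
  set a := X1 t1 with ha
  set b := Y1 t1 with hb
  -- θ² / N is constant
  have hq : ∀ t ∈ Set.Ioo u v, HasDerivAt (fun t => (a * Y1 t - b * X1 t) ^ 2 / (X1 t ^ 2 + Y1 t ^ 2))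
      0 t := by
    intro t ht
    have hN : X1 t ^ 2 + Y1 t ^ 2 ≠ 0 := (hreg t).ne'
    have hθ := ((hY1 t).const_mul a).sub ((hX1 t).const_mul b)
    have hNd := ((hX1 t).pow 2).add ((hY1 t).pow 2)
    have h := (hθ.pow 2).div hNd hN
    refine h.congr_deriv ?_
    simp only [Pi.add_apply, Pi.pow_apply, Pi.sub_apply]
    rw [div_eq_zero_iff]
    left
    have hk := hcon t ht
    push_cast
    linear_combination 2 * (a * Y1 t - b * X1 t) * (a * X1 t + b * Y1 t) * hk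
  have hconst : ∀ t ∈ Set.Ioo u v, (a * Y1 t - b * X1 t) ^ 2 / (X1 t ^ 2 + Y1 t ^ 2) = 0 := by
    intro t ht
    have h1 := (convex_Ioo u v).is_const_of_fderivWithin_eq_zero (𝕜 := ℝ)
      (f := fun t => (a * Y1 t - b * X1 t) ^ 2 / (X1 t ^ 2 + Y1 t ^ 2))
      (fun x hx => (hq x hx).differentiableAt.differentiableWithinAt)
      (fun x hx => by
        have h2 := (hq x hx).hasFDerivAt.hasFDerivWithinAt (s := Set.Ioo u v)
        have h3 := h2.fderivWithin (isOpen_Ioo.uniqueDiffWithinAt hx)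
        rw [h3]; ext; simp) ht ht1m
    rw [h1, ha, hb]
    simp; left; ring
  have hθ0 : ∀ t ∈ Set.Ioo u v, a * Y1 t - b * X1 t = 0 := by
    intro t ht
    have h1 := hconst t ht
    rcases div_eq_zero_iff.mp h1 with h2 | h2
    · exact pow_eq_zero_iff (two_ne_zero) |>.mp h2
    · exact absurd h2 (hreg t).ne'
  -- the cross product with the chord vanishes
  have hch : ∀ t ∈ Set.Ioo u v, a * (Y t - Y t1) - b * (X t - X t1) = 0 := by
    intro t ht
    have hd : ∀ x ∈ Set.Ioo u v, HasDerivAt (fun t => a * (Y t - Y t1) - b * (X t - X t1)) 0 x := by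
      intro x hx
      have h := (((hY x).sub_const (Y t1)).const_mul a).sub (((hX x).sub_const (X t1)).const_mul b)
      exact h.congr_deriv (hθ0 x hx)
    have h1 := (convex_Ioo u v).is_const_of_fderivWithin_eq_zero (𝕜 := ℝ)
      (f := fun t => a * (Y t - Y t1) - b * (X t - X t1))
      (fun x hx => (hd x hx).differentiableAt.differentiableWithinAt)
      (fun x hx => by
        have h2 := (hd x hx).hasFDerivAt.hasFDerivWithinAt (s := Set.Ioo u v)
        have h3 := h2.fderivWithin (isOpen_Ioo.uniqueDiffWithinAt hx)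
        rw [h3]; ext; simp) ht ht1m
    rw [h1]; simp
  -- a second point
  have hne2 : ∀ᶠ t in 𝓝[≠] t1, (X t, Y t) ≠ (X t1, Y t1) := by
    by_cases h : X1 t1 ≠ 0
    · filter_upwards [(hX t1).eventually_ne h (c := X t1)] with t ht heq
      exact ht (congrArg Prod.fst heq)
    · push Not at h
      have h2 : Y1 t1 ≠ 0 := by
        intro h3
        have := hreg t1
        rw [h, h3] at this
        norm_num at this
      filter_upwards [(hY t1).eventually_ne h2 (c := Y t1)] with t ht heq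
      exact ht (congrArg Prod.snd heq)
  have hin : ∀ᶠ t in 𝓝[≠] t1, t ∈ Set.Ioo u v :=
    nhdsWithin_le_nhds (isOpen_Ioo.mem_nhds ht1m)
  obtain ⟨t2, h2ne, h2in⟩ := (hne2.and hin).exists
  have hmid := hstrict (hcl t2) (hcl t1) h2ne (show (0:ℝ) < 1 / 2 by norm_num)
    (show (0:ℝ) < 1 / 2 by norm_num) (by norm_num)
  rw [hconv.interior_closure_eq_interior_of_nonempty_interior (by rwa [ho.interior_eq]),
    ho.interior_eq] at hmid
  have h3 := hor t1 _ hmid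
  have h4 := hch t2 h2in
  simp only [Prod.fst_add, Prod.snd_add, Prod.smul_fst, Prod.smul_snd, smul_eq_mul] at h3
  rw [← ha, ← hb] at h3
  have h5 : a * (1 / 2 * Y t2 + 1 / 2 * Y t1 - Y t1) - b * (1 / 2 * X t2 + 1 / 2 * X t1 - X t1) =
      (1 / 2) * (a * (Y t2 - Y t1) - b * (X t2 - X t1)) := by ring
  rw [h5, h4] at h3
  norm_num at h3

/-- Core theorem for counterclockwise curves. -/
theorem core {Ω : Set (ℝ × ℝ)} {γ : ℝ → ℝ × ℝ}
    (ho : IsOpen Ω) (hconv : Convex ℝ Ω) (hb : Bornology.IsBounded Ω) (hne : Ω.Nonempty)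
    (hstrict : StrictConvex ℝ (closure Ω))
    (hsm : ContDiff ℝ (⊤ : ℕ∞) γ) (hper : Function.Periodic γ 1) (hreg : ∀ t, deriv γ t ≠ 0)
    (hfr : frontier Ω = Set.range γ)
    (hor : ∀ t, ∀ z ∈ Ω, 0 < cr (deriv γ t) (z - γ t))
    {B : Set (ℝ × ℝ)}
    (hB : ∀ C : Set (ℝ × ℝ), IsCompact C → C ⊆ Ω →
      ∃ K, IsCaustic Ω γ K ∧ C ⊆ K ∧ ∃ φ : (ℝ × ℝ) →ᵃ[ℝ] (ℝ × ℝ), K = φ '' B) :
    ∃ (c : ℝ × ℝ) (a b d : ℝ), 0 < a ∧ 0 < a * d - b ^ 2 ∧
      frontier Ω = {x : ℝ × ℝ | a * (x.1 - c.1) ^ 2 + 2 * b * (x.1 - c.1) * (x.2 - c.2)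
        + d * (x.2 - c.2) ^ 2 = 1} := by
  obtain ⟨ε, m11, m12, m21, m22, w1, w2, M11, M12, M21, M22, W1, W2, K, hε, hεp, h11, h12, h21,
    h22, hw1, hw2, hnz, hK, hKe⟩ := compactness ho hconv hb hne
    (P := IsCaustic Ω γ) (fun K hK => ⟨hK.1, hK.2.2.1, hK.2.2.2.1⟩) hB
  -- derivatives
  have hg0 : Differentiable ℝ γ := hsm.differentiable (by simp)
  have hsm1 : ContDiff ℝ (⊤ : ℕ∞) (deriv γ) := (contDiff_infty_iff_deriv.mp hsm).2
  have hg1 : Differentiable ℝ (deriv γ) := hsm1.differentiable (by simp)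
  have hsm2 : ContDiff ℝ (⊤ : ℕ∞) (deriv (deriv γ)) := (contDiff_infty_iff_deriv.mp hsm1).2
  have hg2 : Differentiable ℝ (deriv (deriv γ)) := hsm2.differentiable (by simp)
  have hX : ∀ t, HasDerivAt (fun t => (γ t).1) ((deriv γ t).1) t :=
    fun t => (hasDeriv_components hg0 t).1
  have hY : ∀ t, HasDerivAt (fun t => (γ t).2) ((deriv γ t).2) t :=
    fun t => (hasDeriv_components hg0 t).2
  have hX1 : ∀ t, HasDerivAt (fun t => (deriv γ t).1) ((deriv (deriv γ) t).1) t :=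
    fun t => (hasDeriv_components hg1 t).1
  have hY1 : ∀ t, HasDerivAt (fun t => (deriv γ t).2) ((deriv (deriv γ) t).2) t :=
    fun t => (hasDeriv_components hg1 t).2
  have hX2 : ∀ t, HasDerivAt (fun t => (deriv (deriv γ) t).1) ((deriv (deriv (deriv γ)) t).1) t :=
    fun t => (hasDeriv_components hg2 t).1
  have hY2 : ∀ t, HasDerivAt (fun t => (deriv (deriv γ) t).2) ((deriv (deriv (deriv γ)) t).2) t :=
    fun t => (hasDeriv_components hg2 t).2
  have hcl : ∀ t, ((γ t).1, (γ t).2) ∈ closure Ω := by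
    intro t
    have : γ t ∈ frontier Ω := by rw [hfr]; exact ⟨t, rfl⟩
    exact frontier_subset_closure this
  have hor' : ∀ t, ∀ z ∈ Ω, 0 < (deriv γ t).1 * (z.2 - (γ t).2) - (deriv γ t).2 * (z.1 - (γ t).1) :=
    fun t z hz => hor t z hz
  have horc : ∀ t, ∀ z ∈ closure Ω,
      0 ≤ (deriv γ t).1 * (z.2 - (γ t).2) - (deriv γ t).2 * (z.1 - (γ t).1) := by
    intro t z hz
    have hsub : closure Ω ⊆ {z : ℝ × ℝ |
        0 ≤ (deriv γ t).1 * (z.2 - (γ t).2) - (deriv γ t).2 * (z.1 - (γ t).1)} :=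
      closure_minimal (fun z hz => (hor' t z hz).le) (isClosed_le continuous_const (by fun_prop))
    exact hsub hz
  have hreg' : ∀ t, 0 < (deriv γ t).1 ^ 2 + (deriv γ t).2 ^ 2 := by
    intro t
    by_contra hc
    push Not at hc
    apply hreg t
    have h1 : (deriv γ t).1 = 0 := by nlinarith [sq_nonneg (deriv γ t).1, sq_nonneg (deriv γ t).2]
    have h2 : (deriv γ t).2 = 0 := by nlinarith [sq_nonneg (deriv γ t).1, sq_nonneg (deriv γ t).2]
    ext
    · exact h1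
    · exact h2
  have hk : ∀ t, 0 ≤ (deriv γ t).1 * (deriv (deriv γ) t).2 - (deriv γ t).2 * (deriv (deriv γ) t).1 := by
    intro t
    have h1 : ∀ s, HasDerivAt (fun s => (deriv γ t).1 * ((γ s).2 - (γ t).2) -
        (deriv γ t).2 * ((γ s).1 - (γ t).1)) ((deriv γ t).1 * (deriv γ s).2 -
        (deriv γ t).2 * (deriv γ s).1) s := fun s =>
      (((hY s).sub_const _).const_mul _).sub (((hX s).sub_const _).const_mul _)
    have h2 : ∀ s, HasDerivAt (fun s => (deriv γ t).1 * (deriv γ s).2 -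
        (deriv γ t).2 * (deriv γ s).1) ((deriv γ t).1 * (deriv (deriv γ) s).2 -
        (deriv γ t).2 * (deriv (deriv γ) s).1) s := fun s =>
      ((hY1 s).const_mul _).sub ((hX1 s).const_mul _)
    have h3 := second_ge_of_min h1 h2 (t0 := t) (fun s => by
      have := horc t _ (hcl s)
      simpa using this)
    exact h3.2
  have hflat := no_flat (X := fun t => (γ t).1) (Y := fun t => (γ t).2) ho hconv hne hstrict
    hX hY hX1 hY1 hreg' hor' hcl
  have hg : ∀ t, 0 ≤ (deriv γ t).1 * (M21 * (γ t).1 + M22 * (γ t).2 + W2) -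
      (deriv γ t).2 * (M11 * (γ t).1 + M12 * (γ t).2 + W1) := by
    intro t
    have hlim : Tendsto (fun j => (deriv γ t).1 * (m21 j * (γ t).1 + m22 j * (γ t).2 + w2 j) -
      (deriv γ t).2 * (m11 j * (γ t).1 + m12 j * (γ t).2 + w1 j)) atTop
      (𝓝 ((deriv γ t).1 * (M21 * (γ t).1 + M22 * (γ t).2 + W2) -
      (deriv γ t).2 * (M11 * (γ t).1 + M12 * (γ t).2 + W1))) :=
      ((((h21.mul_const _).add (h22.mul_const _)).add hw2).const_mul _).sub
      ((((h11.mul_const _).add (h12.mul_const _)).add hw1).const_mul _)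
    refine ge_of_tendsto hlim (Eventually.of_forall fun j => ?_)
    have hmem : amap (ε j) (m11 j) (m12 j) (m21 j) (m22 j) (w1 j) (w2 j) (γ t) ∈ K j := by
      rw [hKe j]; exact ⟨γ t, hcl t, rfl⟩
    have h1 := hor' t _ ((hK j).2.2.2.1 hmem)
    simp only [amap] at h1
    have h2 : (deriv γ t).1 * ((γ t).2 + ε j * (m21 j * (γ t).1 + m22 j * (γ t).2 + w2 j) - (γ t).2) -
        (deriv γ t).2 * ((γ t).1 + ε j * (m11 j * (γ t).1 + m12 j * (γ t).2 + w1 j) - (γ t).1) =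
        ε j * ((deriv γ t).1 * (m21 j * (γ t).1 + m22 j * (γ t).2 + w2 j) -
      (deriv γ t).2 * (m11 j * (γ t).1 + m12 j * (γ t).2 + w1 j)) := by ring
    rw [h2] at h1
    exact (pos_of_mul_pos_right h1 (hεp j).le).le
  refine endgame (X := fun t => (γ t).1) (Y := fun t => (γ t).2) ho hb hne hX hY hX1 hY1 hX2 hY2
    (fun t => by simp only [hper t]) (fun t => by simp only [hper t]) hreg' hfr hor' hnz hk hflat hg ?_
  intro t hgt hkt
  exact ode_at (X := fun t => (γ t).1) (Y := fun t => (γ t).2) hX hY hX1 hY1 hX2 hY2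
    (fun t => rfl) (fun t => rfl) hor' horc hcl hε hεp h11 h12 h21 h22 hw1 hw2 hK hKe t hgt hkt
    (hreg' t)

lemma caustic_reverse {Ω : Set (ℝ × ℝ)} {γ : ℝ → ℝ × ℝ} {K : Set (ℝ × ℝ)}
    (h : IsCaustic Ω γ K) : IsCaustic Ω (fun t => γ (-t)) K := by
  obtain ⟨h1, h2, h3, h4, h5⟩ := h
  refine ⟨h1, h2, h3, h4, ?_⟩
  intro p w u r t s hs ht hu hr
  refine h5 p w (-u) r (-t) s hs ht ?_ ?_
  · rw [hu, deriv_comp_neg]; simp
  · rw [hr]
    simp only [Prod.fst_neg, Prod.snd_neg]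
    ext <;> simp <;> ring

/-- **Birkhoff's conjecture for affinely equivalent caustics.** -/
theorem main (Ω : Set (ℝ × ℝ)) (γ : ℝ → ℝ × ℝ)
    (ho : IsOpen Ω) (hconv : Convex ℝ Ω) (hb : Bornology.IsBounded Ω) (hne : Ω.Nonempty)
    (hstrict : StrictConvex ℝ (closure Ω))
    (hsm : ContDiff ℝ (⊤ : ℕ∞) γ) (hper : Function.Periodic γ 1) (hreg : ∀ t, deriv γ t ≠ 0)
    (hfr : frontier Ω = Set.range γ)
    (B : Set (ℝ × ℝ))
    (hB : ∀ C : Set (ℝ × ℝ), IsCompact C → C ⊆ Ω →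
      ∃ K, IsCaustic Ω γ K ∧ C ⊆ K ∧ ∃ φ : (ℝ × ℝ) →ᵃ[ℝ] (ℝ × ℝ), K = φ '' B) :
    ∃ (c : ℝ × ℝ) (a b d : ℝ), 0 < a ∧ 0 < a * d - b ^ 2 ∧
      frontier Ω = {x : ℝ × ℝ | a * (x.1 - c.1) ^ 2 + 2 * b * (x.1 - c.1) * (x.2 - c.2)
        + d * (x.2 - c.2) ^ 2 = 1} := by
  have hg0 : Differentiable ℝ γ := hsm.differentiable (by simp)
  have hsm1 : ContDiff ℝ (⊤ : ℕ∞) (deriv γ) := (contDiff_infty_iff_deriv.mp hsm).2
  have hmiss := fun t z (hz : z ∈ Ω) => tangent_misses ho hconv hg0 hreg hfr t hz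
  obtain ⟨z0, hz0⟩ := hne
  -- the sign is constant on ℝ × Ω
  have hpre : IsPreconnected (Set.univ ×ˢ Ω : Set (ℝ × (ℝ × ℝ))) :=
    isPreconnected_univ.prod hconv.isPreconnected
  have hcont : Continuous fun p : ℝ × (ℝ × ℝ) => cr (deriv γ p.1) (p.2 - γ p.1) := by
    have h1 := hsm1.continuous
    have h2 := hsm.continuous
    simp only [cr]
    fun_prop
  have hsign : (∀ t, ∀ z ∈ Ω, 0 < cr (deriv γ t) (z - γ t)) ∨
      (∀ t, ∀ z ∈ Ω, cr (deriv γ t) (z - γ t) < 0) := by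
    rcases lt_or_gt_of_ne (hmiss 0 z0 hz0) with hneg | hpos
    · right
      intro t z hz
      by_contra hc
      push Not at hc
      have hmem1 : ((0:ℝ), z0) ∈ (Set.univ ×ˢ Ω : Set (ℝ × (ℝ × ℝ))) := ⟨trivial, hz0⟩
      have hmem2 : (t, z) ∈ (Set.univ ×ˢ Ω : Set (ℝ × (ℝ × ℝ))) := ⟨trivial, hz⟩
      obtain ⟨p, hp, hp0⟩ := hpre.intermediate_value hmem1 hmem2 hcont.continuousOn
        (show (0:ℝ) ∈ Set.Icc _ _ from ⟨hneg.le, hc⟩)
      exact hmiss p.1 p.2 hp.2 hp0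
    · left
      intro t z hz
      by_contra hc
      push Not at hc
      have hmem1 : ((0:ℝ), z0) ∈ (Set.univ ×ˢ Ω : Set (ℝ × (ℝ × ℝ))) := ⟨trivial, hz0⟩
      have hmem2 : (t, z) ∈ (Set.univ ×ˢ Ω : Set (ℝ × (ℝ × ℝ))) := ⟨trivial, hz⟩
      obtain ⟨p, hp, hp0⟩ := hpre.intermediate_value hmem2 hmem1 hcont.continuousOn
        (show (0:ℝ) ∈ Set.Icc _ _ from ⟨hc, hpos.le⟩)
      exact hmiss p.1 p.2 hp.2 hp0
  rcases hsign with hpos | hneg
  · exact core ho hconv hb ⟨z0, hz0⟩ hstrict hsm hper hreg hfr hpos hB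
  · have hdn : ∀ t, deriv (fun t => γ (-t)) t = - deriv γ (-t) := fun t => deriv_comp_neg γ t
    refine core (γ := fun t => γ (-t)) ho hconv hb ⟨z0, hz0⟩ hstrict (hsm.comp contDiff_neg) ?_ ?_ ?_ ?_
      (B := B) ?_
    · intro t
      have h1 : γ (-(t + 1)) = γ (-(t + 1) + 1) := (hper _).symm
      simp only
      rw [h1]; congr 1; ring
    · intro t; rw [hdn]; exact neg_ne_zero.mpr (hreg _)
    · rw [hfr]
      ext x; constructor
      · rintro ⟨t, rfl⟩; exact ⟨-t, by simp⟩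
      · rintro ⟨t, rfl⟩; exact ⟨-t, rfl⟩
    · intro t z hz
      rw [hdn]
      have h1 := hneg (-t) z hz
      have h2 : cr (-deriv γ (-t)) (z - γ (-t)) = - cr (deriv γ (-t)) (z - γ (-t)) := by
        simp only [cr, Prod.fst_neg, Prod.snd_neg]; ring
      rw [h2]; linarith
    · intro C hC hCs
      obtain ⟨K, hK, h1, h2⟩ := hB C hC hCs
      exact ⟨K, caustic_reverse hK, h1, h2⟩

end Pool.Agent.H762R2.Bir
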