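import Pool.Agent.H762R2.Adm

set_option autoImplicit false

open Set Filter Topology Metric MeasureTheory Complex

namespace Pool.Agent.H762R2

/-- the Cauchy–Schwarz step, with the case of equality -/
theorem coef_lemma {a : ℂ} (ha0 : a ≠ 0) (ha1 : ‖a‖ < 1) {c : ℕ → ℂ}
    (hs : Summable fun j : ℕ => (j : ℝ) * ‖c (j + 1)‖ ^ 2)
    (hle : ∑' j : ℕ, (j : ℝ) * ‖c (j + 1)‖ ^ 2 ≤ 1) {X : ℂ}
    (hX : HasSum (fun j : ℕ => (j : ℂ) * c (j + 1) * a ^ (j + 1)) X) :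
    (1 - ‖a‖ ^ 2) * ‖1 - X‖ ≤ 1 ∧ ((1 - ‖a‖ ^ 2) * ‖1 - X‖ = 1 → ∀ j : ℕ, 1 ≤ j →
      c (j + 1) = -(((1 - ‖a‖ ^ 2) / ‖a‖ ^ 2 : ℝ) : ℂ) * (starRingEnd ℂ) a ^ (j + 1)) := by
  set A : ℝ := ‖a‖ ^ 2 with hA
  have hA0 : 0 < A := pow_pos (norm_pos_iff.2 ha0) 2
  have hA1 : A < 1 := by
    rw [hA]; nlinarith [norm_nonneg a]
  have h1A : 0 < 1 - A := by linarith
  set l : ℝ := (1 - A) / A with hl
  have hl0 : 0 < l := div_pos h1A hA0
  have hlinv : 1 / l = A / (1 - A) := by rw [hl]; field_simp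
  -- the geometric sum
  have hgeo : HasSum (fun j : ℕ => (j : ℝ) * A ^ (j + 1)) ((1 / l) ^ 2) := by
    have h1 := (hasSum_coe_mul_geometric_of_norm_lt_one (𝕜 := ℝ) (r := A)
      (by rw [Real.norm_of_nonneg hA0.le]; exact hA1)).mul_left A
    rw [hlinv]
    have e1 : (A / (1 - A)) ^ 2 = A * (A / (1 - A) ^ 2) := by field_simp
    rw [e1]
    refine h1.congr_fun ?_
    intro j
    ring
  -- the quadratic sums
  set S : ℝ := ∑' j : ℕ, (j : ℝ) * ‖c (j + 1)‖ ^ 2 with hS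
  have hT : ∀ μ : ℂ, ‖μ‖ = l → HasSum (fun j : ℕ => (j : ℝ) * ‖c (j + 1) + μ * (starRingEnd ℂ) a ^ (j + 1)‖ ^ 2)
      (S + 2 * ((starRingEnd ℂ) μ * X).re + 1) := by
    intro μ hμ
    have h1 := ((hasSum_re (hX.mul_left ((starRingEnd ℂ) μ))).mul_left 2)
    have h2 := hgeo.mul_left (l ^ 2)
    have h3 := (hs.hasSum.add h1).add h2
    have e1 : l ^ 2 * (1 / l) ^ 2 = 1 := by field_simp
    rw [e1] at h3
    refine h3.congr_fun ?_
    intro j
    have e2 : ‖c (j + 1) + μ * (starRingEnd ℂ) a ^ (j + 1)‖ ^ 2 = ‖c (j + 1)‖ ^ 2 +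
        2 * ((starRingEnd ℂ) μ * (c (j + 1) * a ^ (j + 1))).re + l ^ 2 * A ^ (j + 1) := by
      rw [← normSq_eq_norm_sq, normSq_add, normSq_eq_norm_sq, normSq_eq_norm_sq, norm_mul, norm_pow,
        RCLike.norm_conj, hμ, mul_pow, ← pow_mul, mul_comm (j + 1) 2, pow_mul]
      simp only [map_mul, map_pow, conj_conj]
      have e3 : (c (j + 1) * ((starRingEnd ℂ) μ * a ^ (j + 1))).re =
          ((starRingEnd ℂ) μ * (c (j + 1) * a ^ (j + 1))).re := by
        congr 1; ring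
      rw [e3]
      ring
    rw [e2]
    have e4 : ((starRingEnd ℂ) μ * ((j : ℂ) * c (j + 1) * a ^ (j + 1))).re =
        (j : ℝ) * ((starRingEnd ℂ) μ * (c (j + 1) * a ^ (j + 1))).re := by
      have : (starRingEnd ℂ) μ * ((j : ℂ) * c (j + 1) * a ^ (j + 1)) =
          ((j : ℝ) : ℂ) * ((starRingEnd ℂ) μ * (c (j + 1) * a ^ (j + 1))) := by
        push_cast; ring
      rw [this, re_ofReal_mul]
    rw [e4]
    ring
  have hT0 : ∀ μ : ℂ, ‖μ‖ = l → 0 ≤ S + 2 * ((starRingEnd ℂ) μ * X).re + 1 := fun μ hμ =>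
    (hT μ hμ).nonneg fun j => by positivity
  have hX1 : ‖X‖ ≤ 1 / l := by
    by_cases hX0 : X = 0
    · rw [hX0, norm_zero]; positivity
    · have hXn : ‖X‖ ≠ 0 := norm_ne_zero_iff.2 hX0
      have h1 := hT0 (-(((l / ‖X‖ : ℝ) : ℂ) * X)) (by
        rw [norm_neg, norm_mul, Complex.norm_real, Real.norm_of_nonneg (by positivity)]
        field_simp)
      have h2 : ((starRingEnd ℂ) (-(((l / ‖X‖ : ℝ) : ℂ) * X)) * X).re = -(l * ‖X‖) := by
        have h3 : (starRingEnd ℂ) (-(((l / ‖X‖ : ℝ) : ℂ) * X)) * X = ((-(l / ‖X‖ * ‖X‖ ^ 2) : ℝ) : ℂ) := by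
          rw [map_neg, map_mul, conj_ofReal]
          have : (starRingEnd ℂ) X * X = ((‖X‖ ^ 2 : ℝ) : ℂ) := by
            rw [← Complex.normSq_eq_norm_sq, Complex.normSq_eq_conj_mul_self]
          rw [neg_mul, mul_assoc, this]
          push_cast
          ring
        rw [h3, ofReal_re]
        field_simp
      rw [h2] at h1
      rw [le_div_iff₀ hl0]
      nlinarith
  have h1l : 1 + 1 / l = 1 / (1 - A) := by
    rw [hlinv]; field_simp; ring
  refine ⟨?_, ?_⟩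
  · have h1 : ‖1 - X‖ ≤ 1 + ‖X‖ := by
      have := norm_sub_le (1 : ℂ) X
      rwa [norm_one] at this
    calc (1 - A) * ‖1 - X‖ ≤ (1 - A) * (1 + 1 / l) := by gcongr; linarith
      _ = 1 := by rw [h1l]; field_simp
  · intro heq
    have h1 : ‖1 - X‖ = 1 + 1 / l := by
      rw [h1l]
      field_simp
      linarith
    have h2 : ‖1 - X‖ ^ 2 = 1 - 2 * X.re + ‖X‖ ^ 2 := by
      rw [← normSq_eq_norm_sq, ← normSq_eq_norm_sq, normSq_apply, normSq_apply]
      simp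
      ring
    have h3 : X.re ≤ -(1 / l) := by
      rw [h1] at h2
      have : ‖X‖ ^ 2 ≤ (1 / l) ^ 2 := by gcongr
      nlinarith
    have h4 := hT ((l : ℝ) : ℂ) (by rw [Complex.norm_real, Real.norm_of_nonneg hl0.le])
    have h5 : ((starRingEnd ℂ) ((l : ℝ) : ℂ) * X).re = l * X.re := by
      rw [conj_ofReal, re_ofReal_mul]
    rw [h5] at h4
    have h6 : S + 2 * (l * X.re) + 1 ≤ 0 := by
      have h7 : l * X.re ≤ l * (-(1 / l)) := mul_le_mul_of_nonneg_left h3 hl0.le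
      have h8 : l * (-(1 / l)) = -1 := by field_simp
      rw [h8] at h7
      linarith
    have h9 : S + 2 * (l * X.re) + 1 = 0 := le_antisymm h6 (h4.nonneg fun j => by positivity)
    rw [h9] at h4
    have h10 := (hasSum_zero_iff_of_nonneg (fun j => by positivity)).1 h4
    intro j hj
    have h11 := congrFun h10 j
    simp only [Pi.zero_apply] at h11
    have hj0 : (j : ℝ) ≠ 0 := by
      have : j ≠ 0 := by omega
      exact_mod_cast this
    have h12 : c (j + 1) + ((l : ℝ) : ℂ) * (starRingEnd ℂ) a ^ (j + 1) = 0 := by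
      rcases mul_eq_zero.1 h11 with h | h
      · exact absurd h hj0
      · have := pow_eq_zero_iff (two_ne_zero) |>.1 h
        exact norm_eq_zero.1 this
    rw [neg_mul]
    exact eq_neg_of_add_eq_zero_left h12

theorem hp_ball (c : ℂ) (r : ℝ) : ZFM.J_c4.HP (ball c r) := fun _ hf => hf.isExactOn_ball

/-- Taylor coefficients on the unit disc -/
theorem exists_taylor {P : ℂ → ℂ} (hP : DifferentiableOn ℂ P (ball 0 1)) :
    ∃ c : ℕ → ℂ, (∀ z ∈ ball (0 : ℂ) 1, HasSum (fun j => c j * z ^ j) (P z)) ∧ c 0 = P 0 := by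
  refine ⟨fun n => (n.factorial : ℂ)⁻¹ * iteratedDeriv n P 0, ?_, by simp⟩
  intro z hz
  have h1 := hasSum_taylorSeries_on_ball hP hz
  refine h1.congr_fun ?_
  intro n
  simp only [smul_eq_mul, sub_zero]
  ring

end Pool.Agent.H762R2
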