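import Pool.Agent.H762R2.Top4

set_option autoImplicit false

open Set Filter Topology Metric
open scoped OnePoint

namespace Pool.Agent.H762R2

open Pool.Agent.Helper405.Conv (inv_facts)

/-- the filter `z → C` inside `D` -/
noncomputable def toC (D : Set ℂ) (C : Set (OnePoint ℂ)) : Filter ℂ :=
  comap ((↑) : ℂ → OnePoint ℂ) (𝓝ˢ C) ⊓ 𝓟 D

theorem ev_toC {D : Set ℂ} {C : Set (OnePoint ℂ)} {p : ℂ → Prop} :
    (∀ᶠ z in toC D C, p z) ↔ ∃ V : Set (OnePoint ℂ), IsOpen V ∧ C ⊆ V ∧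
      ∀ z ∈ D, (z : OnePoint ℂ) ∈ V → p z := by
  unfold toC
  rw [eventually_inf_principal, eventually_comap]
  constructor
  · intro h
    obtain ⟨V, hV, hCV, hVs⟩ := mem_nhdsSet_iff_exists.1 h
    exact ⟨V, hV, hCV, fun z hz hzV => hVs hzV z rfl hz⟩
  · rintro ⟨V, hV, hCV, h⟩
    filter_upwards [hV.mem_nhdsSet.2 hCV] with x hx z hzx hz
    exact h z hz (hzx ▸ hx)

theorem ev_mem_toC (D : Set ℂ) (C : Set (OnePoint ℂ)) : ∀ᶠ z in toC D C, z ∈ D :=
  ev_toC.2 ⟨univ, isOpen_univ, subset_univ _, fun _ hz _ => hz⟩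

theorem ev_toC_nbhd {D : Set ℂ} {C V : Set (OnePoint ℂ)} (hV : IsOpen V) (hCV : C ⊆ V) :
    ∀ᶠ z : ℂ in toC D C, (z : OnePoint ℂ) ∈ V :=
  ev_toC.2 ⟨V, hV, hCV, fun _ _ h => h⟩

theorem nb_inf_le_toC {D : Set ℂ} {C : Set (OnePoint ℂ)} {a : OnePoint ℂ} (ha : a ∈ C) :
    nb a ⊓ 𝓟 D ≤ toC D C :=
  inf_le_inf_right _ (comap_mono (nhds_le_nhdsSet ha))

theorem comp_closed {D : Set ℂ} (hD : IsOpen D) {C : Set (OnePoint ℂ)} (hC : C ∈ comps D) :
    IsClosed C := by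
  obtain ⟨x, hx, rfl⟩ := hC
  exact isClosed_connectedComponentIn (isClosed_sc hD) x

theorem comp_sub {D : Set ℂ} {C : Set (OnePoint ℂ)} (hC : C ∈ comps D) : C ⊆ sc D := by
  obtain ⟨x, hx, rfl⟩ := hC
  exact connectedComponentIn_subset _ _

theorem comp_conn {D : Set ℂ} {C : Set (OnePoint ℂ)} (hC : C ∈ comps D) : IsConnected C := by
  obtain ⟨x, hx, rfl⟩ := hC
  exact isConnected_connectedComponentIn_iff.2 hx

theorem comp_eq {D : Set ℂ} {C : Set (OnePoint ℂ)} (hC : C ∈ comps D) {x : OnePoint ℂ}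
    (hx : x ∈ C) : C = connectedComponentIn (sc D) x := by
  obtain ⟨y, hy, rfl⟩ := hC
  exact connectedComponentIn_eq hx

theorem comp_of_mem {D : Set ℂ} {x : OnePoint ℂ} (hx : x ∈ sc D) :
    connectedComponentIn (sc D) x ∈ comps D := ⟨x, hx, rfl⟩

theorem comps_disjoint {D : Set ℂ} {C C' : Set (OnePoint ℂ)} (hC : C ∈ comps D)
    (hC' : C' ∈ comps D) (hne : C ≠ C') : Disjoint C C' := by
  rw [Set.disjoint_left]
  intro x hx hx'
  exact hne ((comp_eq hC hx).trans (comp_eq hC' hx').symm)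

/-- the union of the other components -/
def others (D : Set ℂ) (C : Set (OnePoint ℂ)) : Set (OnePoint ℂ) := ⋃₀ (comps D \ {C})

theorem others_closed {D : Set ℂ} (hD : IsOpen D) (hfin : (comps D).Finite) (C : Set (OnePoint ℂ)) :
    IsClosed (others D C) := by
  unfold others
  rw [sUnion_eq_biUnion]
  exact (hfin.subset sdiff_subset).isClosed_biUnion fun C' hC' => comp_closed hD hC'.1

theorem others_disjoint {D : Set ℂ} {C : Set (OnePoint ℂ)} (hC : C ∈ comps D) :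
    Disjoint C (others D C) := by
  unfold others
  rw [disjoint_sUnion_right]
  intro C' hC'
  exact comps_disjoint hC hC'.1 (Ne.symm hC'.2)

theorem union_others {D : Set ℂ} {C : Set (OnePoint ℂ)} (hC : C ∈ comps D) :
    C ∪ others D C = sc D := by
  ext x
  constructor
  · rintro (h | ⟨C', hC', h⟩)
    · exact comp_sub hC h
    · exact comp_sub hC'.1 h
  · intro hx
    by_cases h : connectedComponentIn (sc D) x = C
    · left
      rw [← h]
      exact mem_connectedComponentIn hx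
    · right
      exact ⟨_, ⟨comp_of_mem hx, h⟩, mem_connectedComponentIn hx⟩

theorem toC_neBot {D : Set ℂ} (hD : IsOpen D) (hne : D.Nonempty) (hfin : (comps D).Finite)
    {C : Set (OnePoint ℂ)} (hC : C ∈ comps D) : (toC D C).NeBot := by
  obtain ⟨a, haC, hac⟩ := touch hne (comp_closed hD hC) (others_closed hD hfin C)
    (others_disjoint hC) (union_others hC) (comp_conn hC).nonempty
  have hne : (nb a ⊓ 𝓟 D).NeBot := by
    rw [mem_closure_iff_nhds] at hac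
    refine Filter.inf_principal_neBot_iff.2 ?_
    intro s hs
    obtain ⟨t, ht, hts⟩ := mem_comap.1 hs
    obtain ⟨x, hx1, w, hw, rfl⟩ := hac t ht
    exact ⟨w, hts hx1, hw⟩
  exact hne.mono (nb_inf_le_toC haC)

/-- bump functions -/
theorem bump' {A B : Set (OnePoint ℂ)} (hA : IsClosed A) (hB : IsClosed B) (hd : Disjoint A B) :
    ∃ χ : ℂ → ℝ, ContDiff ℝ 2 χ ∧ (∀ a ∈ A, ∀ᶠ w in nb a, χ w = 1) ∧
      (∀ b ∈ B, ∀ᶠ w in nb b, χ w = 0) := by
  by_cases hAi : (∞ : OnePoint ℂ) ∈ A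
  · have hBi : (∞ : OnePoint ℂ) ∉ B := fun h => Set.disjoint_left.1 hd hAi h
    obtain ⟨χ, h1, h2, h3, -⟩ := bump hB hA hd.symm hBi
    refine ⟨fun w => 1 - χ w, contDiff_const.sub h1, ?_, ?_⟩
    · intro a ha
      filter_upwards [h3 a ha] with w hw
      rw [hw, sub_zero]
    · intro b hb
      filter_upwards [h2 b hb] with w hw
      rw [hw, sub_self]
  · obtain ⟨χ, h1, h2, h3, -⟩ := bump hA hB hd hAi
    exact ⟨χ, h1, h2, h3⟩

/-- a function locally constant off `L` is constant near each component -/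
theorem const_near {D : Set ℂ} {L : Set ℂ} (hLD : L ⊆ D) {H : OnePoint ℂ → ℝ}
    (hH : ∀ x ∉ ((↑) '' L : Set (OnePoint ℂ)), ∀ᶠ y in 𝓝 x, H y = H x)
    {C : Set (OnePoint ℂ)} (hC : C ∈ comps D) {x : OnePoint ℂ} (hx : x ∈ C) :
    (∀ y ∈ C, H y = H x) ∧ ∀ᶠ z in toC D C, H ((z : ℂ) : OnePoint ℂ) = H x := by
  have hloc : ∀ y ∈ C, ∀ᶠ z in 𝓝 y, H z = H y := by
    intro y hy
    apply hH
    rintro ⟨z, hz, rfl⟩
    exact (coe_mem_sc.1 (comp_sub hC hy)) (hLD hz)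
  have h1 : ∀ y ∈ C, H y = H x := fun y hy =>
    const_of_loc (comp_conn hC).isPreconnected hloc hy hx
  refine ⟨h1, ?_⟩
  have h2 : ∀ᶠ y in 𝓝ˢ C, H y = H x := by
    rw [eventually_nhdsSet_iff_forall]
    intro y hy
    filter_upwards [hloc y hy] with z hz
    rw [hz, h1 y hy]
  exact (h2.comap _).filter_mono inf_le_left

theorem finite_comps_image {D : Set ℂ} (hDo : IsOpen D) (hDc : IsConnected D)
    (hfin : (comps D).Finite) {f : ℂ → ℂ} (hf : DifferentiableOn ℂ f D) (hi : InjOn f D) :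
    (comps (f '' D)).Finite := by
  rw [← Set.encard_ne_top_iff] at hfin ⊢
  rwa [encard_comps_image hDo hDc hf hi]

/-- boundary correspondence -/
theorem corr {D : Set ℂ} (hDo : IsOpen D) (hDc : IsConnected D) (hfin : (comps D).Finite)
    {f : ℂ → ℂ} (hf : DifferentiableOn ℂ f D) (hi : InjOn f D) {C : Set (OnePoint ℂ)}
    (hC : C ∈ comps D) :
    ∃ C' ∈ comps (f '' D), Tendsto f (toC D C) (toC (f '' D) C') := by
  have hΩo : IsOpen (f '' D) := (inv_facts hDo hf hi).1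
  have hfin' := finite_comps_image hDo hDc hfin hf hi
  have := toC_neBot hDo hDc.nonempty hfin hC
  obtain ⟨-, g, hg, hgl, -⟩ := inv_facts hDo hf hi
  set 𝒰 : Ultrafilter ℂ := Ultrafilter.of (toC D C) with h𝒰
  have hle : (𝒰 : Filter ℂ) ≤ toC D C := Ultrafilter.of_le _
  have hD𝒰 : ∀ᶠ z in (𝒰 : Filter ℂ), z ∈ D := hle (ev_mem_toC D C)
  obtain ⟨p, -, hp⟩ := isCompact_univ.ultrafilter_le_nhds
    (𝒰.map (fun z => ((f z : ℂ) : OnePoint ℂ))) (by simp)
  have hp' : Tendsto (fun z => ((f z : ℂ) : OnePoint ℂ)) 𝒰 (𝓝 p) := hp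
  have hpΩ : p ∈ sc (f '' D) := by
    intro hcon
    obtain ⟨v0, hv0, rfl⟩ := hcon
    have h1 : Tendsto f 𝒰 (𝓝 v0) := by
      have := tendsto_comap_iff.2 (show Tendsto (((↑) : ℂ → OnePoint ℂ) ∘ f) 𝒰 (𝓝 (v0 : OnePoint ℂ)) from hp')
      rwa [OnePoint.comap_coe_nhds] at this
    have h2 : ContinuousAt g v0 := (hg.differentiableAt (hΩo.mem_nhds hv0)).continuousAt
    have h3 : Tendsto (fun z => g (f z)) 𝒰 (𝓝 (g v0)) := h2.tendsto.comp h1
    have h4 : Tendsto (fun z : ℂ => z) 𝒰 (𝓝 (g v0)) := by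
      refine h3.congr' ?_
      filter_upwards [hD𝒰] with z hz
      exact hgl z hz
    have hgD : g v0 ∈ D := by
      obtain ⟨z, hz, rfl⟩ := hv0
      rw [hgl z hz]; exact hz
    obtain ⟨ε, hε, hεD⟩ := Metric.nhds_basis_closedBall.mem_iff.1 (hDo.mem_nhds hgD)
    set V : Set (OnePoint ℂ) := (((↑) : ℂ → OnePoint ℂ) '' closedBall (g v0) ε)ᶜ with hV
    have hVo : IsOpen V := OnePoint.isOpen_compl_image_coe.2 ⟨isClosed_closedBall, isCompact_closedBall _ _⟩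
    have hCV : C ⊆ V := by
      rintro x hx ⟨z, hz, rfl⟩
      exact (coe_mem_sc.1 (comp_sub hC hx)) (hεD hz)
    have h5 : ∀ᶠ z : ℂ in (𝒰 : Filter ℂ), (z : OnePoint ℂ) ∈ V := hle (ev_toC_nbhd hVo hCV)
    have h6 : ∀ᶠ z in (𝒰 : Filter ℂ), z ∈ closedBall (g v0) ε := h4 (closedBall_mem_nhds _ hε)
    obtain ⟨z, hz1, hz2⟩ := (h5.and h6).exists
    exact hz1 ⟨z, hz2, rfl⟩
  set C' := connectedComponentIn (sc (f '' D)) p with hC'
  have hC'c : C' ∈ comps (f '' D) := comp_of_mem hpΩ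
  have hpC' : p ∈ C' := mem_connectedComponentIn hpΩ
  refine ⟨C', hC'c, ?_⟩
  have hpnb : Tendsto f 𝒰 (nb p) := tendsto_comap_iff.2 hp'
  intro s hs
  obtain ⟨V, hVo, hCV, hVs⟩ := ev_toC.1 hs
  have hB : IsClosed (others (f '' D) C' ∪ Vᶜ) :=
    (others_closed hΩo hfin' C').union hVo.isClosed_compl
  have hd : Disjoint C' (others (f '' D) C' ∪ Vᶜ) := by
    rw [disjoint_union_right]
    refine ⟨others_disjoint hC'c, ?_⟩
    rw [Set.disjoint_compl_right_iff_subset]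
    exact hCV
  obtain ⟨χ, hχ, hχ1, hχ0⟩ := bump' (comp_closed hΩo hC'c) hB hd
  have hloc : ∀ x ∈ sc (f '' D), ∃ c : ℝ, ∀ᶠ w in nb x, χ w = c := by
    intro x hx
    rw [← union_others hC'c] at hx
    rcases hx with hx | hx
    · exact ⟨1, hχ1 x hx⟩
    · exact ⟨0, hχ0 x (Or.inl hx)⟩
  obtain ⟨H, L, -, hLD, hH, hHl, -, -⟩ := transfer hDo hDc hf hi hχ hloc
  obtain ⟨x0, hx0⟩ := (comp_conn hC).nonempty
  obtain ⟨-, hev⟩ := const_near hLD hHl hC hx0
  have h1 : H x0 = 1 := by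
    have e1 : ∀ᶠ z in (𝒰 : Filter ℂ), H ((z : ℂ) : OnePoint ℂ) = H x0 := hle hev
    have e2 : ∀ᶠ z in (𝒰 : Filter ℂ), χ (f z) = 1 := hpnb (hχ1 p hpC')
    obtain ⟨z, hz1, hz2, hz3⟩ := (e1.and (e2.and hD𝒰)).exists
    rw [← hz1, hH z hz3, hz2]
  show ∀ᶠ z in toC D C, f z ∈ s
  filter_upwards [hev, ev_mem_toC D C] with z hz1 hz2
  apply hVs _ ⟨z, hz2, rfl⟩
  by_contra hcon
  have h2 := hχ0 _ (Or.inr hcon)
  rw [nb_coe] at h2
  have h3 := h2.self_of_nhds
  rw [← hH z hz2, hz1, h1] at h3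
  exact one_ne_zero h3

theorem toC_unique {D : Set ℂ} (hD : IsOpen D) {C C' : Set (OnePoint ℂ)}
    (hC : C ∈ comps D) (hC' : C' ∈ comps D) {l : Filter ℂ} [l.NeBot] (h : l ≤ toC D C)
    (h' : l ≤ toC D C') : C = C' := by
  by_contra hne
  have hd := comps_disjoint hC hC' hne
  obtain ⟨V, V', hV, hV', hCV, hCV', hVV'⟩ :=
    normal_separation (comp_closed hD hC) (comp_closed hD hC') hd
  have h1 : ∀ᶠ z : ℂ in l, (z : OnePoint ℂ) ∈ V := h (ev_toC_nbhd hV hCV)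
  have h2 : ∀ᶠ z : ℂ in l, (z : OnePoint ℂ) ∈ V' := h' (ev_toC_nbhd hV' hCV')
  obtain ⟨z, hz1, hz2⟩ := (h1.and h2).exists
  exact Set.disjoint_left.1 hVV' hz1 hz2

/-- every component of the complement of the image corresponds to exactly one component -/
theorem corr_inv {D : Set ℂ} (hDo : IsOpen D) (hDc : IsConnected D) (hfin : (comps D).Finite)
    {f : ℂ → ℂ} (hf : DifferentiableOn ℂ f D) (hi : InjOn f D) {C' : Set (OnePoint ℂ)}
    (hC' : C' ∈ comps (f '' D)) :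
    ∃ C ∈ comps D, Tendsto f (toC D C) (toC (f '' D) C') ∧
      ∀ C1 ∈ comps D, Tendsto f (toC D C1) (toC (f '' D) C') → C1 = C := by
  obtain ⟨hΩo, g, hg, hgl, -⟩ := inv_facts hDo hf hi
  have hfin' := finite_comps_image hDo hDc hfin hf hi
  have hgi : InjOn g (f '' D) := by
    rintro _ ⟨z, hz, rfl⟩ _ ⟨w, hw, rfl⟩ h
    rw [hgl z hz, hgl w hw] at h
    rw [h]
  have himg : g '' (f '' D) = D := by
    ext z
    constructor
    · rintro ⟨_, ⟨w, hw, rfl⟩, rfl⟩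
      rw [hgl w hw]; exact hw
    · intro hz
      exact ⟨f z, ⟨z, hz, rfl⟩, hgl z hz⟩
  have hΩc : IsConnected (f '' D) := hDc.image f hf.continuousOn
  obtain ⟨C, hC, hgt⟩ := corr hΩo hΩc hfin' hg hgi hC'
  rw [himg] at hC hgt
  obtain ⟨C'', hC'', hft⟩ := corr hDo hDc hfin hf hi hC
  have := toC_neBot hΩo hΩc.nonempty hfin' hC'
  have hfg : ∀ᶠ v in toC (f '' D) C', f (g v) = v := by
    filter_upwards [ev_mem_toC _ _] with v hv
    obtain ⟨z, hz, rfl⟩ := hv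
    rw [hgl z hz]
  have h1 : toC (f '' D) C' ≤ toC (f '' D) C'' := by
    have h2 := hft.comp hgt
    have h3 : Tendsto (fun v : ℂ => v) (toC (f '' D) C') (toC (f '' D) C'') := h2.congr' hfg
    exact h3
  have h2 : C' = C'' := toC_unique hΩo hC' hC'' le_rfl h1
  subst h2
  refine ⟨C, hC, hft, fun C1 hC1 hft1 => ?_⟩
  have := toC_neBot hDo hDc.nonempty hfin hC1
  have hgf : ∀ᶠ z in toC D C1, g (f z) = z := by
    filter_upwards [ev_mem_toC _ _] with z hz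
    exact hgl z hz
  have h3 : Tendsto (fun z : ℂ => z) (toC D C1) (toC D C) := (hgt.comp hft1).congr' hgf
  exact toC_unique hDo hC1 hC le_rfl h3

end Pool.Agent.H762R2
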