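import Pool.Agent.H762R2.Slit2

set_option autoImplicit false

open Set Filter Topology Metric MeasureTheory Complex
open scoped OnePoint Real

namespace Pool.Agent.H762R2

open Pool.Agent.Helper405.Conv (inv_facts deriv_ne_zero_of_injOn)

theorem norm_gt_subset {W : Set ℂ} {R : ℝ} (hR : 0 ≤ R) (hsub : W ⊆ closedBall 0 R) :
    ((↑) : ℂ → OnePoint ℂ) '' {w : ℂ | R < ‖w‖} ⊆ connectedComponentIn (sc W) ∞ := by
  apply subset_comp_infty (isPreconnected_norm_gt R hR)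
  · have := infty_mem_closure_of_tendsto (Φ := fun w => w) tendsto_id (ev_norm_gt R)
    simpa using this
  · rw [Set.disjoint_left]
    intro w hw hwW
    have h1 := mem_closedBall_zero_iff.1 (hsub hwW)
    have h2 : R < ‖w‖ := hw
    linarith

/-- existence of circular slit maps -/
theorem exist_slit {Ω : Set ℂ} (hΩ : IsOpen Ω) (hc : IsConnected Ω) (h0 : (0 : ℂ) ∈ Ω)
    {u : ℂ} (hu : (u : OnePoint ℂ) ∈ connectedComponentIn (sc Ω) ∞) :
    ∃ (F : ℂ → ℂ) (R : ℝ), 0 < R ∧ Adm Ω F ∧ F '' Ω ⊆ ball 0 R ∧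
      pl (connectedComponentIn (sc (F '' Ω)) ∞) = ball 0 R ∧
      ∀ x ∈ sc (F '' Ω), (∞ : OnePoint ℂ) ∉ connectedComponentIn (sc (F '' Ω)) x →
        ∃ ρ : ℝ, ∀ w : ℂ, (w : OnePoint ℂ) ∈ connectedComponentIn (sc (F '' Ω)) x → ‖w‖ = ρ := by
  set S : Set ℝ := {M | ∃ F, Adm Ω F ∧ ∀ w ∈ Ω, ‖F w‖ ≤ M} with hS
  have hSne : S.Nonempty := by
    obtain ⟨g, ρ, hρ, hg, hgi, hVU, -, -⟩ := fill_facts hΩ hc h0 hu
    refine ⟨ρ, g, hg.mono hVU, fun w hw => ?_⟩
    have h1 : g w ∈ ball (0 : ℂ) ρ := hgi ▸ ⟨_, hVU hw, rfl⟩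
    exact (mem_ball_zero_iff.1 h1).le
  have hSb : BddBelow S := by
    refine ⟨0, ?_⟩
    rintro M ⟨F, -, hM⟩
    exact (norm_nonneg _).trans (hM 0 h0)
  obtain ⟨M, hMa, hMt, hMS⟩ := exists_seq_tendsto_sInf hSne hSb
  choose Fn hFn hMn using hMS
  obtain ⟨F, hF, hFR⟩ := adm_limit hΩ hc.isPreconnected h0 hFn hMn hMt
  set R := sInf S with hR
  have hmin : ∀ M' ∈ S, R ≤ M' := fun M' hM' => csInf_le hSb hM'
  set W := F '' Ω with hW
  have hWo : IsOpen W := (inv_facts hΩ hF.diff hF.1).1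
  have hWc : IsConnected W := hc.image _ hF.diff.continuousOn
  have h0W : (0 : ℂ) ∈ W := ⟨0, h0, hF.zero h0⟩
  have hWcl : W ⊆ closedBall 0 R := by
    rintro _ ⟨w, hw, rfl⟩
    exact mem_closedBall_zero_iff.2 (hFR w hw)
  have hRpos : 0 < R := by
    by_contra hcon
    push Not at hcon
    obtain ⟨r, hr, hrW⟩ := Metric.isOpen_iff.1 hWo 0 h0W
    have h1 : ((r / 2 : ℝ) : ℂ) ∈ W := by
      apply hrW
      rw [mem_ball_zero_iff, Complex.norm_real, Real.norm_of_nonneg (by positivity)]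
      linarith
    have h2 := mem_closedBall_zero_iff.1 (hWcl h1)
    rw [Complex.norm_real, Real.norm_of_nonneg (by positivity)] at h2
    linarith
  have hWsub : W ⊆ ball 0 R := by
    rw [← interior_closedBall (0 : ℂ) hRpos.ne']
    exact interior_maximal hWcl hWo
  have hgt := norm_gt_subset hRpos.le hWcl
  obtain ⟨w0, hw0⟩ : {w : ℂ | R < ‖w‖}.Nonempty := (ev_norm_gt R).exists
  obtain ⟨g, ρ, hρ, hg, hgi, hVU, hvol, heq⟩ := fill_facts hWo hWc h0W (hgt ⟨w0, hw0, rfl⟩)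
  have hRρ : R ≤ ρ := by
    apply hmin
    refine ⟨fun w => g (F w), hF.comp (hg.mono hVU) h0, fun w hw => ?_⟩
    have h1 : g (F w) ∈ ball (0 : ℂ) ρ := hgi ▸ ⟨_, hVU ⟨w, hw, rfl⟩, rfl⟩
    exact (mem_ball_zero_iff.1 h1).le
  have hvol2 : volume (pl (connectedComponentIn (sc W) ∞)) ≤ ENNReal.ofReal (π * R ^ 2) := by
    have h1 : pl (connectedComponentIn (sc W) ∞) ⊆ closedBall (0 : ℂ) R := by
      intro v hv
      rw [mem_closedBall_zero_iff]
      by_contra hcon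
      push Not at hcon
      exact hv (hgt ⟨v, hcon, rfl⟩)
    refine (measure_mono h1).trans ?_
    rw [Complex.volume_closedBall, ENNReal.ofReal_mul Real.pi_pos.le, mul_comm,
      ENNReal.ofReal_pow hRpos.le]
    apply le_of_eq
    congr 1
    rw [← NNReal.coe_real_pi, ENNReal.ofReal_coe_nnreal]
  have h2 : ρ ≤ R := by
    have h3 := hvol.trans hvol2
    rw [ENNReal.ofReal_le_ofReal_iff (by positivity)] at h3
    exact (sq_le_sq₀ hρ.le hRpos.le).1 (le_of_mul_le_mul_left h3 Real.pi_pos)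
  have hρR : ρ = R := le_antisymm h2 hRρ
  subst hρR
  refine ⟨F, R, hρ, hF, hWsub, heq (le_antisymm hvol2 hvol), ?_⟩
  intro x hx hxinf
  by_contra hcon
  have hnt : (connectedComponentIn (sc W) x).Nontrivial := by
    rw [← Set.not_subsingleton_iff]
    intro hsub
    apply hcon
    by_cases hex : ∃ v : ℂ, (v : OnePoint ℂ) ∈ connectedComponentIn (sc W) x
    · obtain ⟨v, hv⟩ := hex
      refine ⟨‖v‖, fun w hw => ?_⟩
      rw [OnePoint.coe_injective (hsub hw hv)]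
    · push Not at hex
      exact ⟨0, fun w hw => absurd hw (hex w)⟩
  obtain ⟨G, R', hR', hG, hGb⟩ := improve_slit hWo hWc h0W hρ hWsub hx hxinf hnt hcon
  have h3 : R ≤ R' := by
    apply hmin
    exact ⟨fun w => G (F w), hF.comp hG h0, fun w hw => hGb _ ⟨w, hw, rfl⟩⟩
  linarith

end Pool.Agent.H762R2
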