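import Pool.Agent.H762R2.Adm

set_option autoImplicit false

open Set Filter Topology Metric MeasureTheory Complex
open scoped ENNReal Real

namespace Pool.Agent.H762R2

theorem exp_bound {Ω : Set ℂ} {ψ F : ℂ → ℂ} {M δ : ℝ} (hδ : 0 < δ)
    (hδΩ : closedBall (0 : ℂ) δ ⊆ Ω) (hψ : DifferentiableOn ℂ ψ Ω)
    (hF : ∀ w ∈ Ω, F w = w * exp (ψ w)) (hM : ∀ w ∈ Ω, ‖F w‖ ≤ M) :
    ∀ w ∈ Ω, ‖exp (ψ w)‖ ≤ M / δ := by
  have h1 : ∀ w ∈ Ω, δ ≤ ‖w‖ → ‖exp (ψ w)‖ ≤ M / δ := by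
    intro w hw hδw
    have h2 := hM w hw
    rw [hF w hw, norm_mul] at h2
    rw [le_div_iff₀ hδ]
    nlinarith [norm_nonneg (exp (ψ w))]
  intro w hw
  by_cases hδw : δ ≤ ‖w‖
  · exact h1 w hw hδw
  · push Not at hδw
    have hd : DiffContOnCl ℂ (fun z => exp (ψ z)) (ball 0 δ) := by
      apply DifferentiableOn.diffContOnCl
      rw [closure_ball 0 hδ.ne']
      exact (hψ.mono hδΩ).cexp
    apply Complex.norm_le_of_forall_mem_frontier_norm_le isBounded_ball hd _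
      (subset_closure (mem_ball_zero_iff.2 hδw))
    intro z hz
    rw [frontier_ball 0 hδ.ne'] at hz
    apply h1 z (hδΩ (sphere_subset_closedBall hz))
    rw [mem_sphere_zero_iff_norm] at hz
    exact hz.ge

theorem adm_limit {Ω : Set ℂ} (hΩ : IsOpen Ω) (hc : IsPreconnected Ω) (h0 : (0 : ℂ) ∈ Ω)
    {F : ℕ → ℂ → ℂ} {M : ℕ → ℝ} {R : ℝ} (hF : ∀ n, Adm Ω (F n))
    (hM : ∀ n, ∀ w ∈ Ω, ‖F n w‖ ≤ M n) (hlim : Tendsto M atTop (𝓝 R)) :
    ∃ G, Adm Ω G ∧ ∀ w ∈ Ω, ‖G w‖ ≤ R := by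
  obtain ⟨M0, hM0⟩ : ∃ M0, ∀ n, M n ≤ M0 := by
    obtain ⟨M0, hM0⟩ := hlim.bddAbove_range
    exact ⟨M0, fun n => hM0 ⟨n, rfl⟩⟩
  obtain ⟨δ, hδ, hδΩ⟩ : ∃ δ > 0, closedBall (0 : ℂ) δ ⊆ Ω :=
    Metric.nhds_basis_closedBall.mem_iff.1 (hΩ.mem_nhds h0)
  have hinj : ∀ n, InjOn (F n) Ω := fun n => (hF n).1
  have hdF : ∀ n, DifferentiableOn ℂ (F n) Ω := fun n => (hF n).diff
  choose hi ψ hψ hψ0 hFe using hF
  have hMF : ∀ n, ∀ w ∈ Ω, ‖F n w‖ ≤ M0 := fun n w hw => (hM n w hw).trans (hM0 n)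
  have hexp : ∀ n, ∀ w ∈ Ω, ‖exp (ψ n w)‖ ≤ M0 / δ := fun n =>
    exp_bound hδ hδΩ (hψ n) (hFe n) (hMF n)
  have hpos : 0 < M0 / δ := lt_of_lt_of_le (norm_pos_iff.2 (exp_ne_zero _)) (hexp 0 0 h0)
  set C : ℝ := Real.log (M0 / δ) with hC
  have hre : ∀ n, ∀ w ∈ Ω, (ψ n w).re ≤ C := by
    intro n w hw
    have h1 := hexp n w hw
    rw [norm_exp] at h1
    rw [hC, Real.le_log_iff_exp_le hpos]
    exact h1
  have hden : ∀ n, ∀ w ∈ Ω, 1 ≤ ‖((C + 1 : ℝ) : ℂ) - ψ n w‖ := by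
    intro n w hw
    have h1 : (((C + 1 : ℝ) : ℂ) - ψ n w).re = C + 1 - (ψ n w).re := by simp
    have h2 := (((C + 1 : ℝ) : ℂ) - ψ n w).re_le_norm
    have h3 := hre n w hw
    linarith
  have hden0 : ∀ n, ∀ w ∈ Ω, ((C + 1 : ℝ) : ℂ) - ψ n w ≠ 0 := by
    intro n w hw h
    have := hden n w hw
    rw [h, norm_zero] at this
    linarith
  set μ : ℕ → ℂ → ℂ := fun n w => (((C + 1 : ℝ) : ℂ) - ψ n w)⁻¹ with hμ
  have hμd : ∀ n, DifferentiableOn ℂ (μ n) Ω := fun n =>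
    ((differentiableOn_const _).sub (hψ n)).inv (hden0 n)
  have hμb : ∀ n, ∀ w ∈ Ω, ‖μ n w‖ ≤ 1 := by
    intro n w hw
    simp only [hμ]
    rw [norm_inv]
    exact inv_le_one_of_one_le₀ (hden n w hw)
  -- ultrafilter limit
  set l : Ultrafilter ℕ := Filter.hyperfilter ℕ with hl
  have hle : (l : Filter ℕ) ≤ atTop := by
    rw [← Nat.cofinite_eq_atTop]; exact Filter.hyperfilter_le_cofinite
  have hpt : ∀ z ∈ Ω, ∃ y : ℂ, Tendsto (fun n => μ n z) l (𝓝 y) := by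
    intro z hz
    have hcomp : IsCompact (closedBall (0 : ℂ) 1) := isCompact_closedBall _ _
    have hmem : (Ultrafilter.map (fun n => μ n z) l : Filter ℂ) ≤ 𝓟 (closedBall (0 : ℂ) 1) := by
      rw [le_principal_iff]
      show (fun n => μ n z) ⁻¹' (closedBall (0 : ℂ) 1) ∈ (l : Filter ℕ)
      apply Filter.univ_mem'
      intro n
      exact mem_closedBall_zero_iff.2 (hμb n z hz)
    obtain ⟨y, _, hy⟩ := hcomp.ultrafilter_le_nhds _ hmem
    exact ⟨y, hy⟩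
  classical
  choose! ν hν using hpt
  have htlu : TendstoLocallyUniformlyOn μ ν (l : Filter ℕ) Ω :=
    ZFM.J_c4.tlu_of_pointwise hΩ hμd hμb hν
  have hνd : DifferentiableOn ℂ ν Ω := htlu.differentiableOn (Eventually.of_forall hμd) hΩ
  have hC1 : ((C + 1 : ℝ) : ℂ) ≠ 0 := by
    have := hden0 0 0 h0
    rwa [hψ0, sub_zero] at this
  have hν0 : ν 0 = (((C + 1 : ℝ) : ℂ))⁻¹ := by
    apply tendsto_nhds_unique (hν 0 h0)
    have : (fun n => μ n 0) = fun _ => (((C + 1 : ℝ) : ℂ))⁻¹ := by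
      funext n
      simp only [hμ, hψ0, sub_zero]
    rw [this]
    exact tendsto_const_nhds
  have hνne : ∀ z ∈ Ω, ν z ≠ 0 := by
    intro z hz h
    have hev := ZFM.J_c4.hurwitz (l := (l : Filter ℕ)) hΩ hμd htlu
      (fun n w hw => inv_ne_zero (hden0 n w hw)) hz h
    have hana : AnalyticOnNhd ℂ ν Ω := hνd.analyticOnNhd hΩ
    have := hana.eqOn_zero_of_preconnected_of_eventuallyEq_zero hc hz hev h0
    rw [hν0] at this
    exact inv_ne_zero hC1 this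
  set Ψ : ℂ → ℂ := fun w => ((C + 1 : ℝ) : ℂ) - (ν w)⁻¹ with hΨ
  have hΨd : DifferentiableOn ℂ Ψ Ω := (differentiableOn_const _).sub (hνd.inv hνne)
  have hΨlim : ∀ w ∈ Ω, Tendsto (fun n => ψ n w) l (𝓝 (Ψ w)) := by
    intro w hw
    have h1 := ((hν w hw).inv₀ (hνne w hw)).const_sub ((C + 1 : ℝ) : ℂ)
    refine h1.congr ?_
    intro n
    simp only [hμ, inv_inv]
    ring
  set G : ℂ → ℂ := fun w => w * exp (Ψ w) with hG
  have hGlim : ∀ w ∈ Ω, Tendsto (fun n => F n w) l (𝓝 (G w)) := by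
    intro w hw
    have h1 := (((hΨlim w hw).cexp).const_mul w)
    refine h1.congr ?_
    intro n
    exact (hFe n w hw).symm
  have hGd : DifferentiableOn ℂ G Ω := differentiableOn_id.mul hΨd.cexp
  have hΨ0 : Ψ 0 = 0 := by
    simp only [hΨ]
    rw [hν0, inv_inv, sub_self]
  refine ⟨G, ⟨?_, Ψ, hΨd, hΨ0, fun w _ => rfl⟩, ?_⟩
  · intro z hz w hw hzw
    by_contra hne
    have hV : IsOpen (Ω \ {w}) := hΩ.sdiff isClosed_singleton
    have hzV : z ∈ Ω \ {w} := ⟨hz, hne⟩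
    have htlu' : TendstoLocallyUniformlyOn (fun n x => F n x - F n w) (fun x => G x - G w)
        (l : Filter ℕ) (Ω \ {w}) := by
      apply ZFM.J_c4.tlu_of_pointwise (M := 2 * M0) hV
      · intro n
        exact ((hdF n).mono sdiff_subset).sub_const _
      · intro n x hx
        have h1 := hMF n x hx.1
        have h2 := hMF n w hw
        have h3 := norm_sub_le (F n x) (F n w)
        linarith
      · intro x hx
        exact (hGlim x hx.1).sub (hGlim w hw)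
    have hev := ZFM.J_c4.hurwitz (l := (l : Filter ℕ)) hV (F := fun n x => F n x - F n w)
      (f := fun x => G x - G w)
      (fun n => ((hdF n).mono sdiff_subset).sub_const _) htlu'
      (fun n x hx h0 => hx.2 ((hinj n) hx.1 hw (by linear_combination h0))) hzV
      (by simp [hzw])
    have hana : AnalyticOnNhd ℂ G Ω := hGd.analyticOnNhd hΩ
    have hana'' : AnalyticOnNhd ℂ (fun x => G x - G w) Ω := hana.sub analyticOnNhd_const
    have heq := hana''.eqOn_zero_of_preconnected_of_eventuallyEq_zero hc hz hev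
    have h1 := heq h0
    have hδ' : ((δ : ℝ) : ℂ) ∈ Ω := by
      apply hδΩ
      rw [mem_closedBall_zero_iff, Complex.norm_real, Real.norm_of_nonneg hδ.le]
    have h2 := heq hδ'
    have h3 : G 0 = 0 := by simp [hG]
    simp only [Pi.zero_apply, h3] at h1 h2
    have h4 : G ((δ : ℝ) : ℂ) = 0 := by linear_combination h2 - h1
    simp only [hG] at h4
    rcases mul_eq_zero.1 h4 with h5 | h5
    · exact hδ.ne' (by exact_mod_cast h5)
    · exact exp_ne_zero _ h5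
  · intro w hw
    exact le_of_tendsto_of_tendsto ((hGlim w hw).norm) (hlim.mono_left hle)
      (Eventually.of_forall fun n => hM n w hw)

end Pool.Agent.H762R2
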