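import Pool.Agent.H762R2.Wind2
import Pool.Agent.H762R2.Exist

set_option autoImplicit false

open Set Filter Topology Metric MeasureTheory Complex
open scoped OnePoint Real

namespace Pool.Agent.H762R2

open Pool.Agent.Helper405.Conv (inv_facts deriv_ne_zero_of_injOn)

/-- the closed circular arc `{r e^{iθ} : α ≤ θ ≤ β}` (a point if `α = β`) -/
def arc (r α β : ℝ) : Set ℂ := (fun θ : ℝ => (r : ℂ) * exp (θ * I)) '' Icc α β

/-- circular slit disc of radius `R` with `m` slits: the disc `|w| < R` minus `m` pairwise disjoint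
closed arcs of circles centred at the origin (an arc may be a single point) -/
def IsSlitDisc (W : Set ℂ) (R : ℝ) (m : ℕ) : Prop :=
  0 < R ∧ ∃ r α β : Fin m → ℝ,
    (∀ i, 0 < r i ∧ r i < R ∧ α i ≤ β i ∧ β i < α i + 2 * π) ∧
    (∀ i j, i ≠ j → Disjoint (arc (r i) (α i) (β i)) (arc (r j) (α j) (β j))) ∧
    W = ball 0 R \ ⋃ i, arc (r i) (α i) (β i)

theorem isCompact_arc (r α β : ℝ) : IsCompact (arc r α β) := by
  apply isCompact_Icc.image
  fun_prop

theorem isConnected_arc {r α β : ℝ} (h : α ≤ β) : IsConnected (arc r α β) := by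
  apply (isConnected_Icc h).image
  fun_prop

theorem norm_of_mem_arc {r α β : ℝ} (hr : 0 ≤ r) {w : ℂ} (hw : w ∈ arc r α β) : ‖w‖ = r := by
  obtain ⟨θ, -, rfl⟩ := hw
  exact norm_pc hr θ

/-- a connected compact proper subset of a circle is an arc -/
theorem arc_of_conn {A : Set ℂ} (hA : IsCompact A) (hAc : IsConnected A) {ρ : ℝ} (hρ : 0 < ρ)
    (hAρ : ∀ w ∈ A, ‖w‖ = ρ) {w0 : ℂ} (hw0 : ‖w0‖ = ρ) (h : w0 ∉ A) :
    ∃ α β : ℝ, α ≤ β ∧ β < α + 2 * π ∧ A = arc ρ α β := by
  set θ0 := w0.arg with hθ0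
  have hw0e : w0 = (ρ : ℂ) * exp (θ0 * I) := by
    rw [← hw0]
    exact (norm_mul_exp_arg_mul_I w0).symm
  set v : ℂ → ℂ := fun w => -w * exp (-(θ0 * I)) with hv
  have hvn : ∀ w ∈ A, ‖v w‖ = ρ := by
    intro w hw
    simp only [hv]
    have : -((θ0 : ℂ) * I) = ((-θ0 : ℝ) : ℂ) * I := by push_cast; ring
    rw [norm_mul, norm_neg, hAρ w hw, this, norm_exp_ofReal_mul_I, mul_one]
  have hvw : ∀ w, w = -(v w) * exp (θ0 * I) := by
    intro w
    simp only [hv]
    have h1 : exp (-((θ0 : ℂ) * I)) * exp (θ0 * I) = 1 := by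
      rw [← exp_add, neg_add_cancel, exp_zero]
    linear_combination (-w) * h1
  have hslit : ∀ w ∈ A, v w ∈ slitPlane := by
    intro w hw
    rw [mem_slitPlane_iff_arg]
    have hne : v w ≠ 0 := norm_pos_iff.1 (by rw [hvn w hw]; exact hρ)
    refine ⟨fun harg => ?_, hne⟩
    apply h
    have h1 : v w = -(ρ : ℂ) := by
      rw [← norm_mul_exp_arg_mul_I (v w), harg, hvn w hw, exp_pi_mul_I]
      ring
    have h2 := hvw w
    rw [h1, neg_neg, ← hw0e] at h2
    rw [← h2]
    exact hw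
  set ang : ℂ → ℝ := fun w => θ0 + π + (v w).arg with hang
  have hcont : ContinuousOn ang A := by
    intro w hw
    apply ContinuousAt.continuousWithinAt
    apply ContinuousAt.add continuousAt_const
    apply ContinuousAt.comp (g := arg) (continuousAt_arg (hslit w hw))
    simp only [hv]
    fun_prop
  have hwe : ∀ w ∈ A, w = (ρ : ℂ) * exp (ang w * I) := by
    intro w hw
    simp only [hang]
    have h1 : (((θ0 + π + (v w).arg : ℝ) : ℂ)) * I = (θ0 : ℂ) * I + (π * I + (v w).arg * I) := by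
      push_cast; ring
    rw [h1, exp_add, exp_add, exp_pi_mul_I]
    have h2 := norm_mul_exp_arg_mul_I (v w)
    rw [hvn w hw] at h2
    have h3 := hvw w
    linear_combination h3 + exp (θ0 * I) * h2
  have himg := eq_Icc_of_connected_compact (hAc.image ang hcont) (hA.image_of_continuousOn hcont)
  set α := sInf (ang '' A) with hα
  set β := sSup (ang '' A) with hβ
  have hne : (Icc α β).Nonempty := himg ▸ hAc.nonempty.image ang
  have hαβ : α ≤ β := nonempty_Icc.1 hne
  have hαm : α ∈ ang '' A := by rw [himg]; exact left_mem_Icc.2 hαβ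
  have hβm : β ∈ ang '' A := by rw [himg]; exact right_mem_Icc.2 hαβ
  refine ⟨α, β, hαβ, ?_, ?_⟩
  · obtain ⟨w1, hw1, h1⟩ := hαm
    obtain ⟨w2, hw2, h2⟩ := hβm
    have h3 : -π < (v w1).arg := neg_pi_lt_arg _
    have h4 : (v w2).arg < π := by
      have h5 := (mem_slitPlane_iff_arg.1 (hslit w2 hw2)).1
      exact lt_of_le_of_ne (arg_le_pi _) h5
    simp only [hang] at h1 h2
    linarith
  · ext w
    constructor
    · intro hw
      refine ⟨ang w, ?_, (hwe w hw).symm⟩
      rw [← himg]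
      exact ⟨w, hw, rfl⟩
    · rintro ⟨θ, hθ, rfl⟩
      rw [← himg] at hθ
      obtain ⟨w, hw, rfl⟩ := hθ
      show (ρ : ℂ) * exp (ang w * I) ∈ A
      rw [← hwe w hw]
      exact hw

/-- components of a finite closed partition into connected pieces -/
theorem comps_of_partition {W : Set ℂ} {k : ℕ} (A : Fin k → Set (OnePoint ℂ))
    (hcl : ∀ i, IsClosed (A i)) (hc : ∀ i, IsConnected (A i))
    (hd : ∀ i j, i ≠ j → Disjoint (A i) (A j)) (hU : (⋃ i, A i) = sc W) :
    comps W = range A ∧ (comps W).encard = k := by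
  classical
  have key : ∀ i, ∀ x ∈ A i, connectedComponentIn (sc W) x = A i := by
    intro i x hx
    have hxs : x ∈ sc W := by rw [← hU]; exact mem_iUnion.2 ⟨i, hx⟩
    apply Subset.antisymm
    · set B : Set (OnePoint ℂ) := ⋃ j ∈ (Finset.univ.erase i), A j with hB
      have hBc : IsClosed B := isClosed_biUnion_finset fun j _ => hcl j
      have hAB : Disjoint (A i) B := by
        rw [hB, Set.disjoint_iUnion₂_right]
        intro j hj
        exact hd i j (Finset.ne_of_mem_erase hj).symm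
      have hsub : connectedComponentIn (sc W) x ⊆ A i ∪ B := by
        intro y hy
        have hy' := connectedComponentIn_subset _ _ hy
        rw [← hU] at hy'
        obtain ⟨j, hj⟩ := mem_iUnion.1 hy'
        by_cases hji : j = i
        · left; rwa [← hji]
        · right
          rw [hB]
          exact mem_biUnion (Finset.mem_erase.2 ⟨hji, Finset.mem_univ j⟩) hj
      rcases (isPreconnected_iff_subset_of_disjoint_closed.1 isPreconnected_connectedComponentIn)
        (A i) B (hcl i) hBc hsub (by rw [hAB.inter_eq, inter_empty]) with h | h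
      · exact h
      · exact absurd (h (mem_connectedComponentIn hxs)) (Set.disjoint_left.1 hAB hx)
    · apply (hc i).isPreconnected.subset_connectedComponentIn hx
      rw [← hU]
      exact subset_iUnion A i
  have hrange : comps W = range A := by
    ext C
    constructor
    · rintro ⟨x, hx, rfl⟩
      have hx' := hx
      rw [← hU] at hx'
      obtain ⟨i, hi⟩ := mem_iUnion.1 hx'
      exact ⟨i, (key i x hi).symm⟩
    · rintro ⟨i, rfl⟩
      obtain ⟨x, hx⟩ := (hc i).nonempty
      refine ⟨x, ?_, (key i x hx).symm⟩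
      rw [← hU]
      exact mem_iUnion.2 ⟨i, hx⟩
  refine ⟨hrange, ?_⟩
  have hinj : Function.Injective A := by
    intro i j hij
    by_contra hne
    have h1 := hd i j hne
    rw [hij] at h1
    obtain ⟨x, hx⟩ := (hc j).nonempty
    exact Set.disjoint_left.1 h1 hx hx
  rw [hrange, ← image_univ, hinj.encard_image, Set.encard_univ]
  simp

theorem outer_facts {R : ℝ} (hR : 0 < R) :
    IsClosed ((((↑) : ℂ → OnePoint ℂ) '' ball (0 : ℂ) R)ᶜ) ∧
    IsConnected ((((↑) : ℂ → OnePoint ℂ) '' ball (0 : ℂ) R)ᶜ) := by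
  have hcl : IsClosed ((((↑) : ℂ → OnePoint ℂ) '' ball (0 : ℂ) R)ᶜ) :=
    (OnePoint.isOpenEmbedding_coe.isOpenMap _ isOpen_ball).isClosed_compl
  refine ⟨hcl, ⟨∞, fun ⟨w, _, h⟩ => OnePoint.coe_ne_infty w h⟩, ?_⟩
  have h1 : IsPreconnected (((↑) : ℂ → OnePoint ℂ) '' {w : ℂ | R < ‖w‖}) :=
    (isPreconnected_norm_gt R hR.le).image _ OnePoint.continuous_coe.continuousOn
  apply h1.subset_closure
  · rintro _ ⟨w, hw, rfl⟩ ⟨v, hv, he⟩
    rw [OnePoint.coe_injective he] at hv
    have h2 : R < ‖w‖ := hw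
    rw [mem_ball_zero_iff] at hv
    linarith
  · intro x hx
    induction x using OnePoint.rec with
    | infty =>
      have := infty_mem_closure_of_tendsto (Φ := fun w => w) tendsto_id (ev_norm_gt R)
      simpa using this
    | coe w =>
      have hw : w ∉ ball (0 : ℂ) R := fun h => hx ⟨w, h, rfl⟩
      have h2 : w ∈ closure {w : ℂ | R < ‖w‖} := by
        have h3 : {w : ℂ | R < ‖w‖} = (closedBall (0 : ℂ) R)ᶜ := by
          ext v
          simp
        rw [h3, closure_compl, interior_closedBall (0 : ℂ) hR.ne']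
        exact hw
      exact image_closure_subset_closure_image OnePoint.continuous_coe ⟨w, h2, rfl⟩

theorem slit_facts {W : Set ℂ} {R : ℝ} {m : ℕ} (h : IsSlitDisc W R m) :
    IsOpen W ∧ (0 : ℂ) ∈ W ∧ W ⊆ ball 0 R ∧ volume W = ENNReal.ofReal (π * R ^ 2) ∧
      (comps W).encard = (m + 1 : ℕ) ∧ Kinf W = (((↑) : ℂ → OnePoint ℂ) '' ball (0 : ℂ) R)ᶜ ∧
      ∃ T : Set ℝ, T.Finite ∧ ∀ w : ℂ, ‖w‖ < R → ‖w‖ ∉ T → w ∈ W := by
  obtain ⟨hR, r, α, β, h1, h2, rfl⟩ := h
  have hE : IsClosed (⋃ i, arc (r i) (α i) (β i)) :=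
    isClosed_iUnion_of_finite fun i => (isCompact_arc _ _ _).isClosed
  have h0 : (0 : ℂ) ∉ ⋃ i, arc (r i) (α i) (β i) := by
    intro h
    obtain ⟨i, hi⟩ := mem_iUnion.1 h
    have := norm_of_mem_arc (h1 i).1.le hi
    rw [norm_zero] at this
    exact (h1 i).1.ne this
  have hvol : volume (ball (0 : ℂ) R \ ⋃ i, arc (r i) (α i) (β i)) = ENNReal.ofReal (π * R ^ 2) := by
    have hnull : volume (⋃ i, arc (r i) (α i) (β i)) = 0 := by
      rw [measure_iUnion_null_iff]
      intro i
      refine measure_mono_null (t := sphere (0 : ℂ) (r i)) ?_ (Measure.addHaar_sphere _ _ _)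
      intro w hw
      rw [mem_sphere_zero_iff_norm]
      exact norm_of_mem_arc (h1 i).1.le hw
    rw [measure_sdiff_null hnull, Complex.volume_ball, ENNReal.ofReal_mul Real.pi_pos.le, mul_comm,
      ENNReal.ofReal_pow hR.le]
    congr 1
    rw [← NNReal.coe_real_pi, ENNReal.ofReal_coe_nnreal]
  obtain ⟨ho1, ho2⟩ := outer_facts hR
  set W : Set ℂ := ball 0 R \ ⋃ i, arc (r i) (α i) (β i) with hW
  set O : Set (OnePoint ℂ) := (((↑) : ℂ → OnePoint ℂ) '' ball (0 : ℂ) R)ᶜ with hO
  set A : Fin (m + 1) → Set (OnePoint ℂ) :=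
    Fin.cons O (fun i => ((↑) : ℂ → OnePoint ℂ) '' arc (r i) (α i) (β i)) with hA
  have hA0 : A 0 = O := rfl
  have hAs : ∀ i : Fin m, A i.succ = ((↑) : ℂ → OnePoint ℂ) '' arc (r i) (α i) (β i) := fun i => rfl
  have harcO : ∀ i, Disjoint O (((↑) : ℂ → OnePoint ℂ) '' arc (r i) (α i) (β i)) := by
    intro i
    rw [hO, Set.disjoint_compl_left_iff_subset]
    apply image_mono
    intro w hw
    rw [mem_ball_zero_iff, norm_of_mem_arc (h1 i).1.le hw]
    exact (h1 i).2.1
  have hcl : ∀ i, IsClosed (A i) := by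
    intro i
    refine Fin.cases ?_ ?_ i
    · exact ho1
    · intro i
      rw [hAs]
      exact ((isCompact_arc _ _ _).image OnePoint.continuous_coe).isClosed
  have hc : ∀ i, IsConnected (A i) := by
    intro i
    refine Fin.cases ?_ ?_ i
    · exact ho2
    · intro i
      rw [hAs]
      exact (isConnected_arc (h1 i).2.2.1).image _ OnePoint.continuous_coe.continuousOn
  have hd : ∀ i j, i ≠ j → Disjoint (A i) (A j) := by
    intro i
    refine Fin.cases ?_ ?_ i
    · intro j
      refine Fin.cases ?_ ?_ j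
      · intro h; exact absurd rfl h
      · intro j _
        rw [hAs]
        exact harcO j
    · intro i j
      refine Fin.cases ?_ ?_ j
      · intro _
        rw [hAs]
        exact (harcO i).symm
      · intro j hij
        rw [hAs, hAs]
        exact (disjoint_image_iff OnePoint.coe_injective).2 (h2 i j fun h => hij (by rw [h]))
  have hU : (⋃ i, A i) = sc W := by
    ext x
    constructor
    · intro hx
      obtain ⟨i, hi⟩ := mem_iUnion.1 hx
      revert hi
      refine Fin.cases ?_ ?_ i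
      · intro hi
        rintro ⟨w, hw, rfl⟩
        exact hi ⟨w, hw.1, rfl⟩
      · intro i hi
        rw [hAs] at hi
        obtain ⟨w, hw, rfl⟩ := hi
        rw [coe_mem_sc]
        intro hwW
        exact hwW.2 (mem_iUnion.2 ⟨i, hw⟩)
    · intro hx
      by_cases hxO : x ∈ O
      · exact mem_iUnion.2 ⟨0, hxO⟩
      · rw [hO, Set.notMem_compl_iff] at hxO
        obtain ⟨w, hw, rfl⟩ := hxO
        rw [coe_mem_sc] at hx
        have h3 : w ∈ ⋃ i, arc (r i) (α i) (β i) := by
          by_contra hcon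
          exact hx ⟨hw, hcon⟩
        obtain ⟨i, hi⟩ := mem_iUnion.1 h3
        refine mem_iUnion.2 ⟨i.succ, ?_⟩
        rw [hAs]
        exact ⟨w, hi, rfl⟩
  obtain ⟨hr, hcard⟩ := comps_of_partition A hcl hc hd hU
  refine ⟨isOpen_ball.sdiff hE, ⟨mem_ball_self hR, h0⟩, sdiff_subset, hvol, hcard, ?_, ?_⟩
  · have hK := Kinf_mem W
    rw [hr] at hK
    obtain ⟨i, hi⟩ := hK
    have hinf : (∞ : OnePoint ℂ) ∈ A i := hi ▸ infty_mem_Kinf W
    have hinf0 : (∞ : OnePoint ℂ) ∈ A 0 := by
      rintro ⟨w, _, h⟩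
      exact OnePoint.coe_ne_infty w h
    have hi0 : i = 0 := by
      by_contra hne
      exact Set.disjoint_left.1 (hd i 0 hne) hinf hinf0
    rw [← hi, hi0, hA0]
  · refine ⟨range r, finite_range r, fun w hw hwT => ⟨mem_ball_zero_iff.2 hw, ?_⟩⟩
    intro h3
    obtain ⟨i, hi⟩ := mem_iUnion.1 h3
    exact hwT ⟨i, (norm_of_mem_arc (h1 i).1.le hi).symm⟩

/-- recognising circular slit discs -/
theorem isSlitDisc_of {W : Set ℂ} (hW : IsOpen W) (hWc : IsConnected W) (h0 : (0 : ℂ) ∈ W) {n : ℕ}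
    (hn : (comps W).encard = n) {R : ℝ} (hR : 0 < R) (hsub : W ⊆ ball 0 R)
    (hpl : pl (Kinf W) = ball 0 R)
    (hcirc : ∀ x ∈ sc W, (∞ : OnePoint ℂ) ∉ connectedComponentIn (sc W) x →
        ∃ ρ : ℝ, ∀ w : ℂ, (w : OnePoint ℂ) ∈ connectedComponentIn (sc W) x → ‖w‖ = ρ) :
    IsSlitDisc W R (n - 1) := by
  classical
  have hKW := Kinf_mem W
  have hKc : (comps W \ {Kinf W}).encard = (n - 1 : ℕ) := by
    have h1 := Set.encard_sdiff_singleton_of_mem hKW
    rw [hn] at h1
    rw [h1]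
    norm_cast
  have hfin : (comps W \ {Kinf W}).Finite := Set.finite_of_encard_eq_coe hKc
  have hncard : (comps W \ {Kinf W}).ncard = n - 1 := by
    rw [Set.ncard, hKc]; rfl
  have := hfin.to_subtype
  have := Fintype.ofFinite ↥(comps W \ {Kinf W})
  have hcard : Fintype.card ↥(comps W \ {Kinf W}) = n - 1 := by
    rw [← Nat.card_eq_fintype_card, Nat.card_coe_set_eq, hncard]
  let e : Fin (n - 1) ≃ ↥(comps W \ {Kinf W}) := (Fintype.equivFinOfCardEq hcard).symm
  have hA : IsConnected (((↑) : ℂ → OnePoint ℂ) '' W) :=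
    hWc.image _ OnePoint.continuous_coe.continuousOn
  have hAo : IsOpen (((↑) : ℂ → OnePoint ℂ) '' W) := OnePoint.isOpenEmbedding_coe.isOpenMap W hW
  have key : ∀ C ∈ comps W \ {Kinf W}, ∃ ρ α β : ℝ, (0 < ρ ∧ ρ < R ∧ α ≤ β ∧ β < α + 2 * π) ∧
      C = ((↑) : ℂ → OnePoint ℂ) '' arc ρ α β := by
    rintro C ⟨hC, hCK⟩
    have hinf : (∞ : OnePoint ℂ) ∉ C := fun h =>
      Set.disjoint_left.1 (comps_disjoint hC hKW hCK) h (infty_mem_Kinf W)
    obtain ⟨x, hx, hCx⟩ := hC
    have hCW : C ∈ comps W := ⟨x, hx, hCx⟩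
    obtain ⟨ρ, hρ⟩ := hcirc x hx (hCx ▸ hinf)
    rw [← hCx] at hρ
    set A : Set ℂ := {w | (w : OnePoint ℂ) ∈ C} with hAd
    have himg : ((↑) : ℂ → OnePoint ℂ) '' A = C := by
      ext y
      constructor
      · rintro ⟨w, hw, rfl⟩; exact hw
      · intro hy
        induction y using OnePoint.rec with
        | infty => exact absurd hy hinf
        | coe w => exact ⟨w, hy, rfl⟩
    have hCcl := comp_closed hW hCW
    have hAk : IsCompact A := (OnePoint.isClosed_image_coe.1 (himg ▸ hCcl)).2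
    have hAconn : IsConnected A := by
      have h1 := comp_conn hCW
      refine h1.preimage_of_isOpenMap OnePoint.coe_injective
        OnePoint.isOpenEmbedding_coe.isOpenMap ?_
      rw [← himg]
      exact image_subset_range _ _
    have hAρ : ∀ w ∈ A, ‖w‖ = ρ := fun w hw => hρ w hw
    obtain ⟨w1, hw1⟩ := hAconn.nonempty
    have hw1W : w1 ∉ W := coe_mem_sc.1 (comp_sub hCW hw1)
    have hρ0 : 0 < ρ := by
      rw [← hAρ w1 hw1]
      apply norm_pos_iff.2
      rintro rfl
      exact hw1W h0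
    have hρR : ρ < R := by
      have h1 : w1 ∈ pl (Kinf W) := fun h =>
        Set.disjoint_left.1 (comps_disjoint hCW hKW hCK) hw1 h
      rw [hpl, mem_ball_zero_iff, hAρ w1 hw1] at h1
      exact h1
    -- not the whole circle
    obtain ⟨w0, hw0, hw0A⟩ : ∃ w0 : ℂ, ‖w0‖ = ρ ∧ w0 ∉ A := by
      by_contra hcon
      push Not at hcon
      have hCc : IsConnected Cᶜ := by
        rw [hCx]
        exact isConnected_compl_component hA hAo x
      have hu : IsOpen (((↑) : ℂ → OnePoint ℂ) '' ball (0 : ℂ) ρ) :=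
        OnePoint.isOpenEmbedding_coe.isOpenMap _ isOpen_ball
      have hv : IsOpen (((↑) : ℂ → OnePoint ℂ) '' closedBall (0 : ℂ) ρ)ᶜ :=
        OnePoint.isOpen_compl_image_coe.2 ⟨isClosed_closedBall, isCompact_closedBall _ _⟩
      have hcov : Cᶜ ⊆ (((↑) : ℂ → OnePoint ℂ) '' ball (0 : ℂ) ρ) ∪
          (((↑) : ℂ → OnePoint ℂ) '' closedBall (0 : ℂ) ρ)ᶜ := by
        intro y hy
        by_cases h1 : y ∈ ((↑) : ℂ → OnePoint ℂ) '' closedBall (0 : ℂ) ρ
        · obtain ⟨w, hw, rfl⟩ := h1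
          left
          refine ⟨w, ?_, rfl⟩
          rw [mem_closedBall_zero_iff] at hw
          rw [mem_ball_zero_iff]
          exact lt_of_le_of_ne hw fun h => hy (hcon w h)
        · exact Or.inr h1
      have hdis : Disjoint (((↑) : ℂ → OnePoint ℂ) '' ball (0 : ℂ) ρ)
          (((↑) : ℂ → OnePoint ℂ) '' closedBall (0 : ℂ) ρ)ᶜ := by
        rw [Set.disjoint_compl_right_iff_subset]
        exact image_mono ball_subset_closedBall
      rcases (isPreconnected_iff_subset_of_disjoint.1 hCc.isPreconnected) _ _ hu hv hcov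
        (by rw [hdis.inter_eq, inter_empty]) with h | h
      · obtain ⟨w, _, h3⟩ := h hinf
        exact OnePoint.coe_ne_infty w h3
      · have h4 : ((0 : ℂ) : OnePoint ℂ) ∈ Cᶜ := fun h5 => coe_mem_sc.1 (comp_sub hCW h5) h0
        exact h h4 ⟨0, mem_closedBall_self hρ0.le, rfl⟩
    obtain ⟨α, β, h1, h2, h3⟩ := arc_of_conn hAk hAconn hρ0 hAρ hw0 hw0A
    exact ⟨ρ, α, β, ⟨hρ0, hρR, h1, h2⟩, by rw [← h3, himg]⟩
  choose! ρ α β hpar hCe using key
  refine ⟨hR, fun i => ρ (e i), fun i => α (e i), fun i => β (e i), fun i => hpar _ (e i).2, ?_, ?_⟩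
  · intro i j hij
    have hne : ((e i : Set (OnePoint ℂ))) ≠ (e j : Set (OnePoint ℂ)) := fun h =>
      hij (e.injective (Subtype.ext h))
    have h1 := comps_disjoint (e i).2.1 (e j).2.1 hne
    rw [hCe _ (e i).2, hCe _ (e j).2] at h1
    exact (disjoint_image_iff OnePoint.coe_injective).1 h1
  · ext w
    constructor
    · intro hw
      refine ⟨hsub hw, fun h => ?_⟩
      obtain ⟨i, hi⟩ := mem_iUnion.1 h
      have h1 : (w : OnePoint ℂ) ∈ (e i : Set (OnePoint ℂ)) := by
        rw [hCe _ (e i).2]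
        exact ⟨w, hi, rfl⟩
      exact coe_mem_sc.1 (comp_sub (e i).2.1 h1) hw
    · rintro ⟨hw, hwn⟩
      by_contra hcon
      have hws : (w : OnePoint ℂ) ∈ sc W := coe_mem_sc.2 hcon
      by_cases hK : connectedComponentIn (sc W) (w : OnePoint ℂ) = Kinf W
      · rw [← hpl] at hw
        apply hw
        rw [← hK]
        exact mem_connectedComponentIn hws
      · have hCm : connectedComponentIn (sc W) (w : OnePoint ℂ) ∈ comps W \ {Kinf W} :=
          ⟨comp_of_mem hws, hK⟩
        apply hwn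
        refine mem_iUnion.2 ⟨e.symm ⟨_, hCm⟩, ?_⟩
        simp only [Equiv.apply_symm_apply]
        have h1 := mem_connectedComponentIn hws
        rw [hCe _ hCm] at h1
        obtain ⟨v, hv, he⟩ := h1
        rw [OnePoint.coe_injective he] at hv
        exact hv

end Pool.Agent.H762R2
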