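import Pool.Agent.H762R2.Wind3
import Pool.Agent.H762R2.Struct

set_option autoImplicit false

open Set Filter Topology Metric MeasureTheory Complex
open scoped OnePoint Real

namespace Pool.Agent.H762R2

open Pool.Agent.Helper405.Conv (inv_facts deriv_ne_zero_of_injOn)

/-- the class `S(D)`: holomorphic injective functions with `f 0 = 0`, `f' 0 = 1` -/
def SD (D : Set ℂ) : Set (ℂ → ℂ) :=
  {f | DifferentiableOn ℂ f D ∧ InjOn f D ∧ f 0 = 0 ∧ deriv f 0 = 1}

/-- the area integral `∬_D |f'|²` -/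
noncomputable def areaI (D : Set ℂ) (f : ℂ → ℂ) : ENNReal :=
  ∫⁻ z in D, ENNReal.ofReal (‖deriv f z‖ ^ 2)

theorem areaI_eq {D : Set ℂ} (hD : IsOpen D) {f : ℂ → ℂ} (hf : f ∈ SD D) :
    areaI D f = volume (f '' D) := by
  have h1 := lint_image hD hf.1 hf.2.1 (fun _ => 1)
  simp only [mul_one] at h1
  unfold areaI
  rw [← h1, setLIntegral_one]

/-- existence of the slit map for a non-degenerate component of infinity -/
theorem exist_slit' {Ω : Set ℂ} (hΩ : IsOpen Ω) (hc : IsConnected Ω) (h0 : (0 : ℂ) ∈ Ω) {n : ℕ}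
    (hn : (comps Ω).encard = n) {u : ℂ} (hu : (u : OnePoint ℂ) ∈ Kinf Ω) :
    ∃ (F : ℂ → ℂ) (R : ℝ), Adm Ω F ∧ IsSlitDisc (F '' Ω) R (n - 1) ∧
      Tendsto F (toC Ω (Kinf Ω)) (toC (F '' Ω) (Kinf (F '' Ω))) := by
  obtain ⟨F, R, hR, hF, hsub, hpl, hcirc⟩ := exist_slit hΩ hc h0 hu
  have hfin : (comps Ω).Finite := Set.finite_of_encard_eq_coe hn
  refine ⟨F, R, hF, ?_, adm_corr hΩ hc h0 hfin hF⟩
  have hWo : IsOpen (F '' Ω) := (inv_facts hΩ hF.diff hF.1).1
  have hWc : IsConnected (F '' Ω) := hc.image _ hF.diff.continuousOn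
  have hn' : (comps (F '' Ω)).encard = n := by rw [encard_comps_image hΩ hc hF.diff hF.1, hn]
  exact isSlitDisc_of hWo hWc ⟨0, h0, hF.zero h0⟩ hn' hR hsub hpl hcirc

/-- the area inequality for maps of slit discs preserving the component of infinity -/
theorem slit_ineq {W : Set ℂ} {R : ℝ} {m : ℕ} (hS : IsSlitDisc W R m) (hWc : IsConnected W)
    {Φ : ℂ → ℂ} (hΦ : Φ ∈ SD W)
    (hcorr : Tendsto Φ (toC W (Kinf W)) (toC (Φ '' W) (Kinf (Φ '' W)))) :
    ENNReal.ofReal (π * R ^ 2) ≤ volume (Φ '' W) ∧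
      (volume (Φ '' W) = ENNReal.ofReal (π * R ^ 2) → ∀ w ∈ W, Φ w = w) := by
  have hR := hS.1
  obtain ⟨hW, h0, hsub, -, hcard, hK, T, hT, hTW⟩ := slit_facts hS
  have hfin : (comps W).Finite := Set.finite_of_encard_eq_coe hcard
  obtain ⟨hΦd, hΦi, hΦ0, hΦ1⟩ := hΦ
  set q := dslope Φ 0 with hq
  have hqd : DifferentiableOn ℂ q W := (differentiableOn_dslope (hW.mem_nhds h0)).2 hΦd
  have hqz : ∀ w : ℂ, w ≠ 0 → q w = Φ w / w := by
    intro w hw
    rw [hq, dslope_of_ne _ hw, slope_def_field, hΦ0, sub_zero, sub_zero]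
  have hqne : ∀ w ∈ W, q w ≠ 0 := by
    intro w hw
    by_cases h : w = 0
    · rw [h, hq, dslope_same, hΦ1]; exact one_ne_zero
    · rw [hqz w h]
      refine div_ne_zero (fun h' => h ?_) h
      exact hΦi hw h0 (h'.trans hΦ0.symm)
  have hΦq : ∀ w, Φ w = w * q w := by
    intro w
    by_cases h : w = 0
    · rw [h, hΦ0, zero_mul]
    · rw [hqz w h]; field_simp
  set k : ℂ → ℂ := fun w => deriv q w / q w with hk
  have hkd : DifferentiableOn ℂ k W := (hqd.deriv hW).div hqd hqne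
  have hdΦ : ∀ w ∈ W, deriv Φ w = q w + w * deriv q w := by
    intro w hw
    have h1 : HasDerivAt (fun w => w * q w) (1 * q w + w * deriv q w) w :=
      (hasDerivAt_id w).mul (hqd.differentiableAt (hW.mem_nhds hw)).hasDerivAt
    have h2 : Φ = fun w => w * q w := funext hΦq
    rw [h2, h1.deriv]
    ring
  refine area_main hW hWc h0 hR hsub (T := T) hT.countable ?_ (k := k) hΦd hΦi hΦ0 hΦ1 hkd.continuousOn ?_ ?_
  · intro r _ hrR hrT w hw
    exact hTW w (by rw [hw]; exact hrR) (by rw [hw]; exact hrT)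
  · intro w hw
    rw [hdΦ w hw, hΦq w]
    simp only [hk]
    have := hqne w hw
    field_simp
  · intro r hr hrR hrT
    -- an interval around r free of T
    have hopen : IsOpen (Tᶜ ∩ Ioo 0 R) := hT.isClosed.isOpen_compl.inter isOpen_Ioo
    obtain ⟨ε, hε, hεT⟩ := Metric.isOpen_iff.1 hopen r ⟨hrT, hr, hrR⟩
    have hmem : ∀ s : ℝ, r - ε / 2 ≤ s → s ≤ r + ε / 2 → s ∈ Tᶜ ∩ Ioo 0 R := by
      intro s h1 h2
      apply hεT
      rw [mem_ball, Real.dist_eq, abs_lt]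
      constructor <;> linarith
    have h1 := hmem (r - ε / 2) le_rfl (by linarith)
    have h2 := hmem (r + ε / 2) (by linarith) le_rfl
    apply circ_zero hW hWc h0 hfin (r1 := r - ε / 2) (r2 := r + ε / 2) h1.2.1 (by linarith) ?_ ?_
      hΦd hΦi hΦ0 hcorr hkd ?_ (by linarith) (by linarith)
    · intro w hw1 hw2
      have h3 := hmem ‖w‖ hw1 hw2
      exact hTW w h3.2.2 h3.1
    · intro w hw
      rw [hK] at hw
      by_contra hcon
      push Not at hcon
      exact hw ⟨w, mem_ball_zero_iff.2 (lt_of_le_of_lt hcon h2.2.2), rfl⟩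
    · intro w hw hw0
      simp only [hk]
      rw [hdΦ w hw, hΦq w]
      have := hqne w hw
      field_simp
      ring

/-- the inverse of a boundary correspondence -/
theorem corr_symm {D : Set ℂ} (hDo : IsOpen D) (hDc : IsConnected D) (hfin : (comps D).Finite)
    {f g : ℂ → ℂ} (hf : DifferentiableOn ℂ f D) (hi : InjOn f D) (hgd : DifferentiableOn ℂ g (f '' D))
    (hgl : ∀ z ∈ D, g (f z) = z) {C C' : Set (OnePoint ℂ)}
    (hC : C ∈ comps D) (hC' : C' ∈ comps (f '' D)) (hft : Tendsto f (toC D C) (toC (f '' D) C')) :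
    Tendsto g (toC (f '' D) C') (toC D C) := by
  have hΩo : IsOpen (f '' D) := (inv_facts hDo hf hi).1
  have hfin' := finite_comps_image hDo hDc hfin hf hi
  have hgi : InjOn g (f '' D) := by
    rintro _ ⟨z, hz, rfl⟩ _ ⟨w, hw, rfl⟩ h
    rw [hgl z hz, hgl w hw] at h
    rw [h]
  have himg : g '' (f '' D) = D := by
    ext z
    constructor
    · rintro ⟨_, ⟨w, hw, rfl⟩, rfl⟩
      rw [hgl w hw]; exact hw
    · intro hz
      exact ⟨f z, ⟨z, hz, rfl⟩, hgl z hz⟩
  have hΩc : IsConnected (f '' D) := hDc.image f hf.continuousOn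
  obtain ⟨C1, hC1, hgt⟩ := corr hΩo hΩc hfin' hgd hgi hC'
  rw [himg] at hC1 hgt
  have := toC_neBot hDo hDc.nonempty hfin hC
  have hgf : ∀ᶠ z in toC D C, g (f z) = z := by
    filter_upwards [ev_mem_toC _ _] with z hz
    exact hgl z hz
  have h3 : Tendsto (fun z : ℂ => z) (toC D C) (toC D C1) := (hgt.comp hft).congr' hgf
  have h4 : C = C1 := toC_unique hDo hC hC1 le_rfl h3
  rw [h4]
  exact hgt

/-- comparison: the slit map of the same boundary class has the least area -/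
theorem slit_compare {D : Set ℂ} (hD : IsOpen D) (hDc : IsConnected D) (h0 : (0 : ℂ) ∈ D)
    (hfin : (comps D).Finite) {C : Set (OnePoint ℂ)} (hC : C ∈ comps D) {f g : ℂ → ℂ}
    (hf : f ∈ SD D) (hg : g ∈ SD D) {R : ℝ} {m : ℕ} (hS : IsSlitDisc (g '' D) R m)
    (hfC : Tendsto f (toC D C) (toC (f '' D) (Kinf (f '' D))))
    (hgC : Tendsto g (toC D C) (toC (g '' D) (Kinf (g '' D)))) :
    ENNReal.ofReal (π * R ^ 2) ≤ volume (f '' D) ∧
      (volume (f '' D) = ENNReal.ofReal (π * R ^ 2) → EqOn f g D) := by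
  obtain ⟨hfd, hfi, hf0, hf1⟩ := hf
  obtain ⟨hgd, hgi, hg0, hg1⟩ := hg
  obtain ⟨hWo, p, hp, hpl, hpd⟩ := inv_facts hD hgd hgi
  have hWc : IsConnected (g '' D) := hDc.image _ hgd.continuousOn
  have hpi : InjOn p (g '' D) := by
    rintro _ ⟨z, hz, rfl⟩ _ ⟨w, hw, rfl⟩ h
    rw [hpl z hz, hpl w hw] at h
    rw [h]
  have hpm : ∀ w ∈ g '' D, p w ∈ D := by
    rintro _ ⟨z, hz, rfl⟩
    rw [hpl z hz]; exact hz
  have hp0 : p 0 = 0 := by
    have := hpl 0 h0
    rwa [hg0] at this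
  have hΦ : (fun w => f (p w)) ∈ SD (g '' D) := by
    refine ⟨hfd.comp hp hpm, fun z hz w hw h => hpi hz hw (hfi (hpm z hz) (hpm w hw) h), ?_, ?_⟩
    · show f (p 0) = 0
      rw [hp0, hf0]
    · have h1 := hpd 0 h0
      rw [hg0, hg1, inv_one] at h1
      have h2 : HasDerivAt f 1 (p 0) := by
        rw [hp0, ← hf1]
        exact (hfd.differentiableAt (hD.mem_nhds h0)).hasDerivAt
      have h3 := h2.comp 0 h1
      rw [one_mul] at h3
      exact h3.deriv
  have himg : (fun w => f (p w)) '' (g '' D) = f '' D := by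
    ext v
    constructor
    · rintro ⟨_, ⟨z, hz, rfl⟩, rfl⟩
      exact ⟨z, hz, by simp only [hpl z hz]⟩
    · rintro ⟨z, hz, rfl⟩
      exact ⟨g z, ⟨z, hz, rfl⟩, by simp only [hpl z hz]⟩
  have hpC := corr_symm hD hDc hfin hgd hgi hp hpl hC (Kinf_mem _) hgC
  have hcorr : Tendsto (fun w => f (p w)) (toC (g '' D) (Kinf (g '' D)))
      (toC ((fun w => f (p w)) '' (g '' D)) (Kinf ((fun w => f (p w)) '' (g '' D)))) := by
    rw [himg]
    exact hfC.comp hpC
  obtain ⟨h1, h2⟩ := slit_ineq hS hWc hΦ hcorr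
  rw [himg] at h1 h2
  refine ⟨h1, fun h z hz => ?_⟩
  have h3 := h2 h (g z) ⟨z, hz, rfl⟩
  simp only [hpl z hz] at h3
  exact h3

end Pool.Agent.H762R2
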