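import Pool.Agent.H762R2.Main1

set_option autoImplicit false

open Set Filter Topology Metric MeasureTheory Complex
open scoped OnePoint Real

namespace Pool.Agent.H762R2

open Pool.Agent.Helper405.Conv (inv_facts deriv_ne_zero_of_injOn)

/-- a domain of finite connectivity and finite area has a non-degenerate component at infinity -/
theorem finite_area_nondeg {Ω : Set ℂ} (hΩ : IsOpen Ω) (hfin : (comps Ω).Finite)
    (hvol : volume Ω ≠ ⊤) : ∃ u : ℂ, (u : OnePoint ℂ) ∈ Kinf Ω := by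
  by_contra hcon
  push Not at hcon
  have hcl := others_closed hΩ hfin (Kinf Ω)
  have hinf : (∞ : OnePoint ℂ) ∉ others Ω (Kinf Ω) := fun h =>
    Set.disjoint_left.1 (others_disjoint (Kinf_mem Ω)) (infty_mem_Kinf Ω) h
  have h1 : ∀ᶠ w in cocompact ℂ, w ∈ Ω := by
    have h2 : (others Ω (Kinf Ω))ᶜ ∈ 𝓝 (∞ : OnePoint ℂ) := hcl.isOpen_compl.mem_nhds hinf
    have h3 := OnePoint.tendsto_coe_infty (X := ℂ) h2
    rw [coclosedCompact_eq_cocompact] at h3
    filter_upwards [h3] with w hw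
    by_contra hwΩ
    have h4 := coe_mem_sc.2 hwΩ
    rw [← union_others (Kinf_mem Ω)] at h4
    rcases h4 with h4 | h4
    · exact hcon w h4
    · exact hw h4
  obtain ⟨K, hK, hKΩ⟩ := mem_cocompact.1 h1
  have h2 : (univ : Set ℂ) ⊆ K ∪ Ω := by
    intro w _
    by_cases h : w ∈ K
    · exact Or.inl h
    · exact Or.inr (hKΩ h)
  have h3 := (measure_mono h2).trans (measure_union_le (μ := volume) K Ω)
  rw [measure_univ_of_isAddLeftInvariant, top_le_iff, ENNReal.add_eq_top] at h3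
  rcases h3 with h3 | h3
  · exact hK.measure_lt_top.ne h3
  · exact hvol h3

/-- a bounded function cannot attain its bound at a puncture -/
theorem no_puncture {g : ℂ → ℂ} {c : ℂ} {ε R : ℝ} (hε : 0 < ε)
    (hg : DifferentiableOn ℂ g (ball c ε \ {c})) (hlt : ∀ z ∈ ball c ε \ {c}, ‖g z‖ < R)
    (hlim : Tendsto (fun z => ‖g z‖) (𝓝[≠] c) (𝓝 R)) : False := by
  have hb : BddAbove (norm ∘ g '' (ball c ε \ {c})) := by
    refine ⟨R, ?_⟩
    rintro _ ⟨z, hz, rfl⟩
    exact (hlt z hz).le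
  have hG := Complex.differentiableOn_update_limUnder_of_bddAbove (ball_mem_nhds c hε) hg hb
  set G := Function.update g c (limUnder (𝓝[≠] c) g) with hGd
  have hGz : ∀ z, z ≠ c → G z = g z := fun z hz => Function.update_of_ne hz _ _
  have hGc : ‖G c‖ = R := by
    have h1 : ContinuousAt G c := (hG.differentiableAt (ball_mem_nhds c hε)).continuousAt
    have h2 : Tendsto (fun z => ‖G z‖) (𝓝[≠] c) (𝓝 ‖G c‖) :=
      h1.norm.tendsto.mono_left nhdsWithin_le_nhds
    refine tendsto_nhds_unique h2 (hlim.congr' ?_)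
    filter_upwards [self_mem_nhdsWithin] with z hz
    rw [hGz z hz]
  have hmax : IsMaxOn (norm ∘ G) (ball c ε) c := by
    intro z hz
    simp only [Function.comp, mem_ofPred_eq]
    by_cases h : z = c
    · rw [h]
    · rw [hGz z h, hGc]
      exact (hlt z ⟨hz, h⟩).le
  have heq := Complex.eqOn_of_isPreconnected_of_isMaxOn_norm (convex_ball c ε).isPreconnected
    isOpen_ball hG (mem_ball_self hε) hmax
  have hz : c + ((ε / 2 : ℝ) : ℂ) ∈ ball c ε := by
    rw [mem_ball, dist_eq_norm, add_sub_cancel_left, Complex.norm_real, Real.norm_of_nonneg (by positivity)]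
    linarith
  have hzc : c + ((ε / 2 : ℝ) : ℂ) ≠ c := by
    intro h
    have h1 : ((ε / 2 : ℝ) : ℂ) = 0 := by linear_combination h
    have h2 : ε / 2 = 0 := by exact_mod_cast h1
    linarith
  have h1 := heq hz
  simp only [Function.const_apply] at h1
  have h2 := hlt _ ⟨hz, hzc⟩
  rw [← hGz _ hzc, h1, hGc] at h2
  exact lt_irrefl _ h2

theorem type_nondeg {D : Set ℂ} (hD : IsOpen D) (hfin : (comps D).Finite)
    {C : Set (OnePoint ℂ)} (hC : C ∈ comps D) {f : ℂ → ℂ} (hf : DifferentiableOn ℂ f D) {R : ℝ}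
    (hsub : ∀ z ∈ D, ‖f z‖ < R) (hlim : Tendsto (fun z => ‖f z‖) (toC D C) (𝓝 R)) :
    C.Nontrivial := by
  by_contra hcon
  rw [Set.not_nontrivial_iff] at hcon
  obtain ⟨x, hx⟩ := (comp_conn hC).nonempty
  have hCx : ∀ y ∈ C, y = x := fun y hy => hcon hy hx
  have hcl := others_closed hD hfin C
  have hxo : x ∉ others D C := fun h => Set.disjoint_left.1 (others_disjoint hC) hx h
  have hnb : (others D C)ᶜ ∈ 𝓝 x := hcl.isOpen_compl.mem_nhds hxo
  have hD' : ∀ z : ℂ, (z : OnePoint ℂ) ∉ others D C → (z : OnePoint ℂ) ≠ x → z ∈ D := by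
    intro z h1 h2
    by_contra hzD
    have h4 := coe_mem_sc.2 hzD
    rw [← union_others hC] at h4
    rcases h4 with h4 | h4
    · exact h2 (hCx _ h4)
    · exact h1 h4
  induction x using OnePoint.rec with
  | infty =>
    have h3 := OnePoint.tendsto_coe_infty (X := ℂ) hnb
    rw [coclosedCompact_eq_cocompact] at h3
    have h1 : ∀ᶠ w in cocompact ℂ, w ∈ D := by
      filter_upwards [h3] with w hw
      exact hD' w hw (OnePoint.coe_ne_infty w)
    have hle : cocompact ℂ ≤ toC D C := by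
      intro s hs
      obtain ⟨V, hVo, hCV, hVs⟩ := ev_toC.1 hs
      have h4 := OnePoint.tendsto_coe_infty (X := ℂ) (hVo.mem_nhds (hCV hx))
      rw [coclosedCompact_eq_cocompact] at h4
      filter_upwards [h1, h4] with w hw1 hw2
      exact hVs w hw1 hw2
    obtain ⟨K, hK, hKD⟩ := mem_cocompact.1 h1
    obtain ⟨M, hM⟩ := hK.isBounded.subset_closedBall 0
    set M' := max M 0 + 1 with hM'
    have hM'0 : 0 < M' := by have := le_max_right M 0; linarith
    have hbig : ∀ w : ℂ, M' < ‖w‖ → w ∈ D := by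
      intro w hw
      apply hKD
      intro hwK
      have h5 := mem_closedBall_zero_iff.1 (hM hwK)
      have := le_max_left M 0
      linarith
    have hinvD : ∀ z ∈ ball (0 : ℂ) M'⁻¹ \ {0}, z⁻¹ ∈ D := by
      rintro z ⟨hz, hz0⟩
      apply hbig
      rw [mem_ball_zero_iff] at hz
      rw [norm_inv]
      exact (lt_inv_comm₀ hM'0 (norm_pos_iff.2 hz0)).2 hz
    refine no_puncture (g := fun z => f z⁻¹) (c := 0) (ε := M'⁻¹) (R := R) (by positivity) ?_ ?_ ?_
    · apply hf.comp _ hinvD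
      intro z hz
      exact (differentiableAt_inv hz.2).differentiableWithinAt
    · intro z hz
      exact hsub _ (hinvD z hz)
    · have h5 : Tendsto (fun z : ℂ => z⁻¹) (𝓝[≠] 0) (cocompact ℂ) := by
        rw [← Metric.cobounded_eq_cocompact]
        exact tendsto_inv₀_nhdsNE_zero
      exact (hlim.mono_left hle).comp h5
  | coe c =>
    rw [OnePoint.nhds_coe_eq] at hnb
    obtain ⟨ε, hε, hεs⟩ := Metric.mem_nhds_iff.1 (mem_map.1 hnb)
    have hball : ∀ z ∈ ball c ε \ {c}, z ∈ D := by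
      rintro z ⟨hz, hzc⟩
      exact hD' z (hεs hz) (fun h => hzc (OnePoint.coe_injective h))
    have hle : 𝓝[≠] c ≤ toC D C := by
      intro s hs
      obtain ⟨V, hVo, hCV, hVs⟩ := ev_toC.1 hs
      have h4 : ∀ᶠ z : ℂ in 𝓝 c, (z : OnePoint ℂ) ∈ V := by
        have := hVo.mem_nhds (hCV hx)
        rw [OnePoint.nhds_coe_eq] at this
        exact this
      filter_upwards [self_mem_nhdsWithin, mem_nhdsWithin_of_mem_nhds h4,
        mem_nhdsWithin_of_mem_nhds (ball_mem_nhds c hε)] with z hz1 hz2 hz3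
      exact hVs z (hball z ⟨hz3, hz1⟩) hz2
    refine no_puncture hε (g := f) (R := R) ?_ ?_ (hlim.mono_left hle)
    · exact hf.mono hball
    · exact fun z hz => hsub z (hball z hz)

/-- in a slit disc, `|w| → R` at the outer component -/
theorem norm_tendsto_Kinf {W : Set ℂ} {R : ℝ} {m : ℕ} (hS : IsSlitDisc W R m) :
    Tendsto (fun w : ℂ => ‖w‖) (toC W (Kinf W)) (𝓝 R) := by
  obtain ⟨hW, h0, hsub, -, hcard, hK, -⟩ := slit_facts hS
  rw [Metric.tendsto_nhds]
  intro ε hε
  have hV : IsOpen (((↑) : ℂ → OnePoint ℂ) '' closedBall (0 : ℂ) (R - ε))ᶜ :=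
    OnePoint.isOpen_compl_image_coe.2 ⟨isClosed_closedBall, isCompact_closedBall _ _⟩
  have hKV : Kinf W ⊆ (((↑) : ℂ → OnePoint ℂ) '' closedBall (0 : ℂ) (R - ε))ᶜ := by
    rw [hK]
    apply compl_subset_compl.2
    apply image_mono
    exact closedBall_subset_ball (by linarith)
  filter_upwards [ev_toC_nbhd hV hKV, ev_mem_toC W (Kinf W)] with w hw1 hw2
  have h1 := mem_ball_zero_iff.1 (hsub hw2)
  have h2 : R - ε < ‖w‖ := by
    by_contra hcon
    push Not at hcon
    exact hw1 ⟨w, mem_closedBall_zero_iff.2 hcon, rfl⟩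
  rw [Real.dist_eq, abs_lt]
  constructor <;> linarith

theorem corr_of_norm {D : Set ℂ} (hD : IsOpen D) (hDc : IsConnected D)
    (hfin : (comps D).Finite) {C : Set (OnePoint ℂ)} (hC : C ∈ comps D) {f : ℂ → ℂ}
    (hf : f ∈ SD D) {R : ℝ} {m : ℕ} (hS : IsSlitDisc (f '' D) R m) :
    Tendsto (fun z => ‖f z‖) (toC D C) (𝓝 R) ↔ Tendsto f (toC D C) (toC (f '' D) (Kinf (f '' D))) := by
  constructor
  · intro hlim
    obtain ⟨hW, h0, hsub, -, hcard, hK, -⟩ := slit_facts hS
    obtain ⟨C', hC', hft⟩ := corr hD hDc hfin hf.1 hf.2.1 hC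
    by_cases hCK : C' = Kinf (f '' D)
    · rwa [hCK] at hft
    exfalso
    have hd := comps_disjoint hC' (Kinf_mem _) hCK
    have hCb : C' ⊆ ((↑) : ℂ → OnePoint ℂ) '' ball (0 : ℂ) R := by
      intro x hx
      by_contra hcon
      exact Set.disjoint_left.1 hd hx (by rw [hK]; exact hcon)
    -- the plane trace of `C'`
    set A : Set ℂ := {w | (w : OnePoint ℂ) ∈ C'} with hA
    have himg : ((↑) : ℂ → OnePoint ℂ) '' A = C' := by
      ext y
      constructor
      · rintro ⟨w, hw, rfl⟩; exact hw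
      · intro hy
        obtain ⟨w, _, rfl⟩ := hCb hy
        exact ⟨w, hy, rfl⟩
    have hAk : IsCompact A := (OnePoint.isClosed_image_coe.1 (himg ▸ comp_closed hW hC')).2
    have hAne : A.Nonempty := by
      obtain ⟨y, hy⟩ := (comp_conn hC').nonempty
      rw [← himg] at hy
      obtain ⟨w, hw, _⟩ := hy
      exact ⟨w, hw⟩
    obtain ⟨w0, hw0, hmax⟩ := hAk.exists_isMaxOn hAne continuous_norm.continuousOn
    have hw0R : ‖w0‖ < R := by
      obtain ⟨w, hw, he⟩ := hCb (show (w0 : OnePoint ℂ) ∈ C' from hw0)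
      rw [OnePoint.coe_injective he] at hw
      exact mem_ball_zero_iff.1 hw
    obtain ⟨R', h1, h2⟩ := exists_between hw0R
    have hV : IsOpen (((↑) : ℂ → OnePoint ℂ) '' ball (0 : ℂ) R') :=
      OnePoint.isOpenEmbedding_coe.isOpenMap _ isOpen_ball
    have hCV : C' ⊆ ((↑) : ℂ → OnePoint ℂ) '' ball (0 : ℂ) R' := by
      rw [← himg]
      apply image_mono
      intro w hw
      rw [mem_ball_zero_iff]
      exact lt_of_le_of_lt (hmax hw) h1
    have := toC_neBot hD hDc.nonempty hfin hC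
    have e1 : ∀ᶠ z in toC D C, R' < ‖f z‖ := hlim.eventually (lt_mem_nhds h2)
    have e2 : ∀ᶠ z in toC D C, ((f z : ℂ) : OnePoint ℂ) ∈ ((↑) : ℂ → OnePoint ℂ) '' ball (0 : ℂ) R' :=
      hft.eventually (ev_toC_nbhd hV hCV)
    obtain ⟨z, hz1, w, hw, he⟩ := (e1.and e2).exists
    rw [OnePoint.coe_injective he] at hw
    have := mem_ball_zero_iff.1 hw
    linarith
  · intro h
    exact (norm_tendsto_Kinf hS).comp h

/-- the Möbius change of the base component -/
theorem mob_comp {D : Set ℂ} (h0 : (0 : ℂ) ∈ D) {C : Set (OnePoint ℂ)}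
    (hC : C ∈ comps D) {a : ℂ} (haC : (a : OnePoint ℂ) ∈ C) :
    (fun z => a * z / (a - z)) ∈ SD D ∧
      Kinf ((fun z => a * z / (a - z)) '' D) = mobT a '' C ∧
      Tendsto (fun z => a * z / (a - z)) (toC D C)
        (toC ((fun z => a * z / (a - z)) '' D) (Kinf ((fun z => a * z / (a - z)) '' D))) := by
  have haD : a ∉ D := coe_mem_sc.1 (comp_sub hC haC)
  have ha0 : a ≠ 0 := fun h => haD (h ▸ h0)
  have hza : ∀ z ∈ D, z ≠ a := fun z hz h => haD (h ▸ hz)
  set τ : ℂ → ℂ := fun z => a * z / (a - z) with hτ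
  have hmob : ∀ z ∈ D, mobT a (z : OnePoint ℂ) = ((τ z : ℂ) : OnePoint ℂ) := fun z hz => mobT_coe (hza z hz)
  have hτS : τ ∈ SD D := by
    refine ⟨?_, ?_, ?_, ?_⟩
    · intro z hz
      have h1 : a - z ≠ 0 := sub_ne_zero.2 (hza z hz).symm
      exact (DifferentiableAt.div (by fun_prop) (by fun_prop) h1).differentiableWithinAt
    · intro z hz w hw h
      have h1 : mobT a (z : OnePoint ℂ) = mobT a (w : OnePoint ℂ) := by
        rw [hmob z hz, hmob w hw, h]
      have h2 := congrArg (mobT (-a)) h1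
      rw [mobT_mobT ha0, mobT_mobT ha0] at h2
      exact OnePoint.coe_injective h2
    · simp [hτ]
    · have h1 : HasDerivAt τ ((a * 1 * (a - 0) - a * 0 * (0 - 1)) / (a - 0) ^ 2) 0 := by
        apply HasDerivAt.div
        · exact (hasDerivAt_id (0 : ℂ)).const_mul a
        · exact (hasDerivAt_const (0 : ℂ) a).sub (hasDerivAt_id (0 : ℂ))
        · rw [sub_zero]; exact ha0
      rw [h1.deriv]
      field_simp
      ring
  have hsc : sc (τ '' D) = mobT a '' sc D := by
    unfold sc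
    rw [image_compl_mobT ha0, image_image, image_image]
    congr 1
    apply image_congr
    intro z hz
    exact (hmob z hz).symm
  let e : OnePoint ℂ ≃ₜ OnePoint ℂ :=
    { toFun := mobT a
      invFun := mobT (-a)
      left_inv := mobT_mobT ha0
      right_inv := mobT_mobT' ha0
      continuous_toFun := continuous_mobT ha0
      continuous_invFun := continuous_mobT (neg_ne_zero.2 ha0) }
  have hK : Kinf (τ '' D) = mobT a '' C := by
    have h1 := e.image_connectedComponentIn (s := sc D) (x := (a : OnePoint ℂ)) (comp_sub hC haC)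
    have h2 : e (a : OnePoint ℂ) = ∞ := mobT_self a
    have h3 : (e : OnePoint ℂ → OnePoint ℂ) '' sc D = sc (τ '' D) := hsc.symm
    rw [h2, h3] at h1
    unfold Kinf
    rw [← h1, ← comp_eq hC haC]
    rfl
  refine ⟨hτS, hK, ?_⟩
  rw [hK]
  intro s hs
  obtain ⟨V, hVo, hCV, hVs⟩ := ev_toC.1 hs
  show ∀ᶠ z in toC D C, τ z ∈ s
  have h1 : ∀ᶠ z : ℂ in toC D C, (z : OnePoint ℂ) ∈ mobT a ⁻¹' V :=
    ev_toC_nbhd (hVo.preimage (continuous_mobT ha0)) (image_subset_iff.1 hCV)
  filter_upwards [h1, ev_mem_toC D C] with z hz1 hz2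
  apply hVs _ ⟨z, hz2, rfl⟩
  rw [← hmob z hz2]
  exact hz1

end Pool.Agent.H762R2
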