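import Pool.Agent.H762R2.Main2

set_option autoImplicit false

open Set Filter Topology Metric MeasureTheory Complex
open scoped OnePoint Real

namespace Pool.Agent.H762R2

open Pool.Agent.Helper405.Conv (inv_facts deriv_ne_zero_of_injOn)

/-- `f` maps `D` onto a circular slit disc of radius `R` with `m` slits, and `|f(z)| → R` as `z → C` -/
def SlitMap (D : Set ℂ) (m : ℕ) (C : Set (OnePoint ℂ)) (f : ℂ → ℂ) (R : ℝ) : Prop :=
  f ∈ SD D ∧ IsSlitDisc (f '' D) R m ∧ Tendsto (fun z => ‖f z‖) (toC D C) (𝓝 R)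

variable {D : Set ℂ} {n : ℕ}

theorem main_exists (hD : IsOpen D) (hDc : IsConnected D) (h0 : (0 : ℂ) ∈ D)
    (hn : (comps D).encard = n) {C : Set (OnePoint ℂ)} (hC : C ∈ comps D) (hnt : C.Nontrivial) :
    ∃ (f : ℂ → ℂ) (R : ℝ), SlitMap D (n - 1) C f R := by
  have hfin : (comps D).Finite := Set.finite_of_encard_eq_coe hn
  obtain ⟨a, haC⟩ : ∃ a : ℂ, (a : OnePoint ℂ) ∈ C := by
    obtain ⟨x, hx, hxi⟩ := hnt.exists_ne ∞
    induction x using OnePoint.rec with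
    | infty => exact absurd rfl hxi
    | coe a => exact ⟨a, hx⟩
  obtain ⟨hτ, hK, hτC⟩ := mob_comp h0 hC haC
  set τ : ℂ → ℂ := fun z => a * z / (a - z) with hτd
  have hΩo : IsOpen (τ '' D) := (inv_facts hD hτ.1 hτ.2.1).1
  have hΩc : IsConnected (τ '' D) := hDc.image _ hτ.1.continuousOn
  have h0Ω : (0 : ℂ) ∈ τ '' D := ⟨0, h0, hτ.2.2.1⟩
  have hn' : (comps (τ '' D)).encard = n := by rw [encard_comps_image hD hDc hτ.1 hτ.2.1, hn]
  obtain ⟨u, hu⟩ : ∃ u : ℂ, (u : OnePoint ℂ) ∈ Kinf (τ '' D) := by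
    obtain ⟨x, hx, hxa⟩ := hnt.exists_ne (a : OnePoint ℂ)
    rw [hK]
    induction x using OnePoint.rec with
    | infty => exact ⟨-a, ∞, hx, mobT_infty a⟩
    | coe x =>
      have hxa' : x ≠ a := fun h => hxa (by rw [h])
      exact ⟨a * x / (a - x), x, hx, mobT_coe hxa'⟩
  obtain ⟨F, R, hF, hS, hFc⟩ := exist_slit' hΩo hΩc h0Ω hn' hu
  have himg : (fun z => F (τ z)) '' D = F '' (τ '' D) := by
    rw [image_image]
  have hf : (fun z => F (τ z)) ∈ SD D := by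
    refine ⟨hF.diff.comp hτ.1 (fun z hz => ⟨z, hz, rfl⟩), fun z hz w hw h =>
      hτ.2.1 hz hw (hF.1 ⟨z, hz, rfl⟩ ⟨w, hw, rfl⟩ h), ?_, ?_⟩
    · show F (τ 0) = 0
      rw [hτ.2.2.1, hF.zero h0Ω]
    · have h1 : HasDerivAt τ 1 0 := by
        rw [← hτ.2.2.2]
        exact (hτ.1.differentiableAt (hD.mem_nhds h0)).hasDerivAt
      have h2 : HasDerivAt F 1 (τ 0) := by
        rw [hτ.2.2.1]
        exact hF.hasDerivAt hΩo h0Ω
      have h3 := h2.comp 0 h1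
      rw [one_mul] at h3
      exact h3.deriv
  rw [← himg] at hS hFc
  refine ⟨fun z => F (τ z), R, hf, hS, ?_⟩
  rw [corr_of_norm hD hDc hfin hC hf hS]
  exact hFc.comp hτC

theorem slitMap_corr (hD : IsOpen D) (hDc : IsConnected D)
    (hn : (comps D).encard = n) {C : Set (OnePoint ℂ)} (hC : C ∈ comps D) {m : ℕ} {f : ℂ → ℂ} {R : ℝ}
    (h : SlitMap D m C f R) : Tendsto f (toC D C) (toC (f '' D) (Kinf (f '' D))) :=
  (corr_of_norm hD hDc (Set.finite_of_encard_eq_coe hn) hC h.1 h.2.1).1 h.2.2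

theorem slitMap_area (hD : IsOpen D) {C : Set (OnePoint ℂ)} {m : ℕ} {f : ℂ → ℂ} {R : ℝ}
    (h : SlitMap D m C f R) : areaI D f = ENNReal.ofReal (π * R ^ 2) := by
  rw [areaI_eq hD h.1]
  exact (slit_facts h.2.1).2.2.2.1

/-- the area inequality in each boundary class -/
theorem main_lower_aux (hD : IsOpen D) (hDc : IsConnected D) (h0 : (0 : ℂ) ∈ D)
    (hn : (comps D).encard = n) {C : Set (OnePoint ℂ)} (hC : C ∈ comps D) {m : ℕ} {f g : ℂ → ℂ}
    {R : ℝ} (hf : f ∈ SD D) (hfC : Tendsto f (toC D C) (toC (f '' D) (Kinf (f '' D))))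
    (hg : SlitMap D m C g R) :
    ENNReal.ofReal (π * R ^ 2) ≤ areaI D f ∧ (areaI D f = ENNReal.ofReal (π * R ^ 2) → EqOn f g D) := by
  rw [areaI_eq hD hf]
  exact slit_compare hD hDc h0 (Set.finite_of_encard_eq_coe hn) hC hf hg.1 hg.2.1 hfC
    (slitMap_corr hD hDc hn hC hg)

theorem main_unique (hD : IsOpen D) (hDc : IsConnected D) (h0 : (0 : ℂ) ∈ D)
    (hn : (comps D).encard = n) {C : Set (OnePoint ℂ)} (hC : C ∈ comps D) {m k : ℕ} {f g : ℂ → ℂ}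
    {R ρ : ℝ} (hf : SlitMap D m C f R) (hg : SlitMap D k C g ρ) : R = ρ ∧ EqOn f g D := by
  obtain ⟨h1, h2⟩ := main_lower_aux hD hDc h0 hn hC hf.1 (slitMap_corr hD hDc hn hC hf) hg
  obtain ⟨h3, -⟩ := main_lower_aux hD hDc h0 hn hC hg.1 (slitMap_corr hD hDc hn hC hg) hf
  rw [slitMap_area hD hf] at h1 h2
  rw [slitMap_area hD hg] at h3
  have hR := hf.2.1.1
  have hρ := hg.2.1.1
  have h4 := le_antisymm h1 h3
  rw [ENNReal.ofReal_eq_ofReal_iff (by positivity) (by positivity)] at h4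
  have h5 : ρ ^ 2 = R ^ 2 := mul_left_cancel₀ Real.pi_pos.ne' h4
  have h6 : ρ = R := (sq_eq_sq₀ hρ.le hR.le).1 h5
  refine ⟨h6.symm, h2 (by rw [h6])⟩

theorem main_all (hD : IsOpen D) (hDc : IsConnected D)
    (hn : (comps D).encard = n) {f : ℂ → ℂ} (hf : f ∈ SD D) {R : ℝ} {m : ℕ}
    (hS : IsSlitDisc (f '' D) R m) :
    m = n - 1 ∧ areaI D f = ENNReal.ofReal (π * R ^ 2) ∧
      ∃ C ∈ comps D, C.Nontrivial ∧ SlitMap D (n - 1) C f R ∧
        ∀ C' ∈ comps D, ∀ m' R', SlitMap D m' C' f R' → C' = C := by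
  have hfin : (comps D).Finite := Set.finite_of_encard_eq_coe hn
  have hcard := (slit_facts hS).2.2.2.2.1
  rw [encard_comps_image hD hDc hf.1 hf.2.1, hn] at hcard
  have hmn : n = m + 1 := by exact_mod_cast hcard
  have hm : m = n - 1 := by omega
  subst hm
  obtain ⟨C, hC, hfC, huniq⟩ := corr_inv hD hDc hfin hf.1 hf.2.1 (Kinf_mem (f '' D))
  have hlim := (corr_of_norm hD hDc hfin hC hf hS).2 hfC
  refine ⟨rfl, ?_, C, hC, ?_, ⟨hf, hS, hlim⟩, ?_⟩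
  · rw [areaI_eq hD hf]
    exact (slit_facts hS).2.2.2.1
  · apply type_nondeg hD hfin hC hf.1 (R := R) _ hlim
    intro z hz
    exact mem_ball_zero_iff.1 ((slit_facts hS).2.2.1 ⟨z, hz, rfl⟩)
  · intro C' hC' m' R' h
    exact huniq C' hC' (slitMap_corr hD hDc hn hC' h)

theorem main_lower (hD : IsOpen D) (hDc : IsConnected D) (h0 : (0 : ℂ) ∈ D)
    (hn : (comps D).encard = n) {f : ℂ → ℂ} (hf : f ∈ SD D) (hfin : areaI D f ≠ ⊤) :
    ∃ C ∈ comps D, C.Nontrivial ∧ Tendsto f (toC D C) (toC (f '' D) (Kinf (f '' D))) ∧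
      ∀ m g R, SlitMap D m C g R → ENNReal.ofReal (π * R ^ 2) ≤ areaI D f ∧
        (areaI D f = ENNReal.ofReal (π * R ^ 2) → EqOn f g D) := by
  have hcf : (comps D).Finite := Set.finite_of_encard_eq_coe hn
  obtain ⟨C, hC, hfC, -⟩ := corr_inv hD hDc hcf hf.1 hf.2.1 (Kinf_mem (f '' D))
  refine ⟨C, hC, ?_, hfC, fun m g R hg => main_lower_aux hD hDc h0 hn hC hf hfC hg⟩
  -- non-degeneracy
  have hΩo : IsOpen (f '' D) := (inv_facts hD hf.1 hf.2.1).1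
  have hΩc : IsConnected (f '' D) := hDc.image _ hf.1.continuousOn
  have h0Ω : (0 : ℂ) ∈ f '' D := ⟨0, h0, hf.2.2.1⟩
  have hn' : (comps (f '' D)).encard = n := by rw [encard_comps_image hD hDc hf.1 hf.2.1, hn]
  have hcf' : (comps (f '' D)).Finite := Set.finite_of_encard_eq_coe hn'
  rw [areaI_eq hD hf] at hfin
  obtain ⟨u, hu⟩ := finite_area_nondeg hΩo hcf' hfin
  obtain ⟨F, R, hF, hS, hFc⟩ := exist_slit' hΩo hΩc h0Ω hn' hu
  have hlimK := (norm_tendsto_Kinf hS).comp (hFc.comp hfC)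
  apply type_nondeg hD hcf hC (f := fun z => F (f z)) (R := R) (hF.diff.comp hf.1 (fun z hz => ⟨z, hz, rfl⟩))
  · intro z hz
    exact mem_ball_zero_iff.1 ((slit_facts hS).2.2.1 ⟨f z, ⟨z, hz, rfl⟩, rfl⟩)
  · exact hlimK

/-- description of the minimisers -/
theorem main_min (hD : IsOpen D) (hDc : IsConnected D) (h0 : (0 : ℂ) ∈ D)
    (hn : (comps D).encard = n) {f : ℂ → ℂ} (hf : f ∈ SD D) :
    ((∀ g ∈ SD D, areaI D f ≤ areaI D g) ∧ areaI D f ≠ ⊤) ↔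
      ∃ C ∈ comps D, ∃ R, SlitMap D (n - 1) C f R ∧
        ∀ C' ∈ comps D, ∀ g ρ, SlitMap D (n - 1) C' g ρ → R ≤ ρ := by
  constructor
  · rintro ⟨hmin, hfin⟩
    obtain ⟨C, hC, hnt, hfC, hlow⟩ := main_lower hD hDc h0 hn hf hfin
    obtain ⟨g, R, hg⟩ := main_exists hD hDc h0 hn hC hnt
    obtain ⟨h1, h2⟩ := hlow _ g R hg
    have h3 := hmin g hg.1
    rw [slitMap_area hD hg] at h3
    have h4 := h2 (le_antisymm h3 h1)
    have hS : IsSlitDisc (f '' D) R (n - 1) := by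
      rw [h4.image_eq]
      exact hg.2.1
    refine ⟨C, hC, R, ⟨hf, hS, ?_⟩, ?_⟩
    · rw [corr_of_norm hD hDc (Set.finite_of_encard_eq_coe hn) hC hf hS]
      exact hfC
    · intro C' hC' g' ρ hg'
      have h5 := hmin g' hg'.1
      rw [slitMap_area hD hg', areaI_eq hD hf, (slit_facts hS).2.2.2.1] at h5
      have hR := hS.1
      have hρ := hg'.2.1.1
      rw [ENNReal.ofReal_le_ofReal_iff (by positivity)] at h5
      exact (sq_le_sq₀ hR.le hρ.le).1 (le_of_mul_le_mul_left h5 Real.pi_pos)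
  · rintro ⟨C, hC, R, hfR, hmin⟩
    have hfa := slitMap_area hD hfR
    refine ⟨?_, by rw [hfa]; exact ENNReal.ofReal_ne_top⟩
    intro g hg
    by_cases hgt : areaI D g = ⊤
    · rw [hgt]; exact le_top
    · obtain ⟨C', hC', hnt', -, hlow⟩ := main_lower hD hDc h0 hn hg hgt
      obtain ⟨g', ρ, hg'⟩ := main_exists hD hDc h0 hn hC' hnt'
      obtain ⟨h1, -⟩ := hlow _ g' ρ hg'
      refine le_trans ?_ h1
      rw [hfa]
      have hR := hfR.2.1.1
      have := hmin C' hC' g' ρ hg'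
      apply ENNReal.ofReal_le_ofReal
      gcongr

theorem main_attained (hD : IsOpen D) (hDc : IsConnected D) (h0 : (0 : ℂ) ∈ D)
    (hn : (comps D).encard = n) (hnt : ∃ C ∈ comps D, C.Nontrivial) :
    ∃ f ∈ SD D, (∀ g ∈ SD D, areaI D f ≤ areaI D g) ∧ areaI D f ≠ ⊤ := by
  classical
  have hcf : (comps D).Finite := Set.finite_of_encard_eq_coe hn
  have hex : ∀ C ∈ {C ∈ comps D | C.Nontrivial}, ∃ p : (ℂ → ℂ) × ℝ, SlitMap D (n - 1) C p.1 p.2 := by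
    rintro C ⟨hC, hCn⟩
    obtain ⟨f, R, h⟩ := main_exists hD hDc h0 hn hC hCn
    exact ⟨(f, R), h⟩
  choose! p hp using hex
  have hfin : {C ∈ comps D | C.Nontrivial}.Finite := hcf.subset (fun C hC => hC.1)
  obtain ⟨C0, hC0, hCn0⟩ := hnt
  obtain ⟨C1, hC1, hmin⟩ := Set.exists_min_image _ (fun C => (p C).2) hfin ⟨C0, hC0, hCn0⟩
  have h1 := hp C1 hC1
  refine ⟨(p C1).1, h1.1, ?_⟩
  rw [main_min hD hDc h0 hn h1.1]
  refine ⟨C1, hC1.1, (p C1).2, h1, ?_⟩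
  intro C' hC' g ρ hg
  obtain ⟨-, -, C2, hC2, hnt2, hg2, huniq⟩ := main_all hD hDc hn hg.1 hg.2.1
  have h2 : C' = C2 := huniq C' hC' _ _ hg
  subst h2
  have h3 := hp C' ⟨hC', hnt2⟩
  have h4 := (main_unique hD hDc h0 hn hC' h3 hg).1
  rw [← h4]
  exact hmin C' ⟨hC', hnt2⟩

theorem main_infinite (hD : IsOpen D) (hDc : IsConnected D) (h0 : (0 : ℂ) ∈ D)
    (hn : (comps D).encard = n) (hnt : ¬ ∃ C ∈ comps D, C.Nontrivial) {f : ℂ → ℂ} (hf : f ∈ SD D) :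
    areaI D f = ⊤ := by
  by_contra h
  obtain ⟨C, hC, hCn, -⟩ := main_lower hD hDc h0 hn hf h
  exact hnt ⟨C, hC, hCn⟩

end Pool.Agent.H762R2
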