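import Pool.Agent.H762R2.Top1

set_option autoImplicit false

open Set Filter Topology Metric
open scoped OnePoint

namespace Pool.Agent.H762R2

/-- the Möbius map `w ↦ b w / (b - w)` of the Riemann sphere -/
noncomputable def mobT (b : ℂ) (x : OnePoint ℂ) : OnePoint ℂ :=
  x.elim (((-b : ℂ)) : OnePoint ℂ)
    (fun z => open Classical in if z = b then ∞ else ((b * z / (b - z) : ℂ) : OnePoint ℂ))

theorem mobT_infty (b : ℂ) : mobT b ∞ = ((-b : ℂ) : OnePoint ℂ) := rfl

theorem mobT_self (b : ℂ) : mobT b (b : OnePoint ℂ) = ∞ := by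
  unfold mobT
  rw [OnePoint.elim_some]
  simp

theorem mobT_coe {b z : ℂ} (h : z ≠ b) :
    mobT b (z : OnePoint ℂ) = ((b * z / (b - z) : ℂ) : OnePoint ℂ) := by
  unfold mobT
  rw [OnePoint.elim_some, if_neg h]

theorem mobT_zero {b : ℂ} (hb : b ≠ 0) : mobT b ((0 : ℂ) : OnePoint ℂ) = ((0 : ℂ) : OnePoint ℂ) := by
  rw [mobT_coe hb.symm]
  simp

theorem mobT_mobT {b : ℂ} (hb : b ≠ 0) (x : OnePoint ℂ) : mobT (-b) (mobT b x) = x := by
  induction x using OnePoint.rec with
  | infty => rw [mobT_infty, mobT_self]
  | coe z =>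
    by_cases hz : z = b
    · rw [hz, mobT_self, mobT_infty, neg_neg]
    · have h1 : b - z ≠ 0 := sub_ne_zero.2 (Ne.symm hz)
      have h2 : b * z / (b - z) ≠ -b := by
        intro h
        rw [div_eq_iff h1] at h
        apply hb
        have : b * b = 0 := by linear_combination h
        simpa using this
      rw [mobT_coe hz, mobT_coe h2]
      congr 1
      have h3 : -b - b * z / (b - z) = -(b * b) / (b - z) := by
        field_simp
        ring
      rw [h3]
      field_simp

theorem mobT_mobT' {b : ℂ} (hb : b ≠ 0) (x : OnePoint ℂ) : mobT b (mobT (-b) x) = x := by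
  have := mobT_mobT (b := -b) (neg_ne_zero.2 hb) x
  rwa [neg_neg] at this

theorem continuous_mobT {b : ℂ} (hb : b ≠ 0) : Continuous (mobT b) := by
  rw [continuous_iff_continuousAt]
  intro x
  induction x using OnePoint.rec with
  | infty =>
    rw [OnePoint.continuousAt_infty', mobT_infty, coclosedCompact_eq_cocompact]
    have h1 : Tendsto (fun z : ℂ => b * z / (b - z)) (cocompact ℂ) (𝓝 (-b)) := by
      have h2 : Tendsto (fun z : ℂ => -b - b * b * (z - b)⁻¹) (cocompact ℂ) (𝓝 (-b - b * b * 0)) := by
        have h3 : Tendsto (fun z : ℂ => z - b) (cocompact ℂ) (cocompact ℂ) :=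
          (Homeomorph.subRight b).isClosedEmbedding.tendsto_cocompact
        have h4 := (tendsto_inv₀_cobounded (α := ℂ)).comp (by rwa [← Metric.cobounded_eq_cocompact] at h3)
        rw [Metric.cobounded_eq_cocompact] at h4
        exact tendsto_const_nhds.sub (tendsto_const_nhds.mul h4)
      rw [mul_zero, sub_zero] at h2
      refine h2.congr' ?_
      have h5 : ∀ᶠ z in cocompact ℂ, z ∈ ({b} : Set ℂ)ᶜ := isCompact_singleton.compl_mem_cocompact
      filter_upwards [h5] with z hz
      have h6 : z - b ≠ 0 := sub_ne_zero.2 hz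
      have h7 : b - z ≠ 0 := sub_ne_zero.2 (Ne.symm hz)
      have h8 : b - z = -(z - b) := by ring
      rw [h8]
      field_simp
      ring
    refine ((OnePoint.continuous_coe.tendsto (-b)).comp h1).congr' ?_
    have h5 : ∀ᶠ z in cocompact ℂ, z ∈ ({b} : Set ℂ)ᶜ := isCompact_singleton.compl_mem_cocompact
    filter_upwards [h5] with z hz
    simp only [Function.comp]
    rw [mobT_coe hz]
  | coe z =>
    rw [OnePoint.continuousAt_coe]
    by_cases hz : z = b
    · subst hz
      rw [continuousAt_iff_punctured_nhds, Function.comp_apply, mobT_self]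
      have h1 : Tendsto (fun w : ℂ => z * w / (z - w)) (𝓝[≠] z) (Bornology.cobounded ℂ) := by
        have h2 : Tendsto (fun w : ℂ => (z * w) * (z - w)⁻¹) (𝓝[≠] z) (Bornology.cobounded ℂ) := by
          have h3 : Tendsto (fun w : ℂ => z - w) (𝓝[≠] z) (𝓝[≠] 0) := by
            rw [tendsto_nhdsWithin_iff]
            constructor
            · have : ContinuousAt (fun w : ℂ => z - w) z := by fun_prop
              have h4 := this.tendsto.mono_left (nhdsWithin_le_nhds (s := {z}ᶜ))
              rwa [sub_self] at h4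
            · filter_upwards [self_mem_nhdsWithin] with w hw
              exact sub_ne_zero.2 (Ne.symm hw)
          have h5 : Tendsto (fun w : ℂ => (z - w)⁻¹) (𝓝[≠] z) (Bornology.cobounded ℂ) :=
            tendsto_inv₀_nhdsNE_zero.comp h3
          have h6 : Tendsto (fun w : ℂ => z * w) (𝓝[≠] z) (𝓝 (z * z)) := by
            have : ContinuousAt (fun w : ℂ => z * w) z := by fun_prop
            exact this.tendsto.mono_left nhdsWithin_le_nhds
          rw [← tendsto_norm_atTop_iff_cobounded] at h5 ⊢
          simp only [norm_mul]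
          have h7 : Tendsto (fun w : ℂ => ‖z * w‖) (𝓝[≠] z) (𝓝 ‖z * z‖) := h6.norm
          simp only [norm_mul] at h7
          exact Tendsto.pos_mul_atTop (by positivity) h7 h5
        exact h2
      rw [Metric.cobounded_eq_cocompact, ← coclosedCompact_eq_cocompact] at h1
      refine (OnePoint.tendsto_coe_infty.comp h1).congr' ?_
      filter_upwards [self_mem_nhdsWithin] with w hw
      simp only [Function.comp]
      rw [mobT_coe hw]
    · have h1 : ContinuousAt (fun w : ℂ => b * w / (b - w)) z := by
        apply ContinuousAt.div (by fun_prop) (by fun_prop) (sub_ne_zero.2 (Ne.symm hz))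
      have h2 : ContinuousAt (fun w : ℂ => ((b * w / (b - w) : ℂ) : OnePoint ℂ)) z :=
        OnePoint.continuous_coe.continuousAt.comp h1
      refine h2.congr ?_
      filter_upwards [isOpen_compl_singleton.mem_nhds hz] with w hw
      simp only [Function.comp]
      rw [mobT_coe hw]

/-- the image of a set under `mobT` -/
theorem mem_image_mobT {b : ℂ} (hb : b ≠ 0) {H : Set (OnePoint ℂ)} {x : OnePoint ℂ} :
    x ∈ mobT b '' H ↔ mobT (-b) x ∈ H := by
  constructor
  · rintro ⟨y, hy, rfl⟩
    rwa [mobT_mobT hb]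
  · intro h
    exact ⟨_, h, mobT_mobT' hb x⟩

theorem image_compl_mobT {b : ℂ} (hb : b ≠ 0) (H : Set (OnePoint ℂ)) :
    mobT b '' Hᶜ = (mobT b '' H)ᶜ := by
  ext x
  rw [mem_image_mobT hb, mem_compl_iff, mem_compl_iff, mem_image_mobT hb]

end Pool.Agent.H762R2
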