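import Mathlib

set_option autoImplicit false

open Set Filter Topology Metric MeasureTheory Complex
open scoped ENNReal Real

namespace Pool.Agent.H762R2

theorem meas_ind {S : Set ℂ} (hS : MeasurableSet S) {g : ℂ → ℝ≥0∞} (hg : ContinuousOn g S) :
    Measurable (S.indicator g) := by
  classical
  rw [← Set.piecewise_eq_indicator]
  exact hg.measurable_piecewise continuousOn_const hS

/-- the point with polar coordinates `r, θ` -/
noncomputable def pc (r θ : ℝ) : ℂ := (r : ℂ) * exp (θ * I)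

theorem pc_eq (r θ : ℝ) : Complex.polarCoord.symm (r, θ) = pc r θ := by
  rw [Complex.polarCoord_symm_apply, pc, Complex.exp_mul_I]
  simp only [ofReal_cos, ofReal_sin]

theorem norm_pc {r : ℝ} (hr : 0 ≤ r) (θ : ℝ) : ‖pc r θ‖ = r := by
  rw [pc, norm_mul, Complex.norm_exp_ofReal_mul_I, mul_one, Complex.norm_real, Real.norm_of_nonneg hr]

theorem continuous_pc : Continuous fun p : ℝ × ℝ => pc p.1 p.2 := by
  unfold pc
  fun_prop

/-- polar coordinates for the lower integral over a measurable set -/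
theorem lint_polar {S : Set ℂ} (hS : MeasurableSet S) {g : ℂ → ℝ≥0∞} (hg : ContinuousOn g S) :
    ∫⁻ w in S, g w = ∫⁻ r in Ioi (0 : ℝ), ENNReal.ofReal r *
      ∫⁻ θ in Ioo (-π) π, S.indicator g (pc r θ) := by
  have hm : Measurable (S.indicator g) := meas_ind hS hg
  rw [← lintegral_indicator hS, ← Complex.lintegral_comp_polarCoord_symm]
  change ∫⁻ p in (Ioi (0:ℝ)) ×ˢ (Ioo (-π) π), _ = _
  have h1 : ∫⁻ p in (Ioi (0:ℝ)) ×ˢ (Ioo (-π) π), ENNReal.ofReal p.1 •
      S.indicator g (Complex.polarCoord.symm p) =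
      ∫⁻ p in (Ioi (0:ℝ)) ×ˢ (Ioo (-π) π), ENNReal.ofReal p.1 * S.indicator g (pc p.1 p.2) := by
    apply setLIntegral_congr_fun (measurableSet_Ioi.prod measurableSet_Ioo)
    rintro ⟨r, θ⟩ _
    simp only [smul_eq_mul, pc_eq]
  rw [h1, Measure.volume_eq_prod, ← Measure.prod_restrict]
  have hm2 : Measurable fun p : ℝ × ℝ => ENNReal.ofReal p.1 * S.indicator g (pc p.1 p.2) :=
    (measurable_fst.ennreal_ofReal).mul (hm.comp continuous_pc.measurable)
  rw [lintegral_prod _ hm2.aemeasurable]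
  apply lintegral_congr
  intro r
  show ∫⁻ y in Ioo (-π) π, ENNReal.ofReal r * S.indicator g (pc r y) = _
  rw [lintegral_const_mul]
  exact hm.comp (continuous_pc.measurable.comp (measurable_const.prodMk measurable_id))

/-- circle identity -/
theorem circle_lint {x : ℝ → ℂ} (hx : Continuous x) (h0 : ∫ θ in (-π)..π, x θ = 0) :
    ∫⁻ θ in Ioo (-π) π, ENNReal.ofReal (‖1 + x θ‖ ^ 2) =
      ENNReal.ofReal (2 * π) + ∫⁻ θ in Ioo (-π) π, ENNReal.ofReal (‖x θ‖ ^ 2) := by
  have hpi : -π ≤ π := by linarith [Real.pi_pos]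
  have e1 : ∀ f : ℝ → ℝ, Continuous f → (∀ θ, 0 ≤ f θ) →
      ∫⁻ θ in Ioo (-π) π, ENNReal.ofReal (f θ) = ENNReal.ofReal (∫ θ in (-π)..π, f θ) := by
    intro f hf hf0
    rw [intervalIntegral.integral_of_le hpi, Measure.restrict_congr_set Ioo_ae_eq_Ioc,
      ofReal_integral_eq_lintegral_ofReal]
    · exact (hf.integrableOn_Icc).mono_set Ioc_subset_Icc_self
    · exact Filter.Eventually.of_forall hf0
  rw [e1 _ (by fun_prop) (fun θ => by positivity), e1 _ (by fun_prop) (fun θ => by positivity),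
    ← ENNReal.ofReal_add (by positivity) (intervalIntegral.integral_nonneg hpi fun θ _ => by positivity)]
  congr 1
  have h2 : ∀ θ, ‖1 + x θ‖ ^ 2 = 1 + 2 * (x θ).re + ‖x θ‖ ^ 2 := by
    intro θ
    rw [← normSq_eq_norm_sq, ← normSq_eq_norm_sq, normSq_add]
    simp
    ring
  have h3 : ∫ θ in (-π)..π, (x θ).re = 0 := by
    have h4 : IntervalIntegrable x volume (-π) π := hx.intervalIntegrable _ _
    have h5 := intervalIntegral.intervalIntegral_re (𝕜 := ℂ) h4
    rw [h0] at h5
    simpa using h5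
  simp_rw [h2]
  rw [intervalIntegral.integral_add, intervalIntegral.integral_add]
  · rw [intervalIntegral.integral_const_mul, h3]
    simp
    ring
  all_goals
    apply Continuous.intervalIntegrable
    fun_prop

end Pool.Agent.H762R2
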