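import Pool.Agent.H762R2.Coef
import Pool.Agent.H762R2.Mob

set_option autoImplicit false

open Set Filter Topology Metric MeasureTheory Complex
open scoped OnePoint

namespace Pool.Agent.H762R2

open Pool.Agent.Helper405.Area (Dp isOpen_Dp hasSum_Q)
open Pool.Agent.Helper405.Conv (inv_facts deriv_ne_zero_of_injOn)

theorem blaschke_ne {a ζ : ℂ} (ha : ‖a‖ < 1) (hζ : ‖ζ‖ < 1) : 1 - (starRingEnd ℂ) a * ζ ≠ 0 :=
  ZFM.J_c4.bl_den_ne ha hζ

theorem blaschke_norm {a ζ : ℂ} (ha : ‖a‖ < 1) (hζ : ‖ζ‖ < 1) :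
    ‖ζ - a‖ < ‖1 - (starRingEnd ℂ) a * ζ‖ := by
  have h := ZFM.J_c4.bl_norm_lt ha hζ
  unfold ZFM.J_c4.bl at h
  rw [norm_div, div_lt_one (norm_pos_iff.2 (blaschke_ne ha hζ))] at h
  exact h

theorem blaschke_circle {a ζ : ℂ} (hζ : ‖ζ‖ = 1) :
    ‖ζ - a‖ = ‖1 - (starRingEnd ℂ) a * ζ‖ := by
  have h1 : ζ * (starRingEnd ℂ) ζ = 1 := by
    rw [Complex.mul_conj, normSq_eq_norm_sq, hζ]
    simp
  have h2 : 1 - (starRingEnd ℂ) a * ζ = ζ * (starRingEnd ℂ) (ζ - a) := by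
    rw [map_sub, mul_sub, h1]
    ring
  rw [h2, norm_mul, hζ, one_mul, RCLike.norm_conj]

/-- the circular slit function `-a ζ (1 - conj a ζ) / (ζ - a)` is injective on the disc -/
theorem slit_inj {a ζ ξ : ℂ} (ha0 : a ≠ 0) (ha : ‖a‖ < 1) (hζ : ‖ζ‖ < 1) (hξ : ‖ξ‖ < 1)
    (hζa : ζ ≠ a) (hξa : ξ ≠ a)
    (h : ζ * (1 - (starRingEnd ℂ) a * ζ) / (ζ - a) = ξ * (1 - (starRingEnd ℂ) a * ξ) / (ξ - a)) :
    ζ = ξ := by
  by_contra hne
  have h1 : ζ - a ≠ 0 := sub_ne_zero.2 hζa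
  have h2 : ξ - a ≠ 0 := sub_ne_zero.2 hξa
  have h3 : ζ - ξ ≠ 0 := sub_ne_zero.2 hne
  rw [div_eq_div_iff h1 h2] at h
  have h4 : (ζ - ξ) * (a * (1 - (starRingEnd ℂ) a * ζ) + (starRingEnd ℂ) a * ξ * (ζ - a)) = 0 := by
    linear_combination -h
  rcases mul_eq_zero.1 h4 with h5 | h5
  · exact h3 h5
  · have h6 : a * (1 - (starRingEnd ℂ) a * ζ) = -((starRingEnd ℂ) a * ξ * (ζ - a)) := by
      linear_combination h5
    have h7 := congrArg norm h6
    rw [norm_neg, norm_mul, norm_mul, norm_mul, RCLike.norm_conj, mul_assoc] at h7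
    have h8 := mul_left_cancel₀ (norm_ne_zero_iff.2 ha0) h7
    have h9 := blaschke_norm ha hζ
    have h10 : 0 < ‖ζ - a‖ := norm_pos_iff.2 h1
    nlinarith

/-- the map of the exterior of a continuum onto the exterior of a circular arc -/
theorem slit_map {H : Set (OnePoint ℂ)} (hHcl : IsClosed H) (hHc : IsConnected H)
    (hHcc : IsConnected Hᶜ) (hinf : (∞ : OnePoint ℂ) ∉ H) (h0 : ((0 : ℂ) : OnePoint ℂ) ∉ H)
    (hnt : H.Nontrivial) :
    ∃ (Φ : ℂ → ℂ) (c : ℂ), Adm {w : ℂ | (w : OnePoint ℂ) ∉ H} Φ ∧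
      Tendsto (fun w => Φ w / w) (cocompact ℂ) (𝓝 c) ∧ c ≠ 0 ∧ ‖c‖ ≤ 1 ∧
      (‖c‖ = 1 → ∃ ρ : ℝ, ∀ w : ℂ, (w : OnePoint ℂ) ∈ H → ‖w‖ = ρ) := by
  classical
  set Y : Set ℂ := {w : ℂ | (w : OnePoint ℂ) ∉ H} with hY
  -- base point
  obtain ⟨b, hb⟩ : ∃ b : ℂ, (b : OnePoint ℂ) ∈ H := by
    obtain ⟨x, hx⟩ := hHc.nonempty
    induction x using OnePoint.rec with
    | infty => exact absurd hx hinf
    | coe b => exact ⟨b, hx⟩
  have hb0 : b ≠ 0 := fun h => h0 (h ▸ hb)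
  have hYb : ∀ w ∈ Y, w ≠ b := fun w hw h => hw (h ▸ hb)
  have hYo : IsOpen Y := hHcl.isOpen_compl.preimage OnePoint.continuous_coe
  have h0Y : (0 : ℂ) ∈ Y := h0
  set K := mobT b '' H with hK
  have hKinf : (∞ : OnePoint ℂ) ∈ K := ⟨b, hb, mobT_self b⟩
  have hKcl : IsClosed K := (hHcl.isCompact.image (continuous_mobT hb0)).isClosed
  have hKc : IsConnected K := hHc.image _ (continuous_mobT hb0).continuousOn
  have hKcc : IsConnected Kᶜ := by
    rw [hK, ← image_compl_mobT hb0]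
    exact hHcc.image _ (continuous_mobT hb0).continuousOn
  set U := pl K with hU
  have hUo : IsOpen U := isOpen_pl hKcl
  have hUc : IsConnected U := isConnected_pl hKinf hKcc
  have hHP : ZFM.J_c4.HP U := hp_of_sc hUo (by rw [hU, sc_pl hKinf]; exact hKc.isPreconnected)
  have hUmem : ∀ v : ℂ, v ∈ U ↔ mobT (-b) (v : OnePoint ℂ) ∉ H := by
    intro v
    show ((v : OnePoint ℂ) ∉ mobT b '' H) ↔ _
    rw [mem_image_mobT hb0]
  have h0U : (0 : ℂ) ∈ U := by
    rw [hUmem, mobT_zero (neg_ne_zero.2 hb0)]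
    exact h0
  have hbU : -b ∈ U := by
    rw [hUmem, mobT_self]
    exact hinf
  have hUne : U ≠ univ := by
    obtain ⟨x, hx, hxb⟩ := hnt.exists_ne (b : OnePoint ℂ)
    induction x using OnePoint.rec with
    | infty => exact absurd hx hinf
    | coe x =>
      intro hcon
      have hxb' : x ≠ b := fun h => hxb (by rw [h])
      have h1 : b * x / (b - x) ∈ U := hcon ▸ mem_univ _
      exact h1 ⟨x, hx, mobT_coe hxb'⟩
  obtain ⟨g, φ, hgd, hgb, hgne, hg0, hφd, hφm, hgφ, hφg⟩ := ZFM.J_c4.riemann_inv hUo hUc hHP hUne h0U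
  set a := φ (-b) with ha
  have hga : g a = -b := hgφ _ hbU
  have haB : a ∈ ball (0 : ℂ) 1 := hφm hbU
  have ha1 : ‖a‖ < 1 := mem_ball_zero_iff.1 haB
  have ha0 : a ≠ 0 := by
    intro h
    rw [h, hg0] at hga
    exact hb0 (by linear_combination hga)
  have h0B : (0 : ℂ) ∈ ball (0 : ℂ) 1 := mem_ball_self one_pos
  have hφ0 : φ 0 = 0 := by
    have := hφg 0 h0B
    rwa [hg0] at this
  set d := deriv g 0 with hd
  have hd0 : d ≠ 0 := hgne 0 h0B
  have hg_inj : InjOn g (ball 0 1) := hgb.injOn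
  have hgz : ∀ ζ ∈ ball (0 : ℂ) 1, ζ ≠ 0 → g ζ ≠ 0 := by
    intro ζ hζ h h'
    exact h (hg_inj hζ h0B (h'.trans hg0.symm))
  set q := dslope g 0 with hq
  have hqd : DifferentiableOn ℂ q (ball 0 1) := (differentiableOn_dslope (isOpen_ball.mem_nhds h0B)).2 hgd
  have hq0 : q 0 = d := dslope_same _ _
  have hqz : ∀ ζ : ℂ, ζ ≠ 0 → q ζ = g ζ / ζ := by
    intro ζ hζ
    rw [hq, dslope_of_ne _ hζ, slope_def_field, hg0, sub_zero, sub_zero]
  have hqne : ∀ ζ ∈ ball (0 : ℂ) 1, q ζ ≠ 0 := by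
    intro ζ hζ
    by_cases h : ζ = 0
    · rw [h, hq0]; exact hd0
    · rw [hqz ζ h]; exact div_ne_zero (hgz ζ hζ h) h
  set P : ℂ → ℂ := fun ζ => d * (b + g ζ) / (b * q ζ) with hP
  have hPd : DifferentiableOn ℂ P (ball 0 1) :=
    ((differentiableOn_const _).mul ((differentiableOn_const _).add hgd)).div
      ((differentiableOn_const _).mul hqd) (fun ζ hζ => mul_ne_zero hb0 (hqne ζ hζ))
  have hP0 : P 0 = 1 := by
    simp only [hP]
    rw [hg0, hq0, add_zero, mul_comm d b]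
    exact div_self (mul_ne_zero hb0 hd0)
  have hPa : P a = 0 := by
    simp only [hP]
    rw [hga]
    simp
  have hPz : ∀ ζ ∈ ball (0 : ℂ) 1, ζ ≠ 0 → P ζ = ζ * (d * ((g ζ)⁻¹ + b⁻¹)) := by
    intro ζ hζ h
    simp only [hP]
    rw [hqz ζ h]
    have := hgz ζ hζ h
    field_simp
  have hPne : ∀ ζ ∈ ball (0 : ℂ) 1, ζ ≠ a → P ζ ≠ 0 := by
    intro ζ hζ h
    simp only [hP]
    apply div_ne_zero _ (mul_ne_zero hb0 (hqne ζ hζ))
    apply mul_ne_zero hd0
    intro h'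
    apply h
    apply hg_inj hζ haB
    rw [hga]
    linear_combination h'
  set h : ℂ → ℂ := fun ζ => d * ((g ζ)⁻¹ + b⁻¹) with hh
  have hDpB : Dp ⊆ ball (0 : ℂ) 1 := sdiff_subset
  have hhd : DifferentiableOn ℂ h Dp := by
    apply DifferentiableOn.mul (differentiableOn_const _)
    apply DifferentiableOn.add _ (differentiableOn_const _)
    exact (hgd.mono hDpB).inv (fun ζ hζ => hgz ζ hζ.1 hζ.2)
  have hhi : InjOn h Dp := by
    intro ζ hζ ξ hξ he
    simp only [hh] at he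
    have h1 := mul_left_cancel₀ hd0 he
    have h2 := add_right_cancel h1
    exact hg_inj hζ.1 hξ.1 (inv_injective h2)
  have hhp : Tendsto h (𝓝[≠] 0) (Bornology.cobounded ℂ) := by
    have hgc : Tendsto g (𝓝[≠] 0) (𝓝[≠] 0) := by
      rw [tendsto_nhdsWithin_iff]
      constructor
      · have h1 := (hgd.continuousOn.continuousAt (isOpen_ball.mem_nhds h0B)).tendsto
        rw [hg0] at h1
        exact h1.mono_left nhdsWithin_le_nhds
      · have h2 : ball (0 : ℂ) 1 ∈ 𝓝 (0 : ℂ) := isOpen_ball.mem_nhds h0B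
        filter_upwards [self_mem_nhdsWithin, mem_nhdsWithin_of_mem_nhds h2] with ζ hζ hζ1
        exact hgz ζ hζ1 hζ
    have h3 : Tendsto (fun ζ => (g ζ)⁻¹) (𝓝[≠] 0) (Bornology.cobounded ℂ) :=
      tendsto_inv₀_nhdsNE_zero.comp hgc
    rw [← tendsto_norm_atTop_iff_cobounded] at h3 ⊢
    have h4 : Tendsto (fun ζ => ‖d‖ * (‖(g ζ)⁻¹‖ - ‖b⁻¹‖)) (𝓝[≠] 0) atTop := by
      apply Tendsto.const_mul_atTop (norm_pos_iff.2 hd0)
      exact tendsto_atTop_add_const_right _ _ h3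
    refine tendsto_atTop_mono ?_ h4
    intro ζ
    simp only [hh]
    rw [norm_mul]
    gcongr
    have h5 := norm_sub_norm_le (g ζ)⁻¹ (-b⁻¹)
    rw [norm_neg, sub_neg_eq_add] at h5
    exact h5
  have hF0 : ∀ z ∈ Dp, h z * z = P z := by
    intro z hz
    rw [hPz z hz.1 hz.2, mul_comm]
  obtain ⟨c, hc, hc0⟩ := exists_taylor hPd
  rw [hP0] at hc0
  obtain ⟨hsum, hle⟩ := area_om hhd hhi hhp hPd hF0 hc
  have hle' : ∑' j : ℕ, (j : ℝ) * ‖c (j + 1)‖ ^ 2 ≤ 1 := by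
    have h1 : 0 ≤ volume.real (h '' Dp)ᶜ := measureReal_nonneg
    rw [hc0, norm_one, one_pow, mul_one] at hle
    have hpi := Real.pi_pos
    by_contra hcon
    push Not at hcon
    nlinarith
  set X : ℂ := a * deriv P a + 1 with hX
  have hXs : HasSum (fun j : ℕ => (j : ℂ) * c (j + 1) * a ^ (j + 1)) X := by
    have h1 := hasSum_Q hc 1 a haB
    rw [hPa] at h1
    simp only [Nat.cast_one, mul_zero, sub_zero] at h1
    have h2 := (hasSum_nat_add_iff' 1).2 h1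
    simp only [Finset.sum_range_one, hc0, pow_zero] at h2
    have e1 : a * deriv P a - (((0 : ℕ) : ℂ) - 1) * 1 * 1 = X := by
      rw [hX]; push_cast; ring
    rw [e1] at h2
    refine h2.congr_fun ?_
    intro j
    push_cast
    ring
  obtain ⟨hc1, hc2⟩ := coef_lemma ha0 ha1 hsum hle' hXs
  -- the function N
  set N : ℂ → ℂ := fun ζ => -a * (1 - (starRingEnd ℂ) a * ζ) * dslope P a ζ with hN
  have hNd : DifferentiableOn ℂ N (ball 0 1) := by
    apply DifferentiableOn.mul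
    · fun_prop
    · exact (differentiableOn_dslope (isOpen_ball.mem_nhds haB)).2 hPd
  have hNz : ∀ ζ : ℂ, ζ ≠ a → N ζ = -a * (1 - (starRingEnd ℂ) a * ζ) * P ζ / (ζ - a) := by
    intro ζ hζ
    simp only [hN]
    rw [dslope_of_ne _ hζ, slope_def_field, hPa, sub_zero, mul_div_assoc]
  have hPa' : deriv P a ≠ 0 := by
    have haD : a ∈ Dp := ⟨haB, ha0⟩
    have h1 := deriv_ne_zero_of_injOn isOpen_Dp hhd hhi haD
    intro h2
    apply h1
    have h3 : HasDerivAt (fun z => P z / z) ((deriv P a * a - P a * 1) / a ^ 2) a :=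
      (hPd.differentiableAt (isOpen_ball.mem_nhds haB)).hasDerivAt.div (hasDerivAt_id a) ha0
    have h4 : h =ᶠ[𝓝 a] fun z => P z / z := by
      filter_upwards [isOpen_Dp.mem_nhds haD] with z hz
      have hz0 : z ≠ 0 := hz.2
      rw [← hF0 z hz]
      field_simp
    rw [h4.deriv_eq, h3.deriv, h2, hPa]
    simp
  have hNne : ∀ ζ ∈ ball (0 : ℂ) 1, N ζ ≠ 0 := by
    intro ζ hζ
    have h1 := blaschke_ne ha1 (mem_ball_zero_iff.1 hζ)
    by_cases hζa : ζ = a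
    · rw [hζa] at h1 ⊢
      simp only [hN]
      rw [dslope_same]
      exact mul_ne_zero (mul_ne_zero (neg_ne_zero.2 ha0) h1) hPa'
    · rw [hNz ζ hζa]
      exact div_ne_zero (mul_ne_zero (mul_ne_zero (neg_ne_zero.2 ha0) h1) (hPne ζ hζ hζa))
        (sub_ne_zero.2 hζa)
  have hN0 : N 0 = 1 := by
    rw [hNz 0 ha0.symm, hP0]
    field_simp
    simp
  obtain ⟨l, hld, hl0, hle2⟩ := exists_log isOpen_ball (convex_ball (0 : ℂ) 1).isPreconnected (hp_ball 0 1)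
    hNd hNne h0B hN0
  -- the map T
  set τ : ℂ → ℂ := fun w => b * w / (b - w) with hτ
  have hτU : ∀ w ∈ Y, τ w ∈ U := by
    intro w hw
    rw [hUmem]
    simp only [hτ]
    rw [← mobT_coe (hYb w hw), mobT_mobT hb0]
    exact hw
  have hτd : DifferentiableOn ℂ τ Y := by
    intro w hw
    have h1 : b - w ≠ 0 := sub_ne_zero.2 (hYb w hw).symm
    exact (DifferentiableAt.div (by fun_prop) (by fun_prop) h1).differentiableWithinAt
  have hτb : ∀ w ∈ Y, τ w ≠ -b := by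
    intro w hw h1
    have h2 : b - w ≠ 0 := sub_ne_zero.2 (hYb w hw).symm
    simp only [hτ] at h1
    rw [div_eq_iff h2] at h1
    apply hb0
    have h3 : b * b = 0 := by linear_combination h1
    simpa using h3
  set Z : ℂ → ℂ := fun w => φ (τ w) with hZ
  have hZd : DifferentiableOn ℂ Z Y := hφd.comp hτd hτU
  have hZB : ∀ w ∈ Y, Z w ∈ ball (0 : ℂ) 1 := fun w hw => hφm (hτU w hw)
  have hgZ : ∀ w ∈ Y, g (Z w) = τ w := fun w hw => hgφ _ (hτU w hw)
  have hZa : ∀ w ∈ Y, Z w ≠ a := by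
    intro w hw h1
    apply hτb w hw
    rw [← hgZ w hw, h1, hga]
  have hτ0 : τ 0 = 0 := by simp [hτ]
  have hZ0 : Z 0 = 0 := by simp only [hZ]; rw [hτ0, hφ0]
  have hτz : ∀ w ∈ Y, w ≠ 0 → (τ w)⁻¹ + b⁻¹ = w⁻¹ := by
    intro w hw hw0
    have h2 : b - w ≠ 0 := sub_ne_zero.2 (hYb w hw).symm
    simp only [hτ]
    field_simp
    ring
  set Φ : ℂ → ℂ := fun w => w * exp (l (Z w)) with hΦ
  have hΦe : ∀ w ∈ Y, Φ w = -(d * a) * (Z w * (1 - (starRingEnd ℂ) a * Z w) / (Z w - a)) := by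
    intro w hw
    simp only [hΦ]
    rw [← hle2 _ (hZB w hw)]
    by_cases hw0 : w = 0
    · rw [hw0, hZ0]; simp
    · have h1 : Z w ≠ 0 := by
        intro h1
        have h2 := hgZ w hw
        rw [h1, hg0] at h2
        have h3 := hτz w hw hw0
        rw [← h2, inv_zero, zero_add] at h3
        exact (hYb w hw) (inv_injective h3).symm
      rw [hNz _ (hZa w hw), hPz _ (hZB w hw) h1, hgZ w hw, hτz w hw hw0]
      have h4 : Z w - a ≠ 0 := sub_ne_zero.2 (hZa w hw)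
      field_simp
  have hΦi : InjOn Φ Y := by
    intro w hw v hv he
    rw [hΦe w hw, hΦe v hv] at he
    have h1 := mul_left_cancel₀ (neg_ne_zero.2 (mul_ne_zero hd0 ha0)) he
    have h2 := slit_inj ha0 ha1 (mem_ball_zero_iff.1 (hZB w hw)) (mem_ball_zero_iff.1 (hZB v hv))
      (hZa w hw) (hZa v hv) h1
    have h3 : τ w = τ v := by rw [← hgZ w hw, ← hgZ v hv, h2]
    have h4 : b - w ≠ 0 := sub_ne_zero.2 (hYb w hw).symm
    have h5 : b - v ≠ 0 := sub_ne_zero.2 (hYb v hv).symm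
    simp only [hτ] at h3
    rw [div_eq_div_iff h4 h5] at h3
    have h6 : b * b * (w - v) = 0 := by linear_combination h3
    rcases mul_eq_zero.1 h6 with h7 | h7
    · exact absurd h7 (mul_ne_zero hb0 hb0)
    · exact sub_eq_zero.1 h7
  have hadm : Adm Y Φ := by
    refine ⟨hΦi, fun w => l (Z w), ?_, ?_, fun w _ => rfl⟩
    · exact hld.comp hZd hZB
    · show l (Z 0) = 0
      rw [hZ0, hl0]
  -- large points are in Y
  have hYcc : ∀ᶠ w in cocompact ℂ, w ∈ Y := by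
    have h1 : Hᶜ ∈ 𝓝 (∞ : OnePoint ℂ) := hHcl.isOpen_compl.mem_nhds hinf
    have h2 := OnePoint.tendsto_coe_infty (X := ℂ) h1
    rw [coclosedCompact_eq_cocompact] at h2
    exact h2
  have hτlim : Tendsto τ (cocompact ℂ) (𝓝 (-b)) := by
    have h1 := (continuous_mobT hb0).continuousAt (x := ∞)
    rw [OnePoint.continuousAt_infty', mobT_infty, coclosedCompact_eq_cocompact] at h1
    rw [OnePoint.isOpenEmbedding_coe.isEmbedding.tendsto_nhds_iff]
    refine h1.congr' ?_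
    filter_upwards [hYcc] with w hw
    simp only [Function.comp, hτ]
    rw [mobT_coe (hYb w hw)]
  have hZlim : Tendsto Z (cocompact ℂ) (𝓝 a) :=
    (hφd.continuousOn.continuousAt (hUo.mem_nhds hbU)).tendsto.comp hτlim
  have hlim : Tendsto (fun w => Φ w / w) (cocompact ℂ) (𝓝 (N a)) := by
    have h1 : ContinuousAt N a := hNd.continuousOn.continuousAt (isOpen_ball.mem_nhds haB)
    refine (h1.tendsto.comp hZlim).congr' ?_
    have h5 : ∀ᶠ z in cocompact ℂ, z ∈ ({0} : Set ℂ)ᶜ := isCompact_singleton.compl_mem_cocompact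
    filter_upwards [hYcc, h5] with w hw hw0
    have hw0' : w ≠ 0 := hw0
    simp only [Function.comp, hΦ]
    rw [hle2 _ (hZB w hw)]
    field_simp
  have hNa : N a = (1 - ((‖a‖ ^ 2 : ℝ) : ℂ)) * (1 - X) := by
    simp only [hN]
    rw [dslope_same, hX]
    have h1 : (starRingEnd ℂ) a * a = ((‖a‖ ^ 2 : ℝ) : ℂ) := by
      rw [← Complex.normSq_eq_norm_sq, Complex.normSq_eq_conj_mul_self]
    rw [h1]
    ring
  have hA1 : 0 < 1 - ‖a‖ ^ 2 := by nlinarith [norm_nonneg a]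
  have hNan : ‖N a‖ = (1 - ‖a‖ ^ 2) * ‖1 - X‖ := by
    rw [hNa, norm_mul]
    congr 1
    have : (1 - ((‖a‖ ^ 2 : ℝ) : ℂ)) = ((1 - ‖a‖ ^ 2 : ℝ) : ℂ) := by push_cast; ring
    rw [this, Complex.norm_real, Real.norm_of_nonneg hA1.le]
  refine ⟨Φ, N a, hadm, hlim, hNne a haB, by rw [hNan]; exact hc1, ?_⟩
  intro hNa1
  rw [hNan] at hNa1
  have hcj := hc2 hNa1
  set A : ℝ := ‖a‖ ^ 2 with hA
  have hA0 : 0 < A := pow_pos (norm_pos_iff.2 ha0) 2
  have haa : (starRingEnd ℂ) a * a = ((A : ℝ) : ℂ) := by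
    rw [hA, ← Complex.normSq_eq_norm_sq, Complex.normSq_eq_conj_mul_self]
  set lam : ℂ := (((1 - A) / A : ℝ) : ℂ) with hlam
  have hAc : ((A : ℝ) : ℂ) ≠ 0 := by exact_mod_cast hA0.ne'
  have hA1c : (1 - ((A : ℝ) : ℂ)) ≠ 0 := by
    have : ((1 - A : ℝ) : ℂ) ≠ 0 := by exact_mod_cast hA1.ne'
    rwa [ofReal_sub, ofReal_one] at this
  have hlamA : lam * ((A : ℝ) : ℂ) = 1 - ((A : ℝ) : ℂ) := by
    rw [hlam]; push_cast; field_simp
  have hP1 : ∀ ζ ∈ ball (0 : ℂ) 1, P ζ = 1 + (c 1 + lam * (starRingEnd ℂ) a) * ζ -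
      lam * ((starRingEnd ℂ) a * ζ) / (1 - (starRingEnd ℂ) a * ζ) := by
    intro ζ hζ
    have hζ1 := mem_ball_zero_iff.1 hζ
    have h1 := (hasSum_nat_add_iff' 1).2 (hc ζ hζ)
    simp only [Finset.sum_range_one, hc0, pow_zero, mul_one] at h1
    have h2 : ‖(starRingEnd ℂ) a * ζ‖ < 1 := by
      rw [norm_mul, RCLike.norm_conj]
      nlinarith [norm_nonneg a, norm_nonneg ζ]
    have h3 := (hasSum_geometric_of_norm_lt_one h2).mul_left (lam * ((starRingEnd ℂ) a * ζ))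
    have h4 := h1.add h3
    have h5 : HasSum (fun j : ℕ => c (j + 1) * ζ ^ (j + 1) +
        lam * ((starRingEnd ℂ) a * ζ) * ((starRingEnd ℂ) a * ζ) ^ j)
        (c (0 + 1) * ζ ^ (0 + 1) + lam * ((starRingEnd ℂ) a * ζ) * ((starRingEnd ℂ) a * ζ) ^ 0) := by
      apply hasSum_single
      intro j hj
      rw [hcj j (by omega)]
      ring
    have h6 := h4.unique h5
    have h7 := blaschke_ne ha1 hζ1
    rw [zero_add, pow_one, pow_zero, mul_one] at h6
    rw [← div_eq_mul_inv] at h6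
    linear_combination h6
  have hκ : c 1 + lam * (starRingEnd ℂ) a = 0 := by
    have h1 := hP1 a haB
    rw [hPa, haa, hlamA, div_self hA1c] at h1
    have h2 : (c 1 + lam * (starRingEnd ℂ) a) * a = 0 := by linear_combination -h1
    rcases mul_eq_zero.1 h2 with h3 | h3
    · exact h3
    · exact absurd h3 ha0
  have hN1 : ∀ ζ ∈ ball (0 : ℂ) 1, ζ ≠ a → N ζ = 1 := by
    intro ζ hζ hζa
    have h7 := blaschke_ne ha1 (mem_ball_zero_iff.1 hζ)
    have h8 : ζ - a ≠ 0 := sub_ne_zero.2 hζa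
    rw [hNz ζ hζa, hP1 ζ hζ, hκ, zero_mul, add_zero]
    have h9 : lam * ((starRingEnd ℂ) a * ζ) * a = (1 - ((A : ℝ) : ℂ)) * ζ := by
      rw [← hlamA, ← haa]; ring
    rw [div_eq_one_iff_eq h8]
    have h10 : -a * (1 - (starRingEnd ℂ) a * ζ) *
        (1 - lam * ((starRingEnd ℂ) a * ζ) / (1 - (starRingEnd ℂ) a * ζ)) =
        -a * (1 - (starRingEnd ℂ) a * ζ) + lam * ((starRingEnd ℂ) a * ζ) * a := by
      field_simp
      ring
    rw [h10, h9, ← haa]
    ring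
  have hid : ∀ w ∈ Y, w = -(d * a) * (Z w * (1 - (starRingEnd ℂ) a * Z w) / (Z w - a)) := by
    intro w hw
    rw [← hΦe w hw]
    simp only [hΦ]
    rw [← hle2 _ (hZB w hw), hN1 _ (hZB w hw) (hZa w hw), mul_one]
  have hsurj : ∀ ζ ∈ ball (0 : ℂ) 1, ζ ≠ a →
      -(d * a) * (ζ * (1 - (starRingEnd ℂ) a * ζ) / (ζ - a)) ∈ Y := by
    intro ζ hζ hζa
    have hvU : g ζ ∈ U := hgb.mapsTo hζ
    have hvb : g ζ ≠ -b := by
      intro h1
      apply hζa
      apply hg_inj hζ haB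
      rw [h1, hga]
    have h1 := (hUmem (g ζ)).1 hvU
    have h2 := mobT_mobT' hb0 ((g ζ : ℂ) : OnePoint ℂ)
    rw [mobT_coe hvb] at h1 h2
    set w' : ℂ := -b * g ζ / (-b - g ζ) with hw'
    have hw'Y : w' ∈ Y := h1
    rw [mobT_coe (hYb w' hw'Y)] at h2
    have h3 : τ w' = g ζ := OnePoint.coe_injective h2
    have h4 : Z w' = ζ := by
      simp only [hZ]
      rw [h3, hφg ζ hζ]
    have h5 := hid w' hw'Y
    rw [h4] at h5
    rw [← h5]
    exact hw'Y
  have hρ : 0 < ‖d * a‖ := norm_pos_iff.2 (mul_ne_zero hd0 ha0)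
  -- the closure property
  have hcl : ∀ w ∈ closure Y, ‖w‖ ≠ ‖d * a‖ → w ∈ Y := by
    intro w hw hwρ
    obtain ⟨u, huY, hu⟩ := mem_closure_iff_seq_limit.1 hw
    have hcomp : IsCompact (closedBall (0 : ℂ) 1) := isCompact_closedBall _ _
    obtain ⟨ζ, hζ, k, hk, hζl⟩ := hcomp.tendsto_subseq (x := fun n => Z (u n))
      (fun n => ball_subset_closedBall (hZB (u n) (huY n)))
    have hul : Tendsto (fun n => u (k n)) atTop (𝓝 w) := hu.comp hk.tendsto_atTop
    have heq : w * (ζ - a) = -(d * a) * (ζ * (1 - (starRingEnd ℂ) a * ζ)) := by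
      have h1 : Tendsto (fun n => u (k n) * (Z (u (k n)) - a)) atTop (𝓝 (w * (ζ - a))) :=
        hul.mul (hζl.sub_const a)
      have h2 : Tendsto (fun n => -(d * a) * (Z (u (k n)) * (1 - (starRingEnd ℂ) a * Z (u (k n))))) atTop
          (𝓝 (-(d * a) * (ζ * (1 - (starRingEnd ℂ) a * ζ)))) :=
        (hζl.mul ((hζl.const_mul _).const_sub _)).const_mul _
      refine tendsto_nhds_unique h1 (h2.congr ?_)
      intro n
      have h3 := hid (u (k n)) (huY _)
      have h4 : Z (u (k n)) - a ≠ 0 := sub_ne_zero.2 (hZa _ (huY _))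
      have h5 : u (k n) * (Z (u (k n)) - a) = (-(d * a) * (Z (u (k n)) * (1 - (starRingEnd ℂ) a * Z (u (k n))) / (Z (u (k n)) - a))) * (Z (u (k n)) - a) := by
        rw [← h3]
      rw [h5]
      field_simp
    rw [mem_closedBall_zero_iff] at hζ
    rcases hζ.lt_or_eq with h1 | h1
    · have hζa : ζ ≠ a := by
        intro h2
        rw [h2, sub_self, mul_zero] at heq
        have h3 := blaschke_ne ha1 ha1
        have h4 : -(d * a) * (a * (1 - (starRingEnd ℂ) a * a)) ≠ 0 :=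
          mul_ne_zero (neg_ne_zero.2 (mul_ne_zero hd0 ha0)) (mul_ne_zero ha0 h3)
        exact h4 heq.symm
      have h2 := hsurj ζ (mem_ball_zero_iff.2 h1) hζa
      have h3 : ζ - a ≠ 0 := sub_ne_zero.2 hζa
      have h4 : w = -(d * a) * (ζ * (1 - (starRingEnd ℂ) a * ζ) / (ζ - a)) := by
        rw [← mul_div_assoc, ← heq]
        field_simp
      rw [h4]
      exact h2
    · exfalso
      apply hwρ
      have h2 := congrArg norm heq
      rw [norm_mul, norm_mul, norm_neg, norm_mul ζ, h1, one_mul, ← blaschke_circle h1] at h2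
      have h3 : ‖ζ - a‖ ≠ 0 := by
        rw [norm_ne_zero_iff, sub_ne_zero]
        intro h4
        rw [h4] at h1
        linarith
      exact mul_right_cancel₀ h3 h2
  refine ⟨‖d * a‖, fun w hw => ?_⟩
  by_contra hne
  rcases lt_or_gt_of_ne hne with h1 | h1
  · have h2 : ball (0 : ℂ) ‖d * a‖ ⊆ Y := by
      apply (convex_ball (0 : ℂ) _).isPreconnected.subset_of_closure_inter_subset hYo
      · exact ⟨0, mem_ball_self hρ, h0Y⟩
      · rintro v ⟨hv1, hv2⟩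
        exact hcl v hv1 (mem_ball_zero_iff.1 hv2).ne
    exact h2 (mem_ball_zero_iff.2 h1) hw
  · have h2 : {w : ℂ | ‖d * a‖ < ‖w‖} ⊆ Y := by
      apply (isPreconnected_norm_gt _ hρ.le).subset_of_closure_inter_subset hYo
      · have h3 : ∀ᶠ w in cocompact ℂ, w ∈ (closedBall (0 : ℂ) ‖d * a‖)ᶜ :=
          (isCompact_closedBall _ _).compl_mem_cocompact
        obtain ⟨v, hv1, hv2⟩ := (hYcc.and h3).exists
        refine ⟨v, ?_, hv1⟩
        rw [mem_compl_iff, mem_closedBall_zero_iff, not_le] at hv2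
        exact hv2
      · rintro v ⟨hv1, hv2⟩
        exact hcl v hv1 (ne_of_gt hv2)
    exact h2 h1 hw

end Pool.Agent.H762R2
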