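import Pool.Agent.H762R2.Slit1
import Pool.Agent.H762R2.Limit

set_option autoImplicit false

open Set Filter Topology Metric MeasureTheory Complex
open scoped OnePoint Real

namespace Pool.Agent.H762R2

open Pool.Agent.Helper405.Area (Dp isOpen_Dp hasSum_Q)
open Pool.Agent.Helper405.Conv (inv_facts deriv_ne_zero_of_injOn)

theorem tendsto_slope_cobounded {Φ : ℂ → ℂ} {c : ℂ} (hc : c ≠ 0)
    (hlim : Tendsto (fun w => Φ w / w) (cocompact ℂ) (𝓝 c)) :
    Tendsto Φ (cocompact ℂ) (cocompact ℂ) := by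
  rw [← Metric.cobounded_eq_cocompact] at hlim ⊢
  rw [← tendsto_norm_atTop_iff_cobounded]
  have h1 : Tendsto (fun w : ℂ => ‖w‖) (Bornology.cobounded ℂ) atTop := tendsto_norm_cobounded_atTop
  have h2 : Tendsto (fun w => ‖Φ w / w‖ * ‖w‖) (Bornology.cobounded ℂ) atTop :=
    Tendsto.pos_mul_atTop (norm_pos_iff.2 hc) hlim.norm h1
  refine h2.congr' ?_
  have h3 : ∀ᶠ w : ℂ in Bornology.cobounded ℂ, 0 < ‖w‖ := h1.eventually_gt_atTop 0
  filter_upwards [h3] with w hw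
  rw [norm_div]
  field_simp

/-- the area omitted by a function univalent near infinity -/
theorem ext_area {Φ : ℂ → ℂ} {c : ℂ} {R : ℝ} (hR : 0 < R)
    (hd : DifferentiableOn ℂ Φ {w | R < ‖w‖}) (hi : InjOn Φ {w | R < ‖w‖}) (hc : c ≠ 0)
    (hlim : Tendsto (fun w => Φ w / w) (cocompact ℂ) (𝓝 c)) :
    volume (Φ '' {w | R < ‖w‖})ᶜ ≤ ENNReal.ofReal (π * (‖c‖ * R) ^ 2) := by
  set E : Set ℂ := {w | R < ‖w‖} with hE
  have hRc : (R : ℂ) ≠ 0 := by exact_mod_cast hR.ne'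
  have hmaps : ∀ z ∈ Dp, (R : ℂ) / z ∈ E := by
    intro z hz
    have hz0 : z ≠ 0 := hz.2
    have hz1 : ‖z‖ < 1 := mem_ball_zero_iff.1 hz.1
    show R < ‖(R : ℂ) / z‖
    rw [norm_div, Complex.norm_real, Real.norm_of_nonneg hR.le, lt_div_iff₀ (norm_pos_iff.2 hz0)]
    nlinarith
  set h : ℂ → ℂ := fun z => Φ ((R : ℂ) / z) with hh
  have himg : h '' Dp = Φ '' E := by
    ext v
    constructor
    · rintro ⟨z, hz, rfl⟩
      exact ⟨_, hmaps z hz, rfl⟩
    · rintro ⟨w, hw, rfl⟩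
      have hw' : R < ‖w‖ := hw
      have hwp : 0 < ‖w‖ := hR.trans hw'
      have hw0 : w ≠ 0 := norm_pos_iff.1 hwp
      refine ⟨(R : ℂ) / w, ⟨?_, div_ne_zero hRc hw0⟩, ?_⟩
      · rw [mem_ball_zero_iff, norm_div, Complex.norm_real, Real.norm_of_nonneg hR.le,
          div_lt_one hwp]
        exact hw'
      · simp only [hh]
        congr 1
        field_simp
  have hhd : DifferentiableOn ℂ h Dp := by
    apply hd.comp _ hmaps
    intro z hz
    have hz0 : z ≠ 0 := hz.2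
    exact (DifferentiableAt.div (by fun_prop) (by fun_prop) hz0).differentiableWithinAt
  have hhi : InjOn h Dp := by
    intro z hz w hw he
    have h1 := hi (hmaps z hz) (hmaps w hw) he
    have hz0 : z ≠ 0 := hz.2
    have hw0 : w ≠ 0 := hw.2
    rw [div_eq_div_iff hz0 hw0] at h1
    exact (mul_left_cancel₀ hRc h1).symm
  have hinvlim : Tendsto (fun z : ℂ => (R : ℂ) / z) (𝓝[≠] 0) (cocompact ℂ) := by
    rw [← Metric.cobounded_eq_cocompact, ← tendsto_norm_atTop_iff_cobounded]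
    have h1 : Tendsto (fun z : ℂ => z⁻¹) (𝓝[≠] 0) (Bornology.cobounded ℂ) := tendsto_inv₀_nhdsNE_zero
    have h2 := (tendsto_norm_cobounded_atTop.comp h1).const_mul_atTop hR
    refine h2.congr ?_
    intro z
    simp only [Function.comp]
    rw [norm_div, norm_inv, Complex.norm_real, Real.norm_of_nonneg hR.le, div_eq_mul_inv]
  have hhp : Tendsto h (𝓝[≠] 0) (Bornology.cobounded ℂ) := by
    rw [Metric.cobounded_eq_cocompact]
    exact (tendsto_slope_cobounded hc hlim).comp hinvlim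
  set P : ℂ → ℂ := Function.update (fun z => h z * z) 0 ((R : ℂ) * c) with hP
  have hPz : ∀ z : ℂ, z ≠ 0 → P z = h z * z := fun z hz => Function.update_of_ne hz _ _
  have hP0 : P 0 = (R : ℂ) * c := Function.update_self _ _ _
  have hPd : DifferentiableOn ℂ P (ball 0 1) := by
    rw [← Complex.differentiableOn_compl_singleton_and_continuousAt_iff (c := 0)
      (isOpen_ball.mem_nhds (mem_ball_self one_pos))]
    constructor
    · apply (hhd.mul differentiableOn_id).congr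
      intro z hz
      exact hPz z hz.2
    · rw [continuousAt_iff_punctured_nhds, hP0]
      have h1 := (hlim.comp hinvlim).const_mul (R : ℂ)
      refine h1.congr' ?_
      filter_upwards [self_mem_nhdsWithin] with z hz
      have hz0 : z ≠ 0 := hz
      rw [hPz z hz]
      simp only [Function.comp, hh]
      field_simp
  obtain ⟨cc, hcc, hcc0⟩ := exists_taylor hPd
  obtain ⟨hsum, hle⟩ := area_om hhd hhi hhp hPd (fun z hz => (hPz z hz.2).symm) hcc
  have hfin := omitted_fin hhd hhp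
  rw [himg] at hle hfin
  rw [hcc0, hP0, norm_mul, Complex.norm_real, Real.norm_of_nonneg hR.le] at hle
  have h0 : 0 ≤ ∑' j : ℕ, (j : ℝ) * ‖cc (j + 1)‖ ^ 2 := tsum_nonneg fun j => by positivity
  have hle2 : volume.real (Φ '' E)ᶜ ≤ π * (‖c‖ * R) ^ 2 := by
    have hpi := Real.pi_pos
    have : 0 ≤ π * ∑' j : ℕ, (j : ℝ) * ‖cc (j + 1)‖ ^ 2 := by positivity
    rw [mul_comm ‖c‖ R]
    linarith
  rw [← ENNReal.ofReal_toReal hfin]
  exact ENNReal.ofReal_le_ofReal hle2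

/-- a preconnected unbounded plane set together with infinity -/
theorem preconnected_insert_infty {S : Set ℂ} (hS : IsPreconnected S)
    (hu : (∞ : OnePoint ℂ) ∈ closure (((↑) : ℂ → OnePoint ℂ) '' S)) :
    IsPreconnected (insert ∞ (((↑) : ℂ → OnePoint ℂ) '' S)) := by
  apply (hS.image _ OnePoint.continuous_coe.continuousOn).subset_closure (subset_insert _ _)
  rintro x (rfl | hx)
  · exact hu
  · exact subset_closure hx

theorem subset_comp_infty {V S : Set ℂ} (hS : IsPreconnected S)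
    (hu : (∞ : OnePoint ℂ) ∈ closure (((↑) : ℂ → OnePoint ℂ) '' S)) (hd : Disjoint S V) :
    ((↑) : ℂ → OnePoint ℂ) '' S ⊆ connectedComponentIn (sc V) ∞ := by
  have h1 := preconnected_insert_infty hS hu
  have h2 : insert ∞ (((↑) : ℂ → OnePoint ℂ) '' S) ⊆ sc V := by
    rintro x (rfl | ⟨w, hw, rfl⟩)
    · exact infty_mem_sc V
    · exact coe_mem_sc.2 (Set.disjoint_left.1 hd hw)
  exact (subset_insert _ _).trans (h1.subset_connectedComponentIn (mem_insert _ _) h2)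

theorem infty_mem_closure_of_tendsto {S : Set ℂ} {Φ : ℂ → ℂ} (hΦ : Tendsto Φ (cocompact ℂ) (cocompact ℂ))
    (hS : ∀ᶠ w in cocompact ℂ, w ∈ S) :
    (∞ : OnePoint ℂ) ∈ closure (((↑) : ℂ → OnePoint ℂ) '' (Φ '' S)) := by
  have h1 : Tendsto (fun w => ((Φ w : ℂ) : OnePoint ℂ)) (cocompact ℂ) (𝓝 ∞) := by
    have := OnePoint.tendsto_coe_infty (X := ℂ)
    rw [coclosedCompact_eq_cocompact] at this
    exact this.comp hΦ
  apply mem_closure_of_tendsto h1
  filter_upwards [hS] with w hw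
  exact ⟨_, ⟨w, hw, rfl⟩, rfl⟩

theorem ev_norm_gt (R : ℝ) : ∀ᶠ w in cocompact ℂ, w ∈ {w : ℂ | R < ‖w‖} := by
  have h3 : ∀ᶠ w in cocompact ℂ, w ∈ (closedBall (0 : ℂ) R)ᶜ :=
    (isCompact_closedBall _ _).compl_mem_cocompact
  filter_upwards [h3] with w hw
  rw [mem_compl_iff, mem_closedBall_zero_iff, not_le] at hw
  exact hw

/-- facts on the filled image: the component of infinity -/
theorem fill_facts {V : Set ℂ} (hV : IsOpen V) (hVc : IsConnected V) (h0 : (0 : ℂ) ∈ V)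
    {u : ℂ} (hu : (u : OnePoint ℂ) ∈ connectedComponentIn (sc V) ∞) :
    ∃ (g : ℂ → ℂ) (ρ : ℝ), 0 < ρ ∧ Adm (pl (connectedComponentIn (sc V) ∞)) g ∧
      g '' pl (connectedComponentIn (sc V) ∞) = ball 0 ρ ∧ V ⊆ pl (connectedComponentIn (sc V) ∞) ∧
      ENNReal.ofReal (π * ρ ^ 2) ≤ volume (pl (connectedComponentIn (sc V) ∞)) ∧
      (volume (pl (connectedComponentIn (sc V) ∞)) = ENNReal.ofReal (π * ρ ^ 2) →
        pl (connectedComponentIn (sc V) ∞) = ball 0 ρ) := by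
  set K := connectedComponentIn (sc V) ∞ with hK
  have hKinf : (∞ : OnePoint ℂ) ∈ K := mem_connectedComponentIn (infty_mem_sc V)
  have hKcl : IsClosed K := isClosed_connectedComponentIn (isClosed_sc hV) _
  have hA : IsConnected (((↑) : ℂ → OnePoint ℂ) '' V) :=
    hVc.image _ OnePoint.continuous_coe.continuousOn
  have hAo : IsOpen (((↑) : ℂ → OnePoint ℂ) '' V) := OnePoint.isOpenEmbedding_coe.isOpenMap V hV
  have hKcc : IsConnected Kᶜ := isConnected_compl_component hA hAo ∞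
  have hKc : IsConnected K := isConnected_connectedComponentIn_iff.2 (infty_mem_sc V)
  have hUo : IsOpen (pl K) := isOpen_pl hKcl
  have hUc : IsConnected (pl K) := isConnected_pl hKinf hKcc
  have hHP : ZFM.J_c4.HP (pl K) := hp_of_sc hUo (by rw [sc_pl hKinf]; exact hKc.isPreconnected)
  have hVU : V ⊆ pl K := by
    intro v hv hvK
    exact coe_mem_sc.1 (connectedComponentIn_subset _ _ hvK) hv
  have hne : pl K ≠ univ := by
    intro h
    have h1 : u ∈ pl K := h ▸ mem_univ u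
    exact h1 hu
  obtain ⟨g, ρ, hρ, hg, hgi⟩ := adm_riemann hUo hUc hHP hne (hVU h0)
  obtain ⟨G, hG, hGg, hgG⟩ := hg.inv hUo (hVU h0)
  rw [hgi] at hG hgG
  have himg : G '' ball 0 ρ = pl K := by
    rw [← hgi]
    ext v
    constructor
    · rintro ⟨_, ⟨w, hw, rfl⟩, rfl⟩
      rw [hGg w hw]
      exact hw
    · intro hv
      exact ⟨g v, ⟨v, hv, rfl⟩, hGg v hv⟩
  obtain ⟨h1, h2⟩ := area_ball hρ hG
  rw [himg] at h1 h2
  refine ⟨g, ρ, hρ, hg, hgi, hVU, h1, fun h => ?_⟩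
  have h3 := h2 h
  rw [← himg]
  ext v
  constructor
  · rintro ⟨w, hw, rfl⟩
    rw [h3 w hw]; exact hw
  · intro hv
    exact ⟨v, hv, h3 v hv⟩

/-- the improvement step -/
theorem improve_slit {W : Set ℂ} (hW : IsOpen W) (hWc : IsConnected W) (h0 : (0 : ℂ) ∈ W) {R : ℝ}
    (hR : 0 < R) (hsub : W ⊆ ball 0 R) {x : OnePoint ℂ} (hx : x ∈ sc W)
    (hinf : (∞ : OnePoint ℂ) ∉ connectedComponentIn (sc W) x)
    (hnt : (connectedComponentIn (sc W) x).Nontrivial)
    (hnc : ¬ ∃ ρ : ℝ, ∀ w : ℂ, (w : OnePoint ℂ) ∈ connectedComponentIn (sc W) x → ‖w‖ = ρ) :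
    ∃ (G : ℂ → ℂ) (R' : ℝ), R' < R ∧ Adm W G ∧ ∀ w ∈ W, ‖G w‖ ≤ R' := by
  set H := connectedComponentIn (sc W) x with hH
  have hHcl : IsClosed H := isClosed_connectedComponentIn (isClosed_sc hW) _
  have hHc : IsConnected H := isConnected_connectedComponentIn_iff.2 hx
  have hA : IsConnected (((↑) : ℂ → OnePoint ℂ) '' W) :=
    hWc.image _ OnePoint.continuous_coe.continuousOn
  have hAo : IsOpen (((↑) : ℂ → OnePoint ℂ) '' W) := OnePoint.isOpenEmbedding_coe.isOpenMap W hW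
  have hHcc : IsConnected Hᶜ := isConnected_compl_component hA hAo x
  have hWY : W ⊆ {w : ℂ | (w : OnePoint ℂ) ∉ H} := by
    intro w hw hwH
    exact coe_mem_sc.1 (connectedComponentIn_subset _ _ hwH) hw
  obtain ⟨Φ, c, hΦ, hlim, hc0, hc1, hceq⟩ := slit_map hHcl hHc hHcc hinf (hWY h0) hnt
  have hc : ‖c‖ < 1 := lt_of_le_of_ne hc1 fun h => hnc (hceq h)
  set E : Set ℂ := {w | R < ‖w‖} with hE
  have hEW : Disjoint E W := by
    rw [Set.disjoint_left]
    intro w hw hwW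
    have h1 := mem_ball_zero_iff.1 (hsub hwW)
    have h2 : R < ‖w‖ := hw
    linarith
  have hEpre : IsPreconnected E := isPreconnected_norm_gt R hR.le
  have hEY : E ⊆ {w : ℂ | (w : OnePoint ℂ) ∉ H} := by
    intro w hw hwH
    have h1 : (∞ : OnePoint ℂ) ∈ closure (((↑) : ℂ → OnePoint ℂ) '' E) := by
      have := infty_mem_closure_of_tendsto (Φ := fun w => w) tendsto_id (ev_norm_gt R)
      simpa using this
    have h2 := subset_comp_infty hEpre h1 hEW ⟨w, hw, rfl⟩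
    apply hinf
    rw [hH, connectedComponentIn_eq hwH, ← connectedComponentIn_eq h2]
    exact mem_connectedComponentIn (infty_mem_sc W)
  have hΦE := ext_area hR (hΦ.diff.mono hEY) (hΦ.1.mono hEY) hc0 hlim
  have hΦW : Adm W Φ := hΦ.mono hWY
  have hVo : IsOpen (Φ '' W) := (inv_facts hW hΦW.diff hΦW.1).1
  have hVc : IsConnected (Φ '' W) := hWc.image _ hΦW.diff.continuousOn
  have h0V : (0 : ℂ) ∈ Φ '' W := ⟨0, h0, hΦW.zero h0⟩
  have hdisj : Disjoint (Φ '' E) (Φ '' W) := by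
    rw [Set.disjoint_left]
    rintro _ ⟨w, hw, rfl⟩ ⟨v, hv, he⟩
    have := hΦ.1 (hWY hv) (hEY hw) he
    rw [this] at hv
    exact Set.disjoint_left.1 hEW hw hv
  have hsubK : ((↑) : ℂ → OnePoint ℂ) '' (Φ '' E) ⊆ connectedComponentIn (sc (Φ '' W)) ∞ :=
    subset_comp_infty (hEpre.image _ (hΦ.diff.continuousOn.mono hEY))
      (infty_mem_closure_of_tendsto (tendsto_slope_cobounded hc0 hlim) (ev_norm_gt R)) hdisj
  obtain ⟨w0, hw0⟩ : E.Nonempty := (ev_norm_gt R).exists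
  obtain ⟨g, ρ, hρ, hg, hgi, hVU, hvol, -⟩ := fill_facts hVo hVc h0V (u := Φ w0)
    (hsubK ⟨_, ⟨w0, hw0, rfl⟩, rfl⟩)
  refine ⟨fun w => g (Φ w), ρ, ?_, hΦW.comp (hg.mono hVU) h0, ?_⟩
  · have h1 : volume (pl (connectedComponentIn (sc (Φ '' W)) ∞)) ≤ ENNReal.ofReal (π * (‖c‖ * R) ^ 2) := by
      refine le_trans (measure_mono ?_) hΦE
      intro v hv hvE
      exact hv (hsubK ⟨v, hvE, rfl⟩)
    have h2 := hvol.trans h1
    rw [ENNReal.ofReal_le_ofReal_iff (by positivity)] at h2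
    have h3 : ρ ^ 2 ≤ (‖c‖ * R) ^ 2 := le_of_mul_le_mul_left h2 Real.pi_pos
    have h4 : ρ ≤ ‖c‖ * R := (sq_le_sq₀ hρ.le (by positivity)).1 h3
    calc ρ ≤ ‖c‖ * R := h4
      _ < 1 * R := by gcongr
      _ = R := one_mul R
  · intro w hw
    have h1 : g (Φ w) ∈ ball (0 : ℂ) ρ := hgi ▸ ⟨_, hVU ⟨w, hw, rfl⟩, rfl⟩
    exact (mem_ball_zero_iff.1 h1).le

end Pool.Agent.H762R2
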