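import Pool.Agent.H762R2.Top1
import Pool.Agent.Helper405.ConvA

set_option autoImplicit false

open Set Filter Topology Metric
open scoped OnePoint

namespace Pool.Agent.H762R2

/-- a function which is locally constant along a preconnected set is constant on it -/
theorem const_of_loc {X : Type*} [TopologicalSpace X] {S : Set X} (hS : IsPreconnected S)
    {H : X → ℝ} (hloc : ∀ x ∈ S, ∀ᶠ y in 𝓝 x, H y = H x) {x y : X} (hx : x ∈ S) (hy : y ∈ S) :
    H x = H y := by
  set u : Set X := {z | ∀ᶠ w in 𝓝 z, H w = H x} with hu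
  set v : Set X := {z | ∀ᶠ w in 𝓝 z, H w ≠ H x} with hv
  have huo : IsOpen u := isOpen_setOfPred_eventually_nhds
  have hvo : IsOpen v := isOpen_setOfPred_eventually_nhds
  have hsub : S ⊆ u ∪ v := by
    intro z hz
    by_cases h : H z = H x
    · left
      filter_upwards [hloc z hz] with w hw
      rw [hw, h]
    · right
      filter_upwards [hloc z hz] with w hw
      rw [hw]
      exact h
  have hd : S ∩ (u ∩ v) = ∅ := by
    rw [Set.eq_empty_iff_forall_notMem]
    rintro z ⟨_, hz1, hz2⟩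
    have h1 : H z = H x := (show ∀ᶠ w in 𝓝 z, H w = H x from hz1).self_of_nhds
    have h2 : H z ≠ H x := (show ∀ᶠ w in 𝓝 z, H w ≠ H x from hz2).self_of_nhds
    exact h2 h1
  rcases (isPreconnected_iff_subset_of_disjoint.1 hS) u v huo hvo hsub hd with h | h
  · have : H y = H x := (show ∀ᶠ w in 𝓝 y, H w = H x from h hy).self_of_nhds
    exact this.symm
  · have : H x ≠ H x := (show ∀ᶠ w in 𝓝 x, H w ≠ H x from h hx).self_of_nhds
    exact absurd rfl this

/-- Poincaré extension: a `C²` function on a connected open set with compactly supported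
differential extends to the plane, locally constant off the support. -/
theorem poincare_ext {D : Set ℂ} (hDo : IsOpen D) (hDc : IsConnected D) {h : ℂ → ℝ}
    (hh : ContDiffOn ℝ 2 h D) {L : Set ℂ} (hL : IsCompact L) (hLD : L ⊆ D)
    (h0 : ∀ z ∈ D \ L, fderiv ℝ h z = 0) :
    ∃ H : ℂ → ℝ, (∀ z ∈ D, H z = h z) ∧ (∀ z ∈ D, HasFDerivAt H (fderiv ℝ h z) z) ∧
      ∀ z ∉ L, HasFDerivAt H (0 : ℂ →L[ℝ] ℝ) z := by
  classical
  set ω : ℂ → (ℂ →L[ℝ] ℝ) := fun z => if z ∈ D then fderiv ℝ h z else 0 with hω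
  have hωD : ∀ z ∈ D, ω z = fderiv ℝ h z := fun z hz => if_pos hz
  have hωL : ∀ z ∉ L, ω z = 0 := by
    intro z hz
    by_cases hzD : z ∈ D
    · rw [hωD z hzD]; exact h0 z ⟨hzD, hz⟩
    · exact if_neg hzD
  have hev1 : ∀ z ∈ D, ω =ᶠ[𝓝 z] fderiv ℝ h := by
    intro z hz
    filter_upwards [hDo.mem_nhds hz] with y hy using hωD y hy
  have hev2 : ∀ z ∉ L, ω =ᶠ[𝓝 z] fun _ => 0 := by
    intro z hz
    filter_upwards [hL.isClosed.isOpen_compl.mem_nhds hz] with y hy using hωL y hy
  have hcd : ∀ z ∈ D, ContDiffAt ℝ 2 h z := fun z hz => hh.contDiffAt (hDo.mem_nhds hz)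
  have hdiff : DifferentiableOn ℝ ω univ := by
    intro z _
    by_cases hzD : z ∈ D
    · have h1 : DifferentiableAt ℝ (fderiv ℝ h) z :=
        ((hcd z hzD).fderiv_right (m := 1) (by norm_num)).differentiableAt (by norm_num)
      exact (h1.congr_of_eventuallyEq (hev1 z hzD)).differentiableWithinAt
    · have hzL : z ∉ L := fun h => hzD (hLD h)
      exact ((differentiableAt_const (0 : ℂ →L[ℝ] ℝ)).congr_of_eventuallyEq
        (hev2 z hzL)).differentiableWithinAt
  have hsym : ∀ a ∈ (univ : Set ℂ), ∀ x y, fderiv ℝ ω a x y = fderiv ℝ ω a y x := by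
    intro z _ x y
    by_cases hzD : z ∈ D
    · rw [(hev1 z hzD).fderiv_eq]
      have := (hcd z hzD).isSymmSndFDerivAt (by simp)
      exact this x y
    · have hzL : z ∉ L := fun h => hzD (hLD h)
      rw [(hev2 z hzL).fderiv_eq]
      simp
  obtain ⟨H0, hH0⟩ := convex_univ.exists_forall_hasFDerivAt_of_fderiv_symmetric isOpen_univ hdiff hsym
  obtain ⟨z0, hz0⟩ := hDc.nonempty
  have hconst : ∀ z ∈ D, H0 z - h z = H0 z0 - h z0 := by
    intro z hz
    have hd : ∀ y ∈ D, HasFDerivAt (fun y => H0 y - h y) (0 : ℂ →L[ℝ] ℝ) y := by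
      intro y hy
      have h1 := hH0 y (mem_univ y)
      rw [hωD y hy] at h1
      have h2 : HasFDerivAt h (fderiv ℝ h y) y :=
        ((hcd y hy).differentiableAt (by norm_num)).hasFDerivAt
      have h3 := h1.sub h2
      rwa [sub_self] at h3
    exact hDo.is_const_of_fderiv_eq_zero (𝕜 := ℝ) hDc.isPreconnected
      (fun y hy => (hd y hy).differentiableAt.differentiableWithinAt)
      (fun y hy => (hd y hy).fderiv) hz hz0
  refine ⟨fun z => H0 z - (H0 z0 - h z0), ?_, ?_, ?_⟩
  · intro z hz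
    have := hconst z hz
    simp only
    linarith
  · intro z hz
    have h1 := (hH0 z (mem_univ z)).sub_const (H0 z0 - h z0)
    rwa [hωD z hz] at h1
  · intro z hz
    have h1 := (hH0 z (mem_univ z)).sub_const (H0 z0 - h z0)
    rwa [hωL z hz] at h1

/-- locally constant where the derivative vanishes on an open set -/
theorem eventually_const {H : ℂ → ℝ} {O : Set ℂ} (hO : IsOpen O)
    (h : ∀ z ∈ O, HasFDerivAt H (0 : ℂ →L[ℝ] ℝ) z) {z : ℂ} (hz : z ∈ O) :
    ∀ᶠ y in 𝓝 z, H y = H z := by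
  obtain ⟨r, hr, hrO⟩ := Metric.isOpen_iff.1 hO z hz
  filter_upwards [ball_mem_nhds z hr] with y hy
  exact isOpen_ball.is_const_of_fderiv_eq_zero (𝕜 := ℝ) (convex_ball z r).isPreconnected
    (fun y hy => (h y (hrO hy)).differentiableAt.differentiableWithinAt)
    (fun y hy => (h y (hrO hy)).fderiv) hy (mem_ball_self hr)

/-- The extension of a function on the plane to the sphere, locally constant off a compact set. -/
theorem sphere_ext {H : ℂ → ℝ} {L : Set ℂ} (hL : IsCompact L)
    (h : ∀ z ∉ L, HasFDerivAt H (0 : ℂ →L[ℝ] ℝ) z) :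
    ∃ H' : OnePoint ℂ → ℝ, (∀ z : ℂ, H' z = H z) ∧
      ∀ x ∉ ((↑) '' L : Set (OnePoint ℂ)), ∀ᶠ y in 𝓝 x, H' y = H' x := by
  obtain ⟨R0, hR0⟩ := hL.isBounded.subset_closedBall 0
  set R := max R0 0 with hR
  have hLR : L ⊆ closedBall 0 R := hR0.trans (closedBall_subset_closedBall (le_max_left _ _))
  have hR0' : 0 ≤ R := le_max_right _ _
  set x0 : ℂ := ((R + 1 : ℝ) : ℂ) with hx0
  have hx0n : R < ‖x0‖ := by
    rw [hx0, Complex.norm_real, Real.norm_of_nonneg (by linarith)]
    linarith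
  have hout : {w : ℂ | R < ‖w‖} ⊆ Lᶜ := by
    intro w hw hwL
    have := hLR hwL
    rw [mem_closedBall_zero_iff] at this
    exact absurd hw (not_lt.2 this)
  have hev : ∀ z ∈ Lᶜ, ∀ᶠ y in 𝓝 z, H y = H z := fun z hz =>
    eventually_const hL.isClosed.isOpen_compl (fun y hy => h y hy) hz
  have hfar : ∀ w : ℂ, R < ‖w‖ → H w = H x0 := fun w hw =>
    const_of_loc (isPreconnected_norm_gt R hR0') (fun y hy => hev y (hout hy)) hw hx0n
  refine ⟨fun x => OnePoint.elim x (H x0) H, fun z => rfl, ?_⟩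
  intro x hx
  induction x using OnePoint.rec with
  | infty =>
    have h1 : ((↑) '' (closedBall (0 : ℂ) R) : Set (OnePoint ℂ))ᶜ ∈ 𝓝 (∞ : OnePoint ℂ) :=
      (OnePoint.isOpen_compl_image_coe.2 ⟨isClosed_closedBall, isCompact_closedBall 0 R⟩).mem_nhds
        (by rintro ⟨w, _, hw⟩; exact OnePoint.coe_ne_infty w hw)
    filter_upwards [h1] with y hy
    induction y using OnePoint.rec with
    | infty => rfl
    | coe w =>
      show H w = H x0
      apply hfar
      by_contra hcon
      push Not at hcon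
      exact hy ⟨w, by rwa [mem_closedBall_zero_iff], rfl⟩
  | coe z =>
    have hz : z ∈ Lᶜ := fun h => hx ⟨z, h, rfl⟩
    rw [OnePoint.nhds_coe_eq, eventually_map]
    exact hev z hz

end Pool.Agent.H762R2
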