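import Pool.Agent.H762R2.Top2

set_option autoImplicit false

open Set Filter Topology Metric
open scoped OnePoint Manifold ContDiff

namespace Pool.Agent.H762R2

/-- the trace on the plane of the neighbourhoods of a point of the sphere -/
noncomputable def nb (x : OnePoint ℂ) : Filter ℂ := comap ((↑) : ℂ → OnePoint ℂ) (𝓝 x)

theorem nb_coe (z : ℂ) : nb (z : OnePoint ℂ) = 𝓝 z := OnePoint.comap_coe_nhds z

theorem nb_infty_norm (R : ℝ) : ∀ᶠ w in nb ∞, R < ‖w‖ := by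
  unfold nb
  rw [OnePoint.comap_coe_nhds_infty, coclosedCompact_eq_cocompact]
  have := tendsto_norm_cocompact_atTop (E := ℂ)
  exact this.eventually_gt_atTop R

/-- bump function separating two disjoint closed sets of the sphere -/
theorem bump {A B : Set (OnePoint ℂ)} (hA : IsClosed A) (hB : IsClosed B) (hd : Disjoint A B)
    (hAi : (∞ : OnePoint ℂ) ∉ A) :
    ∃ χ : ℂ → ℝ, ContDiff ℝ 2 χ ∧ (∀ a ∈ A, ∀ᶠ w in nb a, χ w = 1) ∧
      (∀ b ∈ B, ∀ᶠ w in nb b, χ w = 0) ∧ (∀ᶠ w in nb ∞, χ w = 0) := by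
  set t : Set ℂ := ((↑) : ℂ → OnePoint ℂ) ⁻¹' A with ht
  have htc : IsClosed t := hA.preimage OnePoint.continuous_coe
  have himg : ((↑) '' t : Set (OnePoint ℂ)) = A := by
    rw [ht, image_preimage_eq_iff]
    intro x hx
    induction x using OnePoint.rec with
    | infty => exact absurd hx hAi
    | coe w => exact ⟨w, rfl⟩
  have htk : IsCompact t := by
    have := OnePoint.isClosed_image_coe.1 (himg ▸ hA)
    exact this.2
  obtain ⟨R, hR⟩ := htk.isBounded.subset_closedBall 0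
  set s : Set ℂ := ((↑) : ℂ → OnePoint ℂ) ⁻¹' B ∪ {w | R + 1 ≤ ‖w‖} with hs
  have hsc : IsClosed s := (hB.preimage OnePoint.continuous_coe).union
    (isClosed_le continuous_const continuous_norm)
  have hst : Disjoint s t := by
    rw [Set.disjoint_left]
    rintro w (hw | hw) hwt
    · exact Set.disjoint_left.1 hd hwt hw
    · have h1 := hR hwt
      rw [mem_closedBall_zero_iff] at h1
      have h2 : R + 1 ≤ ‖w‖ := hw
      linarith
  obtain ⟨f, hf0, hf1, -⟩ := exists_contMDiffMap_zero_one_nhds_of_isClosed (n := 2) 𝓘(ℝ, ℂ)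
    hsc htc hst
  have hinf : ∀ᶠ w in nb ∞, f w = 0 := by
    filter_upwards [nb_infty_norm (R + 1)] with w hw
    exact (hf0.filter_mono (nhds_le_nhdsSet (show w ∈ s from Or.inr (le_of_lt hw)))).self_of_nhds
  refine ⟨f, ?_, ?_, ?_, hinf⟩
  · exact contMDiff_iff_contDiff.1 f.contMDiff
  · intro a ha
    induction a using OnePoint.rec with
    | infty => exact absurd ha hAi
    | coe w =>
      rw [nb_coe]
      exact hf1.filter_mono (nhds_le_nhdsSet (show w ∈ t from ha))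
  · intro b hb
    induction b using OnePoint.rec with
    | infty => exact hinf
    | coe w =>
      rw [nb_coe]
      exact hf0.filter_mono (nhds_le_nhdsSet (show w ∈ s from Or.inl hb))

/-- a smooth function taking prescribed constant values near finitely many disjoint closed sets
covering the complement of a plane open set -/
theorem bumps {Ω : Set ℂ} {k : ℕ} (A : Fin k → Set (OnePoint ℂ))
    (hA : ∀ i, IsClosed (A i)) (hd : ∀ i j, i ≠ j → Disjoint (A i) (A j))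
    (hU : (⋃ i, A i) = sc Ω) (v : Fin k → ℝ) :
    ∃ χ : ℂ → ℝ, ContDiff ℝ 2 χ ∧ ∀ i, ∀ a ∈ A i, ∀ᶠ w in nb a, χ w = v i := by
  classical
  obtain ⟨i0, hi0⟩ : ∃ i0, (∞ : OnePoint ℂ) ∈ A i0 := by
    have := infty_mem_sc Ω
    rw [← hU, mem_iUnion] at this
    exact this
  have hne : ∀ i, i ≠ i0 → (∞ : OnePoint ℂ) ∉ A i := fun i hi h =>
    Set.disjoint_left.1 (hd i i0 hi) h hi0
  have hex : ∀ i, i ≠ i0 → ∃ χ : ℂ → ℝ, ContDiff ℝ 2 χ ∧ (∀ a ∈ A i, ∀ᶠ w in nb a, χ w = 1) ∧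
      (∀ j, j ≠ i → ∀ b ∈ A j, ∀ᶠ w in nb b, χ w = 0) := by
    intro i hi
    set B : Set (OnePoint ℂ) := ⋃ j ∈ (Finset.univ.erase i), A j with hB
    have hBc : IsClosed B := isClosed_biUnion_finset fun j _ => hA j
    have hAB : Disjoint (A i) B := by
      rw [hB, Set.disjoint_iUnion₂_right]
      intro j hj
      exact hd i j (Finset.ne_of_mem_erase hj).symm
    obtain ⟨χ, h1, h2, h3, -⟩ := bump (hA i) hBc hAB (hne i hi)
    refine ⟨χ, h1, h2, fun j hj b hb => h3 b ?_⟩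
    rw [hB]
    exact mem_biUnion (Finset.mem_erase.2 ⟨hj, Finset.mem_univ j⟩) hb
  choose! χ hχ1 hχ2 hχ3 using hex
  refine ⟨fun w => v i0 + ∑ i ∈ Finset.univ.erase i0, (v i - v i0) * χ i w, ?_, ?_⟩
  · apply contDiff_const.add
    apply ContDiff.sum
    intro i hi
    exact contDiff_const.mul (hχ1 i (Finset.ne_of_mem_erase hi))
  · intro j a ha
    have hall : ∀ i ∈ Finset.univ.erase i0, ∀ᶠ w in nb a, χ i w = if i = j then 1 else 0 := by
      intro i hi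
      have hi' := Finset.ne_of_mem_erase hi
      by_cases hij : i = j
      · subst hij
        simp only [if_true]
        exact hχ2 i hi' a ha
      · simp only [if_neg hij]
        exact hχ3 i hi' j (Ne.symm hij) a ha
    have hall' := (Finset.eventually_all (Finset.univ.erase i0)).2 hall
    filter_upwards [hall'] with w hw
    have h1 : ∑ i ∈ Finset.univ.erase i0, (v i - v i0) * χ i w =
        ∑ i ∈ Finset.univ.erase i0, (v i - v i0) * (if i = j then 1 else 0) :=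
      Finset.sum_congr rfl fun i hi => by rw [hw i hi]
    rw [h1]
    simp only [mul_ite, mul_one, mul_zero]
    rw [Finset.sum_ite_eq']
    by_cases hj : j = i0
    · subst hj
      simp
    · rw [if_pos (Finset.mem_erase.2 ⟨hj, Finset.mem_univ j⟩)]
      ring

/-- the set where a function is not locally constant -/
theorem nonconst_compact {Ω : Set ℂ} {χ : ℂ → ℝ}
    (h : ∀ x ∈ sc Ω, ∃ c : ℝ, ∀ᶠ w in nb x, χ w = c) :
    IsCompact {w | ¬ ∀ᶠ v in 𝓝 w, χ v = χ w} ∧ {w | ¬ ∀ᶠ v in 𝓝 w, χ v = χ w} ⊆ Ω := by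
  set L : Set ℂ := {w | ¬ ∀ᶠ v in 𝓝 w, χ v = χ w} with hL
  have hLc : IsClosed L := by
    rw [← isOpen_compl_iff]
    have : Lᶜ = {w | ∀ᶠ v in 𝓝 w, χ v = χ w} := by
      ext w; simp [hL]
    rw [this, isOpen_iff_mem_nhds]
    intro w hw
    have hw' : ∀ᶠ v in 𝓝 w, χ v = χ w := hw
    have h2 := eventually_eventually_nhds.2 hw'
    filter_upwards [hw', h2] with v hv hv2
    show ∀ᶠ u in 𝓝 v, χ u = χ v
    rw [hv]
    exact hv2
  have hLΩ : L ⊆ Ω := by
    intro w hw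
    by_contra hwΩ
    obtain ⟨c, hc⟩ := h w (coe_mem_sc.2 hwΩ)
    rw [nb_coe] at hc
    apply hw
    have := hc.self_of_nhds
    filter_upwards [hc] with v hv
    rw [hv, this]
  refine ⟨?_, hLΩ⟩
  obtain ⟨c, hc⟩ := h ∞ (infty_mem_sc Ω)
  have h3 : ∀ᶠ w in cocompact ℂ, χ w = c := by
    have : nb ∞ = cocompact ℂ := by
      unfold nb
      rw [OnePoint.comap_coe_nhds_infty, coclosedCompact_eq_cocompact]
    rwa [this] at hc
  obtain ⟨K, hK, hKc⟩ := mem_cocompact.1 h3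
  refine hK.of_isClosed_subset hLc ?_
  intro w hw
  by_contra hwK
  apply hw
  have h4 : χ w = c := hKc hwK
  filter_upwards [hK.isClosed.isOpen_compl.mem_nhds hwK] with v hv
  rw [h4]
  exact hKc hv

/-- The push forward of locally constant functions near the complement under a conformal map:
`χ ∘ f` extends to the sphere, locally constant near the complement of `D`. -/
theorem transfer {D : Set ℂ} (hDo : IsOpen D) (hDc : IsConnected D) {f : ℂ → ℂ}
    (hf : DifferentiableOn ℂ f D) (hi : InjOn f D) {χ : ℂ → ℝ} (hχ : ContDiff ℝ 2 χ)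
    (h : ∀ x ∈ sc (f '' D), ∃ c : ℝ, ∀ᶠ w in nb x, χ w = c) :
    ∃ (H : OnePoint ℂ → ℝ) (L : Set ℂ), IsCompact L ∧ L ⊆ D ∧ (∀ z ∈ D, H z = χ (f z)) ∧
      (∀ x ∉ ((↑) '' L : Set (OnePoint ℂ)), ∀ᶠ y in 𝓝 x, H y = H x) ∧
      (∀ z ∈ D, HasFDerivAt (fun z : ℂ => H z) (fderiv ℝ (fun z => χ (f z)) z) z) ∧
      (∀ z ∉ L, HasFDerivAt (fun z : ℂ => H z) (0 : ℂ →L[ℝ] ℝ) z) := by
  obtain ⟨hLc, hLΩ⟩ := nonconst_compact h
  set LΩ : Set ℂ := {w | ¬ ∀ᶠ v in 𝓝 w, χ v = χ w} with hLΩd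
  obtain ⟨-, g, hg, hgl, -⟩ := Pool.Agent.Helper405.Conv.inv_facts hDo hf hi
  set L : Set ℂ := g '' LΩ with hL
  have hLk : IsCompact L := hLc.image_of_continuousOn (hg.continuousOn.mono hLΩ)
  have hLD : L ⊆ D := by
    rintro _ ⟨w, hw, rfl⟩
    obtain ⟨z, hz, rfl⟩ := hLΩ hw
    rw [hgl z hz]
    exact hz
  have hh : ContDiffOn ℝ 2 (fun z => χ (f z)) D := by
    have h1 : ContDiffOn ℂ 2 f D := hf.contDiffOn hDo
    exact hχ.comp_contDiffOn (h1.restrict_scalars ℝ)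
  have h0 : ∀ z ∈ D \ L, fderiv ℝ (fun z => χ (f z)) z = 0 := by
    rintro z ⟨hz, hzL⟩
    have hfz : f z ∉ LΩ := by
      intro hcon
      exact hzL ⟨f z, hcon, hgl z hz⟩
    have h1 : ∀ᶠ v in 𝓝 (f z), χ v = χ (f z) := by
      by_contra hcon
      exact hfz hcon
    have h2 : ContinuousAt f z := (hf.differentiableAt (hDo.mem_nhds hz)).continuousAt
    have h3 : (fun z => χ (f z)) =ᶠ[𝓝 z] fun _ => χ (f z) := h2.eventually h1
    rw [h3.fderiv_eq]
    simp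
  obtain ⟨H, hH1, hH2, hH3⟩ := poincare_ext hDo hDc hh hLk hLD h0
  obtain ⟨H', hH'1, hH'2⟩ := sphere_ext hLk hH3
  refine ⟨H', L, hLk, hLD, fun z hz => by rw [hH'1, hH1 z hz], hH'2, ?_, ?_⟩
  · intro z hz
    have : (fun z : ℂ => H' z) = H := funext hH'1
    rw [this]
    exact hH2 z hz
  · intro z hz
    have : (fun z : ℂ => H' z) = H := funext hH'1
    rw [this]
    exact hH3 z hz

/-- every value near the complement of the image is attained near the complement of the domain -/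
theorem transfer_surj {D : Set ℂ} (hDo : IsOpen D) {f : ℂ → ℂ}
    (hf : DifferentiableOn ℂ f D) (hi : InjOn f D) {χ : ℂ → ℝ} {H : OnePoint ℂ → ℝ} {L : Set ℂ}
    (hLD : L ⊆ D) (hH : ∀ z ∈ D, H z = χ (f z))
    (hloc : ∀ x ∉ ((↑) '' L : Set (OnePoint ℂ)), ∀ᶠ y in 𝓝 x, H y = H x)
    {a : OnePoint ℂ} (ha : a ∈ sc (f '' D)) (hac : a ∈ closure ((↑) '' (f '' D) : Set (OnePoint ℂ)))
    {c : ℝ} (hc : ∀ᶠ w in nb a, χ w = c) : ∃ x ∈ sc D, H x = c := by
  have hne : (comap ((↑) : ℂ → OnePoint ℂ) (𝓝 a) ⊓ 𝓟 (f '' D)).NeBot := by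
    rw [mem_closure_iff_nhds] at hac
    refine Filter.inf_principal_neBot_iff.2 ?_
    intro s hs
    obtain ⟨t, ht, hts⟩ := mem_comap.1 hs
    obtain ⟨x, hx1, w, hw, rfl⟩ := hac t ht
    exact ⟨w, hts hx1, hw⟩
  obtain ⟨-, g, hg, hgl, -⟩ := Pool.Agent.Helper405.Conv.inv_facts hDo hf hi
  set 𝒰 : Ultrafilter ℂ := Ultrafilter.of (comap ((↑) : ℂ → OnePoint ℂ) (𝓝 a) ⊓ 𝓟 (f '' D)) with h𝒰
  have hle : (𝒰 : Filter ℂ) ≤ comap ((↑) : ℂ → OnePoint ℂ) (𝓝 a) ⊓ 𝓟 (f '' D) := Ultrafilter.of_le _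
  have hle1 : (𝒰 : Filter ℂ) ≤ nb a := hle.trans inf_le_left
  have hle2 : ∀ᶠ w in (𝒰 : Filter ℂ), w ∈ f '' D := by
    have := hle.trans inf_le_right
    exact this (mem_principal_self _)
  obtain ⟨x, -, hx⟩ := isCompact_univ.ultrafilter_le_nhds
    (𝒰.map (fun w => ((g w : ℂ) : OnePoint ℂ))) (by simp)
  have hx' : Tendsto (fun w => ((g w : ℂ) : OnePoint ℂ)) 𝒰 (𝓝 x) := hx
  have hta : Tendsto (fun w : ℂ => (w : OnePoint ℂ)) 𝒰 (𝓝 a) := by
    rw [tendsto_iff_comap]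
    exact hle1
  have hxD : x ∈ sc D := by
    intro hcon
    obtain ⟨z0, hz0, rfl⟩ := hcon
    have h1 : Tendsto g 𝒰 (𝓝 z0) := by
      have := tendsto_comap_iff.2 (show Tendsto (((↑) : ℂ → OnePoint ℂ) ∘ g) 𝒰 (𝓝 (z0 : OnePoint ℂ)) from hx')
      rwa [OnePoint.comap_coe_nhds] at this
    have h2 : ContinuousAt f z0 := (hf.differentiableAt (hDo.mem_nhds hz0)).continuousAt
    have h3 : Tendsto (fun w => f (g w)) 𝒰 (𝓝 (f z0)) := h2.tendsto.comp h1
    have h4 : Tendsto (fun w : ℂ => w) 𝒰 (𝓝 (f z0)) := by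
      refine h3.congr' ?_
      filter_upwards [hle2] with w hw
      obtain ⟨z, hz, rfl⟩ := hw
      rw [hgl z hz]
    have h5 : Tendsto (fun w : ℂ => (w : OnePoint ℂ)) 𝒰 (𝓝 ((f z0 : ℂ) : OnePoint ℂ)) :=
      (OnePoint.continuous_coe.tendsto _).comp h4
    have h6 := tendsto_nhds_unique hta h5
    rw [h6] at ha
    exact (coe_mem_sc.1 ha) ⟨z0, hz0, rfl⟩
  refine ⟨x, hxD, ?_⟩
  have hxL : x ∉ ((↑) '' L : Set (OnePoint ℂ)) := by
    rintro ⟨z, hz, rfl⟩
    exact (coe_mem_sc.1 hxD) (hLD hz)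
  have h1 : ∀ᶠ w in (𝒰 : Filter ℂ), H ((g w : ℂ) : OnePoint ℂ) = H x := hx'.eventually (hloc x hxL)
  have h2 : ∀ᶠ w in (𝒰 : Filter ℂ), χ w = c := hle1 hc
  obtain ⟨w, hw1, hw2, hw3⟩ := (h1.and (h2.and hle2)).exists
  obtain ⟨z, hz, rfl⟩ := hw3
  rw [hgl z hz, hH z hz] at hw1
  rw [← hw1, hw2]

end Pool.Agent.H762R2
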