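import Pool.Agent.H762R2.Top3

set_option autoImplicit false

open Set Filter Topology Metric
open scoped OnePoint

namespace Pool.Agent.H762R2

/-- the connected components of the complement of `D` in the Riemann sphere -/
def comps (D : Set ℂ) : Set (Set (OnePoint ℂ)) :=
  {C | ∃ x ∈ sc D, C = connectedComponentIn (sc D) x}

theorem touch {Ω : Set ℂ} (hne : Ω.Nonempty) {A B : Set (OnePoint ℂ)}
    (hA : IsClosed A) (hB : IsClosed B) (hd : Disjoint A B) (hU : A ∪ B = sc Ω)
    (hAne : A.Nonempty) : ∃ a ∈ A, a ∈ closure ((↑) '' Ω : Set (OnePoint ℂ)) := by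
  by_contra hcon
  push Not at hcon
  have h1 : A = (B ∪ closure ((↑) '' Ω : Set (OnePoint ℂ)))ᶜ := by
    ext x
    constructor
    · rintro hx (h | h)
      · exact Set.disjoint_left.1 hd hx h
      · exact hcon x hx h
    · intro hx
      have hx1 : x ∈ sc Ω := fun h => hx (Or.inr (subset_closure h))
      rw [← hU] at hx1
      rcases hx1 with h | h
      · exact h
      · exact absurd (Or.inl h) hx
  have hAo : IsOpen A := by
    rw [h1]
    exact (hB.union isClosed_closure).isOpen_compl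
  rcases isClopen_iff.1 ⟨hA, hAo⟩ with h | h
  · exact absurd hAne (by rw [h]; exact Set.not_nonempty_empty)
  · obtain ⟨w, hw⟩ := hne
    have h2 : (w : OnePoint ℂ) ∈ A := h ▸ mem_univ _
    have h3 : (w : OnePoint ℂ) ∈ sc Ω := hU ▸ Or.inl h2
    exact coe_mem_sc.1 h3 hw

/-- separating finitely many components by clopen sets -/
theorem separate {X : Type*} [TopologicalSpace X] [CompactSpace X] [T2Space X] {k : ℕ}
    (x : Fin (k + 1) → X)
    (hx : ∀ i j, i ≠ j → x j ∉ connectedComponent (x i)) :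
    ∃ A : Fin (k + 1) → Set X, (∀ i, IsClopen (A i)) ∧ (∀ i j, i ≠ j → Disjoint (A i) (A j)) ∧
      (⋃ i, A i) = univ ∧ ∀ i, x i ∈ A i := by
  classical
  have h1 : ∀ i j, i ≠ j → ∃ Z : Set X, IsClopen Z ∧ x i ∈ Z ∧ x j ∉ Z := by
    intro i j hij
    have h2 := hx i j hij
    rw [connectedComponent_eq_iInter_isClopen, mem_iInter] at h2
    push Not at h2
    obtain ⟨⟨Z, hZ1, hZ2⟩, hZ3⟩ := h2
    exact ⟨Z, hZ1, hZ2, hZ3⟩
  choose! Z hZ1 hZ2 hZ3 using h1
  set B : Fin (k + 1) → Set X := fun i => ⋂ j ∈ Finset.univ.erase i, (Z i j ∩ (Z j i)ᶜ) with hB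
  have hBc : ∀ i, IsClopen (B i) := by
    intro i
    apply isClopen_biInter_finset
    intro j hj
    have hij := Finset.ne_of_mem_erase hj
    exact (hZ1 i j hij.symm).inter (hZ1 j i hij).compl
  have hxB : ∀ i, x i ∈ B i := by
    intro i
    rw [hB]
    simp only [mem_iInter]
    intro j hj
    have hij := Finset.ne_of_mem_erase hj
    exact ⟨hZ2 i j hij.symm, hZ3 j i hij⟩
  have hBd : ∀ i j, i ≠ j → Disjoint (B i) (B j) := by
    intro i j hij
    rw [Set.disjoint_left]
    intro y hy hy'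
    simp only [hB, mem_iInter] at hy hy'
    have h2 := hy j (Finset.mem_erase.2 ⟨hij.symm, Finset.mem_univ j⟩)
    have h3 := hy' i (Finset.mem_erase.2 ⟨hij, Finset.mem_univ i⟩)
    exact h3.2 h2.1
  refine ⟨fun i => if i = 0 then (⋃ j ∈ Finset.univ.erase (0 : Fin (k + 1)), B j)ᶜ else B i,
    ?_, ?_, ?_, ?_⟩
  · intro i
    simp only
    split_ifs with h
    · apply IsClopen.compl
      apply isClopen_biUnion_finset
      intro j _
      exact hBc j
    · exact hBc i
  · intro i j hij
    simp only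
    have key : ∀ j : Fin (k + 1), j ≠ 0 → Disjoint (⋃ j ∈ Finset.univ.erase (0 : Fin (k + 1)), B j)ᶜ (B j) := by
      intro j hj
      rw [Set.disjoint_compl_left_iff_subset]
      exact subset_biUnion_of_mem (u := B) (Finset.mem_erase.2 ⟨hj, Finset.mem_univ j⟩)
    by_cases hi : i = 0
    · have hj : j ≠ 0 := fun h => hij (hi.trans h.symm)
      rw [if_pos hi, if_neg hj]
      exact key j hj
    · by_cases hj : j = 0
      · rw [if_neg hi, if_pos hj]
        exact (key i hi).symm
      · rw [if_neg hi, if_neg hj]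
        exact hBd i j hij
  · rw [Set.eq_univ_iff_forall]
    intro y
    by_cases hy : y ∈ ⋃ j ∈ Finset.univ.erase (0 : Fin (k + 1)), B j
    · obtain ⟨j, hj, hyj⟩ := mem_iUnion₂.1 hy
      refine mem_iUnion.2 ⟨j, ?_⟩
      rw [if_neg (Finset.ne_of_mem_erase hj)]
      exact hyj
    · refine mem_iUnion.2 ⟨0, ?_⟩
      rw [if_pos rfl]
      exact hy
  · intro i
    simp only
    split_ifs with h
    · subst h
      intro hcon
      obtain ⟨j, hj, hyj⟩ := mem_iUnion₂.1 hcon
      exact Set.disjoint_left.1 (hBd 0 j (Finset.ne_of_mem_erase hj).symm) (hxB 0) hyj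
    · exact hxB i

/-- partition of the complement into closed pieces separating given components -/
theorem partition {Ω : Set ℂ} (hΩ : IsOpen Ω) {k : ℕ} (C : Fin (k + 1) → Set (OnePoint ℂ))
    (hC : ∀ i, C i ∈ comps Ω) (hinj : Function.Injective C) :
    ∃ A : Fin (k + 1) → Set (OnePoint ℂ), (∀ i, IsClosed (A i)) ∧
      (∀ i j, i ≠ j → Disjoint (A i) (A j)) ∧ (⋃ i, A i) = sc Ω ∧ ∀ i, C i ⊆ A i := by
  have hcl : IsClosed (sc Ω) := isClosed_sc hΩ
  haveI : CompactSpace (sc Ω) := isCompact_iff_compactSpace.1 hcl.isCompact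
  choose x hx hxC using hC
  obtain ⟨A, hA1, hA2, hA3, hA4⟩ := separate (X := sc Ω) (fun i => ⟨x i, hx i⟩) (by
    intro i j hij hcon
    have h1 : x j ∈ connectedComponentIn (sc Ω) (x i) := by
      rw [connectedComponentIn_eq_image (hx i)]
      exact ⟨_, hcon, rfl⟩
    apply hij
    apply hinj
    rw [hxC i, hxC j]
    exact connectedComponentIn_eq h1)
  refine ⟨fun i => Subtype.val '' A i, ?_, ?_, ?_, ?_⟩
  · intro i
    exact hcl.isClosedEmbedding_subtypeVal.isClosedMap _ (hA1 i).1
  · intro i j hij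
    exact (disjoint_image_iff Subtype.val_injective).2 (hA2 i j hij)
  · rw [← image_iUnion, hA3, image_univ, Subtype.range_coe]
  · intro i
    rw [hxC i, connectedComponentIn_eq_image (hx i)]
    apply image_mono
    exact (hA1 i).connectedComponent_subset (hA4 i)

theorem encard_comps_image_le {D : Set ℂ} (hDo : IsOpen D) (hDc : IsConnected D) {f : ℂ → ℂ}
    (hf : DifferentiableOn ℂ f D) (hi : InjOn f D) :
    (comps (f '' D)).encard ≤ (comps D).encard := by
  by_contra hcon
  push Not at hcon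
  have hfin : (comps D).encard ≠ ⊤ := ne_top_of_lt hcon
  obtain ⟨n, hn⟩ := ENat.ne_top_iff_exists.1 hfin
  have h1 : ((n + 1 : ℕ) : ℕ∞) ≤ (comps (f '' D)).encard := by
    rw [← hn] at hcon
    have := Order.add_one_le_of_lt hcon
    exact_mod_cast this
  obtain ⟨T, hT, hTc⟩ := Set.exists_subset_encard_eq h1
  have hTf : T.Finite := Set.finite_of_encard_eq_coe hTc
  have hTn : T.ncard = n + 1 := by
    rw [Set.ncard, hTc]; rfl
  haveI := hTf.to_subtype
  haveI := Fintype.ofFinite T
  have hcard : Fintype.card T = n + 1 := by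
    rw [← Nat.card_eq_fintype_card, Nat.card_coe_set_eq, hTn]
  let e : Fin (n + 1) ≃ T := (Fintype.equivFinOfCardEq hcard).symm
  have hΩo : IsOpen (f '' D) := (Pool.Agent.Helper405.Conv.inv_facts hDo hf hi).1
  obtain ⟨A, hA1, hA2, hA3, hA4⟩ := partition hΩo (fun i => (e i : Set (OnePoint ℂ)))
    (fun i => hT (e i).2) (fun i j h => e.injective (Subtype.ext h))
  have hAne : ∀ i, (A i).Nonempty := by
    intro i
    obtain ⟨x, hx, hxe⟩ := hT (e i).2
    refine ⟨x, hA4 i ?_⟩
    show x ∈ (e i : Set (OnePoint ℂ))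
    rw [hxe]
    exact mem_connectedComponentIn hx
  obtain ⟨χ, hχ, hχA⟩ := bumps A hA1 hA2 hA3 (fun i => (i : ℝ))
  have hloc : ∀ x ∈ sc (f '' D), ∃ c : ℝ, ∀ᶠ w in nb x, χ w = c := by
    intro x hx
    rw [← hA3] at hx
    obtain ⟨i, hi⟩ := mem_iUnion.1 hx
    exact ⟨_, hχA i x hi⟩
  obtain ⟨H, L, -, hLD, hH, hHl, -, -⟩ := transfer hDo hDc hf hi hχ hloc
  have hex : ∀ i : Fin (n + 1), ∃ x ∈ sc D, H x = (i : ℝ) := by
    intro i
    classical
    have hB : IsClosed (⋃ j ∈ Finset.univ.erase i, A j) := isClosed_biUnion_finset fun j _ => hA1 j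
    have hd : Disjoint (A i) (⋃ j ∈ Finset.univ.erase i, A j) := by
      rw [Set.disjoint_iUnion₂_right]
      intro j hj
      exact hA2 i j (Finset.ne_of_mem_erase hj).symm
    have hU : A i ∪ (⋃ j ∈ Finset.univ.erase i, A j) = sc (f '' D) := by
      rw [← hA3]
      ext y
      simp only [mem_union, mem_iUnion, exists_prop, Finset.mem_erase, Finset.mem_univ, and_true]
      constructor
      · rintro (h | ⟨j, _, h⟩)
        · exact ⟨i, h⟩
        · exact ⟨j, h⟩
      · rintro ⟨j, h⟩
        by_cases hj : j = i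
        · subst hj; exact Or.inl h
        · exact Or.inr ⟨j, hj, h⟩
    obtain ⟨a, haA, hac⟩ := touch (hDc.nonempty.image f) (hA1 i) hB hd hU (hAne i)
    have ha : a ∈ sc (f '' D) := by rw [← hA3]; exact mem_iUnion.2 ⟨i, haA⟩
    exact transfer_surj hDo hf hi hLD hH hHl ha hac (hχA i a haA)
  choose y hy hyH using hex
  have hinj : Function.Injective (fun i => connectedComponentIn (sc D) (y i)) := by
    intro i j hij
    have h2 : y i ∈ connectedComponentIn (sc D) (y j) := by
      have : y i ∈ connectedComponentIn (sc D) (y i) := mem_connectedComponentIn (hy i)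
      have hij' : connectedComponentIn (sc D) (y i) = connectedComponentIn (sc D) (y j) := hij
      rwa [hij'] at this
    have h3 : H (y i) = H (y j) := by
      refine const_of_loc (S := connectedComponentIn (sc D) (y j))
        isPreconnected_connectedComponentIn ?_ h2 (mem_connectedComponentIn (hy j))
      intro x hx
      apply hHl
      rintro ⟨z, hz, rfl⟩
      exact (coe_mem_sc.1 (connectedComponentIn_subset _ _ hx)) (hLD hz)
    rw [hyH, hyH] at h3
    exact Fin.ext (by exact_mod_cast h3)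
  have h4 : ((n + 1 : ℕ) : ℕ∞) ≤ (comps D).encard := by
    have h5 : (range (fun i => connectedComponentIn (sc D) (y i))) ⊆ comps D := by
      rintro _ ⟨i, rfl⟩
      exact ⟨y i, hy i, rfl⟩
    have h6 := Set.encard_le_encard h5
    refine le_trans ?_ h6
    rw [← Set.image_univ, hinj.encard_image, Set.encard_univ]
    simp
  rw [← hn] at h4
  have : n + 1 ≤ n := by exact_mod_cast h4
  omega

theorem encard_comps_image {D : Set ℂ} (hDo : IsOpen D) (hDc : IsConnected D) {f : ℂ → ℂ}
    (hf : DifferentiableOn ℂ f D) (hi : InjOn f D) :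
    (comps (f '' D)).encard = (comps D).encard := by
  apply le_antisymm (encard_comps_image_le hDo hDc hf hi)
  obtain ⟨ho, g, hg, hgl, -⟩ := Pool.Agent.Helper405.Conv.inv_facts hDo hf hi
  have hgi : InjOn g (f '' D) := by
    rintro _ ⟨z, hz, rfl⟩ _ ⟨w, hw, rfl⟩ h
    rw [hgl z hz, hgl w hw] at h
    rw [h]
  have himg : g '' (f '' D) = D := by
    ext z
    constructor
    · rintro ⟨_, ⟨w, hw, rfl⟩, rfl⟩
      rw [hgl w hw]; exact hw
    · intro hz
      exact ⟨f z, ⟨z, hz, rfl⟩, hgl z hz⟩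
  have h1 := encard_comps_image_le ho (hDc.image f hf.continuousOn) hg hgi
  rwa [himg] at h1

end Pool.Agent.H762R2
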