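import Pool.Agent.H762R2.Corr
import Pool.Agent.H762R2.Adm
import Pool.Agent.Helper240.ZFM.R1

set_option autoImplicit false

open Set Filter Topology Metric MeasureTheory Complex
open scoped OnePoint Real Manifold ContDiff

namespace Pool.Agent.H762R2

open Pool.Agent.Helper405.Conv (inv_facts deriv_ne_zero_of_injOn)
open Pool.Agent.Helper405.Area (gr gr_comp gr_zero det_mul gr_radial fderiv_eq_gr)

theorem gr_of_fderiv_zero {X : ℂ → ℝ} {w : ℂ} (h : fderiv ℝ X w = 0) : gr X w = 0 := by
  unfold gr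
  rw [h]
  simp

theorem gr_congr {X Y : ℂ → ℝ} {w : ℂ} (h : X =ᶠ[𝓝 w] Y) : gr X w = gr Y w := by
  unfold gr
  rw [h.fderiv_eq]

theorem continuous_gr {X : ℂ → ℝ} (hX : ContDiff ℝ 1 X) : Continuous (gr X) := by
  have h : ∀ v, Continuous (fun w => fderiv ℝ X w v) := fun v =>
    (hX.continuous_fderiv (by norm_num)).clm_apply continuous_const
  unfold gr
  exact (continuous_ofReal.comp (h 1)).add ((continuous_ofReal.comp (h I)).mul continuous_const)

theorem gr_integral {X : ℂ → ℝ} (hX : ContDiff ℝ 1 X) {a : ℝ}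
    (hinf : ∀ᶠ w in cocompact ℂ, X w = a) (h0 : ∀ᶠ w in 𝓝 (0 : ℂ), X w = 0) :
    Integrable (fun w : ℂ => gr X w / w) ∧ ∫ w : ℂ, gr X w / w = 2 * π * a := by
  obtain ⟨K, hK, hKa⟩ := mem_cocompact.1 hinf
  have hKa' : ∀ w ∉ K, X w = a := fun w hw => hKa hw
  have hgrK : ∀ w ∉ K, gr X w = 0 := by
    intro w hw
    apply gr_zero (c := a)
    filter_upwards [hK.isClosed.isOpen_compl.mem_nhds hw] with v hv using hKa' v hv
  have hgr0 : ∀ᶠ w in 𝓝 (0 : ℂ), gr X w = 0 := by
    filter_upwards [eventually_eventually_nhds.2 h0] with w hw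
    exact gr_zero hw
  have hc : Continuous (fun w : ℂ => gr X w / w) := by
    rw [continuous_iff_continuousAt]
    intro w
    by_cases hw : w = 0
    · subst hw
      have h1 : (fun w : ℂ => gr X w / w) =ᶠ[𝓝 0] fun _ => 0 := by
        filter_upwards [hgr0] with w hw
        rw [hw, zero_div]
      exact continuousAt_const.congr h1.symm
    · exact (continuous_gr hX).continuousAt.div continuousAt_id hw
  have hs : HasCompactSupport (fun w : ℂ => gr X w / w) := by
    apply HasCompactSupport.intro hK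
    intro w hw
    rw [hgrK w hw, zero_div]
  refine ⟨hc.integrable_of_hasCompactSupport hs, ?_⟩
  set u : ℂ → ℂ := fun w => ((X w - a : ℝ) : ℂ) with hu
  have huc : ContDiff ℝ 1 u := ofRealCLM.contDiff.comp (hX.sub contDiff_const)
  have hus : HasCompactSupport u := by
    apply HasCompactSupport.intro hK
    intro w hw
    simp only [hu]
    rw [hKa' w hw, sub_self, ofReal_zero]
  have h1 := ZFM.J_r1.pompeiu u huc hus 0
  have hXd : Differentiable ℝ X := hX.differentiable (by norm_num)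
  have h2 : ∀ w, ZFM.dbar u w = gr X w / 2 := by
    intro w
    have h3 : HasFDerivAt u (ofRealCLM.comp (fderiv ℝ X w)) w :=
      ofRealCLM.hasFDerivAt.comp w ((hXd w).hasFDerivAt.sub_const a)
    unfold ZFM.dbar gr
    rw [h3.fderiv]
    simp
    ring
  have h3 : u 0 = -(a : ℂ) := by
    simp only [hu]
    rw [h0.self_of_nhds]
    push_cast
    ring
  rw [h3] at h1
  have h4 : ∀ w : ℂ, ZFM.dbar u w / (0 - w) = (-(1 / 2)) * (gr X w / w) := by
    intro w
    rw [h2, zero_sub, div_neg]
    ring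
  simp only [h4] at h1
  rw [integral_const_mul] at h1
  have hpi : (π : ℂ) ≠ 0 := by exact_mod_cast Real.pi_ne_zero
  field_simp at h1
  linear_combination h1

/-- the winding identity -/
theorem wind {D : Set ℂ} (hDo : IsOpen D) {F : ℂ → ℂ} (hF : DifferentiableOn ℂ F D)
    (hi : InjOn F D) {X χ : ℂ → ℝ} (hX : ContDiff ℝ 1 X) (hχ : ContDiff ℝ 1 χ)
    (hXχ : ∀ z ∈ D, X z = χ (F z)) (hXD : ∀ z ∉ D, fderiv ℝ X z = 0)
    (hχD : ∀ v ∉ F '' D, fderiv ℝ χ v = 0) (hX0 : ∀ᶠ w in 𝓝 (0 : ℂ), X w = 0)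
    (hχ0 : ∀ᶠ v in 𝓝 (0 : ℂ), χ v = 0) {a b : ℝ} (ha : ∀ᶠ w in cocompact ℂ, X w = a)
    (hb : ∀ᶠ v in cocompact ℂ, χ v = b) :
    ∫ z in D, gr X z * (deriv F z / F z - 1 / z) = 2 * π * (b - a) := by
  obtain ⟨i1, e1⟩ := gr_integral hX ha hX0
  obtain ⟨i2, e2⟩ := gr_integral hχ hb hχ0
  have hFO : IsOpen (F '' D) := (inv_facts hDo hF hi).1
  have hder : ∀ z ∈ D, HasFDerivWithinAt F
      ((ContinuousLinearMap.toSpanSingleton ℂ (deriv F z)).restrictScalars ℝ) D z := by
    intro z hz
    exact (((hF z hz).differentiableAt (hDo.mem_nhds hz)).hasDerivAt.hasFDerivAt.restrictScalars ℝ).hasFDerivWithinAt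
  have hcong : ∀ z ∈ D, |((ContinuousLinearMap.toSpanSingleton ℂ (deriv F z)).restrictScalars ℝ).det| •
      (gr χ (F z) / F z) = gr X z * (deriv F z / F z) := by
    intro z hz
    have hdz := ((hF z hz).differentiableAt (hDo.mem_nhds hz)).hasDerivAt
    have h3 := gr_comp hdz (hχ.differentiable (by norm_num) (F z))
    have h4 : gr X z = gr (fun z => χ (F z)) z := by
      apply gr_congr
      filter_upwards [hDo.mem_nhds hz] with y hy using hXχ y hy
    rw [h4, h3, det_mul, abs_of_nonneg (by positivity), real_smul]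
    have h6 : ((‖deriv F z‖ ^ 2 : ℝ) : ℂ) = (starRingEnd ℂ) (deriv F z) * deriv F z := by
      rw [← Complex.normSq_eq_norm_sq, Complex.normSq_eq_conj_mul_self]
    rw [h6]
    ring
  have j1 : IntegrableOn (fun z => gr X z * (deriv F z / F z)) D := by
    have h1 := (integrableOn_image_iff_integrableOn_abs_det_fderiv_smul volume hDo.measurableSet hder hi
      (fun v => gr χ v / v)).1 i2.integrableOn
    exact h1.congr_fun hcong hDo.measurableSet
  have k1 : ∫ z in D, gr X z * (deriv F z / F z) = 2 * π * b := by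
    rw [← setIntegral_congr_fun hDo.measurableSet hcong,
      ← integral_image_eq_integral_abs_det_fderiv_smul volume hDo.measurableSet hder hi
      (fun v => gr χ v / v), ← e2]
    apply setIntegral_eq_integral_of_forall_compl_eq_zero
    intro v hv
    rw [gr_of_fderiv_zero (hχD v hv), zero_div]
  have j2 : IntegrableOn (fun z => gr X z * (1 / z)) D := by
    have h1 : (fun z : ℂ => gr X z * (1 / z)) = fun z => gr X z / z := by
      funext z; ring
    rw [h1]
    exact i1.integrableOn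
  have k2 : ∫ z in D, gr X z * (1 / z) = 2 * π * a := by
    have h1 : (fun z : ℂ => gr X z * (1 / z)) = fun z => gr X z / z := by
      funext z; ring
    rw [h1, ← e1]
    apply setIntegral_eq_integral_of_forall_compl_eq_zero
    intro v hv
    rw [gr_of_fderiv_zero (hXD v hv), zero_div]
  have h5 : ∀ z, gr X z * (deriv F z / F z - 1 / z) = gr X z * (deriv F z / F z) - gr X z * (1 / z) :=
    fun z => by ring
  simp only [h5]
  rw [integral_sub j1 j2, k1, k2]
  ring

/-- exact forms are orthogonal to cut-off functions -/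
theorem exact_zero {D : Set ℂ} (hDo : IsOpen D) {ψ : ℂ → ℂ} (hψ : DifferentiableOn ℂ ψ D)
    {X : ℂ → ℝ} (hX : ContDiff ℝ 1 X) {L : Set ℂ} (hL : IsCompact L) (hLD : L ⊆ D)
    (hXL : ∀ z ∉ L, fderiv ℝ X z = 0) : ∫ z in D, gr X z * deriv ψ z = 0 := by
  obtain ⟨O, hO, hLO, hOD, hOc⟩ := exists_open_between_and_isCompact_closure hL hDo hLD
  obtain ⟨η, hη0, hη1, -⟩ := exists_contMDiffMap_zero_one_nhds_of_isClosed (n := 2) 𝓘(ℝ, ℂ)
    hO.isClosed_compl hL.isClosed (by
      rw [Set.disjoint_left]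
      intro z hz hz'
      exact hz (hLO hz'))
  have hηc : ContDiff ℝ 2 (η : ℂ → ℝ) := contMDiff_iff_contDiff.1 η.contMDiff
  have hη0' : ∀ z ∉ O, ∀ᶠ w in 𝓝 z, η w = 0 := fun z hz =>
    hη0.filter_mono (nhds_le_nhdsSet (show z ∈ Oᶜ from hz))
  have hη1' : ∀ z ∈ L, ∀ᶠ w in 𝓝 z, η w = 1 := fun z hz =>
    hη1.filter_mono (nhds_le_nhdsSet hz)
  have hOD' : O ⊆ D := subset_closure.trans hOD
  set P : ℂ → ℂ := fun z => (η z : ℂ) * ψ z with hP
  have hPc : ContDiff ℝ 2 P := by
    rw [contDiff_iff_contDiffAt]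
    intro z
    by_cases hz : z ∈ D
    · have h1 : ContDiffAt ℝ 2 ψ z :=
        ((hψ.analyticAt (hDo.mem_nhds hz)).contDiffAt (n := 2)).restrict_scalars ℝ
      exact (ofRealCLM.contDiff.comp hηc).contDiffAt.mul h1
    · have h2 : P =ᶠ[𝓝 z] fun _ => 0 := by
        filter_upwards [hη0' z (fun h => hz (hOD' h))] with w hw
        simp only [hP]
        rw [hw]
        simp
      exact contDiffAt_const.congr_of_eventuallyEq h2
  have hPs : HasCompactSupport P := by
    apply HasCompactSupport.intro hOc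
    intro w hw
    simp only [hP]
    rw [(hη0' w (fun h => hw (subset_closure h))).self_of_nhds]
    simp
  have hD2 : ∀ z, HasFDerivAt (fderiv ℝ P) (fderiv ℝ (fderiv ℝ P) z) z := fun z =>
    ((hPc.fderiv_right (m := 1) (by norm_num)).differentiable (by norm_num) z).hasFDerivAt
  have hPv : ∀ (v z : ℂ), HasFDerivAt (fun z => fderiv ℝ P z v)
      ((ContinuousLinearMap.apply ℝ ℂ v).comp (fderiv ℝ (fderiv ℝ P) z)) z := fun v z =>
    (ContinuousLinearMap.apply ℝ ℂ v).hasFDerivAt.comp z (hD2 z)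
  have hPvc : ∀ v : ℂ, ContDiff ℝ 1 (fun z => fderiv ℝ P z v) := fun v =>
    (hPc.fderiv_right (m := 1) (by norm_num)).clm_apply contDiff_const
  have hPvs : ∀ v : ℂ, HasCompactSupport (fun z => fderiv ℝ P z v) := fun v => hPs.fderiv_apply (𝕜 := ℝ) v
  have hsymm : ∀ z : ℂ, fderiv ℝ (fun z => fderiv ℝ P z I) z 1 = fderiv ℝ (fun z => fderiv ℝ P z 1) z I := by
    intro z
    rw [(hPv I z).fderiv, (hPv 1 z).fderiv]
    simp only [ContinuousLinearMap.comp_apply, ContinuousLinearMap.apply_apply]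
    exact (hPc.contDiffAt.isSymmSndFDerivAt (by simp)) 1 I
  have hXd : Differentiable ℝ X := hX.differentiable (by norm_num)
  have hXc : ∀ v : ℂ, Continuous (fun z => fderiv ℝ X z v) := fun v =>
    (hX.continuous_fderiv (by norm_num)).clm_apply continuous_const
  have key : ∀ u v : ℂ, Integrable (fun z => fderiv ℝ X z u • fderiv ℝ P z v) ∧
      ∫ z, X z • fderiv ℝ (fun z => fderiv ℝ P z v) z u = - ∫ z, fderiv ℝ X z u • fderiv ℝ P z v := by
    intro u v
    have i1 : Integrable (fun z => fderiv ℝ X z u • fderiv ℝ P z v) :=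
      ((hXc u).smul (hPvc v).continuous).integrable_of_hasCompactSupport ((hPvs v).smul_left)
    refine ⟨i1, ?_⟩
    apply integral_smul_fderiv_eq_neg_fderiv_smul_of_integrable
    · exact i1
    · refine (hXd.continuous.smul (((hPvc v).continuous_fderiv (by norm_num)).clm_apply
        continuous_const)).integrable_of_hasCompactSupport ?_
      exact ((hPvs v).fderiv_apply (𝕜 := ℝ) u).smul_left
    · exact (hXd.continuous.smul (hPvc v).continuous).integrable_of_hasCompactSupport ((hPvs v).smul_left)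
    · exact fun x _ => hXd x
    · exact fun x _ => (hPvc v).differentiable (by norm_num) x
  have hcong : ∀ z ∈ D, gr X z * deriv ψ z =
      -I * (fderiv ℝ X z 1 • fderiv ℝ P z I - fderiv ℝ X z I • fderiv ℝ P z 1) := by
    intro z hz
    by_cases hzL : z ∈ L
    · have h1 : P =ᶠ[𝓝 z] ψ := by
        filter_upwards [hη1' z hzL] with w hw
        simp only [hP]
        rw [hw]
        simp
      have h2 : ∀ v : ℂ, fderiv ℝ P z v = deriv ψ z * v := by
        intro v
        rw [h1.fderiv_eq]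
        have h3 := ((hψ z hz).differentiableAt (hDo.mem_nhds hz)).hasDerivAt.hasFDerivAt.restrictScalars ℝ
        rw [h3.fderiv]
        simp [mul_comm]
      rw [h2, h2]
      unfold gr
      simp only [real_smul]
      linear_combination ((fderiv ℝ X z 1 : ℂ) * deriv ψ z) * I_mul_I
    · rw [gr_of_fderiv_zero (hXL z hzL), hXL z hzL]
      simp
  rw [setIntegral_congr_fun hDo.measurableSet hcong]
  rw [setIntegral_eq_integral_of_forall_compl_eq_zero (by
    intro z hz
    rw [hXL z (fun h => hz (hLD h))]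
    simp)]
  rw [integral_const_mul, integral_sub (key 1 I).1 (key I 1).1]
  have e1 := (key 1 I).2
  have e2 := (key I 1).2
  have e3 : ∫ z, X z • fderiv ℝ (fun z => fderiv ℝ P z I) z 1 = ∫ z, X z • fderiv ℝ (fun z => fderiv ℝ P z 1) z I := by
    congr 1
    funext z
    rw [hsymm z]
  have e4 : (∫ z, fderiv ℝ X z 1 • fderiv ℝ P z I) = ∫ z, fderiv ℝ X z I • fderiv ℝ P z 1 := by
    rw [← neg_inj, ← e1, ← e2, e3]
  rw [e4]
  ring

end Pool.Agent.H762R2
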