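import Pool.Agent.H762R2.Wind

set_option autoImplicit false

open Set Filter Topology Metric MeasureTheory Complex
open scoped OnePoint Real

namespace Pool.Agent.H762R2

open Pool.Agent.Helper405.Conv (inv_facts deriv_ne_zero_of_injOn)
open Pool.Agent.Helper405.Area (gr gr_comp gr_zero det_mul gr_radial fderiv_eq_gr)

/-- the component of infinity -/
def Kinf (D : Set ℂ) : Set (OnePoint ℂ) := connectedComponentIn (sc D) ∞

theorem Kinf_mem (D : Set ℂ) : Kinf D ∈ comps D := comp_of_mem (infty_mem_sc D)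

theorem infty_mem_Kinf (D : Set ℂ) : (∞ : OnePoint ℂ) ∈ Kinf D :=
  mem_connectedComponentIn (infty_mem_sc D)

theorem nb_infty : nb ∞ = cocompact ℂ := by
  unfold nb
  rw [OnePoint.comap_coe_nhds_infty, coclosedCompact_eq_cocompact]

/-- if a property holds near each point of `C` then it holds eventually as `z → C` -/
theorem ev_of_nb {D : Set ℂ} {C : Set (OnePoint ℂ)} {p : ℂ → Prop}
    (h : ∀ a ∈ C, ∀ᶠ w in nb a, p w) : ∀ᶠ z in toC D C, p z := by
  have h1 : ∀ᶠ x in 𝓝ˢ C, ∀ w : ℂ, (w : OnePoint ℂ) = x → p w := by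
    rw [eventually_nhdsSet_iff_forall]
    intro a ha
    have := h a ha
    unfold nb at this
    rw [eventually_comap] at this
    exact this
  have h2 := h1.comap ((↑) : ℂ → OnePoint ℂ)
  have h3 : ∀ᶠ z in comap ((↑) : ℂ → OnePoint ℂ) (𝓝ˢ C), p z := by
    filter_upwards [h2] with z hz
    exact hz z rfl
  exact h3.filter_mono inf_le_left

/-- regularity of the transferred function -/
theorem transfer' {D : Set ℂ} (hDo : IsOpen D) (hDc : IsConnected D) {f : ℂ → ℂ}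
    (hf : DifferentiableOn ℂ f D) (hi : InjOn f D) {χ : ℂ → ℝ} (hχ : ContDiff ℝ 2 χ)
    (h : ∀ x ∈ sc (f '' D), ∃ c : ℝ, ∀ᶠ w in nb x, χ w = c) :
    ∃ (H : OnePoint ℂ → ℝ) (L : Set ℂ), IsCompact L ∧ L ⊆ D ∧ (∀ z ∈ D, H z = χ (f z)) ∧
      (∀ x ∉ ((↑) '' L : Set (OnePoint ℂ)), ∀ᶠ y in 𝓝 x, H y = H x) ∧
      ContDiff ℝ 2 (fun z : ℂ => H z) ∧ (∀ z ∉ L, fderiv ℝ (fun z : ℂ => H z) z = 0) ∧
      (∀ᶠ w in cocompact ℂ, H ((w : ℂ) : OnePoint ℂ) = H ∞) := by
  obtain ⟨H, L, hL, hLD, hH, hHl, -, hH0⟩ := transfer hDo hDc hf hi hχ h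
  refine ⟨H, L, hL, hLD, hH, hHl, ?_, fun z hz => (hH0 z hz).fderiv, ?_⟩
  · rw [contDiff_iff_contDiffAt]
    intro z
    by_cases hz : z ∈ D
    · have h1 : ContDiffAt ℝ 2 (fun z => χ (f z)) z := by
        have h2 : ContDiffAt ℝ 2 f z :=
          ((hf.analyticAt (hDo.mem_nhds hz)).contDiffAt (n := 2)).restrict_scalars ℝ
        exact hχ.contDiffAt.comp z h2
      refine h1.congr_of_eventuallyEq ?_
      filter_upwards [hDo.mem_nhds hz] with y hy using hH y hy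
    · have hx : ((z : ℂ) : OnePoint ℂ) ∉ ((↑) '' L : Set (OnePoint ℂ)) := by
        rintro ⟨y, hy, he⟩
        rw [← OnePoint.coe_injective he] at hz
        exact hz (hLD hy)
      have h1 := hHl _ hx
      rw [OnePoint.nhds_coe_eq, eventually_map] at h1
      exact contDiffAt_const.congr_of_eventuallyEq h1
  · have hx : (∞ : OnePoint ℂ) ∉ ((↑) '' L : Set (OnePoint ℂ)) := by
      rintro ⟨y, -, he⟩
      exact OnePoint.coe_ne_infty y he
    have h1 := (hHl _ hx).comap ((↑) : ℂ → OnePoint ℂ)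
    have h2 : comap ((↑) : ℂ → OnePoint ℂ) (𝓝 ∞) = cocompact ℂ := nb_infty
    rw [h2] at h1
    exact h1

/-- admissible maps preserve the component of infinity -/
theorem adm_corr {Ω : Set ℂ} (hΩ : IsOpen Ω) (hc : IsConnected Ω) (h0 : (0 : ℂ) ∈ Ω)
    (hfin : (comps Ω).Finite) {F : ℂ → ℂ} (hF : Adm Ω F) :
    Tendsto F (toC Ω (Kinf Ω)) (toC (F '' Ω) (Kinf (F '' Ω))) := by
  have hFd := hF.diff
  have hFi := hF.1
  have hF0 := hF.zero h0
  obtain ⟨C', hC', hft⟩ := corr hΩ hc hfin hFd hFi (Kinf_mem Ω)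
  by_cases hCK : C' = Kinf (F '' Ω)
  · rwa [hCK] at hft
  exfalso
  have hWo : IsOpen (F '' Ω) := (inv_facts hΩ hFd hFi).1
  have hfin' := finite_comps_image hΩ hc hfin hFd hFi
  have h0W : (0 : ℂ) ∈ F '' Ω := ⟨0, h0, hF0⟩
  have hB : IsClosed (others (F '' Ω) (Kinf (F '' Ω)) ∪ {((0 : ℂ) : OnePoint ℂ)}) :=
    (others_closed hWo hfin' _).union isClosed_singleton
  have hd : Disjoint (Kinf (F '' Ω)) (others (F '' Ω) (Kinf (F '' Ω)) ∪ {((0 : ℂ) : OnePoint ℂ)}) := by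
    rw [disjoint_union_right]
    refine ⟨others_disjoint (Kinf_mem _), ?_⟩
    rw [Set.disjoint_singleton_right]
    intro h
    exact coe_mem_sc.1 (comp_sub (Kinf_mem _) h) h0W
  obtain ⟨χ, hχ, hχ1, hχ0⟩ := bump' (comp_closed hWo (Kinf_mem _)) hB hd
  have hloc : ∀ x ∈ sc (F '' Ω), ∃ c : ℝ, ∀ᶠ w in nb x, χ w = c := by
    intro x hx
    rw [← union_others (Kinf_mem (F '' Ω))] at hx
    rcases hx with hx | hx
    · exact ⟨1, hχ1 x hx⟩
    · exact ⟨0, hχ0 x (Or.inl hx)⟩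
  obtain ⟨H, L, hL, hLD, hH, hHl, hHc, hHf, hHinf⟩ := transfer' hΩ hc hFd hFi hχ hloc
  have hχ00 : ∀ᶠ v in 𝓝 (0 : ℂ), χ v = 0 := by
    have := hχ0 _ (Or.inr (mem_singleton _))
    rwa [nb_coe] at this
  have hH00 : ∀ᶠ w in 𝓝 (0 : ℂ), H ((w : ℂ) : OnePoint ℂ) = 0 := by
    have h1 : ContinuousAt F 0 := (hFd.differentiableAt (hΩ.mem_nhds h0)).continuousAt
    have h2 : Tendsto F (𝓝 0) (𝓝 0) := by
      have := h1.tendsto
      rwa [hF0] at this
    filter_upwards [h2.eventually hχ00, hΩ.mem_nhds h0] with w hw hwΩ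
    rw [hH w hwΩ, hw]
  have hχinf : ∀ᶠ v in cocompact ℂ, χ v = 1 := by
    rw [← nb_infty]
    exact hχ1 ∞ (infty_mem_Kinf _)
  -- the value at infinity of `H`
  have hHi0 : H ∞ = 0 := by
    obtain ⟨-, hev⟩ := const_near hLD hHl (Kinf_mem Ω) (infty_mem_Kinf Ω)
    have := toC_neBot hΩ hc.nonempty hfin (Kinf_mem Ω)
    have h1 : ∀ᶠ v in toC (F '' Ω) C', χ v = 0 := by
      apply ev_of_nb
      intro a ha
      exact hχ0 a (Or.inl ⟨C', ⟨hC', hCK⟩, ha⟩)
    obtain ⟨z, hz1, hz2, hz3⟩ := (hev.and ((hft.eventually h1).and (ev_mem_toC Ω (Kinf Ω)))).exists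
    rw [← hz1, hH z hz3]
    exact hz2
  have hW := wind hΩ hFd hFi (X := fun z : ℂ => H z) (χ := χ) (hHc.of_le (by norm_num)) (hχ.of_le (by norm_num))
    hH (fun z hz => hHf z (fun h => hz (hLD h))) (by
      intro v hv
      obtain ⟨c, hc⟩ := hloc v (coe_mem_sc.2 hv)
      rw [nb_coe] at hc
      have : χ =ᶠ[𝓝 v] fun _ => c := hc
      rw [this.fderiv_eq]
      simp) hH00 hχ00 (a := 0) (b := 1) (by rw [← hHi0]; exact hHinf) hχinf
  obtain ⟨-, ψ, hψ, hψ0, hFe⟩ := hF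
  have hE := exact_zero hΩ hψ (X := fun z : ℂ => H z) (hHc.of_le (by norm_num)) hL hLD hHf
  have hcong : ∀ z ∈ Ω, gr (fun z : ℂ => H z) z * (deriv F z / F z - 1 / z) =
      gr (fun z : ℂ => H z) z * deriv ψ z := by
    intro z hz
    by_cases hz0 : z = 0
    · subst hz0
      rw [gr_zero hH00]
      ring
    · congr 1
      have h1 : HasDerivAt F (1 * exp (ψ z) + z * (exp (ψ z) * deriv ψ z)) z := by
        have h2 := (hasDerivAt_id z).mul (hψ.differentiableAt (hΩ.mem_nhds hz)).hasDerivAt.cexp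
        refine h2.congr_of_eventuallyEq ?_
        filter_upwards [hΩ.mem_nhds hz] with v hv
        simp only [hFe v hv, Pi.mul_apply, id]
      rw [h1.deriv, hFe z hz]
      have := exp_ne_zero (ψ z)
      field_simp
      ring
  rw [setIntegral_congr_fun hΩ.measurableSet hcong, hE] at hW
  have hpi : (π : ℂ) ≠ 0 := by exact_mod_cast Real.pi_ne_zero
  simp at hW

end Pool.Agent.H762R2
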