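import Pool.Agent.H762R2.Wind2

set_option autoImplicit false

open Set Filter Topology Metric MeasureTheory Complex
open scoped OnePoint Real

namespace Pool.Agent.H762R2

open Pool.Agent.Helper405.Conv (inv_facts deriv_ne_zero_of_injOn)
open Pool.Agent.Helper405.Area (gr gr_comp gr_zero det_mul gr_radial fderiv_eq_gr)

theorem polar_any {f : ℂ → ℂ} (hf : Continuous f) {R : ℝ} (hR : 0 < R) (hf0 : ∀ z, R ≤ ‖z‖ → f z = 0) :
    ∫ z, f z = ∫ s in Ioo (0:ℝ) R, (s : ℂ) * ∫ θ in (-π)..π, f (pc s θ) := by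
  set g : ℝ × ℝ → ℂ := fun p => p.1 • f (pc p.1 p.2) with hg
  have hgc : Continuous g := continuous_fst.smul (hf.comp continuous_pc)
  have e1 : ∫ z, f z = ∫ p in polarCoord.target, g p := by
    rw [← Complex.integral_comp_polarCoord_symm]
    apply MeasureTheory.setIntegral_congr_fun polarCoord.open_target.measurableSet
    rintro ⟨r, θ⟩ _
    simp only [hg, pc_eq]
  have e2 : ∫ p in polarCoord.target, g p = ∫ p in Ioo (0:ℝ) R ×ˢ Ioo (-π) π, g p := by
    apply MeasureTheory.setIntegral_eq_of_subset_of_forall_sdiff_eq_zero polarCoord.open_target.measurableSet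
    · rw [polarCoord_target]
      exact prod_mono Ioo_subset_Ioi_self Subset.rfl
    · rintro ⟨r, θ⟩ ⟨h1, h2⟩
      rw [polarCoord_target] at h1
      have hr : R ≤ r := by
        by_contra hlt
        push Not at hlt
        exact h2 ⟨⟨h1.1, hlt⟩, h1.2⟩
      simp only [hg]
      rw [hf0 _ (by rw [norm_pc (hR.le.trans hr)]; exact hr), smul_zero]
  have hint : IntegrableOn g (Ioo (0:ℝ) R ×ˢ Ioo (-π) π) (volume.prod volume) := by
    have h1 : IntegrableOn g (Icc (0:ℝ) R ×ˢ Icc (-π) π) (volume.prod volume) :=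
      hgc.continuousOn.integrableOn_compact (isCompact_Icc.prod isCompact_Icc)
    exact h1.mono_set (prod_mono Ioo_subset_Icc_self Ioo_subset_Icc_self)
  have e3 : ∫ p in Ioo (0:ℝ) R ×ˢ Ioo (-π) π, g p = ∫ r in Ioo (0:ℝ) R, ∫ θ in Ioo (-π) π, g (r, θ) :=
    setIntegral_prod g hint
  rw [e1, e2]
  refine Eq.trans e3 ?_
  apply setIntegral_congr_fun measurableSet_Ioo
  intro r _
  simp only
  rw [intervalIntegral.integral_of_le (by linarith [Real.pi_pos]), integral_Ioc_eq_integral_Ioo,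
    ← integral_const_mul]
  simp only [hg, real_smul]

theorem circ_integral {k : ℂ → ℂ} (s : ℝ) :
    (∮ z in C(0, s), k z) = I * ∫ θ in (-π)..π, pc s θ * k (pc s θ) := by
  have h1 : ∀ θ : ℝ, circleMap 0 s θ = pc s θ := by
    intro θ
    simp [circleMap, pc]
  have hper : Function.Periodic (fun θ => circleMap 0 s θ * I * k (circleMap 0 s θ)) (2 * π) := by
    intro θ
    simp only
    rw [periodic_circleMap 0 s θ]
  have h2 := hper.intervalIntegral_add_eq (-π) 0
  rw [zero_add, show -π + 2 * π = π by ring] at h2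
  unfold circleIntegral
  simp only [deriv_circleMap, smul_eq_mul]
  rw [← h2, ← intervalIntegral.integral_const_mul]
  congr 1
  funext θ
  rw [h1]
  ring

theorem circ_const {W : Set ℂ} (hW : IsOpen W) {k : ℂ → ℂ} (hk : DifferentiableOn ℂ k W) {r1 r2 : ℝ}
    (hr1 : 0 < r1) (hann : ∀ w : ℂ, r1 ≤ ‖w‖ → ‖w‖ ≤ r2 → w ∈ W) {s : ℝ} (hs1 : r1 ≤ s) (hs2 : s ≤ r2) :
    ∫ θ in (-π)..π, pc s θ * k (pc s θ) = ∫ θ in (-π)..π, pc r1 θ * k (pc r1 θ) := by
  have h1 := circleIntegral_eq_of_differentiable_on_annulus_off_countable (c := (0 : ℂ)) hr1 hs1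
    (f := k) (s := ∅) countable_empty
    (by
      apply hk.continuousOn.mono
      rintro z ⟨hz1, hz2⟩
      rw [mem_closedBall_zero_iff] at hz1
      rw [mem_ball_zero_iff, not_lt] at hz2
      exact hann z hz2 (hz1.trans hs2))
    (by
      rintro z ⟨⟨hz1, hz2⟩, -⟩
      rw [mem_ball_zero_iff] at hz1
      rw [mem_closedBall_zero_iff, not_le] at hz2
      have hz : z ∈ W := hann z hz2.le (hz1.le.trans hs2)
      exact hk.differentiableAt (hW.mem_nhds hz))
  rw [circ_integral, circ_integral] at h1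
  exact mul_left_cancel₀ I_ne_zero h1

/-- a map of a slit disc preserving the component of infinity has winding number one along circles -/
theorem circ_zero {W : Set ℂ} (hW : IsOpen W) (hWc : IsConnected W) (h0 : (0 : ℂ) ∈ W)
    (hfin : (comps W).Finite) {r1 r2 : ℝ} (hr1 : 0 < r1) (hr12 : r1 < r2)
    (hann : ∀ w : ℂ, r1 ≤ ‖w‖ → ‖w‖ ≤ r2 → w ∈ W) (hKW : ∀ w : ℂ, (w : OnePoint ℂ) ∈ Kinf W → r2 < ‖w‖)
    {Φ k : ℂ → ℂ} (hΦd : DifferentiableOn ℂ Φ W) (hΦi : InjOn Φ W) (hΦ0 : Φ 0 = 0)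
    (hcorr : Tendsto Φ (toC W (Kinf W)) (toC (Φ '' W) (Kinf (Φ '' W))))
    (hkd : DifferentiableOn ℂ k W) (hk : ∀ w ∈ W, w ≠ 0 → k w = deriv Φ w / Φ w - 1 / w)
    {s : ℝ} (hs1 : r1 ≤ s) (hs2 : s ≤ r2) :
    ∫ θ in (-π)..π, pc s θ * k (pc s θ) = 0 := by
  rw [circ_const hW hkd hr1 hann hs1 hs2]
  set J := ∫ θ in (-π)..π, pc r1 θ * k (pc r1 θ) with hJ
  -- the radial cut-off
  have hd : 0 < r2 ^ 2 - r1 ^ 2 := by nlinarith
  set x : ℝ → ℝ := fun s => Real.smoothTransition ((s - r1 ^ 2) / (r2 ^ 2 - r1 ^ 2)) with hx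
  have hxc : ContDiff ℝ 2 x := by
    apply Real.smoothTransition.contDiff.comp
    fun_prop
  have hx0 : ∀ s ≤ r1 ^ 2, x s = 0 := fun s hs =>
    Real.smoothTransition.zero_of_nonpos (div_nonpos_of_nonpos_of_nonneg (by linarith) hd.le)
  have hx1 : ∀ s, r2 ^ 2 ≤ s → x s = 1 := fun s hs =>
    Real.smoothTransition.one_of_one_le ((one_le_div hd).2 (by linarith))
  have hxd0 : ∀ s < r1 ^ 2, deriv x s = 0 := by
    intro s hs
    have : x =ᶠ[𝓝 s] fun _ => 0 := by
      filter_upwards [gt_mem_nhds hs] with t ht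
      exact hx0 t ht.le
    rw [this.deriv_eq]; simp
  have hxd1 : ∀ s, r2 ^ 2 < s → deriv x s = 0 := by
    intro s hs
    have : x =ᶠ[𝓝 s] fun _ => 1 := by
      filter_upwards [lt_mem_nhds hs] with t ht
      exact hx1 t ht.le
    rw [this.deriv_eq]; simp
  set X : ℂ → ℝ := fun w => x (‖w‖ ^ 2) with hX
  have hXc : ContDiff ℝ 2 X := hxc.comp (contDiff_norm_sq ℝ)
  have hXin : ∀ w : ℂ, ‖w‖ < r1 → ∀ᶠ v in 𝓝 w, X v = 0 := by
    intro w hw
    have h1 : {v : ℂ | ‖v‖ < r1} ∈ 𝓝 w := (isOpen_lt continuous_norm continuous_const).mem_nhds hw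
    filter_upwards [h1] with v hv
    apply hx0
    have hv' : ‖v‖ < r1 := hv
    nlinarith [norm_nonneg v]
  have hXbig : ∀ v : ℂ, r2 ≤ ‖v‖ → X v = 1 := by
    intro v hv
    apply hx1
    nlinarith [norm_nonneg v]
  have hXout : ∀ w : ℂ, r2 < ‖w‖ → ∀ᶠ v in 𝓝 w, X v = 1 := by
    intro w hw
    have h1 : {v : ℂ | r2 < ‖v‖} ∈ 𝓝 w := (isOpen_lt continuous_const continuous_norm).mem_nhds hw
    filter_upwards [h1] with v hv
    have hv' : r2 < ‖v‖ := hv
    exact hXbig v hv'.le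
  have hXinf : ∀ᶠ v in cocompact ℂ, X v = 1 := by
    have h3 : ∀ᶠ w in cocompact ℂ, w ∈ (closedBall (0 : ℂ) r2)ᶜ :=
      (isCompact_closedBall _ _).compl_mem_cocompact
    filter_upwards [h3] with v hv
    rw [mem_compl_iff, mem_closedBall_zero_iff, not_le] at hv
    exact hXbig v hv.le
  -- the inverse map
  obtain ⟨hVo, g, hg, hgl, -⟩ := inv_facts hW hΦd hΦi
  have hgi : InjOn g (Φ '' W) := by
    rintro _ ⟨z, hz, rfl⟩ _ ⟨w, hw, rfl⟩ h
    rw [hgl z hz, hgl w hw] at h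
    rw [h]
  have himg : g '' (Φ '' W) = W := by
    ext z
    constructor
    · rintro ⟨_, ⟨w, hw, rfl⟩, rfl⟩
      rw [hgl w hw]; exact hw
    · intro hz
      exact ⟨Φ z, ⟨z, hz, rfl⟩, hgl z hz⟩
  have hVc : IsConnected (Φ '' W) := hWc.image Φ hΦd.continuousOn
  have hloc : ∀ y ∈ sc (g '' (Φ '' W)), ∃ c : ℝ, ∀ᶠ w in nb y, X w = c := by
    intro y hy
    rw [himg] at hy
    induction y using OnePoint.rec with
    | infty =>
      rw [nb_infty]
      exact ⟨1, hXinf⟩
    | coe w =>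
      rw [nb_coe]
      have hwW := coe_mem_sc.1 hy
      rcases lt_or_ge ‖w‖ r1 with h1 | h1
      · exact ⟨0, hXin w h1⟩
      · refine ⟨1, hXout w ?_⟩
        by_contra hcon
        push Not at hcon
        exact hwW (hann w h1 hcon)
  obtain ⟨H, L, hL, hLV, hH, hHl, hHc, hHf, hHinf⟩ := transfer' hVo hVc hg hgi hXc hloc
  have h0V : (0 : ℂ) ∈ Φ '' W := ⟨0, h0, hΦ0⟩
  have hg0 : g 0 = 0 := by
    have := hgl 0 h0
    rwa [hΦ0] at this
  have hH0 : ∀ᶠ v in 𝓝 (0 : ℂ), H ((v : ℂ) : OnePoint ℂ) = 0 := by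
    have h1 : Tendsto g (𝓝 0) (𝓝 0) := by
      have := (hg.differentiableAt (hVo.mem_nhds h0V)).continuousAt.tendsto
      rwa [hg0] at this
    filter_upwards [h1.eventually (hXin 0 (by rw [norm_zero]; exact hr1)), hVo.mem_nhds h0V] with v hv hvV
    rw [hH v hvV, hv]
  have hHi1 : H ∞ = 1 := by
    have := toC_neBot hW hWc.nonempty hfin (Kinf_mem W)
    obtain ⟨-, hev⟩ := const_near hLV hHl (Kinf_mem (Φ '' W)) (infty_mem_Kinf (Φ '' W))
    have e1 : ∀ᶠ w : ℂ in toC W (Kinf W), X w = 1 := by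
      apply ev_of_nb
      intro a ha
      induction a using OnePoint.rec with
      | infty =>
        rw [nb_infty]
        exact hXinf
      | coe w =>
        rw [nb_coe]
        exact hXout w (hKW w ha)
    obtain ⟨w, hw1, hw2, hw3⟩ := (e1.and ((hcorr.eventually hev).and (ev_mem_toC W (Kinf W)))).exists
    rw [← hw2, hH _ ⟨w, hw3, rfl⟩, hgl w hw3, hw1]
  have hXfd : ∀ w ∉ W, fderiv ℝ X w = 0 := by
    intro w hw
    obtain ⟨c, hc⟩ := hloc w (by rw [himg]; exact coe_mem_sc.2 hw)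
    rw [nb_coe] at hc
    have : X =ᶠ[𝓝 w] fun _ => c := hc
    rw [this.fderiv_eq]
    simp
  have hWd := wind hW hΦd hΦi (X := X) (χ := fun v : ℂ => H v) (hXc.of_le (by norm_num))
    (hHc.of_le (by norm_num))
    (by
      intro z hz
      rw [hH _ ⟨z, hz, rfl⟩, hgl z hz]) hXfd (fun v hv => hHf v (fun h => hv (hLV h)))
    (hXin 0 (by rw [norm_zero]; exact hr1)) hH0 (a := 1) (b := 1) hXinf
    (by rw [← hHi1]; exact hHinf)
  have hgr : ∀ w : ℂ, gr X w = ((deriv x (‖w‖ ^ 2) : ℝ) : ℂ) * (2 * w) := fun w =>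
    gr_radial (hxc.differentiable (by norm_num)) w
  set f : ℂ → ℂ := fun w => gr X w * k w with hf
  have hcong : ∀ z ∈ W, gr X z * (deriv Φ z / Φ z - 1 / z) = f z := by
    intro z hz
    simp only [hf]
    by_cases hz0 : z = 0
    · subst hz0
      rw [gr_zero (hXin 0 (by rw [norm_zero]; exact hr1))]
      ring
    · rw [hk z hz hz0]
  rw [setIntegral_congr_fun hW.measurableSet hcong, setIntegral_eq_integral_of_forall_compl_eq_zero (by
    intro z hz
    simp only [hf]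
    rw [gr_of_fderiv_zero (hXfd z hz), zero_mul])] at hWd
  have hfc : Continuous f := by
    rw [continuous_iff_continuousAt]
    intro w
    by_cases hw : w ∈ W
    · exact (continuous_gr (hXc.of_le (by norm_num))).continuousAt.mul
        (hkd.continuousOn.continuousAt (hW.mem_nhds hw))
    · obtain ⟨c, hc⟩ := hloc w (by rw [himg]; exact coe_mem_sc.2 hw)
      rw [nb_coe] at hc
      have h1 : f =ᶠ[𝓝 w] fun _ => 0 := by
        filter_upwards [eventually_eventually_nhds.2 hc] with v hv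
        simp only [hf]
        rw [gr_zero hv, zero_mul]
      exact continuousAt_const.congr h1.symm
  have hf0 : ∀ z : ℂ, r2 + 1 ≤ ‖z‖ → f z = 0 := by
    intro z hz
    simp only [hf]
    rw [gr_zero (hXout z (by linarith)), zero_mul]
  rw [polar_any hfc (by linarith : (0:ℝ) < r2 + 1) hf0] at hWd
  have hinner : ∀ s ∈ Ioo (0:ℝ) (r2 + 1), (s : ℂ) * ∫ θ in (-π)..π, f (pc s θ) =
      ((deriv x (s ^ 2) * (2 * s) : ℝ) : ℂ) * J := by
    intro s hs
    have h1 : ∀ θ : ℝ, f (pc s θ) = (2 * ((deriv x (s ^ 2) : ℝ) : ℂ)) * (pc s θ * k (pc s θ)) := by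
      intro θ
      simp only [hf]
      rw [hgr, norm_pc hs.1.le]
      ring
    simp only [h1]
    rw [intervalIntegral.integral_const_mul]
    rcases lt_or_ge s r1 with h2 | h2
    · rw [hxd0 (s ^ 2) (by nlinarith [hs.1])]
      simp
    · rcases lt_or_ge r2 s with h3 | h3
      · rw [hxd1 (s ^ 2) (by nlinarith [hs.1])]
        simp
      · rw [circ_const hW hkd hr1 hann h2 h3]
        push_cast
        ring
  rw [setIntegral_congr_fun measurableSet_Ioo hinner, integral_mul_const, integral_complex_ofReal] at hWd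
  have hval : ∫ s in Ioo (0:ℝ) (r2 + 1), deriv x (s ^ 2) * (2 * s) = 1 := by
    rw [← integral_Ioc_eq_integral_Ioo, ← intervalIntegral.integral_of_le (by linarith)]
    have h1 : ∀ s ∈ uIcc (0:ℝ) (r2 + 1), HasDerivAt (fun s => x (s ^ 2)) (deriv x (s ^ 2) * (2 * s)) s := by
      intro s _
      have h2 : HasDerivAt x (deriv x (s ^ 2)) (s ^ 2) := (hxc.differentiable (by norm_num) _).hasDerivAt
      have hp2 : HasDerivAt (fun s : ℝ => s ^ 2) (2 * s) s := by simpa using hasDerivAt_pow 2 s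
      exact HasDerivAt.comp (h := fun s : ℝ => s ^ 2) s h2 hp2
    rw [intervalIntegral.integral_eq_sub_of_hasDerivAt h1]
    · rw [hx1 _ (by nlinarith), hx0 _ (by nlinarith)]
      ring
    · have hc : Continuous fun s : ℝ => deriv x (s ^ 2) * (2 * s) := by
        have := hxc.continuous_deriv (by norm_num)
        fun_prop
      exact hc.intervalIntegrable _ _
  rw [hval] at hWd
  simpa using hWd

end Pool.Agent.H762R2
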